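import Mathlib

-- part Pool.Agent.P.MP_dc323a_nt.Basic
section

set_option autoImplicit false

namespace Pool.Agent.P.MP_dc323a_nt

open Finset

/-- The data on a ring used in the counting argument: an embedding in the complex numbers with
a packing bound of dimension `d`. -/
structure Setup (R : Type) [CommRing R] where
  φ : R →+* ℂ
  d : ℕ
  d_pos : 1 ≤ d
  one_le : ∀ x : R, x ≠ 0 → 1 ≤ ‖φ x‖
  two_le : ∀ x : R, x ≠ 0 → ¬ IsUnit x → 2 ≤ ‖φ x‖ ^ 2
  rep : ∀ γ : R, γ ≠ 0 → ∀ x : R, ∃ y : R, γ ∣ x - y ∧ ‖φ y‖ ≤ ‖φ γ‖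
  C0 : ℝ
  C0_ge : 1 ≤ C0
  pack : ∀ (T : Finset ℂ) (z0 : ℂ) (ρ δ : ℝ), 0 ≤ ρ → 0 < δ →
    (∀ z ∈ T, ∃ u v : R, z = φ u / φ v) → (∀ z ∈ T, ‖z - z0‖ ≤ ρ) →
    (∀ z ∈ T, ∀ w ∈ T, z ≠ w → δ ≤ ‖z - w‖) → (T.card : ℝ) ≤ C0 * (1 + ρ / δ) ^ d

theorem card_le_of_fibers {α β : Type*} [DecidableEq β] (s : Finset α) (t : Finset β) (f : α → β)
    (B : ℝ) (hf : ∀ a ∈ s, f a ∈ t)
    (hB : ∀ b ∈ t, ((s.filter (fun a => f a = b)).card : ℝ) ≤ B) :
    (s.card : ℝ) ≤ t.card * B := by
  have h := Finset.card_eq_sum_card_fiberwise (s := s) (t := t) (f := f) hf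
  rw [h]
  push_cast
  calc ∑ b ∈ t, ((s.filter (fun a => f a = b)).card : ℝ) ≤ ∑ _b ∈ t, B := Finset.sum_le_sum hB
    _ = t.card * B := by simp

theorem card_le_of_cover {α β : Type*} (s : Finset α) (t : Finset β) (r : α → β → Prop)
    [∀ a b, Decidable (r a b)] (B : ℝ) (hf : ∀ a ∈ s, ∃ b ∈ t, r a b)
    (hB : ∀ b ∈ t, ((s.filter (fun a => r a b)).card : ℝ) ≤ B) :
    (s.card : ℝ) ≤ t.card * B := by
  classical
  have hsub : s ⊆ t.biUnion (fun b => s.filter (fun a => r a b)) := by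
    intro a ha
    obtain ⟨b, hb, hr⟩ := hf a ha
    exact Finset.mem_biUnion.2 ⟨b, hb, Finset.mem_filter.2 ⟨ha, hr⟩⟩
  have h1 := (Finset.card_le_card hsub).trans Finset.card_biUnion_le
  have h2 : (s.card : ℝ) ≤ ∑ b ∈ t, ((s.filter (fun a => r a b)).card : ℝ) := by
    exact_mod_cast h1
  calc (s.card : ℝ) ≤ _ := h2
    _ ≤ ∑ _b ∈ t, B := Finset.sum_le_sum hB
    _ = t.card * B := by simp

namespace Setup

variable {R : Type} [CommRing R] (S : Setup R)

/-- The size of an element. -/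
noncomputable def N (x : R) : ℝ := ‖S.φ x‖

theorem N_nonneg (x : R) : 0 ≤ S.N x := norm_nonneg _
theorem N_mul (x y : R) : S.N (x * y) = S.N x * S.N y := by simp [N]
theorem N_pow (x : R) (n : ℕ) : S.N (x ^ n) = S.N x ^ n := by simp [N]
theorem N_one : S.N 1 = 1 := by simp [N]
theorem N_zero : S.N 0 = 0 := by simp [N]
theorem N_neg (x : R) : S.N (-x) = S.N x := by simp [N]
theorem N_add_le (x y : R) : S.N (x + y) ≤ S.N x + S.N y := by
  simp only [N, map_add]; exact norm_add_le _ _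
theorem N_sub_le (x y : R) : S.N (x - y) ≤ S.N x + S.N y := by
  simp only [N, map_sub]; exact norm_sub_le _ _
theorem N_prod {ι : Type*} (s : Finset ι) (f : ι → R) :
    S.N (∏ i ∈ s, f i) = ∏ i ∈ s, S.N (f i) := by simp [N]
theorem N_natCast (n : ℕ) : S.N (n : R) = n := by simp [N]
theorem one_le_N {x : R} (hx : x ≠ 0) : 1 ≤ S.N x := S.one_le x hx
theorem N_pos {x : R} (hx : x ≠ 0) : 0 < S.N x := lt_of_lt_of_le one_pos (S.one_le_N hx)
theorem ne_zero_of_N_pos {x : R} (hx : 0 < S.N x) : x ≠ 0 := by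
  rintro rfl; rw [S.N_zero] at hx; exact lt_irrefl _ hx
theorem φ_ne_zero {x : R} (hx : x ≠ 0) : S.φ x ≠ 0 := by
  intro h
  have := S.N_pos hx
  simp [N, h] at this
theorem φ_inj : Function.Injective S.φ := by
  intro x y h
  by_contra hne
  exact S.φ_ne_zero (sub_ne_zero.2 hne) (by rw [map_sub, h, sub_self])
include S in
theorem natCast_ne_zero {n : ℕ} (hn : n ≠ 0) : (n : R) ≠ 0 := by
  apply S.ne_zero_of_N_pos
  rw [S.N_natCast]; exact_mod_cast Nat.pos_of_ne_zero hn
theorem N_le_of_dvd {x y : R} (hy : y ≠ 0) (h : x ∣ y) : S.N x ≤ S.N y := by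
  obtain ⟨z, rfl⟩ := h
  have hz : z ≠ 0 := by rintro rfl; exact hy (mul_zero _)
  rw [S.N_mul]
  exact le_mul_of_one_le_right (S.N_nonneg _) (S.one_le_N hz)
theorem N_unit [Nontrivial R] {u : R} (hu : IsUnit u) : S.N u ≤ 1 := by
  rw [← S.N_one]
  exact S.N_le_of_dvd one_ne_zero (IsUnit.dvd hu)
theorem C0_pos : 0 < S.C0 := lt_of_lt_of_le one_pos S.C0_ge

theorem pack' {α : Type*} (T : Finset α) (f : α → ℂ) (z0 : ℂ) (ρ δ : ℝ) (hρ : 0 ≤ ρ) (hδ : 0 < δ)
    (h1 : ∀ a ∈ T, ∃ u v : R, f a = S.φ u / S.φ v) (h2 : ∀ a ∈ T, ‖f a - z0‖ ≤ ρ)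
    (h3 : ∀ a ∈ T, ∀ b ∈ T, a ≠ b → δ ≤ ‖f a - f b‖) :
    (T.card : ℝ) ≤ S.C0 * (1 + ρ / δ) ^ S.d := by
  classical
  have hinj : Set.InjOn f T := by
    intro a ha b hb hab
    by_contra hne
    have := h3 a ha b hb hne
    rw [hab, sub_self, norm_zero] at this
    exact absurd this (not_le.2 hδ)
  rw [← Finset.card_image_of_injOn hinj]
  apply S.pack _ z0 ρ δ hρ hδ
  · intro z hz
    obtain ⟨a, ha, rfl⟩ := Finset.mem_image.1 hz
    exact h1 a ha
  · intro z hz
    obtain ⟨a, ha, rfl⟩ := Finset.mem_image.1 hz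
    exact h2 a ha
  · intro z hz w hw hzw
    obtain ⟨a, ha, rfl⟩ := Finset.mem_image.1 hz
    obtain ⟨b, hb, rfl⟩ := Finset.mem_image.1 hw
    exact h3 a ha b hb (by rintro rfl; exact hzw rfl)

theorem card_sep (T : Finset R) (Y δ : ℝ) (hY : 0 ≤ Y) (hδ : 0 < δ) (h1 : ∀ a ∈ T, S.N a ≤ Y)
    (h3 : ∀ a ∈ T, ∀ b ∈ T, a ≠ b → δ ≤ S.N (a - b)) :
    (T.card : ℝ) ≤ S.C0 * (1 + Y / δ) ^ S.d := by
  apply S.pack' T (fun a => S.φ a) 0 Y δ hY hδ
  · intro a _; exact ⟨a, 1, by simp⟩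
  · intro a ha; simpa [N] using h1 a ha
  · intro a ha b hb hab; simpa [N] using h3 a ha b hb hab

theorem card_ball (T : Finset R) (Y : ℝ) (hY : 0 ≤ Y) (h1 : ∀ a ∈ T, S.N a ≤ Y) :
    (T.card : ℝ) ≤ S.C0 * (1 + Y) ^ S.d := by
  have := S.card_sep T Y 1 hY one_pos h1 (fun a _ b _ hab => S.one_le_N (sub_ne_zero.2 hab))
  simpa using this

theorem finite_ball (Y : ℝ) : {x : R | S.N x ≤ Y}.Finite := by
  by_contra hinf
  have hinf' : {x : R | S.N x ≤ Y}.Infinite := hinf
  obtain ⟨n, hn⟩ := exists_nat_gt (S.C0 * (1 + |Y|) ^ S.d)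
  obtain ⟨T, hT, hc⟩ := hinf'.exists_subset_card_eq n
  have := S.card_ball T |Y| (abs_nonneg _) (fun a ha => (hT ha).trans (le_abs_self _))
  rw [hc] at this
  exact absurd this (not_le.2 hn)

/-- The finite set of elements of size at most `Y`. -/
noncomputable def ball (Y : ℝ) : Finset R := (S.finite_ball Y).toFinset

theorem mem_ball {Y : ℝ} {x : R} : x ∈ S.ball Y ↔ S.N x ≤ Y := by simp [ball]

theorem card_ball' (Y : ℝ) (hY : 0 ≤ Y) : ((S.ball Y).card : ℝ) ≤ S.C0 * (1 + Y) ^ S.d :=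
  S.card_ball _ Y hY (fun _ ha => S.mem_ball.1 ha)

end Setup

end Pool.Agent.P.MP_dc323a_nt
end

-- part Pool.Agent.P.MP_dc323a_nt.Divisor
section

set_option autoImplicit false

namespace Pool.Agent.P.MP_dc323a_nt

open Finset

theorem succ_le_geom (t : ℝ) (ht : 1 < t) (i : ℕ) :
    ((i : ℝ) + 1) ≤ (1 + 1 / (t - 1)) * t ^ i := by
  have h1 : 1 + (i : ℝ) * (t - 1) ≤ (1 + (t - 1)) ^ i := one_add_mul_le_pow (by linarith) i
  have h2 : (1 + (t - 1)) = t := by ring
  rw [h2] at h1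
  have h3 : 0 < t - 1 := by linarith
  have h4 : 0 < 1 / (t - 1) := by positivity
  have h5 : (1 + 1 / (t - 1)) * (1 + (i : ℝ) * (t - 1)) ≤ (1 + 1 / (t - 1)) * t ^ i :=
    mul_le_mul_of_nonneg_left h1 (by linarith)
  have h6 : (1 + 1 / (t - 1)) * (1 + (i : ℝ) * (t - 1)) =
      1 + (i : ℝ) * (t - 1) + 1 / (t - 1) + i := by field_simp; ring
  have h7 : 0 ≤ (i : ℝ) * (t - 1) := by positivity
  linarith

namespace Setup

variable {R : Type} [CommRing R] [IsDomain R] [IsPrincipalIdealRing R] (S : Setup R)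

theorem mult (Q : R → ℝ → Prop) (A : ℝ) (hA : 1 ≤ A)
    (mono : ∀ n L L', L ≤ L' → Q n L → Q n L')
    (hu : ∀ u, IsUnit u → Q u 1)
    (hp : ∀ (p : R) (i : ℕ), Prime p → 1 ≤ i → Q (p ^ i) (A * ((i : ℝ) + 1)))
    (hc : ∀ x y L L', 0 ≤ L → 0 ≤ L' → IsCoprime x y → Q x L → Q y L' → Q (x * y) (L * L'))
    (ε : ℝ) (hε : 0 < ε) : ∃ C : ℝ, 1 ≤ C ∧ ∀ n : R, n ≠ 0 → Q n (C * S.N n ^ ε) := by
  classical
  set t : ℝ := (2 : ℝ) ^ (ε / 2) with ht
  have ht1 : 1 < t := Real.one_lt_rpow (by norm_num) (by linarith)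
  set B : ℝ := A * (1 + 1 / (t - 1)) with hB
  have hB1 : 1 ≤ B := by
    have : 0 < 1 / (t - 1) := by apply one_div_pos.2; linarith
    nlinarith
  set Y0 : ℝ := (2 * A) ^ (1 / ε) with hY0
  set P : Finset R := (S.ball Y0).filter Prime with hP
  let s : R → ℕ := fun n => (P.filter (fun p => p ∣ n)).card
  have key : ∀ n : R, n ≠ 0 → Q n (B ^ s n * S.N n ^ ε) := by
    intro n
    refine UniqueFactorizationMonoid.induction_on_coprime
      (P := fun n => n ≠ 0 → Q n (B ^ s n * S.N n ^ ε)) n ?_ ?_ ?_ ?_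
    · intro h; exact absurd rfl h
    · intro u hu' h0
      refine mono _ _ _ ?_ (hu u hu')
      have h1 : 1 ≤ S.N u ^ ε := Real.one_le_rpow (S.one_le_N h0) hε.le
      have h2 : 1 ≤ B ^ s u := one_le_pow₀ hB1
      nlinarith
    · intro p i hpr h0
      rcases Nat.eq_zero_or_pos i with rfl | hi
      · refine mono _ _ _ ?_ (hu _ (by simp))
        have h1 : 1 ≤ S.N (p ^ 0) ^ ε := Real.one_le_rpow (S.one_le_N h0) hε.le
        have h2 : 1 ≤ B ^ s (p ^ 0) := one_le_pow₀ hB1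
        nlinarith
      · refine mono _ _ _ ?_ (hp p i hpr hi)
        have hNp : 0 ≤ S.N p := S.N_nonneg p
        have hrw : S.N (p ^ i) ^ ε = (S.N p ^ ε) ^ i := by
          rw [S.N_pow, ← Real.rpow_natCast, ← Real.rpow_mul hNp, mul_comm, Real.rpow_mul hNp,
            Real.rpow_natCast]
        rw [hrw]
        by_cases hsmall : S.N p ≤ Y0
        · have hmem : p ∈ P.filter (fun q => q ∣ p ^ i) := by
            refine Finset.mem_filter.2 ⟨Finset.mem_filter.2 ⟨S.mem_ball.2 hsmall, hpr⟩, ?_⟩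
            exact dvd_pow_self p (Nat.pos_iff_ne_zero.1 hi)
          have hs : 1 ≤ s (p ^ i) := Finset.card_pos.2 ⟨p, hmem⟩
          have h2 : B ≤ B ^ s (p ^ i) := by
            simpa using pow_le_pow_right₀ hB1 hs
          have h3 : t ≤ S.N p ^ ε := by
            have h4 : (2 : ℝ) ≤ S.N p ^ 2 := S.two_le p hpr.ne_zero hpr.not_isUnit
            have h5 : (2 : ℝ) ^ (ε / 2) ≤ (S.N p ^ 2) ^ (ε / 2) :=
              Real.rpow_le_rpow (by norm_num) h4 (by linarith)
            have h6 : (S.N p ^ 2) ^ (ε / 2) = S.N p ^ ε := by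
              rw [← Real.rpow_natCast, ← Real.rpow_mul hNp]
              congr 1; push_cast; ring
            rw [h6] at h5; exact h5
          have h7 : t ^ i ≤ (S.N p ^ ε) ^ i := pow_le_pow_left₀ (by linarith) h3 i
          have h8 := succ_le_geom t ht1 i
          have h9 : 0 ≤ (S.N p ^ ε) ^ i := by positivity
          calc A * ((i : ℝ) + 1) ≤ A * ((1 + 1 / (t - 1)) * t ^ i) :=
                mul_le_mul_of_nonneg_left h8 (by linarith)
            _ = B * t ^ i := by rw [hB]; ring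
            _ ≤ B * (S.N p ^ ε) ^ i := mul_le_mul_of_nonneg_left h7 (by linarith)
            _ ≤ B ^ s (p ^ i) * (S.N p ^ ε) ^ i := mul_le_mul_of_nonneg_right h2 h9
        · have h3 : 2 * A ≤ S.N p ^ ε := by
            have h4 : Y0 ^ ε ≤ S.N p ^ ε :=
              Real.rpow_le_rpow (by positivity) (not_le.1 hsmall).le hε.le
            have h5 : Y0 ^ ε = 2 * A := by
              rw [hY0, ← Real.rpow_mul (by linarith), one_div_mul_cancel hε.ne', Real.rpow_one]
            rw [h5] at h4; exact h4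
          have h7 : (2 * A) ^ i ≤ (S.N p ^ ε) ^ i := pow_le_pow_left₀ (by linarith) h3 i
          have h8 : ((i : ℝ) + 1) ≤ 2 ^ i := by
            have := Nat.lt_two_pow_self (n := i)
            exact_mod_cast this
          have h9 : A ≤ A ^ i := by simpa using pow_le_pow_right₀ hA hi
          have h2 : 1 ≤ B ^ s (p ^ i) := one_le_pow₀ hB1
          have h10 : 0 ≤ (S.N p ^ ε) ^ i := by positivity
          calc A * ((i : ℝ) + 1) ≤ A ^ i * 2 ^ i :=
                mul_le_mul h9 h8 (by positivity) (by positivity)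
            _ = (2 * A) ^ i := by rw [mul_pow]; ring
            _ ≤ (S.N p ^ ε) ^ i := h7
            _ ≤ B ^ s (p ^ i) * (S.N p ^ ε) ^ i := le_mul_of_one_le_left h10 h2
    · intro x y hxy hx hy h0
      have hx0 : x ≠ 0 := left_ne_zero_of_mul h0
      have hy0 : y ≠ 0 := right_ne_zero_of_mul h0
      have hco : IsCoprime x y := hxy.isCoprime
      have hBx : 0 ≤ B ^ s x * S.N x ^ ε :=
        mul_nonneg (by positivity) (Real.rpow_nonneg (S.N_nonneg _) _)
      have hBy : 0 ≤ B ^ s y * S.N y ^ ε :=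
        mul_nonneg (by positivity) (Real.rpow_nonneg (S.N_nonneg _) _)
      refine mono _ _ _ ?_ (hc x y _ _ hBx hBy hco (hx hx0) (hy hy0))
      have hs : s x + s y ≤ s (x * y) := by
        have hdisj : Disjoint (P.filter (fun p => p ∣ x)) (P.filter (fun p => p ∣ y)) := by
          rw [Finset.disjoint_left]
          intro p h1 h2
          have h3 := Finset.mem_filter.1 h1
          have h4 := Finset.mem_filter.1 h2
          exact (Finset.mem_filter.1 h3.1).2.not_isUnit (hxy h3.2 h4.2)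
        simp only [s]
        rw [← Finset.card_union_of_disjoint hdisj]
        apply Finset.card_le_card
        intro p hp'
        rcases Finset.mem_union.1 hp' with h | h
        · have := Finset.mem_filter.1 h
          exact Finset.mem_filter.2 ⟨this.1, this.2.mul_right _⟩
        · have := Finset.mem_filter.1 h
          exact Finset.mem_filter.2 ⟨this.1, this.2.mul_left _⟩
      have h1 : B ^ (s x + s y) ≤ B ^ s (x * y) := pow_le_pow_right₀ hB1 hs
      rw [S.N_mul, Real.mul_rpow (S.N_nonneg _) (S.N_nonneg _)]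
      have h2 : 0 ≤ S.N x ^ ε * S.N y ^ ε :=
        mul_nonneg (Real.rpow_nonneg (S.N_nonneg _) _) (Real.rpow_nonneg (S.N_nonneg _) _)
      calc B ^ s x * S.N x ^ ε * (B ^ s y * S.N y ^ ε)
          = B ^ (s x + s y) * (S.N x ^ ε * S.N y ^ ε) := by rw [pow_add]; ring
        _ ≤ _ := mul_le_mul_of_nonneg_right h1 h2
  refine ⟨B ^ P.card, one_le_pow₀ hB1, fun n hn => mono _ _ _ ?_ (key n hn)⟩
  apply mul_le_mul_of_nonneg_right _ (Real.rpow_nonneg (S.N_nonneg _) _)
  exact pow_le_pow_right₀ hB1 (Finset.card_filter_le _ _)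

omit [IsPrincipalIdealRing R] in
theorem card_assoc (T : Finset R) (y : R) (h : ∀ x ∈ T, Associated x y) :
    (T.card : ℝ) ≤ S.C0 * 2 ^ S.d := by
  classical
  have hsub : T ⊆ (S.ball 1).image (fun u => y * u) := by
    intro x hx
    obtain ⟨u, hu⟩ := (h x hx).symm
    exact Finset.mem_image.2 ⟨u, S.mem_ball.2 (S.N_unit u.isUnit), hu⟩
  have h1 : T.card ≤ (S.ball 1).card := (Finset.card_le_card hsub).trans Finset.card_image_le
  have h2 := S.card_ball' 1 zero_le_one
  have h3 : (T.card : ℝ) ≤ (S.ball 1).card := by exact_mod_cast h1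
  norm_num at h2
  linarith

theorem divisor_bound (ε : ℝ) (hε : 0 < ε) : ∃ C : ℝ, 1 ≤ C ∧ ∀ n : R, n ≠ 0 →
    ∀ T : Finset R, (∀ x ∈ T, x ∣ n) → (T.card : ℝ) ≤ C * S.N n ^ ε := by
  classical
  obtain ⟨C, hC, h⟩ := S.mult
    (fun n L => ∃ D : Finset R, (D.card : ℝ) ≤ L ∧ ∀ x, x ∣ n → ∃ y ∈ D, Associated x y) 1 le_rfl
    (by
      rintro n L L' hL ⟨D, hD, h⟩
      exact ⟨D, hD.trans hL, h⟩)
    (by
      intro u hu
      refine ⟨{1}, by simp, fun x hx => ⟨1, by simp, ?_⟩⟩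
      exact associated_one_iff_isUnit.2 (isUnit_of_dvd_unit hx hu))
    (by
      intro p i hp _
      refine ⟨(Finset.range (i + 1)).image (fun j => p ^ j), ?_, fun x hx => ?_⟩
      · have : ((Finset.range (i + 1)).image (fun j => p ^ j)).card ≤ i + 1 := by
          simpa using Finset.card_image_le (s := Finset.range (i + 1)) (f := fun j => p ^ j)
        have h2 : (((Finset.range (i + 1)).image (fun j => p ^ j)).card : ℝ) ≤ (i : ℝ) + 1 := by
          exact_mod_cast this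
        linarith
      · obtain ⟨j, hj, hx⟩ := (dvd_prime_pow hp i).1 hx
        exact ⟨p ^ j, Finset.mem_image.2 ⟨j, Finset.mem_range.2 (by omega), rfl⟩, hx⟩)
    (by
      rintro x y L L' hL hL' _ ⟨D, hD, h⟩ ⟨D', hD', h'⟩
      refine ⟨(D ×ˢ D').image (fun q => q.1 * q.2), ?_, fun z hz => ?_⟩
      · have : ((D ×ˢ D').image (fun q => q.1 * q.2)).card ≤ D.card * D'.card := by
          simpa using Finset.card_image_le (s := D ×ˢ D') (f := fun q => q.1 * q.2)
        have h2 : (((D ×ˢ D').image (fun q => q.1 * q.2)).card : ℝ) ≤ (D.card : ℝ) * D'.card := by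
          exact_mod_cast this
        exact h2.trans (mul_le_mul hD hD' (by positivity) hL)
      · obtain ⟨a, b, ha, hb, rfl⟩ := exists_dvd_and_dvd_of_dvd_mul hz
        obtain ⟨a', ha', haa⟩ := h a ha
        obtain ⟨b', hb', hbb⟩ := h' b hb
        exact ⟨a' * b', Finset.mem_image.2 ⟨(a', b'), Finset.mem_product.2 ⟨ha', hb'⟩, rfl⟩,
          haa.mul_mul hbb⟩)
    ε hε
  have hK : 1 ≤ S.C0 * 2 ^ S.d := by
    have := S.C0_ge
    have h2 : (1 : ℝ) ≤ 2 ^ S.d := one_le_pow₀ (by norm_num)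
    nlinarith
  refine ⟨C * (S.C0 * 2 ^ S.d), by nlinarith, fun n hn T hT => ?_⟩
  obtain ⟨D, hD, hcov⟩ := h n hn
  have := card_le_of_cover T D (fun x y => Associated x y) (S.C0 * 2 ^ S.d)
    (fun x hx => hcov x (hT x hx))
    (fun y _ => S.card_assoc _ y (fun x hx => (Finset.mem_filter.1 hx).2))
  calc (T.card : ℝ) ≤ D.card * (S.C0 * 2 ^ S.d) := this
    _ ≤ (C * S.N n ^ ε) * (S.C0 * 2 ^ S.d) := mul_le_mul_of_nonneg_right hD (by linarith)
    _ = _ := by ring

end Setup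

end Pool.Agent.P.MP_dc323a_nt
end

-- part Pool.Agent.P.MP_dc323a_nt.Roots
section

set_option autoImplicit false

namespace Pool.Agent.P.MP_dc323a_nt

open Finset

theorem pow_expand {R : Type*} [CommRing R] (y v : R) (n : ℕ) :
    ∃ T : R, (y + v) ^ (n + 1) = y ^ (n + 1) + ((n + 1 : ℕ) : R) * y ^ n * v + v ^ 2 * T := by
  induction n with
  | zero => exact ⟨0, by simp⟩
  | succ n ih =>
    obtain ⟨T, hT⟩ := ih
    refine ⟨((n + 1 : ℕ) : R) * y ^ n + T * y + v * T, ?_⟩
    rw [pow_succ (y + v) (n + 1), hT]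
    push_cast
    ring

namespace Setup

variable {R : Type} [CommRing R] [IsDomain R] [IsPrincipalIdealRing R] (S : Setup R)

include S in
theorem root_prime (e : ℕ) (he : 1 ≤ e) : ∃ A : ℝ, 1 ≤ A ∧ ∀ (p : R) (i : ℕ), Prime p → 1 ≤ i →
    ∀ t : R, IsCoprime t (p ^ i) → ∃ D : Finset R, (D.card : ℝ) ≤ A ∧
      ∀ x : R, p ^ i ∣ x ^ e - t → ∃ y ∈ D, p ^ i ∣ (e : R) * (x - y) := by
  classical
  have he0 : (e : R) ≠ 0 := S.natCast_ne_zero (by omega)
  have hee : (e : R) * e ≠ 0 := mul_ne_zero he0 he0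
  choose w hw1 hw2 using S.rep _ hee
  set W : Finset R := S.ball (S.N ((e : R) * e)) with hW
  refine ⟨e * W.card + 1, by have : (0 : ℝ) ≤ e * W.card := by positivity
                             linarith, ?_⟩
  intro p i hp hi t ht
  have hI : (Ideal.span {p}).IsPrime := (Ideal.span_singleton_prime hp.ne_zero).2 hp
  let mk := Ideal.Quotient.mk (Ideal.span {p})
  let κ : R → (R ⧸ Ideal.span {p}) × R := fun x => (mk x, w x)
  let Z : Finset ((R ⧸ Ideal.span {p}) × R) :=
    (Polynomial.nthRoots e (mk t)).toFinset ×ˢ W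
  let g : (R ⧸ Ideal.span {p}) × R → R := fun z =>
    if h : ∃ x, p ^ i ∣ x ^ e - t ∧ κ x = z then h.choose else 0
  have hpi : p ∣ p ^ i := dvd_pow_self p (by omega)
  refine ⟨Z.image g, ?_, fun x hx => ?_⟩
  · have h1 : (Z.image g).card ≤ e * W.card := by
      refine Finset.card_image_le.trans ?_
      rw [Finset.card_product]
      exact Nat.mul_le_mul_right _
        ((Multiset.toFinset_card_le _).trans (Polynomial.card_nthRoots _ _))
    have h2 : ((Z.image g).card : ℝ) ≤ e * W.card := by exact_mod_cast h1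
    linarith
  · have hxZ : κ x ∈ Z := by
      refine Finset.mem_product.2 ⟨?_, S.mem_ball.2 (hw2 x)⟩
      rw [Multiset.mem_toFinset, Polynomial.mem_nthRoots (by omega)]
      change mk x ^ e = mk t
      rw [← map_pow]
      exact Ideal.Quotient.eq.2 (Ideal.mem_span_singleton.2 (hpi.trans hx))
    have hex : ∃ x', p ^ i ∣ x' ^ e - t ∧ κ x' = κ x := ⟨x, hx, rfl⟩
    have hg : g (κ x) = hex.choose := dif_pos hex
    obtain ⟨hy1, hy2⟩ := hex.choose_spec
    set y := hex.choose with hy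
    refine ⟨y, Finset.mem_image.2 ⟨κ x, hxZ, hg⟩, ?_⟩
    have h1 : mk y = mk x := congrArg Prod.fst hy2
    have h2 : w y = w x := congrArg Prod.snd hy2
    have hpv : p ∣ x - y := Ideal.mem_span_singleton.1 (Ideal.Quotient.eq.1 h1.symm)
    have hev : (e : R) * e ∣ x - y := by
      have := dvd_sub (hw1 x) (hw1 y)
      rw [h2] at this
      have h3 : x - w x - (y - w x) = x - y := by ring
      rwa [h3] at this
    have hepv : (e : R) * p ∣ x - y := by
      by_cases hpe : p ∣ (e : R)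
      · exact (mul_dvd_mul_left _ hpe).trans hev
      · have hco : IsCoprime (e : R) p := ((Prime.coprime_iff_not_dvd hp).2 hpe).symm
        exact hco.mul_dvd ((dvd_mul_right _ _).trans hev) hpv
    obtain ⟨s, hs⟩ := hepv
    obtain ⟨n, rfl⟩ : ∃ n, e = n + 1 := ⟨e - 1, by omega⟩
    obtain ⟨T, hT⟩ := pow_expand y (x - y) n
    have hxy : y + (x - y) = x := by ring
    rw [hxy] at hT
    have hpy : ¬ p ∣ y := by
      intro h
      have h3 : p ∣ y ^ (n + 1) := h.trans (dvd_pow_self y (by omega))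
      have h4 : p ∣ t := by
        have := dvd_sub h3 (hpi.trans hy1)
        simpa using this
      exact hp.not_isUnit (ht.isUnit_of_dvd' h4 hpi)
    have hpu : ¬ p ∣ y ^ n + p * (s * T) := by
      intro h
      have : p ∣ y ^ n := (dvd_add_left (dvd_mul_right _ _)).1 h
      exact hpy (hp.dvd_of_dvd_pow this)
    have hco : IsCoprime (p ^ i) (y ^ n + p * (s * T)) :=
      ((Prime.coprime_iff_not_dvd hp).2 hpu).pow_left
    apply hco.dvd_of_dvd_mul_right
    have h5 := dvd_sub hx hy1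
    have h6 : x ^ (n + 1) - t - (y ^ (n + 1) - t) =
        ((n + 1 : ℕ) : R) * (x - y) * (y ^ n + p * (s * T)) := by
      rw [hT]
      have h7 : (x - y) ^ 2 = (x - y) * (((n + 1 : ℕ) : R) * p * s) := by rw [← hs]; ring
      rw [h7]; ring
    rwa [h6] at h5

theorem root_cover (e : ℕ) (he : 1 ≤ e) (ε : ℝ) (hε : 0 < ε) : ∃ C : ℝ, 1 ≤ C ∧
    ∀ γ : R, γ ≠ 0 → ∀ t : R, IsCoprime t γ → ∃ D : Finset R, (D.card : ℝ) ≤ C * S.N γ ^ ε ∧
      ∀ x : R, γ ∣ x ^ e - t → ∃ y ∈ D, γ ∣ (e : R) * (x - y) := by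
  classical
  obtain ⟨A, hA, hAp⟩ := S.root_prime e he
  exact S.mult
    (fun γ L => ∀ t : R, IsCoprime t γ → ∃ D : Finset R, (D.card : ℝ) ≤ L ∧
      ∀ x : R, γ ∣ x ^ e - t → ∃ y ∈ D, γ ∣ (e : R) * (x - y)) A hA
    (by
      intro n L L' hL h t ht
      obtain ⟨D, hD, h⟩ := h t ht
      exact ⟨D, hD.trans hL, h⟩)
    (by
      intro u hu t _
      exact ⟨{0}, by simp, fun x _ => ⟨0, by simp, hu.dvd⟩⟩)
    (by
      intro p i hp hi t ht
      obtain ⟨D, hD, h⟩ := hAp p i hp hi t ht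
      refine ⟨D, hD.trans ?_, h⟩
      have : (0 : ℝ) ≤ i := by positivity
      nlinarith)
    (by
      intro x y L L' hL hL' hco h h' t ht
      obtain ⟨D, hD, h⟩ := h t ht.of_mul_right_left
      obtain ⟨D', hD', h'⟩ := h' t ht.of_mul_right_right
      obtain ⟨a, b, hab⟩ := hco
      refine ⟨(D ×ˢ D').image (fun q => q.1 * (b * y) + q.2 * (a * x)), ?_, fun z hz => ?_⟩
      · have : ((D ×ˢ D').image (fun q => q.1 * (b * y) + q.2 * (a * x))).card ≤
            D.card * D'.card := by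
          simpa using Finset.card_image_le (s := D ×ˢ D')
            (f := fun q => q.1 * (b * y) + q.2 * (a * x))
        have h2 : (((D ×ˢ D').image (fun q => q.1 * (b * y) + q.2 * (a * x))).card : ℝ) ≤
            (D.card : ℝ) * D'.card := by exact_mod_cast this
        exact h2.trans (mul_le_mul hD hD' (by positivity) hL)
      · obtain ⟨y1, hy1, k1, hk1⟩ := h z ((dvd_mul_right _ _).trans hz)
        obtain ⟨y2, hy2, k2, hk2⟩ := h' z ((dvd_mul_left _ _).trans hz)
        refine ⟨y1 * (b * y) + y2 * (a * x),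
          Finset.mem_image.2 ⟨(y1, y2), Finset.mem_product.2 ⟨hy1, hy2⟩, rfl⟩, ?_⟩
        apply IsCoprime.mul_dvd ⟨a, b, hab⟩
        · refine ⟨k1 + (e : R) * a * (y1 - y2), ?_⟩
          linear_combination hk1 - (e : R) * y1 * hab
        · refine ⟨k2 + (e : R) * b * (y2 - y1), ?_⟩
          linear_combination hk2 - (e : R) * y2 * hab)
    ε hε

omit [IsPrincipalIdealRing R] in
theorem sep_of_dvd {e : ℕ} (he : 1 ≤ e) {γ v : R} (hv : v ≠ 0) (h : γ ∣ (e : R) * v) :
    S.N γ / e ≤ S.N v := by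
  have h1 := S.N_le_of_dvd (mul_ne_zero (S.natCast_ne_zero (by omega)) hv) h
  rw [S.N_mul, S.N_natCast] at h1
  have h2 : (0 : ℝ) < e := by exact_mod_cast he
  rw [div_le_iff₀ h2]; linarith

theorem cong_bound (e : ℕ) (he : 1 ≤ e) (ε : ℝ) (hε : 0 < ε) : ∃ C : ℝ, 1 ≤ C ∧
    ∀ γ : R, γ ≠ 0 → ∀ t : R, IsCoprime t γ → ∀ (Y : ℝ), 0 ≤ Y → ∀ T : Finset R,
      (∀ x ∈ T, S.N x ≤ Y) → (∀ x ∈ T, γ ∣ x ^ e - t) →
      (T.card : ℝ) ≤ C * S.N γ ^ ε * (1 + e * Y / S.N γ) ^ S.d := by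
  classical
  obtain ⟨C, hC, h⟩ := S.root_cover e he ε hε
  refine ⟨C * S.C0, by nlinarith [S.C0_ge], fun γ hγ t ht Y hY T hT1 hT2 => ?_⟩
  obtain ⟨D, hD, hcov⟩ := h γ hγ t ht
  have hN := S.N_pos hγ
  have he' : (0 : ℝ) < e := by exact_mod_cast he
  have := card_le_of_cover T D (fun x y => γ ∣ (e : R) * (x - y))
    (S.C0 * (1 + e * Y / S.N γ) ^ S.d) (fun x hx => hcov x (hT2 x hx)) (fun y _ => by
      have h1 := S.card_sep (T.filter (fun x => γ ∣ (e : R) * (x - y))) Y (S.N γ / e) hY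
        (by positivity) (fun a ha => hT1 a (Finset.mem_filter.1 ha).1) (fun a ha b hb hab => by
          apply S.sep_of_dvd he (sub_ne_zero.2 hab)
          have := dvd_sub (Finset.mem_filter.1 ha).2 (Finset.mem_filter.1 hb).2
          have h3 : (e : R) * (a - y) - (e : R) * (b - y) = (e : R) * (a - b) := by ring
          rwa [h3] at this)
      have h2 : Y / (S.N γ / e) = e * Y / S.N γ := by field_simp
      rwa [h2] at h1)
  have h3 : 0 ≤ S.C0 * (1 + e * Y / S.N γ) ^ S.d := by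
    have := S.C0_pos
    positivity
  calc (T.card : ℝ) ≤ _ := this
    _ ≤ (C * S.N γ ^ ε) * (S.C0 * (1 + e * Y / S.N γ) ^ S.d) := mul_le_mul_of_nonneg_right hD h3
    _ = _ := by ring

end Setup

end Pool.Agent.P.MP_dc323a_nt
end

-- part Pool.Agent.P.MP_dc323a_nt.Lattice
section

set_option autoImplicit false

namespace Pool.Agent.P.MP_dc323a_nt

open Finset

theorem root_close (e : ℕ) (he : 1 ≤ e) : ∃ c : ℝ, 0 < c ∧ ∃ Z : Finset ℂ, ∀ z w : ℂ,
    ∃ ζ ∈ Z, ‖z - ζ * w‖ * (c * ‖w‖) ^ (e - 1) ≤ ‖z ^ e - w ^ e‖ := by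
  classical
  have hprim := Complex.isPrimitiveRoot_exp e (by omega)
  set Z := Polynomial.nthRootsFinset e (1 : ℂ) with hZ
  have hcard : Z.card = e := hprim.card_nthRootsFinset
  have hne : Z.Nonempty := Finset.card_pos.1 (by omega)
  obtain ⟨s, hs, hsep⟩ : ∃ s : ℝ, 0 < s ∧ ∀ a ∈ Z, ∀ b ∈ Z, a ≠ b → s ≤ ‖a - b‖ := by
    rcases (Z.offDiag).eq_empty_or_nonempty with h | h
    · refine ⟨1, one_pos, fun a ha b hb hab => ?_⟩
      have : (a, b) ∈ Z.offDiag := Finset.mem_offDiag.2 ⟨ha, hb, hab⟩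
      rw [h] at this; simp at this
    · obtain ⟨q, hq, hmin⟩ := Finset.exists_min_image Z.offDiag (fun q => ‖q.1 - q.2‖) h
      refine ⟨‖q.1 - q.2‖, norm_pos_iff.2 (sub_ne_zero.2 (Finset.mem_offDiag.1 hq).2.2),
        fun a ha b hb hab => hmin (a, b) (Finset.mem_offDiag.2 ⟨ha, hb, hab⟩)⟩
  refine ⟨s / 2, by linarith, Z, fun z w => ?_⟩
  obtain ⟨ζ, hζ, hmin⟩ := Finset.exists_min_image Z (fun ζ => ‖z - ζ * w‖) hne
  refine ⟨ζ, hζ, ?_⟩
  rw [hprim.pow_sub_pow_eq_prod_sub_mul z w (by omega), norm_prod, ← hZ,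
    ← Finset.mul_prod_erase Z _ hζ]
  apply mul_le_mul_of_nonneg_left _ (norm_nonneg _)
  have hc : (Z.erase ζ).card = e - 1 := by rw [Finset.card_erase_of_mem hζ, hcard]
  rw [← hc, ← Finset.prod_const]
  apply Finset.prod_le_prod
  · intro _ _; positivity
  · intro η hη
    have h1 := hsep η (Finset.mem_of_mem_erase hη) ζ hζ (Finset.ne_of_mem_erase hη)
    have h2 := hmin η (Finset.mem_of_mem_erase hη)
    have h3 : ‖(η - ζ) * w‖ ≤ ‖z - ζ * w‖ + ‖z - η * w‖ := by
      have : (η - ζ) * w = (z - ζ * w) - (z - η * w) := by ring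
      rw [this]; exact norm_sub_le _ _
    rw [norm_mul] at h3
    have h4 : s * ‖w‖ ≤ ‖η - ζ‖ * ‖w‖ := mul_le_mul_of_nonneg_right h1 (norm_nonneg _)
    linarith

namespace Setup

variable {R : Type} [CommRing R] [IsDomain R] [IsPrincipalIdealRing R] (S : Setup R)

omit [IsPrincipalIdealRing R] in
theorem ratio_fiber (P : Finset (R × R)) (b : ℂ) (h0 : ∀ q ∈ P, q.2 ≠ 0)
    (hco : ∀ q ∈ P, IsCoprime q.1 q.2) (hb : ∀ q ∈ P, S.φ q.1 / S.φ q.2 = b) :
    (P.card : ℝ) ≤ S.C0 * 2 ^ S.d := by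
  classical
  rcases P.eq_empty_or_nonempty with rfl | ⟨q1, hq1⟩
  · have := S.C0_pos
    simp only [Finset.card_empty, Nat.cast_zero]; positivity
  have hcross : ∀ q ∈ P, ∀ q' ∈ P, q.1 * q'.2 = q'.1 * q.2 := by
    intro q hq q' hq'
    apply S.φ_inj
    have h1 := (hb q hq).trans (hb q' hq').symm
    rw [div_eq_div_iff (S.φ_ne_zero (h0 q hq)) (S.φ_ne_zero (h0 q' hq'))] at h1
    simpa using h1
  have hdvd : ∀ q ∈ P, ∀ q' ∈ P, q.2 ∣ q'.2 := by
    intro q hq q' hq'
    apply (hco q hq).symm.dvd_of_dvd_mul_left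
    rw [hcross q hq q' hq']; exact dvd_mul_left _ _
  have hinj : Set.InjOn (fun q : R × R => q.2) P := by
    intro q hq q' hq' h
    have h2 : q.2 = q'.2 := h
    have h1 := hcross q hq q' hq'
    rw [← h2] at h1
    exact Prod.ext (mul_right_cancel₀ (h0 q hq) h1) h2
  rw [← Finset.card_image_of_injOn hinj]
  apply S.card_assoc _ q1.2
  intro x hx
  obtain ⟨q, hq, rfl⟩ := Finset.mem_image.1 hx
  exact associated_of_dvd_dvd (hdvd q hq q1 hq1) (hdvd q1 hq1 q hq)

theorem pair_bound (e : ℕ) (he : 1 ≤ e) (ε : ℝ) (hε : 0 < ε) : ∃ C : ℝ, 1 ≤ C ∧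
    ∀ α β γ : R, α ≠ 0 → γ ≠ 0 → IsCoprime α γ → IsCoprime β γ →
    ∀ U0 V0 V1 T : ℝ, 0 < U0 → 0 < V0 → 0 < V1 → 0 ≤ T → ∀ P : Finset (R × R),
      (∀ q ∈ P, IsCoprime q.1 q.2 ∧ IsCoprime q.2 γ ∧ γ ∣ α * q.1 ^ e + β * q.2 ^ e ∧
        U0 ≤ S.N q.1 ∧ V0 ≤ S.N q.2 ∧ S.N q.2 ≤ V1 ∧ S.N (α * q.1 ^ e + β * q.2 ^ e) ≤ T) →
      (P.card : ℝ) ≤ C * S.N γ ^ ε *
        (1 + C * (T * V1 ^ (e + 1) / (S.N α * V0 ^ e * U0 ^ (e - 1) * S.N γ))) ^ S.d := by
  classical
  obtain ⟨c, hc, Z, hZ⟩ := root_close e he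
  obtain ⟨C1, hC1, hcov⟩ := S.root_cover e he ε hε
  have he' : (0 : ℝ) < e := by exact_mod_cast he
  have hC0 := S.C0_pos
  set K1 : ℝ := C1 * (Z.card * (S.C0 * (S.C0 * 2 ^ S.d))) with hK1
  set K2 : ℝ := 2 * e / c ^ (e - 1) with hK2
  have hK1n : 0 ≤ K1 := by positivity
  have hK2n : 0 ≤ K2 := by positivity
  refine ⟨1 + K1 + K2, by linarith, ?_⟩
  intro α β γ hα hγ hαγ hβγ U0 V0 V1 T hU0 hV0 hV1 hT P hP
  have hNγ := S.N_pos hγ
  have hNα := S.N_pos hα
  obtain ⟨a', b', hab⟩ := hαγ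
  have ht : IsCoprime (-β * a') γ :=
    IsCoprime.mul_left hβγ.neg_left ⟨α, b', by rw [← hab]; ring⟩
  obtain ⟨D, hD, hDc⟩ := hcov γ hγ _ ht
  have hinv : ∀ q ∈ P, ∃ v k : R, q.2 * v = 1 + k * γ := by
    intro q hq
    obtain ⟨v, k, h⟩ := (hP q hq).2.1
    exact ⟨v, -k, by rw [← h]; ring⟩
  choose! v k hvk using hinv
  have hq2 : ∀ q ∈ P, q.2 ≠ 0 := fun q hq =>
    S.ne_zero_of_N_pos (lt_of_lt_of_le hV0 (hP q hq).2.2.2.2.1)
  let z : R × R → ℂ := fun q => S.φ q.1 / S.φ q.2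
  set Q : ℝ := T * V1 ^ (e + 1) / (S.N α * V0 ^ e * U0 ^ (e - 1) * S.N γ) with hQ
  have hQn : 0 ≤ Q := by positivity
  set ρ : ℝ := 2 * T / (S.N α * V0 ^ e) / (c * (U0 / V1)) ^ (e - 1) with hρ
  set δ : ℝ := S.N γ / e / V1 ^ 2 with hδ
  have hρn : 0 ≤ ρ := by positivity
  have hδp : 0 < δ := by positivity
  have hρδ : ρ / δ = K2 * Q := by
    obtain ⟨n, rfl⟩ : ∃ n, e = n + 1 := ⟨e - 1, by omega⟩
    simp only [hρ, hδ, hK2, hQ, Nat.add_sub_cancel, mul_pow, div_pow]
    field_simp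
    ring
  -- membership in the cover
  have h1 : ∀ q ∈ P, ∃ y ∈ D, γ ∣ (e : R) * (q.1 * v q - y) := by
    intro q hq
    apply hDc
    obtain ⟨m, hm⟩ := (hP q hq).2.2.1
    have h2 : γ ∣ (q.2 * v q) ^ e - 1 := by
      have := sub_dvd_pow_sub_pow (q.2 * v q) 1 e
      rw [one_pow] at this
      refine Dvd.dvd.trans ⟨k q, ?_⟩ this
      rw [hvk q hq]; ring
    obtain ⟨l, hl⟩ := h2
    refine ⟨a' * m * v q ^ e - β * a' * l + b' * (q.1 * v q) ^ e, ?_⟩
    rw [mul_pow] at hl ⊢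
    linear_combination a' * v q ^ e * hm - β * a' * hl - q.1 ^ e * v q ^ e * hab
  -- the power of the ratio is almost constant
  have hpow : ∀ q ∈ P, ‖S.φ α * z q ^ e + S.φ β‖ ≤ T / V0 ^ e := by
    intro q hq
    have h2 : S.φ α * z q ^ e + S.φ β = S.φ (α * q.1 ^ e + β * q.2 ^ e) / S.φ q.2 ^ e := by
      have := S.φ_ne_zero (hq2 q hq)
      simp only [z, map_add, map_mul, map_pow, div_pow]
      field_simp
    rw [h2, norm_div, norm_pow]
    exact div_le_div₀ hT (hP q hq).2.2.2.2.2.2 (by positivity)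
      (pow_le_pow_left₀ hV0.le (hP q hq).2.2.2.2.1 e)
  have hdiff : ∀ q ∈ P, ∀ q' ∈ P, ‖z q ^ e - z q' ^ e‖ ≤ 2 * T / (S.N α * V0 ^ e) := by
    intro q hq q' hq'
    have h2 : ‖S.φ α * (z q ^ e - z q' ^ e)‖ ≤ T / V0 ^ e + T / V0 ^ e := by
      have : S.φ α * (z q ^ e - z q' ^ e) =
          (S.φ α * z q ^ e + S.φ β) - (S.φ α * z q' ^ e + S.φ β) := by ring
      rw [this]
      exact (norm_sub_le _ _).trans (add_le_add (hpow q hq) (hpow q' hq'))
    rw [norm_mul] at h2
    have h3 : 2 * T / (S.N α * V0 ^ e) = (T / V0 ^ e + T / V0 ^ e) / S.N α := by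
      field_simp; ring
    rw [h3, le_div_iff₀ hNα, mul_comm]
    exact h2
  have hzlow : ∀ q ∈ P, U0 / V1 ≤ ‖z q‖ := by
    intro q hq
    simp only [z, norm_div]
    exact div_le_div₀ (norm_nonneg _) (hP q hq).2.2.2.1 (S.N_pos (hq2 q hq))
      (hP q hq).2.2.2.2.2.1
  have hB : ∀ y ∈ D, ((P.filter (fun q => γ ∣ (e : R) * (q.1 * v q - y))).card : ℝ) ≤
      Z.card * ((S.C0 * (1 + K2 * Q) ^ S.d) * (S.C0 * 2 ^ S.d)) := by
    intro y _
    set Py := P.filter (fun q => γ ∣ (e : R) * (q.1 * v q - y)) with hPy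
    have hPyP : ∀ q ∈ Py, q ∈ P := fun q hq => (Finset.mem_filter.1 hq).1
    rcases Py.eq_empty_or_nonempty with h | ⟨q0, hq0⟩
    · rw [h]; simp only [Finset.card_empty, Nat.cast_zero]; positivity
    apply card_le_of_cover Py Z (fun q ζ => ‖z q - ζ * z q0‖ ≤ ρ)
    · intro q hq
      obtain ⟨ζ, hζ, h⟩ := hZ (z q) (z q0)
      refine ⟨ζ, hζ, ?_⟩
      rw [hρ, le_div_iff₀ (by positivity)]
      refine le_trans ?_ (h.trans (hdiff q (hPyP q hq) q0 (hPyP q0 hq0)))
      apply mul_le_mul_of_nonneg_left _ (norm_nonneg _)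
      apply pow_le_pow_left₀ (by positivity)
      exact mul_le_mul_of_nonneg_left (hzlow q0 (hPyP q0 hq0)) hc.le
    · intro ζ _
      set Pz := Py.filter (fun q => ‖z q - ζ * z q0‖ ≤ ρ) with hPz
      have hPzy : ∀ q ∈ Pz, q ∈ Py := fun q hq => (Finset.mem_filter.1 hq).1
      have h2 := card_le_of_fibers Pz (Pz.image z) z (S.C0 * 2 ^ S.d)
        (fun a ha => Finset.mem_image_of_mem _ ha) (fun b _ => by
          apply S.ratio_fiber _ b
          · intro q hq; exact hq2 q (hPyP q (hPzy q (Finset.mem_filter.1 hq).1))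
          · intro q hq; exact (hP q (hPyP q (hPzy q (Finset.mem_filter.1 hq).1))).1
          · intro q hq; exact (Finset.mem_filter.1 hq).2)
      refine h2.trans (mul_le_mul_of_nonneg_right ?_ (by positivity))
      rw [← hρδ]
      apply S.pack _ (ζ * z q0) ρ δ hρn hδp
      · intro w hw
        obtain ⟨q, _, rfl⟩ := Finset.mem_image.1 hw
        exact ⟨q.1, q.2, rfl⟩
      · intro w hw
        obtain ⟨q, hq, rfl⟩ := Finset.mem_image.1 hw
        exact (Finset.mem_filter.1 hq).2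
      · intro w hw w' hw' hww
        obtain ⟨q, hq, rfl⟩ := Finset.mem_image.1 hw
        obtain ⟨q', hq', rfl⟩ := Finset.mem_image.1 hw'
        have hqP := hPyP q (hPzy q hq)
        have hqP' := hPyP q' (hPzy q' hq')
        have hn := S.φ_ne_zero (hq2 q hqP)
        have hn' := S.φ_ne_zero (hq2 q' hqP')
        have h3 : z q - z q' = S.φ (q.1 * q'.2 - q'.1 * q.2) / (S.φ q.2 * S.φ q'.2) := by
          simp only [z, map_sub, map_mul]
          field_simp
        have h4 : q.1 * q'.2 - q'.1 * q.2 ≠ 0 := by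
          intro h
          rw [h, map_zero, zero_div] at h3
          exact hww (sub_eq_zero.1 h3)
        have h5 : γ ∣ (e : R) * (q.1 * q'.2 - q'.1 * q.2) := by
          obtain ⟨m, hm⟩ := (Finset.mem_filter.1 (hPzy q hq)).2
          obtain ⟨m', hm'⟩ := (Finset.mem_filter.1 (hPzy q' hq')).2
          refine ⟨(m - m') * q.2 * q'.2 - e * q.1 * q'.2 * k q + e * q'.1 * q.2 * k q', ?_⟩
          linear_combination q.2 * q'.2 * hm - q.2 * q'.2 * hm' -
            (e : R) * q.1 * q'.2 * hvk q hqP + (e : R) * q'.1 * q.2 * hvk q' hqP'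
        have h6 := S.sep_of_dvd he h4 h5
        rw [h3, norm_div, norm_mul, hδ]
        refine div_le_div₀ (norm_nonneg _) h6
          (mul_pos (S.N_pos (hq2 q hqP)) (S.N_pos (hq2 q' hqP'))) ?_
        rw [pow_two]
        exact mul_le_mul (hP q hqP).2.2.2.2.2.1 (hP q' hqP').2.2.2.2.2.1 (norm_nonneg _) hV1.le
  have h7 := card_le_of_cover P D (fun q y => γ ∣ (e : R) * (q.1 * v q - y)) _ h1 hB
  have h8 : (1 + K2 * Q) ^ S.d ≤ (1 + (1 + K1 + K2) * Q) ^ S.d := by
    apply pow_le_pow_left₀ (by positivity)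
    nlinarith
  have h9 : 0 ≤ S.N γ ^ ε := Real.rpow_nonneg hNγ.le _
  calc (P.card : ℝ) ≤ _ := h7
    _ ≤ (C1 * S.N γ ^ ε) * (Z.card * ((S.C0 * (1 + K2 * Q) ^ S.d) * (S.C0 * 2 ^ S.d))) :=
        mul_le_mul_of_nonneg_right hD (by positivity)
    _ = K1 * S.N γ ^ ε * (1 + K2 * Q) ^ S.d := by rw [hK1]; ring
    _ ≤ _ := by
        apply mul_le_mul _ h8 (by positivity) (by positivity)
        apply mul_le_mul_of_nonneg_right _ h9
        linarith

end Setup

end Pool.Agent.P.MP_dc323a_nt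
end

-- part Pool.Agent.P.MP_dc323a_nt.Box
section

set_option autoImplicit false

namespace Pool.Agent.P.MP_dc323a_nt

open Finset

/-- Real powers of two. -/
noncomputable def tw (x : ℝ) : ℝ := (2 : ℝ) ^ x

theorem tw_pos (x : ℝ) : 0 < tw x := Real.rpow_pos_of_pos (by norm_num) x
theorem tw_add (x y : ℝ) : tw (x + y) = tw x * tw y := Real.rpow_add (by norm_num) x y
theorem tw_sub (x y : ℝ) : tw (x - y) = tw x / tw y := Real.rpow_sub (by norm_num) x y
theorem tw_zero : tw 0 = 1 := Real.rpow_zero 2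
theorem tw_mono {x y : ℝ} (h : x ≤ y) : tw x ≤ tw y :=
  Real.rpow_le_rpow_of_exponent_le (by norm_num) h
theorem tw_nat (n : ℕ) : tw n = (2 : ℝ) ^ n := Real.rpow_natCast 2 n
theorem tw_rpow (x y : ℝ) : tw x ^ y = tw (x * y) := (Real.rpow_mul (by norm_num) x y).symm
theorem tw_pow (x : ℝ) (n : ℕ) : tw x ^ n = tw (n * x) := by
  rw [← Real.rpow_natCast, tw_rpow, mul_comm]
theorem one_le_tw {x : ℝ} (h : 0 ≤ x) : 1 ≤ tw x := by rw [← tw_zero]; exact tw_mono h
theorem tw_sum {ι : Type*} (s : Finset ι) (f : ι → ℝ) : tw (∑ i ∈ s, f i) = ∏ i ∈ s, tw (f i) :=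
  Real.rpow_sum_of_pos (by norm_num) f s
theorem tw_one : tw 1 = 2 := Real.rpow_one 2

theorem one_add_le (C c y : ℝ) (hC : 0 ≤ C) :
    1 + C * tw (c + y) ≤ (1 + C * tw c) * tw (max 0 y) := by
  have h1 : 1 ≤ tw (max 0 y) := one_le_tw (le_max_left _ _)
  have h2 : tw y ≤ tw (max 0 y) := tw_mono (le_max_right _ _)
  have h3 := tw_pos c
  rw [tw_add]
  have h4 : C * (tw c * tw y) ≤ C * (tw c * tw (max 0 y)) :=
    mul_le_mul_of_nonneg_left (mul_le_mul_of_nonneg_left h2 h3.le) hC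
  nlinarith

variable {R : Type} [CommRing R] {ι : Type} [Fintype ι] [DecidableEq ι]

/-- The monomial in the variables indexed by `A`. -/
def mon (ex : ι → ℕ) (A : Finset ι) (x : ι → R) : R := ∏ i ∈ A, x i ^ ex i

/-- The weight of a set of variables. -/
def wt (ex n : ι → ℕ) (A : Finset ι) : ℝ := ∑ i ∈ A, (ex i : ℝ) * n i

/-- The mass of a set of variables. -/
def ms (n : ι → ℕ) (A : Finset ι) : ℝ := ∑ i ∈ A, (n i : ℝ)

/-- The sum of all exponents. -/
def tot (ex : ι → ℕ) : ℝ := ∑ i, (ex i : ℝ)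

omit [DecidableEq ι] in
theorem tot_nonneg (ex : ι → ℕ) : 0 ≤ tot ex := Finset.sum_nonneg (fun _ _ => by positivity)
omit [Fintype ι] [DecidableEq ι] in
theorem wt_nonneg (ex n : ι → ℕ) (A : Finset ι) : 0 ≤ wt ex n A :=
  Finset.sum_nonneg (fun _ _ => by positivity)
omit [Fintype ι] [DecidableEq ι] in
theorem ms_nonneg (n : ι → ℕ) (A : Finset ι) : 0 ≤ ms n A :=
  Finset.sum_nonneg (fun _ _ => by positivity)

omit [Fintype ι] in
theorem mon_split (ex : ι → ℕ) {A I : Finset ι} (h : I ⊆ A) (x : ι → R) :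
    mon ex A x = mon ex (A \ I) x * mon ex I x := (Finset.prod_sdiff h).symm

omit [Fintype ι] in
theorem wt_split (ex n : ι → ℕ) {A I : Finset ι} (h : I ⊆ A) :
    wt ex n A = wt ex n (A \ I) + wt ex n I := (Finset.sum_sdiff h).symm

omit [Fintype ι] [DecidableEq ι] in
theorem mon_root (ex : ι → ℕ) (e : ℕ) {I : Finset ι} (h : ∀ i ∈ I, e ∣ ex i) (x : ι → R) :
    mon ex I x = mon (fun i => ex i / e) I x ^ e := by
  simp only [mon, ← Finset.prod_pow]
  refine Finset.prod_congr rfl (fun i hi => ?_)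
  rw [← pow_mul, Nat.div_mul_cancel (h i hi)]

omit [Fintype ι] [DecidableEq ι] in
theorem wt_root (ex n : ι → ℕ) (e : ℕ) {I : Finset ι} (h : ∀ i ∈ I, e ∣ ex i) :
    wt ex n I = e * wt (fun i => ex i / e) n I := by
  simp only [wt, Finset.mul_sum]
  refine Finset.sum_congr rfl (fun i hi => ?_)
  have : (ex i : ℝ) = e * ((ex i / e : ℕ) : ℝ) := by
    exact_mod_cast (Nat.mul_div_cancel' (h i hi)).symm
  rw [← mul_assoc, ← this]

omit [Fintype ι] [DecidableEq ι] in
theorem mon_congr (ex : ι → ℕ) {A : Finset ι} {x y : ι → R} (h : ∀ i ∈ A, x i = y i) :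
    mon ex A x = mon ex A y := Finset.prod_congr rfl (fun i hi => by rw [h i hi])

omit [DecidableEq ι] in
theorem tot_div_le (ex : ι → ℕ) (e : ℕ) : tot (fun i => ex i / e) ≤ tot ex :=
  Finset.sum_le_sum (fun i _ => by exact_mod_cast Nat.div_le_self _ _)

/-- Restriction of a point to the coordinates in `F`. -/
def res (F : Finset ι) (x : ι → R) : ι → R := fun i => if i ∈ F then x i else 0

omit [Fintype ι] in
theorem res_eq_iff (F : Finset ι) (x y : ι → R) : res F x = res F y ↔ ∀ i ∈ F, x i = y i := by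
  constructor
  · intro h i hi
    have := congrFun h i
    simpa [res, hi] using this
  · intro h
    funext i
    by_cases hi : i ∈ F
    · simp [res, hi, h i hi]
    · simp [res, hi]

namespace Setup

variable (S : Setup R)

/-- A dyadic box of solutions. -/
structure Box (ex : ι → ℕ) (A B C : Finset ι) (n : ι → ℕ) (T : Finset (ι → R)) : Prop where
  lo : ∀ x ∈ T, ∀ i, tw (n i) ≤ S.N (x i)
  hi : ∀ x ∈ T, ∀ i, S.N (x i) ≤ tw (n i + 1)
  sum : ∀ x ∈ T, mon ex A x + mon ex B x + mon ex C x = 0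
  cAB : ∀ x ∈ T, IsCoprime (mon ex A x) (mon ex B x)
  cAC : ∀ x ∈ T, IsCoprime (mon ex A x) (mon ex C x)
  cBC : ∀ x ∈ T, IsCoprime (mon ex B x) (mon ex C x)
  inj : ∀ x ∈ T, ∀ y ∈ T, mon ex A x = mon ex A y → mon ex B x = mon ex B y → x = y

variable {S}

omit [Fintype ι] [DecidableEq ι] in
theorem Box.swap12 {ex : ι → ℕ} {A B C : Finset ι} {n : ι → ℕ} {T : Finset (ι → R)}
    (h : S.Box ex A B C n T) : S.Box ex B A C n T :=
  ⟨h.lo, h.hi, fun x hx => by rw [← h.sum x hx]; ring, fun x hx => (h.cAB x hx).symm, h.cBC, h.cAC,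
    fun x hx y hy h1 h2 => h.inj x hx y hy h2 h1⟩

omit [Fintype ι] [DecidableEq ι] in
theorem Box.swap23 {ex : ι → ℕ} {A B C : Finset ι} {n : ι → ℕ} {T : Finset (ι → R)}
    (h : S.Box ex A B C n T) : S.Box ex A C B n T :=
  ⟨h.lo, h.hi, fun x hx => by rw [← h.sum x hx]; ring, h.cAC, h.cAB, fun x hx => (h.cBC x hx).symm,
    fun x hx y hy h1 h2 => h.inj x hx y hy h1 (by
      linear_combination h.sum x hx - h.sum y hy - h1 - h2)⟩

variable (S)

omit [Fintype ι] [DecidableEq ι] in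
theorem mon_lo (ex n : ι → ℕ) (A : Finset ι) (x : ι → R) (h : ∀ i, tw (n i) ≤ S.N (x i)) :
    tw (wt ex n A) ≤ S.N (mon ex A x) := by
  rw [wt, tw_sum, mon, S.N_prod]
  refine Finset.prod_le_prod (fun i _ => (tw_pos _).le) (fun i _ => ?_)
  rw [S.N_pow, ← tw_pow]
  exact pow_le_pow_left₀ (tw_pos _).le (h i) _

omit [DecidableEq ι] in
theorem mon_hi (ex n : ι → ℕ) (A : Finset ι) (x : ι → R) (h : ∀ i, S.N (x i) ≤ tw (n i + 1)) :
    S.N (mon ex A x) ≤ tw (wt ex n A + tot ex) := by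
  have h1 : S.N (mon ex A x) ≤ tw (∑ i ∈ A, (ex i : ℝ) * (n i + 1)) := by
    rw [tw_sum, mon, S.N_prod]
    refine Finset.prod_le_prod (fun i _ => S.N_nonneg _) (fun i _ => ?_)
    rw [S.N_pow, ← tw_pow]
    exact pow_le_pow_left₀ (S.N_nonneg _) (h i) _
  refine h1.trans (tw_mono ?_)
  simp only [mul_add, mul_one, Finset.sum_add_distrib, wt, tot]
  have : ∑ i ∈ A, (ex i : ℝ) ≤ ∑ i, (ex i : ℝ) :=
    Finset.sum_le_sum_of_subset_of_nonneg (Finset.subset_univ _) (fun _ _ _ => by positivity)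
  linarith

omit [Fintype ι] [DecidableEq ι] in
theorem mon_ne (ex n : ι → ℕ) (A : Finset ι) (x : ι → R) (h : ∀ i, tw (n i) ≤ S.N (x i)) :
    mon ex A x ≠ 0 :=
  S.ne_zero_of_N_pos (lt_of_lt_of_le (tw_pos _) (S.mon_lo ex n A x h))

/-- Constant for the number of elements in a dyadic range. -/
noncomputable def C1 : ℝ := S.C0 * 3 ^ S.d

theorem one_le_C1 : 1 ≤ S.C1 := by
  have := S.C0_ge
  have h2 : (1 : ℝ) ≤ 3 ^ S.d := one_le_pow₀ (by norm_num)
  rw [C1]; nlinarith

theorem card_dyadic (m : ℝ) (hm : 0 ≤ m) :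
    ((S.ball (tw (m + 1))).card : ℝ) ≤ S.C1 * tw (S.d * m) := by
  refine (S.card_ball' _ (tw_pos _).le).trans ?_
  rw [C1, mul_assoc, ← tw_pow, ← mul_pow]
  apply mul_le_mul_of_nonneg_left _ S.C0_pos.le
  apply pow_le_pow_left₀ (by have := tw_pos (m + 1); linarith)
  rw [tw_add, tw_one]
  have := one_le_tw hm
  linarith

open Classical in
theorem card_res (n : ι → ℕ) (T : Finset (ι → R)) (F : Finset ι)
    (h : ∀ x ∈ T, ∀ i, S.N (x i) ≤ tw (n i + 1)) :
    ((T.image (res F)).card : ℝ) ≤ S.C1 ^ Fintype.card ι * tw (S.d * ms n F) := by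
  have hsub : T.image (res F) ⊆
      Fintype.piFinset (fun i => if i ∈ F then S.ball (tw (n i + 1)) else {0}) := by
    intro y hy
    obtain ⟨x, hx, rfl⟩ := Finset.mem_image.1 hy
    rw [Fintype.mem_piFinset]
    intro i
    by_cases hi : i ∈ F
    · simp only [res, hi, if_true]; exact S.mem_ball.2 (h x hx i)
    · simp [res, hi]
  have h1 := Finset.card_le_card hsub
  rw [Fintype.card_piFinset] at h1
  have h2 : ((T.image (res F)).card : ℝ) ≤
      ∏ i, ((if i ∈ F then S.ball (tw (n i + 1)) else {0}).card : ℝ) := by exact_mod_cast h1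
  refine h2.trans ?_
  have h3 : tw (S.d * ms n F) = ∏ i, (if i ∈ F then tw (S.d * n i) else 1) := by
    rw [ms, Finset.mul_sum, tw_sum, Finset.prod_ite_mem, Finset.univ_inter]
  rw [h3, ← Finset.card_univ, ← Finset.prod_const, ← Finset.prod_mul_distrib]
  refine Finset.prod_le_prod (fun i _ => by positivity) (fun i _ => ?_)
  by_cases hi : i ∈ F
  · simp only [hi, if_true]; exact S.card_dyadic _ (by positivity)
  · simp only [hi, if_false, Finset.card_singleton, Nat.cast_one, mul_one]; exact S.one_le_C1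

open Classical in
theorem card_le_res (n : ι → ℕ) (T : Finset (ι → R)) (F : Finset ι) (Bd : ℝ) (hBd : 0 ≤ Bd)
    (h : ∀ x ∈ T, ∀ i, S.N (x i) ≤ tw (n i + 1))
    (hf : ∀ x0 ∈ T, ((T.filter (fun x => ∀ i ∈ F, x i = x0 i)).card : ℝ) ≤ Bd) :
    (T.card : ℝ) ≤ S.C1 ^ Fintype.card ι * tw (S.d * ms n F) * Bd := by
  have h1 := card_le_of_fibers T (T.image (res F)) (res F) Bd
    (fun a ha => Finset.mem_image_of_mem _ ha) (fun b hb => by
      obtain ⟨x0, hx0, rfl⟩ := Finset.mem_image.1 hb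
      simp_rw [res_eq_iff]
      exact hf x0 hx0)
  exact h1.trans (mul_le_mul_of_nonneg_right (S.card_res n T F h) hBd)

end Setup

end Pool.Agent.P.MP_dc323a_nt
end

-- part Pool.Agent.P.MP_dc323a_nt.LPDefs
section

set_option autoImplicit false

namespace Pool.Agent.P.MP_dc323a_nt

/-- The masses of the classes of variables on one side of the equation. -/
structure Side where
  a1 : ℝ
  a2 : ℝ
  a3 : ℝ
  a4 : ℝ
  h : ℝ
  w : ℝ

/-- A choice of classes. -/
structure Mask where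
  b1 : Bool
  b2 : Bool
  b3 : Bool
  b4 : Bool
  b5 : Bool

/-- Total mass. -/
def Side.M (s : Side) : ℝ := s.a1 + s.a2 + s.a3 + s.a4 + s.h
/-- Total weight. -/
def Side.W (s : Side) : ℝ := s.a1 + 2 * s.a2 + 3 * s.a3 + 4 * s.a4 + s.w
/-- Mass of the chosen classes. -/
def Side.fm (s : Side) (μ : Mask) : ℝ :=
  cond μ.b1 s.a1 0 + cond μ.b2 s.a2 0 + cond μ.b3 s.a3 0 + cond μ.b4 s.a4 0 + cond μ.b5 s.h 0
/-- Weight of the chosen classes. -/
def Side.fw (s : Side) (μ : Mask) : ℝ :=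
  cond μ.b1 s.a1 0 + cond μ.b2 (2 * s.a2) 0 + cond μ.b3 (3 * s.a3) 0 + cond μ.b4 (4 * s.a4) 0 +
    cond μ.b5 s.w 0
/-- Sign conditions. -/
def Side.Ok (s : Side) : Prop :=
  0 ≤ s.a1 ∧ 0 ≤ s.a2 ∧ 0 ≤ s.a3 ∧ 0 ≤ s.a4 ∧ 0 ≤ s.h ∧ 5 * s.h ≤ s.w
/-- All chosen exponents are multiples of `e`. -/
def Mask.ok (μ : Mask) (e : ℕ) : Prop :=
  (μ.b1 = true → e ∣ 1) ∧ (μ.b2 = true → e ∣ 2) ∧ (μ.b3 = true → e ∣ 3) ∧ (μ.b4 = true → e ∣ 4) ∧
    (μ.b5 = true → e = 1)

instance (μ : Mask) (e : ℕ) : Decidable (μ.ok e) := by unfold Mask.ok; infer_instance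

/-- The lattice bounds. -/
def OG (ν η : ℝ) (P Q R : Side) : Prop :=
  ∀ (e : ℕ) (μP μQ μR : Mask), 1 ≤ e → e ≤ 4 → μP.ok e → μQ.ok e →
    ν ≤ (P.M - P.fm μP + (Q.M - Q.fm μQ) + (R.M - R.fm μR)) +
      max 0 (P.fw μP / e + Q.fw μQ / e + R.fw μR - P.W) + η

/-- The differencing bounds. -/
def OF (ν η : ℝ) (P Q R : Side) : Prop :=
  ∀ (e : ℕ) (μ : Mask), 2 ≤ e → e ≤ 4 → μ.ok e →
    ν ≤ max (P.M - P.fm μ + R.M) ((P.M - P.fm μ + R.M) / 2 + Q.M) + η

/-- The character sum bounds. -/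
def OM (ν η : ℝ) (P Q R : Side) : Prop :=
  ∀ μ : Mask, ν ≤ R.fm μ + (P.M + Q.M) / 2 + max 0 (P.M + Q.M - R.fw μ) / 2 + η

theorem spG {ν a y η : ℝ} (h : ν ≤ a + max 0 y + η) :
    (ν ≤ a + η ∧ y ≤ 0) ∨ (ν ≤ a + y + η ∧ 0 ≤ y) := by
  rcases le_total y 0 with h1 | h1
  · rw [max_eq_left h1, add_zero] at h; exact Or.inl ⟨h, h1⟩
  · rw [max_eq_right h1] at h; exact Or.inr ⟨h, h1⟩

theorem spM {ν a y η : ℝ} (h : ν ≤ a + max 0 y / 2 + η) :
    (ν ≤ a + η ∧ y ≤ 0) ∨ (ν ≤ a + y / 2 + η ∧ 0 ≤ y) := by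
  rcases le_total y 0 with h1 | h1
  · rw [max_eq_left h1, zero_div, add_zero] at h; exact Or.inl ⟨h, h1⟩
  · rw [max_eq_right h1] at h; exact Or.inr ⟨h, h1⟩

theorem spF {ν x y η : ℝ} (h : ν ≤ max x y + η) :
    (ν ≤ y + η ∧ x ≤ y) ∨ (ν ≤ x + η ∧ y ≤ x) := by
  rcases le_total x y with h1 | h1
  · rw [max_eq_right h1] at h; exact Or.inl ⟨h, h1⟩
  · rw [max_eq_left h1] at h; exact Or.inr ⟨h, h1⟩

end Pool.Agent.P.MP_dc323a_nt
end

-- part Pool.Agent.P.MP_dc323a_nt.Decomp
section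

set_option autoImplicit false

namespace Pool.Agent.P.MP_dc323a_nt

open Finset

theorem decomp {R : Type} [CommRing R] [IsDomain R] [IsPrincipalIdealRing R] {κ : Type} [Fintype κ]
    [DecidableEq κ] (ex : κ → ℕ) (hex : ∀ j, 1 ≤ ex j) (top : κ) (h2 : 2 ≤ ex top)
    (hs : ∀ m, 1 ≤ m → m < ex top → ∃ j, ex j = m) (n : R) :
    n ≠ 0 → ∃ x : κ → R, n = ∏ j, x j ^ ex j ∧ Squarefree (∏ j ∈ univ.erase top, x j) := by
  have key : ∀ (j : κ) (u v : R), j ≠ top → Squarefree u → ∃ x : κ → R,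
      u ^ ex j * v ^ ex top = ∏ j, x j ^ ex j ∧ Squarefree (∏ j ∈ univ.erase top, x j) := by
    intro j u v hj hu
    refine ⟨fun i => (if i = j then u else 1) * (if i = top then v else 1), ?_, ?_⟩
    · simp only [mul_pow, Finset.prod_mul_distrib, ite_pow, one_pow, Finset.prod_ite_eq',
        Finset.mem_univ, if_true]
    · simp only [Finset.prod_mul_distrib, Finset.prod_ite_eq', Finset.mem_erase, Finset.mem_univ,
        and_true, ne_eq, not_true, if_false, mul_one, hj, not_false_iff, if_true]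
      exact hu
  obtain ⟨j1, hj1⟩ := hs 1 le_rfl (by omega)
  have hj1' : j1 ≠ top := by rintro rfl; omega
  induction n using UniqueFactorizationMonoid.induction_on_coprime with
  | h0 => intro h; exact absurd rfl h
  | h1 hu =>
    intro _
    have := key j1 _ 1 hj1' hu.squarefree
    simpa [hj1] using this
  | @hpr p i hp =>
    intro _
    have hi : i = i % ex top + (i / ex top) * ex top := by
      rw [mul_comm]; exact (Nat.mod_add_div i _).symm
    rcases Nat.eq_zero_or_pos (i % ex top) with h | h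
    · have := key j1 1 (p ^ (i / ex top)) hj1' squarefree_one
      rw [one_pow, one_mul, ← pow_mul] at this
      rw [hi, h, zero_add]; exact this
    · obtain ⟨j, hj⟩ := hs _ h (Nat.mod_lt _ (by omega))
      have hj' : j ≠ top := by
        rintro rfl
        have := Nat.mod_lt i (show 0 < ex j by omega)
        omega
      have := key j p (p ^ (i / ex top)) hj' hp.squarefree
      rw [hj, ← pow_mul, ← pow_add, ← hi] at this
      exact this
  | @hcp a b hab iha ihb =>
    intro h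
    obtain ⟨x, hx1, hx2⟩ := iha (left_ne_zero_of_mul h)
    obtain ⟨y, hy1, hy2⟩ := ihb (right_ne_zero_of_mul h)
    have hd : ∀ z : κ → R, ∏ j ∈ univ.erase top, z j ∣ ∏ j, z j ^ ex j := fun z =>
      (Finset.prod_dvd_prod_of_dvd _ _ (fun j _ => dvd_pow_self (z j)
        (by have := hex j; omega))).trans
        (Finset.prod_dvd_prod_of_subset _ _ _ (Finset.subset_univ _))
    refine ⟨fun j => x j * y j, ?_, ?_⟩
    · simp only [mul_pow, Finset.prod_mul_distrib, ← hx1, ← hy1]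
    · rw [Finset.prod_mul_distrib, squarefree_mul_iff]
      refine ⟨?_, hx2, hy2⟩
      rw [hx1, hy1] at hab
      exact (hab.of_dvd_left (hd x)).of_dvd_right (hd y)

/-- Index type of the variables on one side. -/
abbrev Kp (K : ℕ) : Type := Fin 4 ⊕ Fin (K + 1)

variable {K : ℕ}

/-- The exponents on one side. -/
def exk : Kp K → ℕ := Sum.elim (fun j => j.val + 1) (fun j => j.val + 5)

/-- The index with the largest exponent. -/
def topk : Kp K := Sum.inr (Fin.last K)

/-- The exponents. -/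
def exi : Fin 3 × Kp K → ℕ := fun i => exk i.2

/-- Selection of indices by a mask. -/
def sel (μ : Mask) : Kp K → Bool := Sum.elim ![μ.b1, μ.b2, μ.b3, μ.b4] (fun _ => μ.b5)

/-- All variables on a side. -/
def sd (s : Fin 3) : Finset (Fin 3 × Kp K) := {s} ×ˢ univ

/-- The chosen variables on a side. -/
def sm (s : Fin 3) (μ : Mask) : Finset (Fin 3 × Kp K) := {s} ×ˢ univ.filter (fun j => sel μ j = true)

/-- The masses attached to a box. -/
def side (n : Fin 3 × Kp K → ℕ) (s : Fin 3) : Side :=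
  ⟨n (s, Sum.inl 0), n (s, Sum.inl 1), n (s, Sum.inl 2), n (s, Sum.inl 3),
    ∑ j, (n (s, Sum.inr j) : ℝ), ∑ j : Fin (K + 1), ((j.val + 5 : ℕ) : ℝ) * n (s, Sum.inr j)⟩

theorem one_le_exk (j : Kp K) : 1 ≤ exk j := by
  rcases j with j | j <;> simp [exk]

theorem exk_top : exk (topk : Kp K) = K + 5 := rfl

theorem exk_surj (m : ℕ) (h1 : 1 ≤ m) (h2 : m < exk (topk : Kp K)) :
    ∃ j : Kp K, exk j = m := by
  rw [exk_top] at h2
  by_cases h : m ≤ 4
  · exact ⟨Sum.inl ⟨m - 1, by omega⟩, by simp only [exk, Sum.elim_inl]; omega⟩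
  · exact ⟨Sum.inr ⟨m - 5, by omega⟩, by simp only [exk, Sum.elim_inr]; omega⟩

theorem sm_sub (s : Fin 3) (μ : Mask) : (sm s μ : Finset (Fin 3 × Kp K)) ⊆ sd s :=
  Finset.product_subset_product_right (Finset.subset_univ _)

theorem sd_disj {s t : Fin 3} (h : s ≠ t) : Disjoint (sd s : Finset (Fin 3 × Kp K)) (sd t) := by
  rw [Finset.disjoint_left]
  intro i h1 h2
  simp only [sd, Finset.mem_product, Finset.mem_singleton] at h1 h2
  exact h (h1.1.symm.trans h2.1)

theorem ms_sd (n : Fin 3 × Kp K → ℕ) (s : Fin 3) : ms n (sd s) = (side n s).M := by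
  simp only [ms, sd, Finset.sum_product, Finset.sum_singleton, Fintype.sum_sum_type,
    Fin.sum_univ_four, Side.M, side]

theorem wt_sd (n : Fin 3 × Kp K → ℕ) (s : Fin 3) : wt exi n (sd s) = (side n s).W := by
  simp only [wt, sd, Finset.sum_product, Finset.sum_singleton, Fintype.sum_sum_type,
    Fin.sum_univ_four, Side.W, side, exi, exk, Sum.elim_inl, Sum.elim_inr]
  norm_num

theorem ms_sm (n : Fin 3 × Kp K → ℕ) (s : Fin 3) (μ : Mask) :
    ms n (sm s μ) = (side n s).fm μ := by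
  obtain ⟨b1, b2, b3, b4, b5⟩ := μ
  simp only [ms, sm, Finset.sum_product, Finset.sum_singleton, Finset.sum_filter,
    Fintype.sum_sum_type, Fin.sum_univ_four, Side.fm, side, sel, Sum.elim_inl, Sum.elim_inr]
  cases b1 <;> cases b2 <;> cases b3 <;> cases b4 <;> cases b5 <;> simp

theorem wt_sm (n : Fin 3 × Kp K → ℕ) (s : Fin 3) (μ : Mask) :
    wt exi n (sm s μ) = (side n s).fw μ := by
  obtain ⟨b1, b2, b3, b4, b5⟩ := μ
  simp only [wt, sm, Finset.sum_product, Finset.sum_singleton, Finset.sum_filter,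
    Fintype.sum_sum_type, Fin.sum_univ_four, Side.fw, side, sel, Sum.elim_inl, Sum.elim_inr,
    exi, exk]
  cases b1 <;> cases b2 <;> cases b3 <;> cases b4 <;> cases b5 <;> simp <;> norm_num

theorem sm_dvd (s : Fin 3) (μ : Mask) (e : ℕ) (h : μ.ok e) :
    ∀ i ∈ (sm s μ : Finset (Fin 3 × Kp K)), e ∣ exi i := by
  rintro ⟨t, j⟩ hi
  have h1 : sel μ j = true := by
    simp only [sm, Finset.mem_product, Finset.mem_filter] at hi
    exact hi.2.2
  obtain ⟨c1, c2, c3, c4, c5⟩ := h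
  rcases j with j | j
  · fin_cases j
    · exact c1 h1
    · exact c2 h1
    · exact c3 h1
    · exact c4 h1
  · rw [c5 h1]; exact one_dvd _

theorem side_ok (n : Fin 3 × Kp K → ℕ) (s : Fin 3) : (side n s).Ok := by
  refine ⟨Nat.cast_nonneg _, Nat.cast_nonneg _, Nat.cast_nonneg _, Nat.cast_nonneg _,
    ?_, ?_⟩
  · simp only [side]; positivity
  simp only [side, Finset.mul_sum]
  refine Finset.sum_le_sum (fun j _ => mul_le_mul_of_nonneg_right ?_ (Nat.cast_nonneg _))
  exact_mod_cast Nat.le_add_left 5 j.val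

theorem mon_sd {R : Type} [CommRing R] (s : Fin 3) (x : Fin 3 × Kp K → R) :
    mon exi (sd s) x = ∏ j, x (s, j) ^ exk j := by
  simp only [mon, sd, Finset.prod_product, Finset.prod_singleton, exi]

theorem ms_sdiff {ι : Type} [DecidableEq ι] (n : ι → ℕ) {A I : Finset ι} (h : I ⊆ A) :
    ms n (A \ I) = ms n A - ms n I := by
  have : ms n (A \ I) + ms n I = ms n A := Finset.sum_sdiff h
  linarith

theorem ms_union {ι : Type} [DecidableEq ι] (n : ι → ℕ) (A B : Finset ι) :
    ms n (A ∪ B) ≤ ms n A + ms n B := by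
  have h1 : ms n (A ∪ B) + ms n (A ∩ B) = ms n A + ms n B := Finset.sum_union_inter
  have := ms_nonneg n (A ∩ B)
  linarith

end Pool.Agent.P.MP_dc323a_nt
end

-- part Pool.Agent.P.MP_dc323a_nt.ToolG
section

set_option autoImplicit false

namespace Pool.Agent.P.MP_dc323a_nt

open Finset

namespace Setup

variable {R : Type} [CommRing R] [IsDomain R] [IsPrincipalIdealRing R] (S : Setup R)
variable {ι : Type} [Fintype ι] [DecidableEq ι]

theorem toolG (ex : ι → ℕ) (e : ℕ) (he : 1 ≤ e) (ε : ℝ) (hε : 0 < ε) : ∃ K : ℝ, 0 < K ∧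
    ∀ (A B C : Finset ι) (n : ι → ℕ) (T : Finset (ι → R)) (L : ℝ), S.Box ex A B C n T →
      wt ex n C ≤ L → ∀ I J H F : Finset ι, I ⊆ A → J ⊆ B → H ⊆ C → (∀ i ∈ I, e ∣ ex i) →
      (∀ i ∈ J, e ∣ ex i) → A \ I ⊆ F → B \ J ⊆ F → C \ H ⊆ F →
      (T.card : ℝ) ≤ K * tw (ε * L + S.d * (ms n F +
        max 0 (wt ex n I / e + wt ex n J / e + wt ex n H - wt ex n A))) := by
  classical
  obtain ⟨C2, hC2, hpair⟩ := S.pair_bound e he ε hε
  set E := tot ex with hE
  have hE0 : 0 ≤ E := tot_nonneg ex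
  have hC1 := S.one_le_C1
  have he' : (0 : ℝ) < e := by exact_mod_cast he
  refine ⟨S.C1 ^ Fintype.card ι * (C2 * tw (ε * E) * (1 + C2 * tw ((e + 2) * E)) ^ S.d), ?_, ?_⟩
  · have := tw_pos (ε * E)
    have := tw_pos ((e + 2) * E)
    positivity
  intro A B C n T L hbox hL I J H F hI hJ hH hIe hJe hAF hBF hCF
  set ex' : ι → ℕ := fun i => ex i / e with hex'
  set u := wt ex' n I with hu
  set v := wt ex' n J with hv
  have hu' : wt ex n I = e * u := wt_root ex n e hIe
  have hv' : wt ex n J = e * v := wt_root ex n e hJe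
  set y := wt ex n I / e + wt ex n J / e + wt ex n H - wt ex n A with hy
  have hy' : y = u + v + wt ex n H - wt ex n A := by
    rw [hy, hu', hv', mul_div_cancel_left₀ _ he'.ne', mul_div_cancel_left₀ _ he'.ne']
  have hfib : ∀ x0 ∈ T, ((T.filter (fun x => ∀ i ∈ F, x i = x0 i)).card : ℝ) ≤
      C2 * tw (ε * (L + E)) * ((1 + C2 * tw ((e + 2) * E)) * tw (max 0 y)) ^ S.d := by
    intro x0 hx0
    set T0 := T.filter (fun x => ∀ i ∈ F, x i = x0 i) with hT0
    set α := mon ex (A \ I) x0 with hα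
    set β := mon ex (B \ J) x0 with hβ
    set γ := mon ex (C \ H) x0 with hγ
    have hT0T : ∀ x ∈ T0, x ∈ T := fun x hx => (Finset.mem_filter.1 hx).1
    have hA : ∀ x ∈ T0, mon ex A x = α * mon ex' I x ^ e := by
      intro x hx
      rw [mon_split ex hI, mon_root ex e hIe,
        mon_congr ex (fun i hi => (Finset.mem_filter.1 hx).2 i (hAF hi))]
    have hB : ∀ x ∈ T0, mon ex B x = β * mon ex' J x ^ e := by
      intro x hx
      rw [mon_split ex hJ, mon_root ex e hJe,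
        mon_congr ex (fun i hi => (Finset.mem_filter.1 hx).2 i (hBF hi))]
    have hC : ∀ x ∈ T0, mon ex C x = γ * mon ex H x := by
      intro x hx
      rw [mon_split ex hH, mon_congr ex (fun i hi => (Finset.mem_filter.1 hx).2 i (hCF hi))]
    have hx00 : x0 ∈ T0 := Finset.mem_filter.2 ⟨hx0, fun _ _ => rfl⟩
    let f : (ι → R) → R × R := fun x => (mon ex' I x, mon ex' J x)
    have hinj : Set.InjOn f T0 := by
      intro x hx x' hx' h
      have h1 : mon ex' I x = mon ex' I x' := congrArg Prod.fst h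
      have h2 : mon ex' J x = mon ex' J x' := congrArg Prod.snd h
      apply hbox.inj x (hT0T x hx) x' (hT0T x' hx')
      · rw [hA x hx, hA x' hx', h1]
      · rw [hB x hx, hB x' hx', h2]
    rw [← Finset.card_image_of_injOn hinj]
    have hα0 : α ≠ 0 := S.mon_ne ex n _ x0 (hbox.lo x0 hx0)
    have hγ0 : γ ≠ 0 := S.mon_ne ex n _ x0 (hbox.lo x0 hx0)
    have hαγ : IsCoprime α γ := (hbox.cAC x0 hx0).mono
      ⟨_, hA x0 hx00⟩ ⟨_, hC x0 hx00⟩
    have hβγ : IsCoprime β γ := (hbox.cBC x0 hx0).mono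
      ⟨_, hB x0 hx00⟩ ⟨_, hC x0 hx00⟩
    have h1 := hpair α β γ hα0 hγ0 hαγ hβγ (tw u) (tw v) (tw (v + E)) (tw (wt ex n C + E))
      (tw_pos _) (tw_pos _) (tw_pos _) (tw_pos _).le (T0.image f) (by
        intro q hq
        obtain ⟨x, hx, rfl⟩ := Finset.mem_image.1 hq
        have hxT := hT0T x hx
        have hdU : mon ex' I x ∣ mon ex A x := by
          rw [hA x hx]; exact (dvd_pow_self _ (by omega)).mul_left _
        have hdV : mon ex' J x ∣ mon ex B x := by
          rw [hB x hx]; exact (dvd_pow_self _ (by omega)).mul_left _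
        have hsum : α * mon ex' I x ^ e + β * mon ex' J x ^ e = -mon ex C x := by
          rw [← hA x hx, ← hB x hx]
          linear_combination hbox.sum x hxT
        refine ⟨(hbox.cAB x hxT).mono hdU hdV, (hbox.cBC x hxT).mono hdV ⟨_, hC x hx⟩, ?_,
          S.mon_lo ex' n I x (hbox.lo x hxT), S.mon_lo ex' n J x (hbox.lo x hxT), ?_, ?_⟩
        · simp only [f]
          rw [hsum, hC x hx]; exact (dvd_mul_right _ _).neg_right
        · refine (S.mon_hi ex' n J x (hbox.hi x hxT)).trans (tw_mono ?_)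
          have := tot_div_le ex e
          linarith
        · simp only [f]
          rw [hsum, S.N_neg]; exact S.mon_hi ex n C x (hbox.hi x hxT))
    refine h1.trans ?_
    have hNγ := S.mon_lo ex n (C \ H) x0 (hbox.lo x0 hx0)
    have hNα := S.mon_lo ex n (A \ I) x0 (hbox.lo x0 hx0)
    have hNγ' := S.mon_hi ex n (C \ H) x0 (hbox.hi x0 hx0)
    have hsA := wt_split ex n hI
    have hsC := wt_split ex n hH
    have hH0 := wt_nonneg ex n H
    have h2 : S.N γ ^ ε ≤ tw (ε * (L + E)) := by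
      rw [mul_comm, ← tw_rpow]
      exact Real.rpow_le_rpow (S.N_nonneg _) (hNγ'.trans (tw_mono (by linarith))) hε.le
    have h3 : tw (wt ex n C + E) * tw (v + E) ^ (e + 1) /
        (S.N α * tw v ^ e * tw u ^ (e - 1) * S.N γ) ≤ tw ((e + 2) * E + y) := by
      have h4 : tw (wt ex n (A \ I)) * tw v ^ e * tw u ^ (e - 1) * tw (wt ex n (C \ H)) ≤
          S.N α * tw v ^ e * tw u ^ (e - 1) * S.N γ := by
        have := tw_pos u
        have := tw_pos v
        have := tw_pos (wt ex n (A \ I))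
        have := tw_pos (wt ex n (C \ H))
        have := S.N_nonneg α
        gcongr
      have h5 : 0 < tw (wt ex n (A \ I)) * tw v ^ e * tw u ^ (e - 1) * tw (wt ex n (C \ H)) := by
        have := tw_pos u
        have := tw_pos v
        have := tw_pos (wt ex n (A \ I))
        have := tw_pos (wt ex n (C \ H))
        positivity
      refine (div_le_div_of_nonneg_left (by
        have := tw_pos (wt ex n C + E)
        have := tw_pos (v + E)
        positivity) h5 h4).trans (le_of_eq ?_)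
      simp only [tw_pow, ← tw_add, ← tw_sub]
      congr 1
      rw [Nat.cast_sub he, hy']
      push_cast
      linear_combination hsC + hsA + hu'
    have h6 := one_add_le C2 ((e + 2) * E) y (by linarith)
    have h7 : 0 ≤ tw (wt ex n C + E) * tw (v + E) ^ (e + 1) /
        (S.N α * tw v ^ e * tw u ^ (e - 1) * S.N γ) := by
      have := tw_pos u
      have := tw_pos v
      have := tw_pos (wt ex n C + E)
      have := tw_pos (v + E)
      have := S.N_nonneg α
      have := S.N_nonneg γ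
      positivity
    have h8 := tw_pos (ε * (L + E))
    apply mul_le_mul (mul_le_mul_of_nonneg_left h2 (by linarith)) _ (by positivity) (by positivity)
    apply pow_le_pow_left₀ (by positivity)
    refine le_trans ?_ h6
    have := mul_le_mul_of_nonneg_left h3 (show 0 ≤ C2 by linarith)
    linarith
  have h9 := S.card_le_res n T F _ (by
    have := tw_pos (ε * (L + E))
    have := tw_pos ((e + 2) * E)
    have := tw_pos (max 0 y)
    positivity) hbox.hi hfib
  refine h9.trans (le_of_eq ?_)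
  rw [mul_pow, tw_pow, mul_add ε, mul_add (S.d : ℝ), tw_add, tw_add, tw_add]
  ring

end Setup

end Pool.Agent.P.MP_dc323a_nt
end

-- part Pool.Agent.P.MP_dc323a_nt.ToolF
section

set_option autoImplicit false

namespace Pool.Agent.P.MP_dc323a_nt

open Finset

theorem card_sq_le {α β : Type*} [DecidableEq β] (T : Finset α) (f : α → β) :
    (T.card : ℝ) ^ 2 ≤ ((T.image f).card : ℝ) *
      (((T ×ˢ T).filter (fun q => f q.1 = f q.2)).card : ℝ) := by
  have h1 := Finset.card_eq_sum_card_fiberwise (s := T) (t := T.image f) (f := f)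
    (fun a ha => Finset.mem_image_of_mem _ ha)
  have h2 := Finset.card_eq_sum_card_fiberwise
    (s := (T ×ˢ T).filter (fun q => f q.1 = f q.2)) (t := T.image f) (f := fun q => f q.1)
    (fun a ha => Finset.mem_image_of_mem _ (Finset.mem_product.1 (Finset.mem_filter.1 ha).1).1)
  have h3 : ∀ b, (((T ×ˢ T).filter (fun q => f q.1 = f q.2)).filter (fun q => f q.1 = b)).card =
      (T.filter (fun a => f a = b)).card ^ 2 := by
    intro b
    rw [pow_two, ← Finset.card_product]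
    congr 1
    ext q
    simp only [Finset.mem_filter, Finset.mem_product]
    constructor
    · rintro ⟨⟨⟨h1, h2⟩, h3⟩, h4⟩
      exact ⟨⟨h1, h4⟩, h2, h3 ▸ h4⟩
    · rintro ⟨⟨h1, h4⟩, h2, h3⟩
      exact ⟨⟨⟨h1, h2⟩, h4.trans h3.symm⟩, h4⟩
  simp_rw [h3] at h2
  rw [h2, h1]
  push_cast
  exact sq_sum_le_card_mul_sum_sq

theorem shift_roots {R : Type*} [CommRing R] [IsDomain R] (e : ℕ) (he : 2 ≤ e) (he0 : (e : R) ≠ 0)
    (α δ m : R) (hα : α ≠ 0) (hδ : δ ≠ 0) (V : Finset R)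
    (h : ∀ U ∈ V, α * (U ^ e - (U - δ) ^ e) = m) : V.card ≤ e := by
  classical
  let p : Polynomial R := Polynomial.C α * (Polynomial.X ^ e - (Polynomial.X - Polynomial.C δ) ^ e)
    - Polynomial.C m
  have hp : p ≠ 0 := by
    intro h0
    have h1 : (Polynomial.derivative p).eval 0 = 0 := by rw [h0]; simp
    obtain ⟨k, rfl⟩ : ∃ k, e = k + 2 := ⟨e - 2, by omega⟩
    simp only [p, Polynomial.derivative_sub, Polynomial.derivative_mul, Polynomial.derivative_C,
      Polynomial.derivative_pow, Polynomial.derivative_X] at h1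
    simp [hα, hδ] at h1
    apply he0
    push_cast
    exact h1
  have hdeg : p.natDegree ≤ e := by
    simp only [p]
    refine (Polynomial.natDegree_sub_le _ _).trans (max_le ?_ (by simp))
    refine (Polynomial.natDegree_C_mul_le _ _).trans ?_
    refine (Polynomial.natDegree_sub_le _ _).trans (max_le (by simp) ?_)
    refine Polynomial.natDegree_pow_le.trans ?_
    rw [Polynomial.natDegree_X_sub_C, mul_one]
  refine le_trans (Polynomial.card_le_degree_of_subset_roots (p := p) ?_) hdeg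
  intro U hU
  rw [Polynomial.mem_roots hp]
  simp [p, h U hU]

theorem le_of_sq_le {x s o : ℝ} (hx : 0 ≤ x) (hs : 0 ≤ s) (ho : 0 ≤ o)
    (h : x ^ 2 ≤ s * (x + o)) : x ≤ 2 * s ∨ x ^ 2 ≤ 2 * s * o := by
  by_contra hc
  push Not at hc
  obtain ⟨h1, h2⟩ := hc
  nlinarith

namespace Setup

variable {R : Type} [CommRing R] [IsDomain R] [IsPrincipalIdealRing R] (S : Setup R)
variable {ι : Type} [Fintype ι] [DecidableEq ι]

theorem toolF (ex : ι → ℕ) (e : ℕ) (he : 2 ≤ e) (ε : ℝ) (hε : 0 < ε) : ∃ K : ℝ, 0 < K ∧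
    ∀ (A B C : Finset ι) (n : ι → ℕ) (T : Finset (ι → R)) (L : ℝ), S.Box ex A B C n T →
      0 ≤ L → wt ex n B ≤ L → ∀ I F : Finset ι, I ⊆ A → (∀ i ∈ I, e ∣ ex i) → A \ I ⊆ F → C ⊆ F →
      (T.card : ℝ) ≤ K * tw (ε * L + S.d * max (ms n F) (ms n F / 2 + ms n B)) := by
  classical
  obtain ⟨C2, hC2, hdiv⟩ := S.divisor_bound ε hε
  set E := tot ex with hE
  have hE0 : 0 ≤ E := tot_nonneg ex
  have hC1 := S.one_le_C1
  set K0 : ℝ := S.C1 ^ Fintype.card ι with hK0
  have hK01 : 1 ≤ K0 := one_le_pow₀ hC1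
  set K1 : ℝ := C2 * tw (ε * (E + 1)) with hK1
  have hK11 : 1 ≤ K1 := by
    have := one_le_tw (x := ε * (E + 1)) (by positivity)
    rw [hK1]; nlinarith
  have he1 : (1 : ℝ) ≤ e := by exact_mod_cast (show 1 ≤ e by omega)
  refine ⟨2 * K0 ^ 2 * K1 * e, by positivity, ?_⟩
  intro A B C n T L hbox hL0 hL I F hI hIe hAF hCF
  set ex' : ι → ℕ := fun i => ex i / e with hex'
  have hA : ∀ x : ι → R, mon ex A x = mon ex (A \ I) x * mon ex' I x ^ e := by
    intro x
    rw [mon_split ex hI, mon_root ex e hIe]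
  have h1 := card_sq_le T (res F)
  have h2 := S.card_res n T F hbox.hi
  set Pi := (T ×ˢ T).filter (fun q => res F q.1 = res F q.2) with hPi
  set Po := Pi.filter (fun q => q.1 ≠ q.2) with hPo
  have h3 : (Pi.card : ℝ) ≤ T.card + Po.card := by
    have h4 := Finset.card_filter_add_card_filter_not (s := Pi) (fun q => q.1 = q.2)
    have h5 : (Pi.filter (fun q => q.1 = q.2)).card ≤ T.card := by
      apply Finset.card_le_card_of_injOn (fun q => q.1)
      · intro q hq
        exact (Finset.mem_product.1 (Finset.mem_filter.1 (Finset.mem_filter.1 hq).1).1).1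
      · intro q hq q' hq' h
        have h6 := (Finset.mem_filter.1 hq).2
        have h7 := (Finset.mem_filter.1 hq').2
        have h8 : q.1 = q'.1 := h
        exact Prod.ext h8 (by rw [← h6, ← h7, h8])
    have : Pi.card ≤ T.card + Po.card := by rw [← h4]; exact Nat.add_le_add_right h5 _
    exact_mod_cast this
  have hPo' : ∀ q ∈ Po, q.1 ∈ T ∧ q.2 ∈ T ∧ (∀ i ∈ F, q.1 i = q.2 i) ∧ q.1 ≠ q.2 := by
    intro q hq
    have h4 := Finset.mem_filter.1 hq
    have h5 := Finset.mem_filter.1 h4.1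
    have h6 := Finset.mem_product.1 h5.1
    exact ⟨h6.1, h6.2, (res_eq_iff F _ _).1 h5.2, h4.2⟩
  set Bv := T.image (mon ex B) with hBv
  have hBv' : (Bv.card : ℝ) ≤ K0 * tw (S.d * ms n B) := by
    refine le_trans ?_ (S.card_res n T B hbox.hi)
    have : Bv = (T.image (res B)).image (mon ex B) := by
      rw [Finset.image_image, hBv]
      refine Finset.image_congr (fun x _ => ?_)
      exact mon_congr ex (fun i hi => by simp [res, hi])
    rw [this]
    exact_mod_cast Finset.card_image_le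
  have h4 : (Po.card : ℝ) ≤ (Bv ×ˢ Bv).card * ((K1 * tw (ε * L)) ^ 2 * e) := by
    apply card_le_of_fibers Po (Bv ×ˢ Bv) (fun q => (mon ex B q.1, mon ex B q.2))
    · intro q hq
      obtain ⟨a, b, -, -⟩ := hPo' q hq
      exact Finset.mem_product.2 ⟨Finset.mem_image_of_mem _ a, Finset.mem_image_of_mem _ b⟩
    rintro ⟨b, b'⟩ _
    set P1 := Po.filter (fun q => (mon ex B q.1, mon ex B q.2) = (b, b')) with hP1
    rcases P1.eq_empty_or_nonempty with h | ⟨q0, hq0⟩
    · rw [h]; simp only [Finset.card_empty, Nat.cast_zero]; positivity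
    have hP1' : ∀ q ∈ P1, q ∈ Po ∧ mon ex B q.1 = b ∧ mon ex B q.2 = b' := by
      intro q hq
      have := Finset.mem_filter.1 hq
      exact ⟨this.1, congrArg Prod.fst this.2, congrArg Prod.snd this.2⟩
    have hαα : ∀ q ∈ Po, mon ex (A \ I) q.1 = mon ex (A \ I) q.2 := fun q hq =>
      mon_congr ex (fun i hi => (hPo' q hq).2.2.1 i (hAF hi))
    have heq : ∀ q ∈ P1, mon ex (A \ I) q.1 * (mon ex' I q.1 ^ e - mon ex' I q.2 ^ e) = b' - b := by
      intro q hq
      obtain ⟨hq1, hb, hb'⟩ := hP1' q hq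
      obtain ⟨a1, a2, a3, -⟩ := hPo' q hq1
      have hC : mon ex C q.1 = mon ex C q.2 := mon_congr ex (fun i hi => a3 i (hCF hi))
      have s1 := hbox.sum _ a1
      have s2 := hbox.sum _ a2
      rw [hA, hb] at s1
      rw [hA, hb', ← hαα q hq1] at s2
      linear_combination s1 - s2 - hC
    have hUU : ∀ q ∈ P1, mon ex' I q.1 - mon ex' I q.2 ≠ 0 := by
      intro q hq h0
      obtain ⟨hq1, hb, hb'⟩ := hP1' q hq
      obtain ⟨a1, a2, -, a4⟩ := hPo' q hq1
      have h5 := heq q hq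
      rw [sub_eq_zero.1 h0, sub_self, mul_zero] at h5
      apply a4
      apply hbox.inj _ a1 _ a2
      · rw [hA, hA, hαα q hq1, sub_eq_zero.1 h0]
      · rw [hb, hb']; exact (sub_eq_zero.1 h5.symm).symm
    have hm : b' - b ≠ 0 := by
      intro h0
      obtain ⟨hq1, hb, hb'⟩ := hP1' q0 hq0
      obtain ⟨a1, a2, a3, a4⟩ := hPo' q0 hq1
      have hC : mon ex C q0.1 = mon ex C q0.2 := mon_congr ex (fun i hi => a3 i (hCF hi))
      apply a4
      apply hbox.inj _ a1 _ a2
      · linear_combination hbox.sum _ a1 - hbox.sum _ a2 - hC - hb + hb' + h0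
      · rw [hb, hb']; exact (sub_eq_zero.1 h0).symm
    have hNm : S.N (b' - b) ≤ tw (L + (E + 1)) := by
      obtain ⟨hq1, hb, hb'⟩ := hP1' q0 hq0
      obtain ⟨a1, a2, -, -⟩ := hPo' q0 hq1
      have t1 := S.mon_hi ex n B _ (hbox.hi _ a1)
      have t2 := S.mon_hi ex n B _ (hbox.hi _ a2)
      rw [hb] at t1
      rw [hb'] at t2
      have t3 : tw (wt ex n B + tot ex) ≤ tw (L + E) := tw_mono (by linarith)
      have t4 := S.N_sub_le b' b
      rw [← add_assoc, tw_add _ 1, tw_one]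
      linarith
    set Dv := (S.ball (S.N (b' - b))).filter (fun z => z ∣ b' - b) with hDv
    have hDv' : (Dv.card : ℝ) ≤ K1 * tw (ε * L) := by
      refine (hdiv _ hm Dv (fun z hz => (Finset.mem_filter.1 hz).2)).trans ?_
      rw [hK1, mul_assoc, ← tw_add]
      apply mul_le_mul_of_nonneg_left _ (by linarith)
      have : ε * (E + 1) + ε * L = (L + (E + 1)) * ε := by ring
      rw [this, ← tw_rpow]
      exact Real.rpow_le_rpow (S.N_nonneg _) hNm hε.le
    have hmem : ∀ z, z ∣ b' - b → z ∈ Dv := fun z hz =>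
      Finset.mem_filter.2 ⟨S.mem_ball.2 (S.N_le_of_dvd hm hz), hz⟩
    have h5 := card_le_of_fibers P1 (Dv ×ˢ Dv)
      (fun q => (mon ex (A \ I) q.1, mon ex' I q.1 - mon ex' I q.2)) e
      (fun q hq => Finset.mem_product.2 ⟨hmem _ ⟨_, (heq q hq).symm⟩, hmem _ (by
        rw [← heq q hq]; exact (sub_dvd_pow_sub_pow _ _ e).mul_left _)⟩)
      (by
        rintro ⟨α, δ⟩ _
        set P2 := P1.filter (fun q =>
          (mon ex (A \ I) q.1, mon ex' I q.1 - mon ex' I q.2) = (α, δ)) with hP2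
        have hP2' : ∀ q ∈ P2, q ∈ P1 ∧ mon ex (A \ I) q.1 = α ∧
            mon ex' I q.1 - mon ex' I q.2 = δ := by
          intro q hq
          have := Finset.mem_filter.1 hq
          exact ⟨this.1, congrArg Prod.fst this.2, congrArg Prod.snd this.2⟩
        rcases P2.eq_empty_or_nonempty with h | ⟨q1, hq1⟩
        · rw [h]; simp
        have hinj : Set.InjOn (fun q : (ι → R) × (ι → R) => mon ex' I q.1) P2 := by
          intro q hq q' hq' h
          have h' : mon ex' I q.1 = mon ex' I q'.1 := h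
          obtain ⟨b1, b2, b3⟩ := hP2' q hq
          obtain ⟨c1, c2, c3⟩ := hP2' q' hq'
          obtain ⟨d1, d2, d3⟩ := hP1' q b1
          obtain ⟨e1, e2, e3⟩ := hP1' q' c1
          have h'' : mon ex' I q.2 = mon ex' I q'.2 := by linear_combination h' - b3 + c3
          refine Prod.ext ?_ ?_
          · apply hbox.inj _ (hPo' q d1).1 _ (hPo' q' e1).1
            · rw [hA, hA, b2, c2, h']
            · rw [d2, e2]
          · apply hbox.inj _ (hPo' q d1).2.1 _ (hPo' q' e1).2.1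
            · rw [hA, hA, ← hαα q d1, ← hαα q' e1, b2, c2, h'']
            · rw [d3, e3]
        rw [← Finset.card_image_of_injOn hinj]
        obtain ⟨b1, b2, b3⟩ := hP2' q1 hq1
        have hα0 : α ≠ 0 := by
          rw [← b2]; exact S.mon_ne ex n _ _ (hbox.lo _ (hPo' q1 (hP1' q1 b1).1).1)
        have hδ0 : δ ≠ 0 := by rw [← b3]; exact hUU q1 b1
        have := shift_roots e he (S.natCast_ne_zero (by omega)) α δ (b' - b) hα0 hδ0
          (P2.image (fun q : (ι → R) × (ι → R) => mon ex' I q.1)) (by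
            intro U hU
            obtain ⟨q, hq, rfl⟩ := Finset.mem_image.1 hU
            obtain ⟨c1, c2, c3⟩ := hP2' q hq
            rw [← heq q c1, c2, ← c3, sub_sub_cancel])
        exact_mod_cast this)
    refine h5.trans (mul_le_mul_of_nonneg_right ?_ (by positivity))
    rw [Finset.card_product, pow_two]
    push_cast
    exact mul_le_mul hDv' hDv' (by positivity) (le_trans (by positivity) hDv')
  have h6 : (Po.card : ℝ) ≤ (K0 * tw (S.d * ms n B)) ^ 2 * ((K1 * tw (ε * L)) ^ 2 * e) := by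
    refine h4.trans (mul_le_mul_of_nonneg_right ?_ (by positivity))
    rw [Finset.card_product, pow_two]
    push_cast
    exact mul_le_mul hBv' hBv' (by positivity) (le_trans (by positivity) hBv')
  have p1 := tw_pos (S.d * ms n F)
  have p2 := tw_pos (S.d * ms n B)
  have p3 := tw_pos (ε * L)
  have h7 : (T.card : ℝ) ^ 2 ≤ (K0 * tw (S.d * ms n F)) *
      (T.card + (K0 * tw (S.d * ms n B)) ^ 2 * ((K1 * tw (ε * L)) ^ 2 * e)) :=
    h1.trans (mul_le_mul h2 (h3.trans (by linarith)) (by positivity) (by positivity))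
  have hd : (0 : ℝ) ≤ S.d := by positivity
  rcases le_of_sq_le (by positivity) (by positivity) (by positivity) h7 with h | h
  · refine h.trans ?_
    have t1 : tw (S.d * ms n F) ≤ tw (ε * L + S.d * max (ms n F) (ms n F / 2 + ms n B)) := by
      apply tw_mono
      have := mul_le_mul_of_nonneg_left (le_max_left (ms n F) (ms n F / 2 + ms n B)) hd
      have : 0 ≤ ε * L := by positivity
      linarith
    have t2 : 2 * K0 ≤ 2 * K0 ^ 2 * K1 * e := by
      have : K0 ≤ K0 ^ 2 := by nlinarith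
      have : 1 ≤ K1 * e := by nlinarith
      nlinarith
    calc 2 * (K0 * tw (S.d * ms n F)) = (2 * K0) * tw (S.d * ms n F) := by ring
      _ ≤ _ := mul_le_mul t2 t1 p1.le (by positivity)
  · have t1 : tw (ε * L + S.d * (ms n F / 2 + ms n B)) ≤
        tw (ε * L + S.d * max (ms n F) (ms n F / 2 + ms n B)) := by
      apply tw_mono
      have := mul_le_mul_of_nonneg_left (le_max_right (ms n F) (ms n F / 2 + ms n B)) hd
      linarith
    refine le_trans ?_ (mul_le_mul_of_nonneg_left t1 (by positivity))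
    have p4 := tw_pos (ε * L + S.d * (ms n F / 2 + ms n B))
    apply le_of_sq_le_sq _ (by positivity)
    refine h.trans ?_
    have t2 : tw (ε * L + S.d * (ms n F / 2 + ms n B)) ^ 2 =
        tw (S.d * ms n F) * tw (S.d * ms n B) ^ 2 * tw (ε * L) ^ 2 := by
      simp only [tw_pow, ← tw_add]
      congr 1
      push_cast
      ring
    rw [mul_pow (2 * K0 ^ 2 * K1 * e), t2]
    have t3 : 2 * K0 ^ 3 * K1 ^ 2 * e ≤ (2 * K0 ^ 2 * K1 * e) ^ 2 := by
      have t4 : (2 * K0 ^ 2 * K1 * e) ^ 2 = (2 * K0 ^ 3 * K1 ^ 2 * e) * (2 * K0 * e) := by ring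
      rw [t4]
      apply le_mul_of_one_le_right (by positivity)
      nlinarith
    calc 2 * (K0 * tw (S.d * ms n F)) *
          ((K0 * tw (S.d * ms n B)) ^ 2 * ((K1 * tw (ε * L)) ^ 2 * e))
        = (2 * K0 ^ 3 * K1 ^ 2 * e) *
          (tw (S.d * ms n F) * tw (S.d * ms n B) ^ 2 * tw (ε * L) ^ 2) := by ring
      _ ≤ _ := mul_le_mul_of_nonneg_right t3 (by positivity)

end Setup

end Pool.Agent.P.MP_dc323a_nt
end

-- part Pool.Agent.P.MP_dc323a_nt.Energy
section

set_option autoImplicit false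

namespace Pool.Agent.P.MP_dc323a_nt

open Finset

section chars

variable {G : Type} [AddCommGroup G] [Fintype G] [DecidableEq G]

omit [Fintype G] [DecidableEq G] in
theorem char_sum {ι : Type*} (ψ : AddChar G ℂ) (s : Finset ι) (a : ι → G) :
    ψ (∑ i ∈ s, a i) = ∏ i ∈ s, ψ (a i) := by
  classical
  induction s using Finset.induction_on with
  | empty => simp
  | insert i s hi ih => rw [Finset.sum_insert hi, Finset.prod_insert hi, AddChar.map_add_eq_mul, ih]

omit [Fintype G] [DecidableEq G] in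
theorem char_sum_pi {ι α : Type*} [Fintype ι] [DecidableEq ι] (ψ : AddChar G ℂ) (I : ι → Finset α)
    (f : ι → α → G) :
    ∑ x ∈ Fintype.piFinset I, ψ (∑ i, f i (x i)) = ∏ i, ∑ a ∈ I i, ψ (f i a) := by
  rw [Finset.prod_univ_sum]
  exact Finset.sum_congr rfl (fun x _ => char_sum ψ _ _)

theorem count_eq {α : Type*} (U : Finset α) (g : α → G) (t : G) :
    (Fintype.card G : ℂ) * ((U.filter (fun u => g u = t)).card : ℂ) =
      ∑ ψ : AddChar G ℂ, ψ (-t) * ∑ u ∈ U, ψ (g u) := by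
  have h1 : ∀ ψ : AddChar G ℂ, ψ (-t) * ∑ u ∈ U, ψ (g u) = ∑ u ∈ U, ψ (g u - t) := by
    intro ψ
    rw [Finset.mul_sum]
    refine Finset.sum_congr rfl (fun u _ => ?_)
    rw [← AddChar.map_add_eq_mul]; congr 1; abel
  simp_rw [h1]
  rw [Finset.sum_comm]
  simp_rw [AddChar.sum_apply_eq_ite, sub_eq_zero]
  rw [Finset.sum_ite, Finset.sum_const_zero, add_zero, Finset.sum_const, nsmul_eq_mul, mul_comm]

theorem energy_eq {α : Type*} (U : Finset α) (g : α → G) :
    ∑ ψ : AddChar G ℂ, ‖∑ u ∈ U, ψ (g u)‖ ^ 2 =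
      (Fintype.card G : ℝ) * (((U ×ˢ U).filter (fun q => g q.1 = g q.2)).card : ℝ) := by
  have h := count_eq (U ×ˢ U) (fun q => g q.1 - g q.2) 0
  simp only [sub_eq_zero, neg_zero, AddChar.map_zero_eq_one, one_mul] at h
  have h1 : ∀ ψ : AddChar G ℂ, ∑ q ∈ U ×ˢ U, ψ (g q.1 - g q.2) =
      ((‖∑ u ∈ U, ψ (g u)‖ ^ 2 : ℝ) : ℂ) := by
    intro ψ
    rw [Finset.sum_product]
    have h2 : ∀ a b : α, ψ (g a - g b) = ψ (g a) * (starRingEnd ℂ) (ψ (g b)) := by
      intro a b
      rw [sub_eq_add_neg, AddChar.map_add_eq_mul, AddChar.map_neg_eq_conj]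
    simp_rw [h2]
    rw [← Finset.sum_mul_sum, ← map_sum (starRingEnd ℂ), Complex.mul_conj, Complex.normSq_eq_norm_sq]
  simp_rw [h1] at h
  exact_mod_cast h.symm

end chars

theorem holder {ι Ψ : Type*} [Fintype ι] [Fintype Ψ] (F : ι → Ψ → ℝ) (θ A : ι → ℝ)
    (hF : ∀ i ψ, 0 ≤ F i ψ) (hθ : ∀ i, 0 ≤ θ i) (hs : ∑ i, θ i ≤ 1) (hA : ∀ i, 0 < A i)
    (hFA : ∀ i, ∑ ψ, F i ψ ≤ Fintype.card Ψ * A i) :
    ∑ ψ, ∏ i, F i ψ ^ θ i ≤ Fintype.card Ψ * ∏ i, A i ^ θ i := by
  have h1 : ∀ ψ, ∏ i, F i ψ ^ θ i ≤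
      (∏ i, A i ^ θ i) * ((1 - ∑ i, θ i) + ∑ i, θ i * (F i ψ / A i)) := by
    intro ψ
    have h2 := Real.geom_mean_le_arith_mean_weighted (Finset.univ : Finset (Option ι))
      (fun o => o.elim (1 - ∑ i, θ i) θ) (fun o => o.elim 1 (fun i => F i ψ / A i))
      (by rintro (_ | i) _
          · simp only [Option.elim]; linarith
          · exact hθ i)
      (by rw [Fintype.sum_option]; simp)
      (by rintro (_ | i) _
          · simp
          · exact div_nonneg (hF i ψ) (hA i).le)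
    rw [Fintype.prod_option, Fintype.sum_option] at h2
    simp only [Option.elim, Real.one_rpow, one_mul, mul_one] at h2
    have h3 : ∏ i, F i ψ ^ θ i = (∏ i, A i ^ θ i) * ∏ i, (F i ψ / A i) ^ θ i := by
      rw [← Finset.prod_mul_distrib]
      refine Finset.prod_congr rfl (fun i _ => ?_)
      rw [← Real.mul_rpow (hA i).le (div_nonneg (hF i ψ) (hA i).le), mul_div_cancel₀ _ (hA i).ne']
    rw [h3]
    exact mul_le_mul_of_nonneg_left h2
      (Finset.prod_nonneg (fun i _ => Real.rpow_nonneg (hA i).le _))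
  have h4 : ∑ ψ, ((1 - ∑ i, θ i) + ∑ i, θ i * (F i ψ / A i)) ≤ (Fintype.card Ψ : ℝ) := by
    rw [Finset.sum_add_distrib, Finset.sum_comm]
    have h5 : ∀ i, ∑ ψ, θ i * (F i ψ / A i) ≤ θ i * Fintype.card Ψ := by
      intro i
      rw [← Finset.mul_sum, ← Finset.sum_div]
      apply mul_le_mul_of_nonneg_left _ (hθ i)
      rw [div_le_iff₀ (hA i)]; exact hFA i
    have h6 := Finset.sum_le_sum (s := Finset.univ) (fun i _ => h5 i)
    rw [← Finset.sum_mul] at h6
    simp only [Finset.sum_const, Finset.card_univ, nsmul_eq_mul]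
    linarith
  calc ∑ ψ, ∏ i, F i ψ ^ θ i ≤ _ := Finset.sum_le_sum (fun ψ _ => h1 ψ)
    _ = (∏ i, A i ^ θ i) * ∑ ψ, ((1 - ∑ i, θ i) + ∑ i, θ i * (F i ψ / A i)) := by
        rw [Finset.mul_sum]
    _ ≤ (∏ i, A i ^ θ i) * Fintype.card Ψ := mul_le_mul_of_nonneg_left h4
        (Finset.prod_nonneg (fun i _ => Real.rpow_nonneg (hA i).le _))
    _ = _ := mul_comm _ _

theorem energy_bound {G : Type} [AddCommGroup G] [Fintype G] [DecidableEq G] {ι α : Type*}
    [Fintype ι] [DecidableEq ι] (I : ι → Finset α) (f : ι → α → G) (t : G) (k : ι → ℕ)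
    (θ M A : ι → ℝ) (hθ : ∀ i, 0 ≤ θ i) (hs : ∑ i, θ i ≤ 1) (hk : ∀ i, 2 * k i * θ i ≤ 1)
    (hM : ∀ i, ((I i).card : ℝ) ≤ M i) (hA : ∀ i, 0 < A i)
    (hE : ∀ i, ((((Fintype.piFinset (fun _ : Fin (k i) => I i)) ×ˢ
      (Fintype.piFinset (fun _ : Fin (k i) => I i))).filter
        (fun q => ∑ l, f i (q.1 l) = ∑ l, f i (q.2 l))).card : ℝ) ≤ A i) :
    (((Fintype.piFinset I).filter (fun x => ∑ i, f i (x i) = t)).card : ℝ) ≤
      ∏ i, (M i ^ (1 - 2 * k i * θ i) * A i ^ θ i) := by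
  have hG : (0 : ℝ) < Fintype.card G := by exact_mod_cast Fintype.card_pos
  let s : ι → AddChar G ℂ → ℝ := fun i ψ => ‖∑ a ∈ I i, ψ (f i a)‖
  have hs0 : ∀ i ψ, 0 ≤ s i ψ := fun i ψ => norm_nonneg _
  have hsM : ∀ i ψ, s i ψ ≤ M i := by
    intro i ψ
    refine le_trans ((norm_sum_le _ _).trans ?_) (hM i)
    simp
  have h1 := count_eq (Fintype.piFinset I) (fun x => ∑ i, f i (x i)) t
  have h2 : (Fintype.card G : ℝ) *
      (((Fintype.piFinset I).filter (fun x => ∑ i, f i (x i) = t)).card : ℝ) ≤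
      ∑ ψ : AddChar G ℂ, ∏ i, s i ψ := by
    have h3 := congrArg norm h1
    rw [norm_mul, Complex.norm_natCast, Complex.norm_natCast] at h3
    rw [h3]
    refine (norm_sum_le _ _).trans (Finset.sum_le_sum (fun ψ _ => ?_))
    rw [norm_mul, AddChar.norm_apply, one_mul, char_sum_pi, norm_prod]
  have h4 : ∀ i, ∑ ψ : AddChar G ℂ, s i ψ ^ (2 * k i) ≤ Fintype.card (AddChar G ℂ) * A i := by
    intro i
    have h5 := energy_eq (Fintype.piFinset (fun _ : Fin (k i) => I i))
      (fun u => ∑ l, f i (u l))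
    have h6 : ∀ ψ : AddChar G ℂ,
        ‖∑ u ∈ Fintype.piFinset (fun _ : Fin (k i) => I i), ψ (∑ l, f i (u l))‖ ^ 2 =
        s i ψ ^ (2 * k i) := by
      intro ψ
      rw [char_sum_pi ψ (fun _ : Fin (k i) => I i) (fun _ => f i), Finset.prod_const,
        Finset.card_univ, Fintype.card_fin, norm_pow, ← pow_mul, mul_comm]
    simp_rw [h6] at h5
    rw [h5, AddChar.card_eq]
    exact mul_le_mul_of_nonneg_left (hE i) hG.le
  have h7 := holder (fun i ψ => s i ψ ^ (2 * k i)) θ A (fun i ψ => pow_nonneg (hs0 i ψ) _) hθ hs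
    hA h4
  have hM0 : ∀ i, 0 ≤ M i := fun i => le_trans (Nat.cast_nonneg _) (hM i)
  have h8 : ∀ ψ : AddChar G ℂ, ∏ i, s i ψ ≤
      (∏ i, M i ^ (1 - 2 * k i * θ i)) * ∏ i, (s i ψ ^ (2 * k i)) ^ θ i := by
    intro ψ
    rw [← Finset.prod_mul_distrib]
    refine Finset.prod_le_prod (fun i _ => hs0 i ψ) (fun i _ => ?_)
    have h9 : s i ψ = s i ψ ^ (1 - 2 * k i * θ i) * (s i ψ ^ (2 * k i)) ^ θ i := by
      rw [← Real.rpow_natCast, ← Real.rpow_mul (hs0 i ψ), ← Real.rpow_add' (hs0 i ψ)]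
      · push_cast; simp
      · push_cast; simp
    calc s i ψ = _ := h9
      _ ≤ _ := mul_le_mul_of_nonneg_right
          (Real.rpow_le_rpow (hs0 i ψ) (hsM i ψ) (by linarith [hk i]))
          (Real.rpow_nonneg (pow_nonneg (hs0 i ψ) _) _)
  have h10 : 0 ≤ ∏ i, M i ^ (1 - 2 * k i * θ i) :=
    Finset.prod_nonneg (fun i _ => Real.rpow_nonneg (hM0 i) _)
  have h11 : ∑ ψ : AddChar G ℂ, ∏ i, s i ψ ≤
      Fintype.card G * ∏ i, (M i ^ (1 - 2 * k i * θ i) * A i ^ θ i) := by
    calc ∑ ψ : AddChar G ℂ, ∏ i, s i ψ ≤ _ := Finset.sum_le_sum (fun ψ _ => h8 ψ)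
      _ = (∏ i, M i ^ (1 - 2 * k i * θ i)) *
          ∑ ψ : AddChar G ℂ, ∏ i, (s i ψ ^ (2 * k i)) ^ θ i := by rw [Finset.mul_sum]
      _ ≤ (∏ i, M i ^ (1 - 2 * k i * θ i)) *
          (Fintype.card (AddChar G ℂ) * ∏ i, A i ^ θ i) := mul_le_mul_of_nonneg_left h7 h10
      _ = _ := by rw [AddChar.card_eq, Finset.prod_mul_distrib]; ring
  exact le_of_mul_le_mul_left (h2.trans h11) hG

end Pool.Agent.P.MP_dc323a_nt
end

-- part Pool.Agent.P.MP_dc323a_nt.ToolM
section

set_option autoImplicit false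

namespace Pool.Agent.P.MP_dc323a_nt

open Finset

theorem item_choice (ξ g c : ℝ) (hξ : 1 ≤ ξ) (hc0 : 0 ≤ c) (hc1 : c ≤ 1) (hcg : c * ξ ≤ g) :
    ∃ (k : ℕ) (θ : ℝ), 1 ≤ k ∧ 0 ≤ θ ∧ 2 * k * θ ≤ 1 ∧ θ ≤ c * ξ / g ∧ k * ξ ≤ max g ξ ∧
      (1 - 2 * k * θ) * ξ + θ * (k * ξ + max 0 (k * ξ - g)) ≤ ξ - c * ξ / 2 := by
  have hξ0 : 0 < ξ := by linarith
  have hg0 : 0 ≤ g := le_trans (by positivity) hcg
  by_cases h : ξ ≤ g
  · have hg : 0 < g := by linarith
    set k := ⌊g / ξ⌋₊ with hk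
    have hk1 : 1 ≤ k := by
      rw [hk]; apply Nat.le_floor; rw [Nat.cast_one, le_div_iff₀ hξ0]; linarith
    have hk1' : (1 : ℝ) ≤ k := by exact_mod_cast hk1
    have h1 : (k : ℝ) * ξ ≤ g := by
      have := Nat.floor_le (show 0 ≤ g / ξ by positivity)
      rwa [← hk, le_div_iff₀ hξ0] at this
    have h2 : g ≤ 2 * k * ξ := by
      have := (Nat.lt_floor_add_one (g / ξ)).le
      rw [← hk, div_le_iff₀ hξ0] at this
      nlinarith
    have h3 : 2 * (k : ℝ) * (c / (2 * k)) = c := by field_simp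
    refine ⟨k, c / (2 * k), hk1, by positivity, by rw [h3]; exact hc1, ?_,
      h1.trans (le_max_left _ _), ?_⟩
    · rw [div_le_div_iff₀ (by positivity) hg]
      nlinarith
    · rw [h3, max_eq_left (by linarith), add_zero]
      have : c / (2 * k) * (k * ξ) = c * ξ / 2 := by field_simp
      rw [this]; linarith
  · push Not at h
    rcases hg0.eq_or_lt with hg | hg
    · have hc : c = 0 := by
        have : c * ξ ≤ 0 := by linarith
        nlinarith
      refine ⟨1, 0, le_rfl, le_rfl, by simp, by simp [hc], by simp, by simp [hc]⟩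
    · refine ⟨1, c * ξ / (2 * g), le_rfl, by positivity, ?_, ?_, by simp, ?_⟩
      · have : 2 * ((1 : ℕ) : ℝ) * (c * ξ / (2 * g)) = c * ξ / g := by
          push_cast; field_simp
        rw [this, div_le_one hg]; exact hcg
      · apply div_le_div_of_nonneg_left (by positivity) hg; linarith
      · rw [Nat.cast_one, one_mul, max_eq_right (by linarith)]
        have : c * ξ / (2 * g) * g = c * ξ / 2 := by field_simp
        nlinarith

section units

variable {R : Type} [CommRing R]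

open Classical in
/-- The class of an element in the unit group of a quotient ring. -/
noncomputable def un (γ a : R) : (R ⧸ Ideal.span {γ})ˣ :=
  if h : IsUnit (Ideal.Quotient.mk (Ideal.span {γ}) a) then h.unit else 1

theorem un_val {γ a : R} (h : IsCoprime a γ) :
    (un γ a : R ⧸ Ideal.span {γ}) = Ideal.Quotient.mk (Ideal.span {γ}) a := by
  have hu : IsUnit (Ideal.Quotient.mk (Ideal.span {γ}) a) := by
    obtain ⟨u, v, huv⟩ := h
    refine IsUnit.of_mul_eq_one (Ideal.Quotient.mk _ u) ?_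
    rw [← map_mul, ← map_one (Ideal.Quotient.mk (Ideal.span {γ})), Ideal.Quotient.eq,
      Ideal.mem_span_singleton]
    exact ⟨-v, by linear_combination huv⟩
  simp [un, hu]

end units

namespace Setup

variable {R : Type} [CommRing R] [IsDomain R] [IsPrincipalIdealRing R] (S : Setup R)

omit [IsDomain R] [IsPrincipalIdealRing R] in
include S in
theorem finite_quot {γ : R} (hγ : γ ≠ 0) : Finite (R ⧸ Ideal.span {γ}) := by
  have : Finite {x : R | S.N x ≤ S.N γ} := S.finite_ball _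
  refine Finite.of_surjective
    (fun x : {x : R | S.N x ≤ S.N γ} => Ideal.Quotient.mk (Ideal.span {γ}) x.1) ?_
  intro q
  obtain ⟨x, rfl⟩ := Ideal.Quotient.mk_surjective q
  obtain ⟨y, h1, h2⟩ := S.rep γ hγ x
  refine ⟨⟨y, h2⟩, ?_⟩
  simp only
  rw [eq_comm, Ideal.Quotient.eq, Ideal.mem_span_singleton]
  exact h1

theorem energy_count (e : ℕ) (he : 1 ≤ e) (ε : ℝ) (hε : 0 < ε) : ∃ K : ℝ, 1 ≤ K ∧
    ∀ (γ : R) (g g' ξ : ℝ) (k : ℕ) (I : Finset R), tw g ≤ S.N γ → S.N γ ≤ tw g' →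
      (∀ a ∈ I, a ≠ 0 ∧ S.N a ≤ tw ξ ∧ IsCoprime a γ) →
      ∀ P : Finset ((Fin k → R) × (Fin k → R)),
        (∀ q ∈ P, (∀ l, q.1 l ∈ I) ∧ (∀ l, q.2 l ∈ I) ∧
          γ ∣ (∏ l, q.1 l) ^ e - (∏ l, q.2 l) ^ e) →
        (P.card : ℝ) ≤ (I.card : ℝ) ^ k * (K ^ (k + 1) *
          tw (ε * (k * (k * ξ) + g') + S.d * max 0 (k * ξ - g))) := by
  classical
  obtain ⟨C2, hC2, hdiv⟩ := S.divisor_bound ε hε
  obtain ⟨C3, hC3, hcong⟩ := S.cong_bound e he ε hε
  have he' : (1 : ℝ) ≤ e := by exact_mod_cast he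
  set K : ℝ := C2 * (C3 * (1 + e) ^ S.d) with hK
  have hK3 : 1 ≤ C3 * (1 + e) ^ S.d := by
    have : (1 : ℝ) ≤ (1 + e) ^ S.d := one_le_pow₀ (by linarith)
    nlinarith
  have hK1 : C2 ≤ K := by rw [hK]; nlinarith
  have hK2 : C3 * (1 + e) ^ S.d ≤ K := by rw [hK]; nlinarith
  refine ⟨K, by linarith, ?_⟩
  intro γ g g' ξ k I hg hg' hI P hP
  have hγN : 0 < S.N γ := lt_of_lt_of_le (tw_pos _) hg
  have hγ : γ ≠ 0 := S.ne_zero_of_N_pos hγN
  have hprod : ∀ y : Fin k → R, (∀ l, y l ∈ I) → (∏ l, y l) ≠ 0 ∧ S.N (∏ l, y l) ≤ tw (k * ξ) ∧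
      IsCoprime (∏ l, y l) γ := by
    intro y hy
    refine ⟨Finset.prod_ne_zero_iff.2 (fun l _ => (hI _ (hy l)).1), ?_,
      IsCoprime.prod_left (fun l _ => (hI _ (hy l)).2.2)⟩
    rw [S.N_prod, ← tw_pow]
    calc ∏ l, S.N (y l) ≤ ∏ _l : Fin k, tw ξ :=
          Finset.prod_le_prod (fun l _ => S.N_nonneg _) (fun l _ => (hI _ (hy l)).2.1)
      _ = _ := by simp
  have h1 := card_le_of_fibers P (Fintype.piFinset (fun _ : Fin k => I)) (fun q => q.2)
    (K ^ (k + 1) * tw (ε * (k * (k * ξ) + g') + S.d * max 0 (k * ξ - g)))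
    (fun q hq => Fintype.mem_piFinset.2 (hP q hq).2.1) (by
      intro y' hy'
      have hy'' := hprod y' (Fintype.mem_piFinset.1 hy')
      set P1 := P.filter (fun q => q.2 = y') with hP1
      set Z := P1.image (fun q => ∏ l, q.1 l) with hZ
      have hZc : (Z.card : ℝ) ≤ K * tw (ε * g' + S.d * max 0 (k * ξ - g)) := by
        have h2 := hcong γ hγ ((∏ l, y' l) ^ e) hy''.2.2.pow_left (tw (k * ξ)) (tw_pos _).le Z
          (by
            intro z hz
            obtain ⟨q, hq, rfl⟩ := Finset.mem_image.1 hz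
            exact (hprod _ (hP q (Finset.mem_filter.1 hq).1).1).2.1)
          (by
            intro z hz
            obtain ⟨q, hq, rfl⟩ := Finset.mem_image.1 hz
            have := (hP q (Finset.mem_filter.1 hq).1).2.2
            rwa [(Finset.mem_filter.1 hq).2] at this)
        refine h2.trans ?_
        have h3 : S.N γ ^ ε ≤ tw (ε * g') := by
          rw [mul_comm, ← tw_rpow]
          exact Real.rpow_le_rpow hγN.le hg' hε.le
        have h4 : 1 + e * tw (k * ξ) / S.N γ ≤ (1 + e) * tw (max 0 (k * ξ - g)) := by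
          have h5 := one_add_le e 0 (k * ξ - g) (by linarith)
          rw [zero_add, tw_zero, mul_one, tw_sub] at h5
          refine le_trans ?_ h5
          have h6 : tw (k * ξ) / S.N γ ≤ tw (k * ξ) / tw g :=
            div_le_div_of_nonneg_left (tw_pos _).le (tw_pos _) hg
          rw [mul_div_assoc]
          nlinarith
        have h7 : (1 + e * tw (k * ξ) / S.N γ) ^ S.d ≤
            (1 + e) ^ S.d * tw (S.d * max 0 (k * ξ - g)) := by
          rw [← tw_pow (max 0 _), ← mul_pow]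
          exact pow_le_pow_left₀ (by have := tw_pos (k * ξ); positivity) h4 _
        have p1 := tw_pos (ε * g')
        have p2 := tw_pos (S.d * max 0 (k * ξ - g))
        have p3 := tw_pos (k * ξ)
        calc C3 * S.N γ ^ ε * (1 + e * tw (k * ξ) / S.N γ) ^ S.d
            ≤ C3 * tw (ε * g') * ((1 + e) ^ S.d * tw (S.d * max 0 (k * ξ - g))) :=
              mul_le_mul (mul_le_mul_of_nonneg_left h3 (by linarith)) h7 (by positivity)
                (by positivity)
          _ = (C3 * (1 + e) ^ S.d) * tw (ε * g' + S.d * max 0 (k * ξ - g)) := by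
              rw [tw_add]; ring
          _ ≤ _ := mul_le_mul_of_nonneg_right hK2 (tw_pos _).le
      have h8 := card_le_of_fibers P1 Z (fun q => ∏ l, q.1 l) ((K * tw (ε * (k * ξ))) ^ k)
        (fun q hq => Finset.mem_image_of_mem _ hq) (by
          intro z hz
          obtain ⟨q0, hq0, hz0⟩ := Finset.mem_image.1 hz
          have hz1 := hprod _ (hP q0 (Finset.mem_filter.1 hq0).1).1
          rw [hz0] at hz1
          set Dv := (S.ball (S.N z)).filter (fun w => w ∣ z) with hDv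
          have hDv' : (Dv.card : ℝ) ≤ K * tw (ε * (k * ξ)) := by
            refine (hdiv _ hz1.1 Dv (fun w hw => (Finset.mem_filter.1 hw).2)).trans ?_
            apply mul_le_mul hK1 _ (Real.rpow_nonneg (S.N_nonneg _) _) (by linarith)
            rw [mul_comm, ← tw_rpow]
            exact Real.rpow_le_rpow (S.N_nonneg _) hz1.2.1 hε.le
          have h9 : (P1.filter (fun q => ∏ l, q.1 l = z)).card ≤
              (Fintype.piFinset (fun _ : Fin k => Dv)).card := by
            apply Finset.card_le_card_of_injOn (fun q => q.1)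
            · intro q hq
              have hq1 := (Finset.mem_filter.1 hq).2
              apply Finset.mem_coe.2
              rw [Fintype.mem_piFinset]
              intro l
              have : q.1 l ∣ z := by rw [← hq1]; exact Finset.dvd_prod_of_mem _ (Finset.mem_univ l)
              exact Finset.mem_filter.2 ⟨S.mem_ball.2 (S.N_le_of_dvd hz1.1 this), this⟩
            · intro q hq q' hq' h
              have a1 := (Finset.mem_filter.1 (Finset.mem_filter.1 hq).1).2
              have a2 := (Finset.mem_filter.1 (Finset.mem_filter.1 hq').1).2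
              exact Prod.ext h (a1.trans a2.symm)
          rw [Fintype.card_piFinset] at h9
          simp only [Finset.prod_const, Finset.card_univ, Fintype.card_fin] at h9
          have h10 : ((P1.filter (fun q => ∏ l, q.1 l = z)).card : ℝ) ≤ (Dv.card : ℝ) ^ k := by
            exact_mod_cast h9
          exact h10.trans (pow_le_pow_left₀ (by positivity) hDv' _))
      refine h8.trans ?_
      have p4 := tw_pos (ε * (k * ξ))
      have hK0 : 0 ≤ K := by linarith
      refine (mul_le_mul_of_nonneg_right hZc (by positivity)).trans (le_of_eq ?_)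
      rw [mul_pow, tw_pow, mul_add ε, add_assoc, tw_add (ε * (k * (k * ξ)))]
      have : (k : ℝ) * (ε * (k * ξ)) = ε * (k * (k * ξ)) := by ring
      rw [this]; ring)
  rw [Fintype.card_piFinset] at h1
  simp only [Finset.prod_const, Finset.card_univ, Fintype.card_fin] at h1
  exact_mod_cast h1

variable {ι : Type} [Fintype ι] [DecidableEq ι]

theorem toolM (ex : ι → ℕ) (hex : ∀ i, 1 ≤ ex i) (ε : ℝ) (hε : 0 < ε) : ∃ K : ℝ, 0 < K ∧
    ∀ (A B C : Finset ι) (n : ι → ℕ) (T : Finset (ι → R)) (L : ℝ), S.Box ex A B C n T →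
      Disjoint A B → wt ex n A ≤ L → wt ex n B ≤ L → wt ex n C ≤ L → ∀ Γ : Finset ι, Γ ⊆ C →
      (T.card : ℝ) ≤ K * tw (ε * L + S.d * (ms n Γ + (ms n A + ms n B) / 2 +
        max 0 (ms n A + ms n B - wt ex n Γ) / 2)) := by
  classical
  set N0 : ℝ := (Fintype.card ι : ℝ) with hN0
  have hN00 : 0 ≤ N0 := by positivity
  set ε' : ℝ := ε / (N0 + 1) with hε'
  have hε'0 : 0 < ε' := by positivity
  choose Kf hKf hen using fun i => S.energy_count (ex i) (hex i) ε' hε'0
  set E := tot ex with hE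
  have hE0 : 0 ≤ E := tot_nonneg ex
  have hC1 := S.one_le_C1
  set K : ℝ := S.C1 + ∑ i, Kf i with hK
  have hKs : 0 ≤ ∑ i, Kf i := Finset.sum_nonneg (fun i _ => by linarith [hKf i])
  have hK1 : S.C1 ≤ K := by linarith
  have hK2 : ∀ i, Kf i ≤ K := fun i => by
    have := Finset.single_le_sum (f := Kf) (fun i _ => by linarith [hKf i]) (Finset.mem_univ i)
    linarith
  have hK3 : 1 ≤ K := by linarith
  have hd : (0 : ℝ) ≤ S.d := by positivity
  refine ⟨S.C1 ^ Fintype.card ι * ((K ^ 2) ^ Fintype.card ι * tw (ε * (1 + E) + S.d * N0)), ?_, ?_⟩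
  · have := tw_pos (ε * (1 + E) + S.d * N0)
    positivity
  intro A B C n T L hbox hAB hLA hLB hLC Γ hΓ
  set m := ms n A + ms n B with hm
  set g := wt ex n Γ with hg
  have hg0 : 0 ≤ g := wt_nonneg ex n Γ
  have hgL : g ≤ L := by
    have := wt_split ex n hΓ
    have := wt_nonneg ex n (C \ Γ)
    linarith
  have hL0 : 0 ≤ L := hg0.trans hgL
  let J := {i // i ∈ A ∪ B}
  let ξ : J → ℝ := fun i => n i.1 + 1
  have hξ1 : ∀ i, 1 ≤ ξ i := fun i => by
    have : (0 : ℝ) ≤ n i.1 := by positivity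
    simp only [ξ]; linarith
  have hξL : ∀ i, ξ i ≤ L + 1 := by
    intro i
    have h1 : ∀ D : Finset ι, i.1 ∈ D → (n i.1 : ℝ) ≤ wt ex n D := by
      intro D hD
      have h2 := Finset.single_le_sum (f := fun j => (ex j : ℝ) * n j)
        (fun j _ => by positivity) hD
      have h3 : (1 : ℝ) ≤ ex i.1 := by exact_mod_cast hex i.1
      have h4 : (0 : ℝ) ≤ n i.1 := by positivity
      simp only [wt]
      nlinarith
    rcases Finset.mem_union.1 i.2 with h | h
    · have := h1 A h; simp only [ξ]; linarith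
    · have := h1 B h; simp only [ξ]; linarith
  set m' : ℝ := ∑ i, ξ i with hm'
  have hJc : (Fintype.card J : ℝ) ≤ N0 := by
    rw [hN0]; exact_mod_cast Fintype.card_subtype_le _
  have hmm : m' = m + Fintype.card J := by
    have h1 : ∑ i : J, (n i.1 : ℝ) = ∑ i ∈ A ∪ B, (n i : ℝ) :=
      Finset.sum_coe_sort (A ∪ B) (fun i => (n i : ℝ))
    rw [Finset.sum_union hAB] at h1
    simp only [hm', ξ, Finset.sum_add_distrib, h1, hm, ms]
    simp
  have hm'0 : 0 ≤ m' := Finset.sum_nonneg (fun i _ => by linarith [hξ1 i])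
  obtain ⟨c, hc0, hc1, hcg, hcm⟩ : ∃ c : ℝ, 0 ≤ c ∧ c ≤ 1 ∧ c * m' ≤ g ∧
      m' - c * m' / 2 ≤ m' / 2 + max 0 (m' - g) / 2 := by
    by_cases h : m' ≤ g
    · refine ⟨1, zero_le_one, le_rfl, by linarith, ?_⟩
      have := le_max_left 0 (m' - g)
      linarith
    · push Not at h
      have h1 : 0 < m' := by linarith
      have h2 : g / m' * m' = g := by field_simp
      refine ⟨g / m', by positivity, by rw [div_le_one h1]; linarith, h2.le, ?_⟩
      have := le_max_right 0 (m' - g)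
      linarith
  have hξm : ∀ i, c * ξ i ≤ g := fun i => by
    have := Finset.single_le_sum (f := ξ) (fun i _ => by linarith [hξ1 i]) (Finset.mem_univ i)
    nlinarith
  choose k θ hk1 hθ0 hkθ hθc hkξ hval using
    fun i : J => item_choice (ξ i) g c (hξ1 i) hc0 hc1 (hξm i)
  have hθs : ∑ i, θ i ≤ 1 := by
    refine (Finset.sum_le_sum (fun i _ => hθc i)).trans ?_
    rw [← Finset.sum_div, ← Finset.mul_sum]
    exact div_le_one_of_le₀ hcg hg0
  have hfib : ∀ x0 ∈ T, ((T.filter (fun x => ∀ i ∈ Γ, x i = x0 i)).card : ℝ) ≤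
      (K ^ 2) ^ Fintype.card ι * tw (ε * (L + 1 + E) + S.d * (m' - c * m' / 2)) := by
    intro x0 hx0
    set T0 := T.filter (fun x => ∀ i ∈ Γ, x i = x0 i) with hT0
    set γ := mon ex Γ x0 with hγ
    have hγ0 : γ ≠ 0 := S.mon_ne ex n _ x0 (hbox.lo x0 hx0)
    have hγ1 : tw g ≤ S.N γ := S.mon_lo ex n Γ x0 (hbox.lo x0 hx0)
    have hγ2 : S.N γ ≤ tw (L + E) :=
      (S.mon_hi ex n Γ x0 (hbox.hi x0 hx0)).trans (tw_mono (by linarith))
    have hT0T : ∀ x ∈ T0, x ∈ T := fun x hx => (Finset.mem_filter.1 hx).1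
    have hγC : ∀ x ∈ T0, γ ∣ mon ex C x := by
      intro x hx
      rw [mon_split ex hΓ, mon_congr ex (Finset.mem_filter.1 hx).2]
      exact dvd_mul_left _ _
    haveI := S.finite_quot hγ0
    let G := Additive (R ⧸ Ideal.span {γ})ˣ
    letI : Fintype G := Fintype.ofFinite G
    let I : J → Finset R := fun i =>
      (S.ball (tw (ξ i))).filter (fun a => a ≠ 0 ∧ IsCoprime a γ)
    let f : J → R → G := fun i a =>
      Additive.ofMul (if i.1 ∈ A then un γ a ^ ex i.1 else (un γ a ^ ex i.1)⁻¹)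
    have hI : ∀ i, ∀ a ∈ I i, a ≠ 0 ∧ S.N a ≤ tw (ξ i) ∧ IsCoprime a γ := by
      intro i a ha
      have := Finset.mem_filter.1 ha
      exact ⟨this.2.1, S.mem_ball.1 this.1, this.2.2⟩
    have hIc : ∀ i, ((I i).card : ℝ) ≤ K * tw (S.d * ξ i) := by
      intro i
      have h1 : ((I i).card : ℝ) ≤ (S.ball (tw (ξ i))).card := by
        exact_mod_cast Finset.card_filter_le _ _
      refine h1.trans ((S.card_dyadic (n i.1) (by positivity)).trans ?_)
      apply mul_le_mul hK1 (tw_mono _) (tw_pos _).le (by linarith)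
      apply mul_le_mul_of_nonneg_left _ hd
      simp [ξ]
    have hcop : ∀ x ∈ T0, ∀ i : J, IsCoprime (x i.1) γ := by
      intro x hx i
      have h1 : ∀ D : Finset ι, i.1 ∈ D → x i.1 ∣ mon ex D x := fun D hD =>
        (dvd_pow_self _ (by have := hex i.1; omega)).trans
          (Finset.dvd_prod_of_mem (fun j => x j ^ ex j) hD)
      rcases Finset.mem_union.1 i.2 with h | h
      · exact (hbox.cAC x (hT0T x hx)).mono (h1 A h) (hγC x hx)
      · exact (hbox.cBC x (hT0T x hx)).mono (h1 B h) (hγC x hx)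
    have hsum : ∀ (κ : ℕ) (u : Fin κ → (R ⧸ Ideal.span {γ})ˣ) (v : (R ⧸ Ideal.span {γ})ˣ),
        ∑ l, Additive.ofMul (u l) = Additive.ofMul v → ∏ l, u l = v := fun κ u v h =>
      Additive.ofMul.injective ((ofMul_prod _ _).trans h)
    have hb := energy_bound I f (Additive.ofMul (un γ (-1))) k θ (fun i => K * tw (S.d * ξ i))
      (fun i => (K * tw (S.d * ξ i)) ^ k i * (K ^ (k i + 1) *
        tw (ε' * (k i * (k i * ξ i) + (L + E)) + S.d * max 0 (k i * ξ i - g))))
      hθ0 hθs hkθ hIc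
      (fun i => by
        have := tw_pos (S.d * ξ i)
        have := tw_pos (ε' * (k i * (k i * ξ i) + (L + E)) + S.d * max 0 (k i * ξ i - g))
        positivity)
      (fun i => by
        refine (hen i.1 γ g (L + E) (ξ i) (k i) (I i) hγ1 hγ2 (hI i) _ ?_).trans ?_
        · intro q hq
          have h1 := Finset.mem_filter.1 hq
          have h2 := Finset.mem_product.1 h1.1
          have h3 := Fintype.mem_piFinset.1 h2.1
          have h4 := Fintype.mem_piFinset.1 h2.2
          refine ⟨h3, h4, ?_⟩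
          have h5 : ∏ l, un γ (q.1 l) ^ ex i.1 = ∏ l, un γ (q.2 l) ^ ex i.1 := by
            have h6 := hsum _ _ _ (h1.2.trans (ofMul_prod _ _).symm)
            by_cases hi : i.1 ∈ A
            · simpa only [hi, if_true] using h6
            · simp only [hi, if_false, Finset.prod_inv_distrib, inv_inj] at h6
              exact h6
          have h7 := congrArg (Units.val) h5
          simp only [Units.coe_prod, Units.val_pow_eq_pow_val] at h7
          rw [Finset.prod_congr rfl (fun l _ => by rw [un_val (hI i _ (h3 l)).2.2]),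
            Finset.prod_congr (s₁ := Finset.univ) (f := fun l =>
              (un γ (q.2 l) : R ⧸ Ideal.span {γ}) ^ ex i.1) rfl
              (fun l _ => by rw [un_val (hI i _ (h4 l)).2.2])] at h7
          rw [← Ideal.mem_span_singleton, ← Ideal.Quotient.eq, map_pow, map_pow, map_prod, map_prod,
            ← Finset.prod_pow, ← Finset.prod_pow]
          exact h7
        · have p1 := tw_pos (ε' * (k i * (k i * ξ i) + (L + E)) + S.d * max 0 (k i * ξ i - g))
          have p2 := tw_pos (S.d * ξ i)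
          have p3 := hKf i.1
          apply mul_le_mul (pow_le_pow_left₀ (by positivity) (hIc i) _) _ (by positivity)
            (by positivity)
          exact mul_le_mul_of_nonneg_right (pow_le_pow_left₀ (by linarith) (hK2 i.1) _) p1.le)
    have h1 : T0.card ≤ ((Fintype.piFinset I).filter
        (fun x => ∑ i, f i (x i) = Additive.ofMul (un γ (-1)))).card := by
      apply Finset.card_le_card_of_injOn (fun x (i : J) => x i.1)
      · intro x hx
        have hx' : x ∈ T0 := hx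
        apply Finset.mem_coe.2
        refine Finset.mem_filter.2 ⟨Fintype.mem_piFinset.2 (fun i => ?_), ?_⟩
        · refine Finset.mem_filter.2 ⟨S.mem_ball.2 (hbox.hi x (hT0T x hx') i.1), ?_, hcop x hx' i⟩
          exact S.ne_zero_of_N_pos (lt_of_lt_of_le (tw_pos _) (hbox.lo x (hT0T x hx') i.1))
        · refine (ofMul_prod _ _).symm.trans (congrArg Additive.ofMul ?_)
          have h2 := Finset.prod_coe_sort (A ∪ B)
            (fun i => if i ∈ A then un γ (x i) ^ ex i else (un γ (x i) ^ ex i)⁻¹)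
          rw [h2, Finset.prod_union hAB,
            Finset.prod_congr rfl (fun i hi => if_pos hi),
            Finset.prod_congr (s₁ := B) rfl
              (fun i hi => if_neg (fun h => Finset.disjoint_left.1 hAB h hi)),
            Finset.prod_inv_distrib, mul_inv_eq_iff_eq_mul]
          apply Units.ext
          simp only [Units.coe_prod, Units.val_pow_eq_pow_val, Units.val_mul]
          have h5 : ∀ D : Finset ι, D ⊆ A ∪ B →
              ∏ i ∈ D, (un γ (x i) : R ⧸ Ideal.span {γ}) ^ ex i =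
              ∏ i ∈ D, Ideal.Quotient.mk (Ideal.span {γ}) (x i) ^ ex i := fun D hD =>
            Finset.prod_congr rfl (fun i hi => by rw [un_val (hcop x hx' ⟨i, hD hi⟩)])
          rw [h5 A Finset.subset_union_left, h5 B Finset.subset_union_right,
            un_val (IsCoprime.neg_left isCoprime_one_left)]
          simp only [← map_pow, ← map_prod, ← map_mul]
          rw [Ideal.Quotient.eq, Ideal.mem_span_singleton]
          have h3 := (hγC x hx').neg_right
          have h4 : -mon ex C x = ∏ i ∈ A, x i ^ ex i - -1 * ∏ i ∈ B, x i ^ ex i := by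
            have := hbox.sum x (hT0T x hx')
            simp only [mon] at this ⊢
            linear_combination -this
          rwa [h4] at h3
      · intro x hx y hy h
        have h' : ∀ i ∈ A ∪ B, x i = y i := fun i hi => congrFun h ⟨i, hi⟩
        exact hbox.inj x (hT0T x hx) y (hT0T y hy)
          (mon_congr ex (fun i hi => h' i (Finset.mem_union_left _ hi)))
          (mon_congr ex (fun i hi => h' i (Finset.mem_union_right _ hi)))
    have h2 : (T0.card : ℝ) ≤ _ := le_trans (by exact_mod_cast h1) hb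
    refine h2.trans ?_
    have h3 : ∀ i : J, (K * tw (S.d * ξ i)) ^ (1 - 2 * k i * θ i) *
        ((K * tw (S.d * ξ i)) ^ k i * (K ^ (k i + 1) *
        tw (ε' * (k i * (k i * ξ i) + (L + E)) + S.d * max 0 (k i * ξ i - g)))) ^ θ i ≤
        K ^ 2 * tw (ε' * (L + 1 + E) + S.d * (ξ i - c * ξ i / 2)) := by
      intro i
      have hK0 : 0 < K := by linarith
      obtain ⟨κ, hκ0, hκ⟩ : ∃ κ : ℝ, 0 ≤ κ ∧ K = tw κ :=
        ⟨Real.logb 2 K, Real.logb_nonneg (by norm_num) hK3,
          (Real.rpow_logb (by norm_num) (by norm_num) hK0).symm⟩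
      rw [hκ]
      simp only [tw_pow, ← tw_add, tw_rpow]
      apply tw_mono
      have a1 := hval i
      have a2 := hkθ i
      have a3 := hθ0 i
      have a4 : (1 : ℝ) ≤ k i := by exact_mod_cast hk1 i
      have a5 : θ i ≤ 1 / 2 := by nlinarith
      have a6 : k i * ξ i ≤ L + 1 := (hkξ i).trans (max_le (by linarith) (hξL i))
      have a7 : 0 ≤ k i * ξ i := by have := hξ1 i; positivity
      have a8 : θ i * (k i * (k i * ξ i) + (L + E)) ≤ L + 1 + E := by
        have b1 : (k i * θ i) * (k i * ξ i) ≤ (1 / 2) * (L + 1) :=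
          mul_le_mul (by linarith) a6 a7 (by norm_num)
        have b2 : θ i * (L + E) ≤ (1 / 2) * (L + E) :=
          mul_le_mul_of_nonneg_right a5 (by linarith)
        nlinarith
      have a9 := mul_le_mul_of_nonneg_left a1 hd
      have a10 := mul_le_mul_of_nonneg_left a8 hε'0.le
      have a11 : κ * θ i ≤ κ := by nlinarith
      push_cast
      nlinarith
    refine (Finset.prod_le_prod (fun i _ => ?_) (fun i _ => h3 i)).trans ?_
    · have := tw_pos (S.d * ξ i)
      have := tw_pos (ε' * (k i * (k i * ξ i) + (L + E)) + S.d * max 0 (k i * ξ i - g))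
      positivity
    rw [Finset.prod_mul_distrib, ← tw_sum, Finset.prod_const, Finset.card_univ]
    apply mul_le_mul (pow_le_pow_right₀ (by nlinarith) (Fintype.card_subtype_le _)) (tw_mono _)
      (tw_pos _).le (by positivity)
    rw [Finset.sum_add_distrib, Finset.sum_const, ← Finset.mul_sum, Finset.sum_sub_distrib,
      ← Finset.sum_div, ← Finset.mul_sum, Finset.card_univ, nsmul_eq_mul]
    have b1 : (Fintype.card J : ℝ) * ε' ≤ ε := by
      rw [hε', mul_div_assoc', div_le_iff₀ (by positivity)]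
      nlinarith
    have b2 := mul_le_mul_of_nonneg_right b1 (show 0 ≤ L + 1 + E by linarith)
    linarith
  have h9 := S.card_le_res n T Γ _ (by
    have := tw_pos (ε * (L + 1 + E) + S.d * (m' - c * m' / 2))
    positivity) hbox.hi hfib
  refine h9.trans ?_
  have h10 : m' - c * m' / 2 ≤ m / 2 + max 0 (m - g) / 2 + N0 := by
    have h11 : max 0 (m' - g) ≤ max 0 (m - g) + N0 := by
      apply max_le
      · have := le_max_left 0 (m - g); linarith
      · have := le_max_right 0 (m - g); linarith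
    linarith
  have h12 := mul_le_mul_of_nonneg_left h10 hd
  rw [mul_assoc, mul_assoc, mul_assoc, ← tw_add, mul_left_comm (tw _), ← tw_add]
  apply mul_le_mul_of_nonneg_left _ (by positivity)
  apply mul_le_mul_of_nonneg_left (tw_mono _) (by positivity)
  linarith

end Setup

end Pool.Agent.P.MP_dc323a_nt
end
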