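import Pool.Agent.K.MP_6e34ef_nt.C0

set_option autoImplicit false
set_option linter.unusedVariables false
set_option linter.unusedSimpArgs false
set_option linter.style.longLine false

namespace Pool.Agent.P.MP_dc323a_nt

theorem lp (s0 s1 s2 : Side) (ν L : ℝ) (hL : 0 < L) (h0 : 0 ≤ ν)
    (o0 : s0.Ok) (o1 : s1.Ok) (o2 : s2.Ok) (u0 : s0.W ≤ L) (u1 : s1.W ≤ L) (u2 : s2.W ≤ L)
    (l1 : L - L * (1/5000) ≤ s1.W) (l2 : L - L * (1/5000) ≤ s2.W)
    (ht : s0.M + s1.M + s2.M ≤ L + L * (1/5000)) (hn : ν ≤ s0.M + s1.M + s2.M + L * (1/5000))
    (hs : s1.M ≤ s2.M)
    (G0 : OG ν (L * (1/5000)) s1 s2 s0) (G1 : OG ν (L * (1/5000)) s2 s0 s1) (G2 : OG ν (L * (1/5000)) s1 s0 s2)
    (F01 : OF ν (L * (1/5000)) s0 s1 s2) (F02 : OF ν (L * (1/5000)) s0 s2 s1) (F10 : OF ν (L * (1/5000)) s1 s0 s2)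
    (F12 : OF ν (L * (1/5000)) s1 s2 s0) (F20 : OF ν (L * (1/5000)) s2 s0 s1) (F21 : OF ν (L * (1/5000)) s2 s1 s0)
    (M0 : OM ν (L * (1/5000)) s1 s2 s0) (M1 : OM ν (L * (1/5000)) s2 s0 s1) (M2 : OM ν (L * (1/5000)) s0 s1 s2) :
    ν ≤ 549 / 1000 * L := by
  obtain ⟨p01, p02, p03, p04, p05, p06⟩ := o0
  obtain ⟨p11, p12, p13, p14, p15, p16⟩ := o1
  obtain ⟨p21, p22, p23, p24, p25, p26⟩ := o2
  have p07 : 0 ≤ s0.w := by linarith only [p05, p06]
  have p17 : 0 ≤ s1.w := by linarith only [p15, p16]
  have p27 : 0 ≤ s2.w := by linarith only [p25, p26]
  simp only [Side.M, Side.W] at u0 u1 u2 l1 l2 ht hn hs
  have t1 := spM (M1 ⟨false, false, true, true, true⟩)
  simp only [Side.M, Side.W, Side.fm, Side.fw, cond_true, cond_false, Nat.cast_ofNat, Nat.cast_one] at t1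
  rcases t1 with ⟨a1, b1⟩ | ⟨a1, b1⟩
  · have t2 := spG (G0 4 ⟨false, false, false, true, false⟩ ⟨false, false, false, true, false⟩ ⟨true, true, false, false, false⟩ (by decide) (by decide) (by decide) (by decide))
    simp only [Side.M, Side.W, Side.fm, Side.fw, cond_true, cond_false, Nat.cast_ofNat, Nat.cast_one] at t2
    rcases t2 with ⟨a2, b2⟩ | ⟨a2, b2⟩
    · have t3 := spM (M2 ⟨false, true, true, true, true⟩)
      simp only [Side.M, Side.W, Side.fm, Side.fw, cond_true, cond_false, Nat.cast_ofNat, Nat.cast_one] at t3
      rcases t3 with ⟨a3, b3⟩ | ⟨a3, b3⟩
      · have t4 := spG (G2 3 ⟨false, false, true, false, false⟩ ⟨false, false, true, false, false⟩ ⟨true, false, false, false, false⟩ (by decide) (by decide) (by decide) (by decide))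
        simp only [Side.M, Side.W, Side.fm, Side.fw, cond_true, cond_false, Nat.cast_ofNat, Nat.cast_one] at t4
        rcases t4 with ⟨a4, b4⟩ | ⟨a4, b4⟩
        · have t5 := spG (G1 2 ⟨false, true, false, true, false⟩ ⟨false, true, false, true, false⟩ ⟨true, false, false, false, false⟩ (by decide) (by decide) (by decide) (by decide))
          simp only [Side.M, Side.W, Side.fm, Side.fw, cond_true, cond_false, Nat.cast_ofNat, Nat.cast_one] at t5
          rcases t5 with ⟨a5, b5⟩ | ⟨a5, b5⟩
          · have t6 := spG (G0 3 ⟨false, false, true, false, false⟩ ⟨false, false, true, false, false⟩ ⟨true, false, false, false, false⟩ (by decide) (by decide) (by decide) (by decide))
            simp only [Side.M, Side.W, Side.fm, Side.fw, cond_true, cond_false, Nat.cast_ofNat, Nat.cast_one] at t6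
            rcases t6 with ⟨a6, b6⟩ | ⟨a6, b6⟩
            · have t7 := spM (M2 ⟨false, false, true, true, true⟩)
              simp only [Side.M, Side.W, Side.fm, Side.fw, cond_true, cond_false, Nat.cast_ofNat, Nat.cast_one] at t7
              rcases t7 with ⟨a7, b7⟩ | ⟨a7, b7⟩
              · have t8 := spF (F20 3 ⟨false, false, true, false, false⟩ (by decide) (by decide) (by decide))
                simp only [Side.M, Side.W, Side.fm, Side.fw, cond_true, cond_false, Nat.cast_ofNat, Nat.cast_one] at t8
                rcases t8 with ⟨a8, b8⟩ | ⟨a8, b8⟩
                · have t9 := spM (M0 ⟨false, false, false, false, true⟩)
                  simp only [Side.M, Side.W, Side.fm, Side.fw, cond_true, cond_false, Nat.cast_ofNat, Nat.cast_one] at t9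
                  rcases t9 with ⟨a9, b9⟩ | ⟨a9, b9⟩
                  · linarith only [u0, p06, ht, a8, b8, a9, p02, p03, p04, hL]
                  · have t10 := spM (M0 ⟨false, false, false, true, true⟩)
                    simp only [Side.M, Side.W, Side.fm, Side.fw, cond_true, cond_false, Nat.cast_ofNat, Nat.cast_one] at t10
                    rcases t10 with ⟨a10, b10⟩ | ⟨a10, b10⟩
                    · have t11 := spG (G2 4 ⟨false, false, false, true, false⟩ ⟨false, false, false, true, false⟩ ⟨true, false, true, false, false⟩ (by decide) (by decide) (by decide) (by decide))
                      simp only [Side.M, Side.W, Side.fm, Side.fw, cond_true, cond_false, Nat.cast_ofNat, Nat.cast_one] at t11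
                      rcases t11 with ⟨a11, b11⟩ | ⟨a11, b11⟩
                      · have t12 := spF (F12 3 ⟨false, false, true, false, false⟩ (by decide) (by decide) (by decide))
                        simp only [Side.M, Side.W, Side.fm, Side.fw, cond_true, cond_false, Nat.cast_ofNat, Nat.cast_one] at t12
                        rcases t12 with ⟨a12, b12⟩ | ⟨a12, b12⟩
                        · have t13 := spM (M1 ⟨false, false, false, true, true⟩)
                          simp only [Side.M, Side.W, Side.fm, Side.fw, cond_true, cond_false, Nat.cast_ofNat, Nat.cast_one] at t13
                          rcases t13 with ⟨a13, b13⟩ | ⟨a13, b13⟩
                          · linarith only [u0, p06, u1, p16, u2, p26, ht, a7, a10, a11, a13, p02, p03, p12, p13, p27, hL]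
                          · have t14 := spM (M2 ⟨false, false, false, true, true⟩)
                            simp only [Side.M, Side.W, Side.fm, Side.fw, cond_true, cond_false, Nat.cast_ofNat, Nat.cast_one] at t14
                            rcases t14 with ⟨a14, b14⟩ | ⟨a14, b14⟩
                            · have t15 := spG (G1 4 ⟨false, false, false, true, false⟩ ⟨false, false, false, true, false⟩ ⟨true, false, true, false, false⟩ (by decide) (by decide) (by decide) (by decide))
                              simp only [Side.M, Side.W, Side.fm, Side.fw, cond_true, cond_false, Nat.cast_ofNat, Nat.cast_one] at t15
                              rcases t15 with ⟨a15, b15⟩ | ⟨a15, b15⟩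
                              · linarith only [u0, p06, u1, p16, u2, p26, ht, a1, a10, a14, a15, p02, p03, p15, p22, p23, hL]
                              · linarith only [l2, p26, ht, a12, a14, a15, p22, p23, p25, hL]
                            · have t16 := spF (F02 2 ⟨false, true, false, true, false⟩ (by decide) (by decide) (by decide))
                              simp only [Side.M, Side.W, Side.fm, Side.fw, cond_true, cond_false, Nat.cast_ofNat, Nat.cast_one] at t16
                              rcases t16 with ⟨a16, b16⟩ | ⟨a16, b16⟩
                              · have t17 := spG (G2 4 ⟨false, false, false, true, false⟩ ⟨false, false, false, true, false⟩ ⟨true, true, true, false, false⟩ (by decide) (by decide) (by decide) (by decide))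
                                simp only [Side.M, Side.W, Side.fm, Side.fw, cond_true, cond_false, Nat.cast_ofNat, Nat.cast_one] at t17
                                rcases t17 with ⟨a17, b17⟩ | ⟨a17, b17⟩
                                · have t18 := spG (G0 3 ⟨false, false, true, false, false⟩ ⟨false, false, true, false, false⟩ ⟨true, true, true, true, false⟩ (by decide) (by decide) (by decide) (by decide))
                                  simp only [Side.M, Side.W, Side.fm, Side.fw, cond_true, cond_false, Nat.cast_ofNat, Nat.cast_one] at t18
                                  rcases t18 with ⟨a18, b18⟩ | ⟨a18, b18⟩
                                  · have t19 := spG (G2 1 ⟨true, true, false, false, false⟩ ⟨true, true, true, false, false⟩ ⟨true, true, true, false, false⟩ (by decide) (by decide) (by decide) (by decide))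
                                    simp only [Side.M, Side.W, Side.fm, Side.fw, cond_true, cond_false, Nat.cast_ofNat, Nat.cast_one] at t19
                                    rcases t19 with ⟨a19, b19⟩ | ⟨a19, b19⟩
                                    · linarith only [u0, p06, p16, p26, ht, hs, a7, b8, a9, a13, a14, a18, a19, p02, p03, p15, p27, hL]
                                    · linarith only [u0, p06, p16, u2, p26, ht, a1, a7, b8, a9, a10, a13, a14, a17, a18, a19, p27, hL]
                                  · have t20 := spG (G1 4 ⟨false, false, false, true, false⟩ ⟨false, false, false, true, false⟩ ⟨true, false, true, false, false⟩ (by decide) (by decide) (by decide) (by decide))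
                                    simp only [Side.M, Side.W, Side.fm, Side.fw, cond_true, cond_false, Nat.cast_ofNat, Nat.cast_one] at t20
                                    rcases t20 with ⟨a20, b20⟩ | ⟨a20, b20⟩
                                    · have t21 := spM (M0 ⟨false, false, false, true, false⟩)
                                      simp only [Side.M, Side.W, Side.fm, Side.fw, cond_true, cond_false, Nat.cast_ofNat, Nat.cast_one] at t21
                                      rcases t21 with ⟨a21, b21⟩ | ⟨a21, b21⟩
                                      · have t22 := spG (G1 4 ⟨false, false, false, false, false⟩ ⟨false, false, false, true, false⟩ ⟨true, true, true, false, false⟩ (by decide) (by decide) (by decide) (by decide))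
                                        simp only [Side.M, Side.W, Side.fm, Side.fw, cond_true, cond_false, Nat.cast_ofNat, Nat.cast_one] at t22
                                        rcases t22 with ⟨a22, b22⟩ | ⟨a22, b22⟩
                                        · linarith only [u0, p06, u1, p16, p26, ht, a1, a13, a14, a17, a20, a21, a22, p02, p03, p05, p14, hL]
                                        · linarith only [l2, p26, ht, hs, a14, a17, a20, a21, a22, p11, p14, p15, hL]
                                      · have t23 := spG (G0 3 ⟨false, false, true, false, false⟩ ⟨false, false, true, false, false⟩ ⟨true, false, false, true, false⟩ (by decide) (by decide) (by decide) (by decide))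
                                        simp only [Side.M, Side.W, Side.fm, Side.fw, cond_true, cond_false, Nat.cast_ofNat, Nat.cast_one] at t23
                                        rcases t23 with ⟨a23, b23⟩ | ⟨a23, b23⟩
                                        · have t24 := spG (G1 2 ⟨false, true, false, true, false⟩ ⟨false, true, false, true, false⟩ ⟨true, true, false, true, false⟩ (by decide) (by decide) (by decide) (by decide))
                                          simp only [Side.M, Side.W, Side.fm, Side.fw, cond_true, cond_false, Nat.cast_ofNat, Nat.cast_one] at t24
                                          rcases t24 with ⟨a24, b24⟩ | ⟨a24, b24⟩
                                          · linarith only [u0, p06, l1, p16, l2, p26, ht, a1, a7, b8, a10, a13, a14, a17, a18, a23, a24, p01, p14, hL]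
                                          · linarith only [u0, p06, l1, p16, l2, p26, ht, hs, a1, a7, a10, a14, a17, a18, a23, a24, p03, p11, p25, hL]
                                        · linarith only [l1, p16, p26, ht, hs, a1, a14, a17, a20, a21, a23, p11, p14, hL]
                                    · have t25 := spG (G0 3 ⟨false, false, true, false, false⟩ ⟨false, false, true, false, false⟩ ⟨true, false, false, true, false⟩ (by decide) (by decide) (by decide) (by decide))
                                      simp only [Side.M, Side.W, Side.fm, Side.fw, cond_true, cond_false, Nat.cast_ofNat, Nat.cast_one] at t25
                                      rcases t25 with ⟨a25, b25⟩ | ⟨a25, b25⟩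
                                      · linarith only [u0, p06, l1, l2, ht, b8, a10, a18, a20, a25, p01, p03, hL]
                                      · linarith only [l1, l2, p26, ht, a12, a14, a17, a20, a25, p14, p25, hL]
                                · have t26 := spF (F21 3 ⟨false, false, true, false, false⟩ (by decide) (by decide) (by decide))
                                  simp only [Side.M, Side.W, Side.fm, Side.fw, cond_true, cond_false, Nat.cast_ofNat, Nat.cast_one] at t26
                                  rcases t26 with ⟨a26, b26⟩ | ⟨a26, b26⟩
                                  · have t27 := spF (F01 2 ⟨false, true, false, true, false⟩ (by decide) (by decide) (by decide))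
                                    simp only [Side.M, Side.W, Side.fm, Side.fw, cond_true, cond_false, Nat.cast_ofNat, Nat.cast_one] at t27
                                    rcases t27 with ⟨a27, b27⟩ | ⟨a27, b27⟩
                                    · have t28 := spM (M2 ⟨false, false, true, false, true⟩)
                                      simp only [Side.M, Side.W, Side.fm, Side.fw, cond_true, cond_false, Nat.cast_ofNat, Nat.cast_one] at t28
                                      rcases t28 with ⟨a28, b28⟩ | ⟨a28, b28⟩
                                      · have t29 := spM (M0 ⟨false, false, false, true, false⟩)
                                        simp only [Side.M, Side.W, Side.fm, Side.fw, cond_true, cond_false, Nat.cast_ofNat, Nat.cast_one] at t29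
                                        rcases t29 with ⟨a29, b29⟩ | ⟨a29, b29⟩
                                        · have t30 := spM (M1 ⟨false, false, true, false, true⟩)
                                          simp only [Side.M, Side.W, Side.fm, Side.fw, cond_true, cond_false, Nat.cast_ofNat, Nat.cast_one] at t30
                                          rcases t30 with ⟨a30, b30⟩ | ⟨a30, b30⟩
                                          · have t31 := spG (G1 2 ⟨false, true, false, false, false⟩ ⟨false, false, false, true, false⟩ ⟨true, false, true, false, false⟩ (by decide) (by decide) (by decide) (by decide))
                                            simp only [Side.M, Side.W, Side.fm, Side.fw, cond_true, cond_false, Nat.cast_ofNat, Nat.cast_one] at t31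
                                            rcases t31 with ⟨a31, b31⟩ | ⟨a31, b31⟩
                                            · have t32 := spG (G2 2 ⟨false, true, false, true, false⟩ ⟨false, true, false, true, false⟩ ⟨true, true, false, true, true⟩ (by decide) (by decide) (by decide) (by decide))
                                              simp only [Side.M, Side.W, Side.fm, Side.fw, cond_true, cond_false, Nat.cast_ofNat, Nat.cast_one] at t32
                                              rcases t32 with ⟨a32, b32⟩ | ⟨a32, b32⟩
                                              · have t33 := spG (G1 3 ⟨false, false, true, false, false⟩ ⟨false, false, true, false, false⟩ ⟨true, true, true, false, false⟩ (by decide) (by decide) (by decide) (by decide))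
                                                simp only [Side.M, Side.W, Side.fm, Side.fw, cond_true, cond_false, Nat.cast_ofNat, Nat.cast_one] at t33
                                                rcases t33 with ⟨a33, b33⟩ | ⟨a33, b33⟩
                                                · have t34 := spG (G2 4 ⟨false, false, false, true, false⟩ ⟨false, false, false, true, false⟩ ⟨true, false, true, true, true⟩ (by decide) (by decide) (by decide) (by decide))
                                                  simp only [Side.M, Side.W, Side.fm, Side.fw, cond_true, cond_false, Nat.cast_ofNat, Nat.cast_one] at t34
                                                  rcases t34 with ⟨a34, b34⟩ | ⟨a34, b34⟩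
                                                  · linarith only [u0, p06, u1, p16, ht, a1, a6, a26, a27, a29, a31, a32, a34, p02, p05, p14, hL]
                                                  · linarith only [u0, p06, l1, p16, u2, ht, a6, a17, a26, a27, a29, a30, a31, a33, a34, p03, p14, hL]
                                                · linarith only [u0, p06, l1, l2, ht, hs, a1, a6, a8, a10, a17, a29, b31, a32, a33, p11, p14, hL]
                                              · linarith only [u0, p06, l1, p16, u2, ht, a7, a17, b26, b30, a31, a32, b32, p02, p03, p05, p11, p21, hL]
                                            · have t35 := spG (G1 3 ⟨false, false, true, false, false⟩ ⟨false, false, true, false, false⟩ ⟨true, true, true, false, false⟩ (by decide) (by decide) (by decide) (by decide))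
                                              simp only [Side.M, Side.W, Side.fm, Side.fw, cond_true, cond_false, Nat.cast_ofNat, Nat.cast_one] at t35
                                              rcases t35 with ⟨a35, b35⟩ | ⟨a35, b35⟩
                                              · have t36 := spM (M2 ⟨false, false, true, false, false⟩)
                                                simp only [Side.M, Side.W, Side.fm, Side.fw, cond_true, cond_false, Nat.cast_ofNat, Nat.cast_one] at t36
                                                rcases t36 with ⟨a36, b36⟩ | ⟨a36, b36⟩
                                                · linarith only [u0, p06, u1, p16, l2, ht, a6, a11, a27, a31, a35, a36, b36, p03, p12, p21, hL]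
                                                · linarith only [u0, p06, l1, p16, l2, ht, a6, a7, a11, a17, a27, a31, a35, a36, p03, p12, p21, hL]
                                              · linarith only [u0, p06, l1, l2, p26, ht, a1, a6, a8, a17, a27, a28, a29, a35, p05, p11, p21, p24, hL]
                                          · linarith only [l1, u2, p26, ht, a8, a11, a17, a28, a29, a30, p11, p21, p24, hL]
                                        · have t37 := spG (G0 3 ⟨false, false, true, false, false⟩ ⟨false, false, true, false, false⟩ ⟨true, false, false, true, false⟩ (by decide) (by decide) (by decide) (by decide))
                                          simp only [Side.M, Side.W, Side.fm, Side.fw, cond_true, cond_false, Nat.cast_ofNat, Nat.cast_one] at t37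
                                          rcases t37 with ⟨a37, b37⟩ | ⟨a37, b37⟩
                                          · linarith only [u0, p06, l1, p16, u2, p26, ht, a1, a8, a10, a13, a17, a28, a37, p03, p15, p21, p24, hL]
                                          · linarith only [l1, u2, p26, ht, a8, a17, a28, a29, a37, p21, p24, hL]
                                      · linarith only [l1, l2, p26, ht, a17, a28, b28, p21, p25, hL]
                                    · linarith only [u0, p06, l1, u2, p26, ht, a7, a9, a10, a17, a26, b27, p02, p03, p27, hL]
                                  · linarith only [u0, p06, l1, u2, p26, ht, a7, a10, a11, a17, a26, p02, p03, p05, p14, p27, hL]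
                              · linarith only [u0, p06, ht, hs, a9, a10, b16, p02, p03, hL]
                        · linarith only [u0, p06, u1, p16, u2, p26, ht, hs, a1, a5, a7, a10, a11, b12, p02, p03, p05, p12, hL]
                      · linarith only [u0, p06, l1, ht, a8, a10, a11, p02, p03, p05, hL]
                    · have t38 := spG (G0 3 ⟨false, false, true, false, false⟩ ⟨false, false, true, false, false⟩ ⟨true, true, false, false, false⟩ (by decide) (by decide) (by decide) (by decide))
                      simp only [Side.M, Side.W, Side.fm, Side.fw, cond_true, cond_false, Nat.cast_ofNat, Nat.cast_one] at t38
                      rcases t38 with ⟨a38, b38⟩ | ⟨a38, b38⟩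
                      · have t39 := spG (G1 3 ⟨false, false, true, false, false⟩ ⟨false, false, true, false, false⟩ ⟨true, false, true, false, false⟩ (by decide) (by decide) (by decide) (by decide))
                        simp only [Side.M, Side.W, Side.fm, Side.fw, cond_true, cond_false, Nat.cast_ofNat, Nat.cast_one] at t39
                        rcases t39 with ⟨a39, b39⟩ | ⟨a39, b39⟩
                        · have t40 := spM (M2 ⟨false, false, true, false, false⟩)
                          simp only [Side.M, Side.W, Side.fm, Side.fw, cond_true, cond_false, Nat.cast_ofNat, Nat.cast_one] at t40
                          rcases t40 with ⟨a40, b40⟩ | ⟨a40, b40⟩
                          · have t41 := spG (G0 3 ⟨false, false, true, false, false⟩ ⟨false, false, true, false, false⟩ ⟨true, false, true, false, false⟩ (by decide) (by decide) (by decide) (by decide))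
                            simp only [Side.M, Side.W, Side.fm, Side.fw, cond_true, cond_false, Nat.cast_ofNat, Nat.cast_one] at t41
                            rcases t41 with ⟨a41, b41⟩ | ⟨a41, b41⟩
                            · have t42 := spG (G2 2 ⟨false, true, false, true, false⟩ ⟨false, true, false, false, false⟩ ⟨true, true, false, true, true⟩ (by decide) (by decide) (by decide) (by decide))
                              simp only [Side.M, Side.W, Side.fm, Side.fw, cond_true, cond_false, Nat.cast_ofNat, Nat.cast_one] at t42
                              rcases t42 with ⟨a42, b42⟩ | ⟨a42, b42⟩
                              · have t43 := spM (M0 ⟨false, false, true, false, false⟩)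
                                simp only [Side.M, Side.W, Side.fm, Side.fw, cond_true, cond_false, Nat.cast_ofNat, Nat.cast_one] at t43
                                rcases t43 with ⟨a43, b43⟩ | ⟨a43, b43⟩
                                · linarith only [u0, p06, u1, p16, ht, a1, a39, a40, a41, a42, a43, b43, p01, p05, p13, hL]
                                · have t44 := spG (G0 3 ⟨false, false, true, false, false⟩ ⟨false, false, true, false, false⟩ ⟨true, true, true, false, false⟩ (by decide) (by decide) (by decide) (by decide))
                                  simp only [Side.M, Side.W, Side.fm, Side.fw, cond_true, cond_false, Nat.cast_ofNat, Nat.cast_one] at t44
                                  rcases t44 with ⟨a44, b44⟩ | ⟨a44, b44⟩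
                                  · have t45 := spG (G2 4 ⟨false, false, false, true, false⟩ ⟨false, false, false, true, false⟩ ⟨true, false, true, false, false⟩ (by decide) (by decide) (by decide) (by decide))
                                    simp only [Side.M, Side.W, Side.fm, Side.fw, cond_true, cond_false, Nat.cast_ofNat, Nat.cast_one] at t45
                                    rcases t45 with ⟨a45, b45⟩ | ⟨a45, b45⟩
                                    · have t46 := spG (G0 2 ⟨false, false, false, true, false⟩ ⟨false, true, false, true, false⟩ ⟨true, false, true, false, false⟩ (by decide) (by decide) (by decide) (by decide))
                                      simp only [Side.M, Side.W, Side.fm, Side.fw, cond_true, cond_false, Nat.cast_ofNat, Nat.cast_one] at t46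
                                      rcases t46 with ⟨a46, b46⟩ | ⟨a46, b46⟩
                                      · have t47 := spG (G0 3 ⟨false, false, true, false, false⟩ ⟨false, false, true, false, false⟩ ⟨true, false, false, true, false⟩ (by decide) (by decide) (by decide) (by decide))
                                        simp only [Side.M, Side.W, Side.fm, Side.fw, cond_true, cond_false, Nat.cast_ofNat, Nat.cast_one] at t47
                                        rcases t47 with ⟨a47, b47⟩ | ⟨a47, b47⟩
                                        · have t48 := spF (F21 3 ⟨false, false, true, false, false⟩ (by decide) (by decide) (by decide))
                                          simp only [Side.M, Side.W, Side.fm, Side.fw, cond_true, cond_false, Nat.cast_ofNat, Nat.cast_one] at t48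
                                          rcases t48 with ⟨a48, b48⟩ | ⟨a48, b48⟩
                                          · have t49 := spG (G0 3 ⟨false, false, true, false, false⟩ ⟨false, false, true, false, false⟩ ⟨true, true, true, true, true⟩ (by decide) (by decide) (by decide) (by decide))
                                            simp only [Side.M, Side.W, Side.fm, Side.fw, cond_true, cond_false, Nat.cast_ofNat, Nat.cast_one] at t49
                                            rcases t49 with ⟨a49, b49⟩ | ⟨a49, b49⟩
                                            · linarith only [u1, p16, ht, a1, a8, a40, a49, p12, p13, p15, hL]
                                            · have t50 := spG (G0 2 ⟨false, true, false, true, false⟩ ⟨false, true, false, false, false⟩ ⟨true, true, true, true, false⟩ (by decide) (by decide) (by decide) (by decide))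
                                              simp only [Side.M, Side.W, Side.fm, Side.fw, cond_true, cond_false, Nat.cast_ofNat, Nat.cast_one] at t50
                                              rcases t50 with ⟨a50, b50⟩ | ⟨a50, b50⟩
                                              · linarith only [p06, u1, p16, u2, p26, ht, a1, a8, a10, a40, a44, a45, a50, p04, p12, p13, p25, hL]
                                              · have t51 := spM (M0 ⟨false, false, true, true, true⟩)
                                                simp only [Side.M, Side.W, Side.fm, Side.fw, cond_true, cond_false, Nat.cast_ofNat, Nat.cast_one] at t51
                                                rcases t51 with ⟨a51, b51⟩ | ⟨a51, b51⟩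
                                                · have t52 := spG (G1 3 ⟨false, false, true, false, false⟩ ⟨false, false, true, false, false⟩ ⟨true, true, true, false, true⟩ (by decide) (by decide) (by decide) (by decide))
                                                  simp only [Side.M, Side.W, Side.fm, Side.fw, cond_true, cond_false, Nat.cast_ofNat, Nat.cast_one] at t52
                                                  rcases t52 with ⟨a52, b52⟩ | ⟨a52, b52⟩
                                                  · linarith only [u0, p06, u1, p16, u2, p26, ht, a8, a10, a40, a45, a46, a51, a52, p12, p13, p17, p21, p24, hL]
                                                  · linarith only [p06, u1, p16, l2, ht, a1, a8, a10, a39, a40, a44, a48, a51, a52, p05, hL]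
                                                · linarith only [p06, u1, p16, u2, p26, ht, a1, a5, a8, a40, a42, a44, a45, a49, a50, a51, p12, p21, p24, hL]
                                          · linarith only [p06, u2, p26, ht, a10, a40, a44, a45, a48, p05, p13, p14, p24, p27, hL]
                                        · linarith only [p06, l1, ht, hs, a8, a10, a40, a47, p05, hL]
                                      · linarith only [p06, u1, p16, u2, p26, ht, a1, a8, a10, a39, a40, a44, a45, a46, p13, p15, p21, p27, hL]
                                    · linarith only [p06, l1, ht, a8, a10, a44, a45, p05, p13, hL]
                                  · have t53 := spF (F21 3 ⟨false, false, true, false, false⟩ (by decide) (by decide) (by decide))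
                                    simp only [Side.M, Side.W, Side.fm, Side.fw, cond_true, cond_false, Nat.cast_ofNat, Nat.cast_one] at t53
                                    rcases t53 with ⟨a53, b53⟩ | ⟨a53, b53⟩
                                    · linarith only [p16, ht, a1, a39, a40, b40, a42, a44, a53, hL]
                                    · linarith only [l1, u2, p26, ht, a38, a40, a43, a44, a53, p01, p13, p22, p24, p27, hL]
                              · linarith only [u0, p06, l1, p16, u2, ht, a2, b40, a42, b42, p04, p07, p11, p12, p13, p17, p24, hL]
                            · linarith only [l1, ht, a39, a40, b40, a41, p11, p13, hL]
                          · have t54 := spM (M0 ⟨false, false, true, true, true⟩)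
                            simp only [Side.M, Side.W, Side.fm, Side.fw, cond_true, cond_false, Nat.cast_ofNat, Nat.cast_one] at t54
                            rcases t54 with ⟨a54, b54⟩ | ⟨a54, b54⟩
                            · have t55 := spF (F02 3 ⟨false, false, true, false, false⟩ (by decide) (by decide) (by decide))
                              simp only [Side.M, Side.W, Side.fm, Side.fw, cond_true, cond_false, Nat.cast_ofNat, Nat.cast_one] at t55
                              rcases t55 with ⟨a55, b55⟩ | ⟨a55, b55⟩
                              · have t56 := spG (G2 4 ⟨false, false, false, true, false⟩ ⟨false, false, false, true, false⟩ ⟨true, false, true, false, false⟩ (by decide) (by decide) (by decide) (by decide))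
                                simp only [Side.M, Side.W, Side.fm, Side.fw, cond_true, cond_false, Nat.cast_ofNat, Nat.cast_one] at t56
                                rcases t56 with ⟨a56, b56⟩ | ⟨a56, b56⟩
                                · have t57 := spG (G0 4 ⟨false, false, false, true, false⟩ ⟨false, false, false, true, false⟩ ⟨true, false, true, false, false⟩ (by decide) (by decide) (by decide) (by decide))
                                  simp only [Side.M, Side.W, Side.fm, Side.fw, cond_true, cond_false, Nat.cast_ofNat, Nat.cast_one] at t57
                                  rcases t57 with ⟨a57, b57⟩ | ⟨a57, b57⟩
                                  · have t58 := spG (G2 3 ⟨false, false, true, false, false⟩ ⟨false, false, true, false, false⟩ ⟨true, false, true, false, false⟩ (by decide) (by decide) (by decide) (by decide))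
                                    simp only [Side.M, Side.W, Side.fm, Side.fw, cond_true, cond_false, Nat.cast_ofNat, Nat.cast_one] at t58
                                    rcases t58 with ⟨a58, b58⟩ | ⟨a58, b58⟩
                                    · have t59 := spM (M2 ⟨false, false, false, true, true⟩)
                                      simp only [Side.M, Side.W, Side.fm, Side.fw, cond_true, cond_false, Nat.cast_ofNat, Nat.cast_one] at t59
                                      rcases t59 with ⟨a59, b59⟩ | ⟨a59, b59⟩
                                      · have t60 := spG (G0 4 ⟨false, false, false, true, false⟩ ⟨false, false, false, true, false⟩ ⟨true, true, true, false, false⟩ (by decide) (by decide) (by decide) (by decide))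
                                        simp only [Side.M, Side.W, Side.fm, Side.fw, cond_true, cond_false, Nat.cast_ofNat, Nat.cast_one] at t60
                                        rcases t60 with ⟨a60, b60⟩ | ⟨a60, b60⟩
                                        · have t61 := spG (G1 4 ⟨false, false, false, true, false⟩ ⟨false, false, false, true, false⟩ ⟨true, false, true, false, false⟩ (by decide) (by decide) (by decide) (by decide))
                                          simp only [Side.M, Side.W, Side.fm, Side.fw, cond_true, cond_false, Nat.cast_ofNat, Nat.cast_one] at t61
                                          rcases t61 with ⟨a61, b61⟩ | ⟨a61, b61⟩
                                          · have t62 := spG (G1 4 ⟨false, false, false, true, false⟩ ⟨false, false, false, true, false⟩ ⟨true, true, true, false, false⟩ (by decide) (by decide) (by decide) (by decide))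
                                            simp only [Side.M, Side.W, Side.fm, Side.fw, cond_true, cond_false, Nat.cast_ofNat, Nat.cast_one] at t62
                                            rcases t62 with ⟨a62, b62⟩ | ⟨a62, b62⟩
                                            · have t63 := spM (M2 ⟨false, false, false, true, false⟩)
                                              simp only [Side.M, Side.W, Side.fm, Side.fw, cond_true, cond_false, Nat.cast_ofNat, Nat.cast_one] at t63
                                              rcases t63 with ⟨a63, b63⟩ | ⟨a63, b63⟩
                                              · linarith only [p06, u1, p16, u2, p26, ht, hs, a1, b8, a10, a59, a60, a62, a63, p12, p14, p22, hL]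
                                              · have t64 := spM (M0 ⟨false, false, true, false, false⟩)
                                                simp only [Side.M, Side.W, Side.fm, Side.fw, cond_true, cond_false, Nat.cast_ofNat, Nat.cast_one] at t64
                                                rcases t64 with ⟨a64, b64⟩ | ⟨a64, b64⟩
                                                · linarith only [u2, p26, ht, hs, a55, a59, a63, a64, p22, p23, hL]
                                                · have t65 := spG (G2 3 ⟨false, false, true, false, false⟩ ⟨false, false, true, false, false⟩ ⟨true, false, false, true, false⟩ (by decide) (by decide) (by decide) (by decide))
                                                  simp only [Side.M, Side.W, Side.fm, Side.fw, cond_true, cond_false, Nat.cast_ofNat, Nat.cast_one] at t65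
                                                  rcases t65 with ⟨a65, b65⟩ | ⟨a65, b65⟩
                                                  · linarith only [p06, u1, p16, u2, p26, ht, hs, a1, a10, a54, a59, a60, a64, a65, p05, p12, p22, p23, hL]
                                                  · linarith only [p06, l1, ht, hs, a10, a60, a63, a65, p05, p14, hL]
                                            · have t66 := spM (M2 ⟨false, false, false, true, false⟩)
                                              simp only [Side.M, Side.W, Side.fm, Side.fw, cond_true, cond_false, Nat.cast_ofNat, Nat.cast_one] at t66
                                              rcases t66 with ⟨a66, b66⟩ | ⟨a66, b66⟩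
                                              · linarith only [p06, l2, p26, ht, hs, a1, b8, a10, a54, a58, a59, a60, a61, a62, a66, p11, p14, hL]
                                              · linarith only [p06, p26, ht, hs, a10, a54, a58, a59, a60, a62, a66, p05, p11, p14, p15, p23, hL]
                                          · linarith only [p06, u2, p26, ht, hs, a10, a54, a58, a59, a61, p05, p23, p25, hL]
                                        · have t67 := spF (F21 2 ⟨false, true, false, true, false⟩ (by decide) (by decide) (by decide))
                                          simp only [Side.M, Side.W, Side.fm, Side.fw, cond_true, cond_false, Nat.cast_ofNat, Nat.cast_one] at t67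
                                          rcases t67 with ⟨a67, b67⟩ | ⟨a67, b67⟩
                                          · have t68 := spM (M1 ⟨false, false, false, true, true⟩)
                                            simp only [Side.M, Side.W, Side.fm, Side.fw, cond_true, cond_false, Nat.cast_ofNat, Nat.cast_one] at t68
                                            rcases t68 with ⟨a68, b68⟩ | ⟨a68, b68⟩
                                            · linarith only [u0, p06, u1, p16, u2, p26, ht, a54, a57, a59, a68, p07, p12, p13, p22, p23, hL]
                                            · have t69 := spF (F01 3 ⟨false, false, true, false, false⟩ (by decide) (by decide) (by decide))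
                                              simp only [Side.M, Side.W, Side.fm, Side.fw, cond_true, cond_false, Nat.cast_ofNat, Nat.cast_one] at t69
                                              rcases t69 with ⟨a69, b69⟩ | ⟨a69, b69⟩
                                              · have t70 := spG (G1 2 ⟨false, false, false, true, false⟩ ⟨false, true, false, false, false⟩ ⟨true, false, true, false, false⟩ (by decide) (by decide) (by decide) (by decide))
                                                simp only [Side.M, Side.W, Side.fm, Side.fw, cond_true, cond_false, Nat.cast_ofNat, Nat.cast_one] at t70
                                                rcases t70 with ⟨a70, b70⟩ | ⟨a70, b70⟩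
                                                · have t71 := spM (M2 ⟨false, false, false, true, false⟩)
                                                  simp only [Side.M, Side.W, Side.fm, Side.fw, cond_true, cond_false, Nat.cast_ofNat, Nat.cast_one] at t71
                                                  rcases t71 with ⟨a71, b71⟩ | ⟨a71, b71⟩
                                                  · have t72 := spG (G0 2 ⟨false, true, false, true, false⟩ ⟨false, true, false, true, false⟩ ⟨true, true, false, true, true⟩ (by decide) (by decide) (by decide) (by decide))
                                                    simp only [Side.M, Side.W, Side.fm, Side.fw, cond_true, cond_false, Nat.cast_ofNat, Nat.cast_one] at t72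
                                                    rcases t72 with ⟨a72, b72⟩ | ⟨a72, b72⟩
                                                    · have t73 := spG (G1 3 ⟨false, false, false, false, false⟩ ⟨false, false, true, false, false⟩ ⟨true, true, true, true, false⟩ (by decide) (by decide) (by decide) (by decide))
                                                      simp only [Side.M, Side.W, Side.fm, Side.fw, cond_true, cond_false, Nat.cast_ofNat, Nat.cast_one] at t73
                                                      rcases t73 with ⟨a73, b73⟩ | ⟨a73, b73⟩
                                                      · have t74 := spM (M0 ⟨false, false, true, false, false⟩)
                                                        simp only [Side.M, Side.W, Side.fm, Side.fw, cond_true, cond_false, Nat.cast_ofNat, Nat.cast_one] at t74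
                                                        rcases t74 with ⟨a74, b74⟩ | ⟨a74, b74⟩
                                                        · linarith only [p16, u2, p26, ht, a1, a58, a60, a68, a69, a70, a71, a73, a74, p23, p25, hL]
                                                        · linarith only [l1, p16, u2, p26, ht, a1, a60, a70, a71, a72, a73, a74, p22, p23, p25, hL]
                                                      · linarith only [u0, p06, l1, p16, l2, p26, ht, hs, a57, a58, a60, a70, a71, a72, a73, p01, p07, p22, p23, hL]
                                                    · linarith only [u0, l1, ht, a54, a57, a60, a72, p01, p04, p05, hL]
                                                  · have t75 := spM (M0 ⟨false, false, true, false, false⟩)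
                                                    simp only [Side.M, Side.W, Side.fm, Side.fw, cond_true, cond_false, Nat.cast_ofNat, Nat.cast_one] at t75
                                                    rcases t75 with ⟨a75, b75⟩ | ⟨a75, b75⟩
                                                    · linarith only [u2, p26, ht, hs, a55, a59, a71, a75, p22, p23, hL]
                                                    · linarith only [l1, u2, p26, ht, hs, a54, a59, a60, a71, a75, p01, p22, p23, hL]
                                                · linarith only [u0, p06, l1, l2, p26, ht, hs, a4, a54, a58, a60, a67, a70, p01, p07, hL]
                                              · linarith only [u0, p06, l1, u2, p26, ht, a54, a59, a60, a67, b67, b69, p07, p22, p23, hL]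
                                          · linarith only [u0, p06, l1, u2, p26, ht, a54, a55, a57, a59, a60, b67, p07, p14, p22, p23, hL]
                                      · have t76 := spG (G2 3 ⟨false, false, true, false, false⟩ ⟨false, false, true, false, false⟩ ⟨true, true, true, false, false⟩ (by decide) (by decide) (by decide) (by decide))
                                        simp only [Side.M, Side.W, Side.fm, Side.fw, cond_true, cond_false, Nat.cast_ofNat, Nat.cast_one] at t76
                                        rcases t76 with ⟨a76, b76⟩ | ⟨a76, b76⟩
                                        · have t77 := spG (G2 4 ⟨false, false, false, true, false⟩ ⟨false, false, false, true, false⟩ ⟨true, true, true, false, false⟩ (by decide) (by decide) (by decide) (by decide))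
                                          simp only [Side.M, Side.W, Side.fm, Side.fw, cond_true, cond_false, Nat.cast_ofNat, Nat.cast_one] at t77
                                          rcases t77 with ⟨a77, b77⟩ | ⟨a77, b77⟩
                                          · have t78 := spM (M0 ⟨false, false, true, false, false⟩)
                                            simp only [Side.M, Side.W, Side.fm, Side.fw, cond_true, cond_false, Nat.cast_ofNat, Nat.cast_one] at t78
                                            rcases t78 with ⟨a78, b78⟩ | ⟨a78, b78⟩
                                            · have t79 := spG (G1 3 ⟨false, false, true, false, false⟩ ⟨false, false, true, false, false⟩ ⟨true, true, true, false, true⟩ (by decide) (by decide) (by decide) (by decide))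
                                              simp only [Side.M, Side.W, Side.fm, Side.fw, cond_true, cond_false, Nat.cast_ofNat, Nat.cast_one] at t79
                                              rcases t79 with ⟨a79, b79⟩ | ⟨a79, b79⟩
                                              · linarith only [p26, ht, hs, a7, a55, a57, a59, a76, a78, a79, p01, p13, hL]
                                              · linarith only [u1, p16, l2, p26, ht, a1, a55, a59, a76, a78, a79, p12, p13, p27, hL]
                                            · have t80 := spG (G0 4 ⟨false, false, false, true, false⟩ ⟨false, false, false, true, false⟩ ⟨true, true, true, false, false⟩ (by decide) (by decide) (by decide) (by decide))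
                                              simp only [Side.M, Side.W, Side.fm, Side.fw, cond_true, cond_false, Nat.cast_ofNat, Nat.cast_one] at t80
                                              rcases t80 with ⟨a80, b80⟩ | ⟨a80, b80⟩
                                              · have t81 := spM (M1 ⟨false, false, false, true, true⟩)
                                                simp only [Side.M, Side.W, Side.fm, Side.fw, cond_true, cond_false, Nat.cast_ofNat, Nat.cast_one] at t81
                                                rcases t81 with ⟨a81, b81⟩ | ⟨a81, b81⟩
                                                · have t82 := spG (G1 3 ⟨false, false, true, false, false⟩ ⟨false, false, true, false, false⟩ ⟨true, true, true, false, true⟩ (by decide) (by decide) (by decide) (by decide))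
                                                  simp only [Side.M, Side.W, Side.fm, Side.fw, cond_true, cond_false, Nat.cast_ofNat, Nat.cast_one] at t82
                                                  rcases t82 with ⟨a82, b82⟩ | ⟨a82, b82⟩
                                                  · have t83 := spM (M1 ⟨false, false, false, true, false⟩)
                                                    simp only [Side.M, Side.W, Side.fm, Side.fw, cond_true, cond_false, Nat.cast_ofNat, Nat.cast_one] at t83
                                                    rcases t83 with ⟨a83, b83⟩ | ⟨a83, b83⟩
                                                    · linarith only [p06, p26, ht, hs, a10, a59, a77, a80, a83, p04, p24, hL]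
                                                    · have t84 := spG (G1 3 ⟨false, false, true, false, false⟩ ⟨false, false, true, false, false⟩ ⟨true, false, false, true, false⟩ (by decide) (by decide) (by decide) (by decide))
                                                      simp only [Side.M, Side.W, Side.fm, Side.fw, cond_true, cond_false, Nat.cast_ofNat, Nat.cast_one] at t84
                                                      rcases t84 with ⟨a84, b84⟩ | ⟨a84, b84⟩
                                                      · have t85 := spG (G0 2 ⟨false, true, false, true, false⟩ ⟨false, true, false, true, false⟩ ⟨true, false, true, false, false⟩ (by decide) (by decide) (by decide) (by decide))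
                                                        simp only [Side.M, Side.W, Side.fm, Side.fw, cond_true, cond_false, Nat.cast_ofNat, Nat.cast_one] at t85
                                                        rcases t85 with ⟨a85, b85⟩ | ⟨a85, b85⟩
                                                        · have t86 := spG (G1 2 ⟨false, true, false, true, false⟩ ⟨false, true, false, true, false⟩ ⟨true, true, false, true, false⟩ (by decide) (by decide) (by decide) (by decide))
                                                          simp only [Side.M, Side.W, Side.fm, Side.fw, cond_true, cond_false, Nat.cast_ofNat, Nat.cast_one] at t86
                                                          rcases t86 with ⟨a86, b86⟩ | ⟨a86, b86⟩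
                                                          · linarith only [p06, u1, p16, l2, p26, ht, a7, a10, a54, a59, a76, a77, a81, a82, a84, a85, a86, p12, p25, hL]
                                                          · linarith only [u0, p06, u1, p16, l2, p26, ht, a10, a54, a59, a77, a80, a81, a82, a84, a85, a86, p13, p25, hL]
                                                        · linarith only [p06, l1, p16, p26, ht, a7, a10, a59, a77, a78, a80, a81, a82, a84, a85, p05, p13, hL]
                                                      · linarith only [p06, l2, p26, ht, a10, a59, a77, a80, a83, a84, p04, p24, hL]
                                                  · have t87 := spG (G0 2 ⟨false, false, false, true, false⟩ ⟨false, true, false, true, false⟩ ⟨true, false, true, false, false⟩ (by decide) (by decide) (by decide) (by decide))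
                                                    simp only [Side.M, Side.W, Side.fm, Side.fw, cond_true, cond_false, Nat.cast_ofNat, Nat.cast_one] at t87
                                                    rcases t87 with ⟨a87, b87⟩ | ⟨a87, b87⟩
                                                    · have t88 := spG (G2 1 ⟨true, true, false, false, false⟩ ⟨true, true, false, false, false⟩ ⟨true, true, true, false, false⟩ (by decide) (by decide) (by decide) (by decide))
                                                      simp only [Side.M, Side.W, Side.fm, Side.fw, cond_true, cond_false, Nat.cast_ofNat, Nat.cast_one] at t88
                                                      rcases t88 with ⟨a88, b88⟩ | ⟨a88, b88⟩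
                                                      · have t89 := spM (M1 ⟨false, false, false, false, true⟩)
                                                        simp only [Side.M, Side.W, Side.fm, Side.fw, cond_true, cond_false, Nat.cast_ofNat, Nat.cast_one] at t89
                                                        rcases t89 with ⟨a89, b89⟩ | ⟨a89, b89⟩
                                                        · linarith only [u0, p06, u1, p16, p26, ht, a59, a78, a88, a89, p02, p05, p12, p14, p27, hL]
                                                        · linarith only [p06, u1, p16, l2, p26, ht, a10, a59, a76, a78, a81, a82, a88, a89, p05, p12, p25, hL]
                                                      · have t90 := spM (M1 ⟨false, false, false, false, true⟩)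
                                                        simp only [Side.M, Side.W, Side.fm, Side.fw, cond_true, cond_false, Nat.cast_ofNat, Nat.cast_one] at t90
                                                        rcases t90 with ⟨a90, b90⟩ | ⟨a90, b90⟩
                                                        · linarith only [u0, p06, u1, p16, u2, p26, ht, a7, a10, a40, a54, a76, a88, a90, p05, p12, p13, p14, p25, hL]
                                                        · have t91 := spG (G2 2 ⟨false, true, false, false, false⟩ ⟨false, true, false, true, false⟩ ⟨true, true, true, false, false⟩ (by decide) (by decide) (by decide) (by decide))
                                                          simp only [Side.M, Side.W, Side.fm, Side.fw, cond_true, cond_false, Nat.cast_ofNat, Nat.cast_one] at t91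
                                                          rcases t91 with ⟨a91, b91⟩ | ⟨a91, b91⟩
                                                          · linarith only [u0, p06, l1, p16, u2, p26, ht, a10, a54, a76, a78, a81, a82, a88, a90, a91, p13, p25, hL]
                                                          · linarith only [p06, l1, p16, u2, p26, ht, a10, a54, a76, a77, a81, a82, a90, a91, p05, p13, p25, hL]
                                                    · linarith only [u1, p16, l2, p26, ht, a59, a76, a78, a81, a82, a87, p12, p13, p25, hL]
                                                · have t92 := spG (G1 3 ⟨false, false, true, false, false⟩ ⟨false, false, true, false, false⟩ ⟨true, true, true, false, false⟩ (by decide) (by decide) (by decide) (by decide))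
                                                  simp only [Side.M, Side.W, Side.fm, Side.fw, cond_true, cond_false, Nat.cast_ofNat, Nat.cast_one] at t92
                                                  rcases t92 with ⟨a92, b92⟩ | ⟨a92, b92⟩
                                                  · have t93 := spG (G0 2 ⟨false, true, false, true, false⟩ ⟨false, true, false, true, false⟩ ⟨true, false, true, false, false⟩ (by decide) (by decide) (by decide) (by decide))
                                                    simp only [Side.M, Side.W, Side.fm, Side.fw, cond_true, cond_false, Nat.cast_ofNat, Nat.cast_one] at t93
                                                    rcases t93 with ⟨a93, b93⟩ | ⟨a93, b93⟩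
                                                    · have t94 := spG (G1 2 ⟨false, true, false, true, false⟩ ⟨false, true, false, true, false⟩ ⟨true, true, false, false, false⟩ (by decide) (by decide) (by decide) (by decide))
                                                      simp only [Side.M, Side.W, Side.fm, Side.fw, cond_true, cond_false, Nat.cast_ofNat, Nat.cast_one] at t94
                                                      rcases t94 with ⟨a94, b94⟩ | ⟨a94, b94⟩
                                                      · have t95 := spG (G0 3 ⟨false, false, true, false, false⟩ ⟨false, false, true, false, false⟩ ⟨true, true, false, true, true⟩ (by decide) (by decide) (by decide) (by decide))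
                                                        simp only [Side.M, Side.W, Side.fm, Side.fw, cond_true, cond_false, Nat.cast_ofNat, Nat.cast_one] at t95
                                                        rcases t95 with ⟨a95, b95⟩ | ⟨a95, b95⟩
                                                        · have t96 := spG (G2 2 ⟨false, true, false, false, false⟩ ⟨false, true, false, true, false⟩ ⟨true, true, true, false, false⟩ (by decide) (by decide) (by decide) (by decide))
                                                          simp only [Side.M, Side.W, Side.fm, Side.fw, cond_true, cond_false, Nat.cast_ofNat, Nat.cast_one] at t96
                                                          rcases t96 with ⟨a96, b96⟩ | ⟨a96, b96⟩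
                                                          · linarith only [u0, p06, l1, p16, l2, p26, ht, hs, a10, a54, a59, a76, a81, a92, a93, a94, a95, a96, p05, hL]
                                                          · linarith only [u0, p06, l1, p16, u2, p26, ht, a1, a7, a10, a76, a77, a81, a93, a94, a95, a96, p05, p11, hL]
                                                        · linarith only [p06, l1, p16, l2, p26, ht, a1, b8, a10, a54, a59, a76, a77, a81, a92, a94, a95, p15, p25, hL]
                                                      · linarith only [l2, p26, ht, hs, a1, b10, a59, a94, p07, p11, p27, hL]
                                                    · linarith only [p06, l1, p16, p26, ht, hs, a1, a10, a59, a76, a80, a81, a93, p05, p15, p25, hL]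
                                                  · linarith only [p06, l2, p26, ht, hs, a1, a10, a54, a59, a76, a92, p03, p05, p11, p25, hL]
                                              · have t97 := spG (G2 1 ⟨true, false, false, false, false⟩ ⟨true, true, false, true, false⟩ ⟨true, true, true, false, false⟩ (by decide) (by decide) (by decide) (by decide))
                                                simp only [Side.M, Side.W, Side.fm, Side.fw, cond_true, cond_false, Nat.cast_ofNat, Nat.cast_one] at t97
                                                rcases t97 with ⟨a97, b97⟩ | ⟨a97, b97⟩
                                                · have t98 := spG (G1 3 ⟨false, false, true, false, false⟩ ⟨false, false, true, false, false⟩ ⟨true, false, false, true, false⟩ (by decide) (by decide) (by decide) (by decide))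
                                                  simp only [Side.M, Side.W, Side.fm, Side.fw, cond_true, cond_false, Nat.cast_ofNat, Nat.cast_one] at t98
                                                  rcases t98 with ⟨a98, b98⟩ | ⟨a98, b98⟩
                                                  · linarith only [l1, p16, l2, p26, ht, hs, a1, a54, a59, a76, a78, a80, a98, p01, p21, p25, hL]
                                                  · have t99 := spM (M1 ⟨false, false, false, true, false⟩)
                                                    simp only [Side.M, Side.W, Side.fm, Side.fw, cond_true, cond_false, Nat.cast_ofNat, Nat.cast_one] at t99
                                                    rcases t99 with ⟨a99, b99⟩ | ⟨a99, b99⟩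
                                                    · have t100 := spF (F12 2 ⟨false, true, false, true, false⟩ (by decide) (by decide) (by decide))
                                                      simp only [Side.M, Side.W, Side.fm, Side.fw, cond_true, cond_false, Nat.cast_ofNat, Nat.cast_one] at t100
                                                      rcases t100 with ⟨a100, b100⟩ | ⟨a100, b100⟩
                                                      · have t101 := spG (G2 2 ⟨false, true, false, true, false⟩ ⟨false, true, false, false, false⟩ ⟨false, false, true, false, false⟩ (by decide) (by decide) (by decide) (by decide))
                                                        simp only [Side.M, Side.W, Side.fm, Side.fw, cond_true, cond_false, Nat.cast_ofNat, Nat.cast_one] at t101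
                                                        rcases t101 with ⟨a101, b101⟩ | ⟨a101, b101⟩
                                                        · linarith only [l1, p16, p26, ht, hs, a7, a57, a59, a76, a78, a80, a97, a99, a101, p01, p04, p13, hL]
                                                        · linarith only [l1, p16, u2, p26, ht, a39, a54, a57, a76, a78, a80, a100, a101, p01, p13, p22, hL]
                                                      · linarith only [ht, hs, b55, a78, b99, b100, p12, hL]
                                                    · linarith only [l1, l2, p26, ht, a54, a57, a59, a76, a78, a80, a98, a99, p01, p13, hL]
                                                · linarith only [l1, p16, u2, p26, ht, hs, a1, a39, a54, a57, a76, a78, a80, a97, p01, p05, p13, p21, hL]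
                                          · have t102 := spG (G0 2 ⟨false, true, false, true, false⟩ ⟨false, true, false, true, false⟩ ⟨true, false, true, false, false⟩ (by decide) (by decide) (by decide) (by decide))
                                            simp only [Side.M, Side.W, Side.fm, Side.fw, cond_true, cond_false, Nat.cast_ofNat, Nat.cast_one] at t102
                                            rcases t102 with ⟨a102, b102⟩ | ⟨a102, b102⟩
                                            · have t103 := spM (M1 ⟨false, false, false, true, false⟩)
                                              simp only [Side.M, Side.W, Side.fm, Side.fw, cond_true, cond_false, Nat.cast_ofNat, Nat.cast_one] at t103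
                                              rcases t103 with ⟨a103, b103⟩ | ⟨a103, b103⟩
                                              · linarith only [u0, p06, l1, p16, ht, a39, a40, a54, a56, a77, a102, a103, p01, p12, p13, p17, p21, p24, hL]
                                              · have t104 := spG (G1 3 ⟨false, false, true, false, false⟩ ⟨false, false, true, false, false⟩ ⟨true, true, true, false, true⟩ (by decide) (by decide) (by decide) (by decide))
                                                simp only [Side.M, Side.W, Side.fm, Side.fw, cond_true, cond_false, Nat.cast_ofNat, Nat.cast_one] at t104
                                                rcases t104 with ⟨a104, b104⟩ | ⟨a104, b104⟩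
                                                · linarith only [p06, l1, ht, a7, a10, a40, a54, a56, a76, a77, a103, a104, p13, p21, hL]
                                                · linarith only [p06, l1, p16, l2, ht, a1, a10, a40, b40, a54, a76, a77, a104, p05, p12, p13, p21, hL]
                                            · linarith only [p06, l1, p16, ht, a10, a40, b40, a54, a56, a76, a77, a102, p12, p13, p15, p21, p25, hL]
                                        · have t105 := spG (G0 3 ⟨false, false, true, false, false⟩ ⟨false, false, true, false, false⟩ ⟨true, false, true, false, false⟩ (by decide) (by decide) (by decide) (by decide))
                                          simp only [Side.M, Side.W, Side.fm, Side.fw, cond_true, cond_false, Nat.cast_ofNat, Nat.cast_one] at t105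
                                          rcases t105 with ⟨a105, b105⟩ | ⟨a105, b105⟩
                                          · have t106 := spG (G1 3 ⟨false, false, true, false, false⟩ ⟨false, false, true, false, false⟩ ⟨true, true, true, false, false⟩ (by decide) (by decide) (by decide) (by decide))
                                            simp only [Side.M, Side.W, Side.fm, Side.fw, cond_true, cond_false, Nat.cast_ofNat, Nat.cast_one] at t106
                                            rcases t106 with ⟨a106, b106⟩ | ⟨a106, b106⟩
                                            · have t107 := spG (G0 3 ⟨false, false, true, false, false⟩ ⟨false, false, true, false, false⟩ ⟨true, true, true, false, false⟩ (by decide) (by decide) (by decide) (by decide))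
                                              simp only [Side.M, Side.W, Side.fm, Side.fw, cond_true, cond_false, Nat.cast_ofNat, Nat.cast_one] at t107
                                              rcases t107 with ⟨a107, b107⟩ | ⟨a107, b107⟩
                                              · have t108 := spG (G0 2 ⟨false, true, false, true, false⟩ ⟨false, true, false, true, false⟩ ⟨true, false, true, false, false⟩ (by decide) (by decide) (by decide) (by decide))
                                                simp only [Side.M, Side.W, Side.fm, Side.fw, cond_true, cond_false, Nat.cast_ofNat, Nat.cast_one] at t108
                                                rcases t108 with ⟨a108, b108⟩ | ⟨a108, b108⟩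
                                                · have t109 := spM (M1 ⟨false, false, false, true, false⟩)
                                                  simp only [Side.M, Side.W, Side.fm, Side.fw, cond_true, cond_false, Nat.cast_ofNat, Nat.cast_one] at t109
                                                  rcases t109 with ⟨a109, b109⟩ | ⟨a109, b109⟩
                                                  · linarith only [u0, p06, l1, p16, ht, a39, a40, a54, a56, a76, b76, a108, a109, p01, p12, p13, p17, p24, hL]
                                                  · have t110 := spG (G1 3 ⟨false, false, true, false, false⟩ ⟨false, false, true, false, false⟩ ⟨true, true, true, false, true⟩ (by decide) (by decide) (by decide) (by decide))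
                                                    simp only [Side.M, Side.W, Side.fm, Side.fw, cond_true, cond_false, Nat.cast_ofNat, Nat.cast_one] at t110
                                                    rcases t110 with ⟨a110, b110⟩ | ⟨a110, b110⟩
                                                    · linarith only [p06, l1, ht, a7, a10, a40, a54, a56, a76, a107, a109, a110, p13, p21, hL]
                                                    · linarith only [p06, l1, p16, l2, ht, a1, a7, a10, a40, a54, a76, a106, a107, a110, p05, p12, p21, hL]
                                                · linarith only [p06, l1, p16, ht, a7, a10, a39, a40, a56, a76, a106, a107, a108, p13, p15, p21, p25, hL]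
                                              · linarith only [u0, p06, l1, p16, ht, a7, a39, a40, a54, a56, a57, a76, a106, a107, p05, p13, p21, p24, hL]
                                            · linarith only [p06, l1, l2, ht, hs, a1, a7, a10, a38, a40, a76, a105, a106, p01, p05, p11, p21, hL]
                                          · linarith only [l1, ht, a7, a39, a40, a76, a105, p11, p13, p21, hL]
                                    · linarith only [p06, l1, ht, hs, a10, b40, a54, a55, a58, p05, hL]
                                  · have t111 := spG (G2 3 ⟨false, false, true, false, false⟩ ⟨false, false, true, false, false⟩ ⟨true, true, true, false, false⟩ (by decide) (by decide) (by decide) (by decide))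
                                    simp only [Side.M, Side.W, Side.fm, Side.fw, cond_true, cond_false, Nat.cast_ofNat, Nat.cast_one] at t111
                                    rcases t111 with ⟨a111, b111⟩ | ⟨a111, b111⟩
                                    · linarith only [l1, u2, p26, ht, a3, a7, a55, a57, a111, p13, p25, hL]
                                    · linarith only [l1, ht, a7, a39, a40, a57, a111, p11, p13, p21, hL]
                                · linarith only [p06, l1, ht, hs, a10, b40, a54, a55, a56, p05, hL]
                              · linarith only [p06, ht, hs, a10, a54, b55, p07, hL]
                            · have t112 := spG (G0 4 ⟨false, false, false, true, false⟩ ⟨false, false, false, true, false⟩ ⟨true, false, true, true, false⟩ (by decide) (by decide) (by decide) (by decide))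
                              simp only [Side.M, Side.W, Side.fm, Side.fw, cond_true, cond_false, Nat.cast_ofNat, Nat.cast_one] at t112
                              rcases t112 with ⟨a112, b112⟩ | ⟨a112, b112⟩
                              · have t113 := spM (M2 ⟨false, false, false, true, true⟩)
                                simp only [Side.M, Side.W, Side.fm, Side.fw, cond_true, cond_false, Nat.cast_ofNat, Nat.cast_one] at t113
                                rcases t113 with ⟨a113, b113⟩ | ⟨a113, b113⟩
                                · have t114 := spG (G0 4 ⟨false, false, false, true, false⟩ ⟨false, false, false, true, false⟩ ⟨true, true, true, true, true⟩ (by decide) (by decide) (by decide) (by decide))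
                                  simp only [Side.M, Side.W, Side.fm, Side.fw, cond_true, cond_false, Nat.cast_ofNat, Nat.cast_one] at t114
                                  rcases t114 with ⟨a114, b114⟩ | ⟨a114, b114⟩
                                  · linarith only [p06, u2, p26, ht, hs, a54, a113, a114, p03, p04, p07, p14, p22, p23, hL]
                                  · have t115 := spF (F21 2 ⟨false, true, false, true, false⟩ (by decide) (by decide) (by decide))
                                    simp only [Side.M, Side.W, Side.fm, Side.fw, cond_true, cond_false, Nat.cast_ofNat, Nat.cast_one] at t115
                                    rcases t115 with ⟨a115, b115⟩ | ⟨a115, b115⟩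
                                    · have t116 := spM (M2 ⟨false, false, false, true, false⟩)
                                      simp only [Side.M, Side.W, Side.fm, Side.fw, cond_true, cond_false, Nat.cast_ofNat, Nat.cast_one] at t116
                                      rcases t116 with ⟨a116, b116⟩ | ⟨a116, b116⟩
                                      · have t117 := spG (G0 4 ⟨false, false, false, true, false⟩ ⟨false, false, false, true, false⟩ ⟨true, true, true, false, false⟩ (by decide) (by decide) (by decide) (by decide))
                                        simp only [Side.M, Side.W, Side.fm, Side.fw, cond_true, cond_false, Nat.cast_ofNat, Nat.cast_one] at t117
                                        rcases t117 with ⟨a117, b117⟩ | ⟨a117, b117⟩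
                                        · linarith only [p06, l1, u2, p26, ht, hs, a5, b8, a54, a113, a114, a116, a117, p11, p14, p22, hL]
                                        · have t118 := spG (G1 2 ⟨false, false, false, true, false⟩ ⟨false, true, false, false, false⟩ ⟨true, false, true, false, false⟩ (by decide) (by decide) (by decide) (by decide))
                                          simp only [Side.M, Side.W, Side.fm, Side.fw, cond_true, cond_false, Nat.cast_ofNat, Nat.cast_one] at t118
                                          rcases t118 with ⟨a118, b118⟩ | ⟨a118, b118⟩
                                          · linarith only [p06, u1, p16, u2, p26, ht, a1, a4, a54, a112, a113, a114, a115, a116, a117, a118, p04, p11, p22, hL]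
                                          · have t119 := spG (G1 2 ⟨false, true, false, true, false⟩ ⟨false, true, false, true, false⟩ ⟨true, true, false, true, false⟩ (by decide) (by decide) (by decide) (by decide))
                                            simp only [Side.M, Side.W, Side.fm, Side.fw, cond_true, cond_false, Nat.cast_ofNat, Nat.cast_one] at t119
                                            rcases t119 with ⟨a119, b119⟩ | ⟨a119, b119⟩
                                            · have t120 := spG (G2 1 ⟨true, false, true, false, false⟩ ⟨false, true, false, false, false⟩ ⟨true, false, false, false, false⟩ (by decide) (by decide) (by decide) (by decide))
                                              simp only [Side.M, Side.W, Side.fm, Side.fw, cond_true, cond_false, Nat.cast_ofNat, Nat.cast_one] at t120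
                                              rcases t120 with ⟨a120, b120⟩ | ⟨a120, b120⟩
                                              · linarith only [p06, l1, p16, u2, p26, ht, hs, a4, a54, a116, a117, a118, a119, a120, p04, p05, p14, p22, p27, hL]
                                              · linarith only [p06, l1, p16, u2, p26, ht, hs, a4, a54, a116, a117, a119, a120, p01, p04, p05, p12, p14, p27, hL]
                                            · linarith only [l1, l2, ht, hs, a2, a112, a116, a117, a118, a119, p01, p04, p05, p11, p15, hL]
                                      · linarith only [l1, u2, p26, ht, hs, a54, a113, a114, a116, p01, p22, p23, hL]
                                    · linarith only [l1, u2, p26, ht, a54, a113, a114, b115, p01, p22, p23, hL]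
                                · have t121 := spG (G0 3 ⟨false, false, true, false, false⟩ ⟨false, false, true, false, false⟩ ⟨true, true, true, true, true⟩ (by decide) (by decide) (by decide) (by decide))
                                  simp only [Side.M, Side.W, Side.fm, Side.fw, cond_true, cond_false, Nat.cast_ofNat, Nat.cast_one] at t121
                                  rcases t121 with ⟨a121, b121⟩ | ⟨a121, b121⟩
                                  · have t122 := spG (G0 2 ⟨false, true, false, true, false⟩ ⟨false, true, false, true, false⟩ ⟨true, true, false, false, false⟩ (by decide) (by decide) (by decide) (by decide))
                                    simp only [Side.M, Side.W, Side.fm, Side.fw, cond_true, cond_false, Nat.cast_ofNat, Nat.cast_one] at t122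
                                    rcases t122 with ⟨a122, b122⟩ | ⟨a122, b122⟩
                                    · have t123 := spG (G2 4 ⟨false, false, false, true, false⟩ ⟨false, false, false, true, false⟩ ⟨true, true, true, false, false⟩ (by decide) (by decide) (by decide) (by decide))
                                      simp only [Side.M, Side.W, Side.fm, Side.fw, cond_true, cond_false, Nat.cast_ofNat, Nat.cast_one] at t123
                                      rcases t123 with ⟨a123, b123⟩ | ⟨a123, b123⟩
                                      · linarith only [p06, u1, p16, l2, p26, ht, a1, a7, a112, a113, a121, b121, a122, a123, p01, p04, p12, p13, p25, hL]
                                      · linarith only [l1, p16, ht, a1, a7, a40, a121, a123, p12, p13, p15, p21, hL]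
                                    · linarith only [l1, ht, a2, a122, p01, hL]
                                  · have t124 := spF (F02 2 ⟨false, true, false, true, false⟩ (by decide) (by decide) (by decide))
                                    simp only [Side.M, Side.W, Side.fm, Side.fw, cond_true, cond_false, Nat.cast_ofNat, Nat.cast_one] at t124
                                    rcases t124 with ⟨a124, b124⟩ | ⟨a124, b124⟩
                                    · have t125 := spM (M1 ⟨false, false, false, true, true⟩)
                                      simp only [Side.M, Side.W, Side.fm, Side.fw, cond_true, cond_false, Nat.cast_ofNat, Nat.cast_one] at t125
                                      rcases t125 with ⟨a125, b125⟩ | ⟨a125, b125⟩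
                                      · have t126 := spF (F10 2 ⟨false, true, false, true, false⟩ (by decide) (by decide) (by decide))
                                        simp only [Side.M, Side.W, Side.fm, Side.fw, cond_true, cond_false, Nat.cast_ofNat, Nat.cast_one] at t126
                                        rcases t126 with ⟨a126, b126⟩ | ⟨a126, b126⟩
                                        · have t127 := spG (G2 4 ⟨false, false, false, true, false⟩ ⟨false, false, false, true, false⟩ ⟨true, true, true, false, false⟩ (by decide) (by decide) (by decide) (by decide))
                                          simp only [Side.M, Side.W, Side.fm, Side.fw, cond_true, cond_false, Nat.cast_ofNat, Nat.cast_one] at t127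
                                          rcases t127 with ⟨a127, b127⟩ | ⟨a127, b127⟩
                                          · have t128 := spM (M1 ⟨false, false, false, true, false⟩)
                                            simp only [Side.M, Side.W, Side.fm, Side.fw, cond_true, cond_false, Nat.cast_ofNat, Nat.cast_one] at t128
                                            rcases t128 with ⟨a128, b128⟩ | ⟨a128, b128⟩
                                            · have t129 := spG (G0 2 ⟨false, true, false, true, false⟩ ⟨false, true, false, true, false⟩ ⟨true, true, false, false, false⟩ (by decide) (by decide) (by decide) (by decide))
                                              simp only [Side.M, Side.W, Side.fm, Side.fw, cond_true, cond_false, Nat.cast_ofNat, Nat.cast_one] at t129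
                                              rcases t129 with ⟨a129, b129⟩ | ⟨a129, b129⟩
                                              · have t130 := spG (G2 2 ⟨false, true, false, true, false⟩ ⟨false, true, false, true, false⟩ ⟨true, true, false, true, false⟩ (by decide) (by decide) (by decide) (by decide))
                                                simp only [Side.M, Side.W, Side.fm, Side.fw, cond_true, cond_false, Nat.cast_ofNat, Nat.cast_one] at t130
                                                rcases t130 with ⟨a130, b130⟩ | ⟨a130, b130⟩
                                                · have t131 := spG (G2 1 ⟨true, true, false, false, false⟩ ⟨true, true, false, false, false⟩ ⟨true, true, true, false, false⟩ (by decide) (by decide) (by decide) (by decide))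
                                                  simp only [Side.M, Side.W, Side.fm, Side.fw, cond_true, cond_false, Nat.cast_ofNat, Nat.cast_one] at t131
                                                  rcases t131 with ⟨a131, b131⟩ | ⟨a131, b131⟩
                                                  · linarith only [p06, u1, p16, p26, ht, a7, a39, a54, b54, a112, a113, a128, a130, a131, p04, p05, p12, p17, hL]
                                                  · linarith only [p06, l1, p16, u2, p26, ht, hs, a39, a54, a121, a127, a128, a130, a131, p01, p04, p12, p13, p22, hL]
                                                · linarith only [p06, l1, p16, p26, ht, a54, a112, a113, a127, a128, a129, a130, p01, p04, p12, p13, p15, p22, hL]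
                                              · linarith only [l1, ht, a2, a129, p01, hL]
                                            · have t132 := spG (G2 2 ⟨false, true, false, true, false⟩ ⟨false, true, false, true, false⟩ ⟨true, true, false, true, true⟩ (by decide) (by decide) (by decide) (by decide))
                                              simp only [Side.M, Side.W, Side.fm, Side.fw, cond_true, cond_false, Nat.cast_ofNat, Nat.cast_one] at t132
                                              rcases t132 with ⟨a132, b132⟩ | ⟨a132, b132⟩
                                              · have t133 := spG (G1 3 ⟨false, false, true, false, false⟩ ⟨false, false, true, false, false⟩ ⟨true, false, false, true, false⟩ (by decide) (by decide) (by decide) (by decide))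
                                                simp only [Side.M, Side.W, Side.fm, Side.fw, cond_true, cond_false, Nat.cast_ofNat, Nat.cast_one] at t133
                                                rcases t133 with ⟨a133, b133⟩ | ⟨a133, b133⟩
                                                · have t134 := spM (M1 ⟨false, false, false, false, true⟩)
                                                  simp only [Side.M, Side.W, Side.fm, Side.fw, cond_true, cond_false, Nat.cast_ofNat, Nat.cast_one] at t134
                                                  rcases t134 with ⟨a134, b134⟩ | ⟨a134, b134⟩
                                                  · linarith only [l1, p16, p26, ht, a7, a40, a54, a113, a121, a134, p01, p12, p13, p14, p25, hL]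
                                                  · linarith only [p06, l1, p16, p26, ht, a7, a40, a54, a113, a121, a125, a132, a133, a134, p01, p04, p12, p27, hL]
                                                · linarith only [p06, l1, p16, l2, p26, ht, a39, b40, a54, a112, a121, a127, a128, a132, a133, p04, p12, p13, p22, hL]
                                              · have t135 := spG (G1 2 ⟨false, true, false, true, false⟩ ⟨false, true, false, true, false⟩ ⟨true, true, true, false, true⟩ (by decide) (by decide) (by decide) (by decide))
                                                simp only [Side.M, Side.W, Side.fm, Side.fw, cond_true, cond_false, Nat.cast_ofNat, Nat.cast_one] at t135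
                                                rcases t135 with ⟨a135, b135⟩ | ⟨a135, b135⟩
                                                · have t136 := spG (G1 2 ⟨false, true, false, true, false⟩ ⟨false, true, false, true, false⟩ ⟨true, true, false, true, false⟩ (by decide) (by decide) (by decide) (by decide))
                                                  simp only [Side.M, Side.W, Side.fm, Side.fw, cond_true, cond_false, Nat.cast_ofNat, Nat.cast_one] at t136
                                                  rcases t136 with ⟨a136, b136⟩ | ⟨a136, b136⟩
                                                  · linarith only [p06, l1, p16, u2, p26, ht, a7, a54, a113, a121, a125, a128, a132, a136, p04, p07, p12, p13, p24, hL]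
                                                  · linarith only [p06, l1, p16, u2, p26, ht, a7, a54, a113, a121, a125, a128, a132, a135, a136, p01, p04, p07, p13, hL]
                                                · linarith only [p06, l1, p16, l2, p26, ht, a5, a7, a54, a113, a121, a125, a127, a132, a135, p07, p11, p13, p27, hL]
                                          · have t137 := spG (G2 2 ⟨false, true, false, true, false⟩ ⟨false, true, false, true, false⟩ ⟨true, true, false, true, false⟩ (by decide) (by decide) (by decide) (by decide))
                                            simp only [Side.M, Side.W, Side.fm, Side.fw, cond_true, cond_false, Nat.cast_ofNat, Nat.cast_one] at t137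
                                            rcases t137 with ⟨a137, b137⟩ | ⟨a137, b137⟩
                                            · have t138 := spG (G0 3 ⟨false, false, true, false, false⟩ ⟨false, false, true, false, false⟩ ⟨true, true, true, false, false⟩ (by decide) (by decide) (by decide) (by decide))
                                              simp only [Side.M, Side.W, Side.fm, Side.fw, cond_true, cond_false, Nat.cast_ofNat, Nat.cast_one] at t138
                                              rcases t138 with ⟨a138, b138⟩ | ⟨a138, b138⟩
                                              · linarith only [p06, l1, p16, ht, a7, a40, a54, a121, a125, a126, a127, a137, a138, p12, p13, p21, p24, hL]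
                                              · linarith only [p06, l1, p16, ht, a7, a39, a40, a54, a127, b127, a137, a138, p01, p04, p05, p13, p21, p24, hL]
                                            · linarith only [p06, l1, p16, ht, a5, a7, a40, a54, a112, a121, a125, a126, a127, a137, p05, p15, p21, p25, hL]
                                        · linarith only [u1, p16, p26, ht, a7, a40, a113, a125, b126, p12, p13, p27, hL]
                                      · have t139 := spG (G0 3 ⟨false, false, true, false, false⟩ ⟨false, false, true, false, false⟩ ⟨true, true, true, false, false⟩ (by decide) (by decide) (by decide) (by decide))
                                        simp only [Side.M, Side.W, Side.fm, Side.fw, cond_true, cond_false, Nat.cast_ofNat, Nat.cast_one] at t139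
                                        rcases t139 with ⟨a139, b139⟩ | ⟨a139, b139⟩
                                        · have t140 := spG (G2 4 ⟨false, false, false, true, false⟩ ⟨false, false, false, true, false⟩ ⟨true, true, true, false, false⟩ (by decide) (by decide) (by decide) (by decide))
                                          simp only [Side.M, Side.W, Side.fm, Side.fw, cond_true, cond_false, Nat.cast_ofNat, Nat.cast_one] at t140
                                          rcases t140 with ⟨a140, b140⟩ | ⟨a140, b140⟩
                                          · have t141 := spG (G1 2 ⟨false, true, false, true, false⟩ ⟨false, true, false, false, false⟩ ⟨true, true, true, false, false⟩ (by decide) (by decide) (by decide) (by decide))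
                                            simp only [Side.M, Side.W, Side.fm, Side.fw, cond_true, cond_false, Nat.cast_ofNat, Nat.cast_one] at t141
                                            rcases t141 with ⟨a141, b141⟩ | ⟨a141, b141⟩
                                            · have t142 := spG (G2 2 ⟨false, true, false, true, false⟩ ⟨false, true, false, true, false⟩ ⟨true, false, true, false, false⟩ (by decide) (by decide) (by decide) (by decide))
                                              simp only [Side.M, Side.W, Side.fm, Side.fw, cond_true, cond_false, Nat.cast_ofNat, Nat.cast_one] at t142
                                              rcases t142 with ⟨a142, b142⟩ | ⟨a142, b142⟩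
                                              · have t143 := spG (G0 3 ⟨false, false, true, false, false⟩ ⟨false, false, true, false, false⟩ ⟨true, false, false, true, false⟩ (by decide) (by decide) (by decide) (by decide))
                                                simp only [Side.M, Side.W, Side.fm, Side.fw, cond_true, cond_false, Nat.cast_ofNat, Nat.cast_one] at t143
                                                rcases t143 with ⟨a143, b143⟩ | ⟨a143, b143⟩
                                                · linarith only [p06, l1, p16, u2, p26, ht, a1, a7, b8, a54, b54, a113, a121, a125, a139, a141, a142, a143, p25, hL]
                                                · linarith only [p06, l1, p16, u2, p26, ht, hs, b8, a39, a54, a125, a140, a142, a143, p02, p03, p07, p14, p27, hL]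
                                              · linarith only [p06, l1, p16, p26, ht, hs, a1, a40, a54, a113, a125, a139, a140, a142, p03, p25, hL]
                                            · have t144 := spG (G2 2 ⟨false, true, false, true, false⟩ ⟨false, true, false, true, false⟩ ⟨true, false, true, false, false⟩ (by decide) (by decide) (by decide) (by decide))
                                              simp only [Side.M, Side.W, Side.fm, Side.fw, cond_true, cond_false, Nat.cast_ofNat, Nat.cast_one] at t144
                                              rcases t144 with ⟨a144, b144⟩ | ⟨a144, b144⟩
                                              · linarith only [p06, l1, p26, ht, hs, a7, b8, a54, a113, a121, a139, a141, a144, p14, p27, hL]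
                                              · linarith only [p06, l1, p16, p26, ht, hs, a1, b8, a10, a113, a139, a140, a141, a144, p05, p22, p27, hL]
                                          · linarith only [p06, l1, p16, ht, hs, a1, a7, a40, a54, a125, a139, a140, p03, p05, p15, p21, hL]
                                        · have t145 := spG (G2 3 ⟨false, false, true, false, false⟩ ⟨false, false, true, false, false⟩ ⟨true, true, true, false, false⟩ (by decide) (by decide) (by decide) (by decide))
                                          simp only [Side.M, Side.W, Side.fm, Side.fw, cond_true, cond_false, Nat.cast_ofNat, Nat.cast_one] at t145
                                          rcases t145 with ⟨a145, b145⟩ | ⟨a145, b145⟩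
                                          · linarith only [p06, l1, p26, ht, hs, a54, a113, a125, a139, a145, p01, p04, p07, p11, p27, hL]
                                          · linarith only [l1, ht, a7, a38, a39, a40, a125, a139, a145, p01, p11, p21, hL]
                                    · linarith only [l1, ht, hs, a54, b54, a121, b124, p04, hL]
                              · linarith only [p06, l1, ht, a8, b8, a54, b54, a112, p05, hL]
                        · have t146 := spG (G2 3 ⟨false, false, true, false, false⟩ ⟨false, false, true, false, false⟩ ⟨true, true, true, false, false⟩ (by decide) (by decide) (by decide) (by decide))
                          simp only [Side.M, Side.W, Side.fm, Side.fw, cond_true, cond_false, Nat.cast_ofNat, Nat.cast_one] at t146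
                          rcases t146 with ⟨a146, b146⟩ | ⟨a146, b146⟩
                          · linarith only [p06, l2, p26, ht, hs, b8, a10, a38, b39, a146, p07, p12, p14, p15, p22, p23, p27, hL]
                          · linarith only [l1, l2, p26, ht, a6, a7, a39, a146, p01, p21, p25, hL]
                      · linarith only [l1, ht, a9, a38, p01, p03, p04, p07, hL]
                · have t147 := spM (M2 ⟨false, false, false, true, true⟩)
                  simp only [Side.M, Side.W, Side.fm, Side.fw, cond_true, cond_false, Nat.cast_ofNat, Nat.cast_one] at t147
                  rcases t147 with ⟨a147, b147⟩ | ⟨a147, b147⟩
                  · have t148 := spF (F02 3 ⟨false, false, true, false, false⟩ (by decide) (by decide) (by decide))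
                    simp only [Side.M, Side.W, Side.fm, Side.fw, cond_true, cond_false, Nat.cast_ofNat, Nat.cast_one] at t148
                    rcases t148 with ⟨a148, b148⟩ | ⟨a148, b148⟩
                    · have t149 := spG (G0 4 ⟨false, false, false, true, false⟩ ⟨false, false, false, true, false⟩ ⟨true, false, true, false, false⟩ (by decide) (by decide) (by decide) (by decide))
                      simp only [Side.M, Side.W, Side.fm, Side.fw, cond_true, cond_false, Nat.cast_ofNat, Nat.cast_one] at t149
                      rcases t149 with ⟨a149, b149⟩ | ⟨a149, b149⟩
                      · have t150 := spG (G1 4 ⟨false, false, false, true, false⟩ ⟨false, false, false, true, false⟩ ⟨true, true, true, false, true⟩ (by decide) (by decide) (by decide) (by decide))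
                        simp only [Side.M, Side.W, Side.fm, Side.fw, cond_true, cond_false, Nat.cast_ofNat, Nat.cast_one] at t150
                        rcases t150 with ⟨a150, b150⟩ | ⟨a150, b150⟩
                        · have t151 := spG (G0 4 ⟨false, false, false, true, false⟩ ⟨false, false, false, true, false⟩ ⟨true, true, true, false, false⟩ (by decide) (by decide) (by decide) (by decide))
                          simp only [Side.M, Side.W, Side.fm, Side.fw, cond_true, cond_false, Nat.cast_ofNat, Nat.cast_one] at t151
                          rcases t151 with ⟨a151, b151⟩ | ⟨a151, b151⟩
                          · have t152 := spM (M0 ⟨false, false, false, false, true⟩)
                            simp only [Side.M, Side.W, Side.fm, Side.fw, cond_true, cond_false, Nat.cast_ofNat, Nat.cast_one] at t152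
                            rcases t152 with ⟨a152, b152⟩ | ⟨a152, b152⟩
                            · linarith only [u0, p06, u2, p26, ht, hs, a147, a152, p02, p03, p04, p22, p23, p27, hL]
                            · linarith only [p06, u2, p26, ht, hs, a3, a7, b8, a147, a150, a151, a152, hL]
                          · linarith only [l1, u2, p26, ht, hs, a7, b8, a147, a149, a150, a151, p01, p04, p05, p22, hL]
                        · have t153 := spG (G0 4 ⟨false, false, false, true, false⟩ ⟨false, false, false, true, false⟩ ⟨true, true, true, true, true⟩ (by decide) (by decide) (by decide) (by decide))
                          simp only [Side.M, Side.W, Side.fm, Side.fw, cond_true, cond_false, Nat.cast_ofNat, Nat.cast_one] at t153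
                          rcases t153 with ⟨a153, b153⟩ | ⟨a153, b153⟩
                          · linarith only [u2, p26, ht, hs, a3, a7, b8, a147, a153, p14, hL]
                          · have t154 := spF (F12 3 ⟨false, false, true, false, false⟩ (by decide) (by decide) (by decide))
                            simp only [Side.M, Side.W, Side.fm, Side.fw, cond_true, cond_false, Nat.cast_ofNat, Nat.cast_one] at t154
                            rcases t154 with ⟨a154, b154⟩ | ⟨a154, b154⟩
                            · have t155 := spG (G1 4 ⟨false, false, false, true, false⟩ ⟨false, false, false, true, false⟩ ⟨true, false, true, false, false⟩ (by decide) (by decide) (by decide) (by decide))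
                              simp only [Side.M, Side.W, Side.fm, Side.fw, cond_true, cond_false, Nat.cast_ofNat, Nat.cast_one] at t155
                              rcases t155 with ⟨a155, b155⟩ | ⟨a155, b155⟩
                              · have t156 := spM (M1 ⟨false, false, true, false, true⟩)
                                simp only [Side.M, Side.W, Side.fm, Side.fw, cond_true, cond_false, Nat.cast_ofNat, Nat.cast_one] at t156
                                rcases t156 with ⟨a156, b156⟩ | ⟨a156, b156⟩
                                · have t157 := spG (G1 2 ⟨false, true, false, true, false⟩ ⟨false, true, false, true, false⟩ ⟨true, true, false, true, false⟩ (by decide) (by decide) (by decide) (by decide))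
                                  simp only [Side.M, Side.W, Side.fm, Side.fw, cond_true, cond_false, Nat.cast_ofNat, Nat.cast_one] at t157
                                  rcases t157 with ⟨a157, b157⟩ | ⟨a157, b157⟩
                                  · have t158 := spG (G0 2 ⟨false, true, false, true, false⟩ ⟨false, true, false, true, false⟩ ⟨true, true, false, true, false⟩ (by decide) (by decide) (by decide) (by decide))
                                    simp only [Side.M, Side.W, Side.fm, Side.fw, cond_true, cond_false, Nat.cast_ofNat, Nat.cast_one] at t158
                                    rcases t158 with ⟨a158, b158⟩ | ⟨a158, b158⟩
                                    · have t159 := spG (G0 4 ⟨false, false, false, false, false⟩ ⟨false, false, false, true, false⟩ ⟨true, true, true, false, true⟩ (by decide) (by decide) (by decide) (by decide))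
                                      simp only [Side.M, Side.W, Side.fm, Side.fw, cond_true, cond_false, Nat.cast_ofNat, Nat.cast_one] at t159
                                      rcases t159 with ⟨a159, b159⟩ | ⟨a159, b159⟩
                                      · have t160 := spM (M2 ⟨false, false, false, true, false⟩)
                                        simp only [Side.M, Side.W, Side.fm, Side.fw, cond_true, cond_false, Nat.cast_ofNat, Nat.cast_one] at t160
                                        rcases t160 with ⟨a160, b160⟩ | ⟨a160, b160⟩
                                        · linarith only [u0, p06, u1, p16, u2, p26, ht, a4, a155, a156, a158, a159, a160, p02, p05, p14, p22, p23, p27, hL]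
                                        · linarith only [u2, p26, ht, hs, a3, a7, b8, a147, a160, hL]
                                      · have t161 := spG (G0 4 ⟨false, false, false, true, false⟩ ⟨false, false, false, true, false⟩ ⟨true, true, true, false, false⟩ (by decide) (by decide) (by decide) (by decide))
                                        simp only [Side.M, Side.W, Side.fm, Side.fw, cond_true, cond_false, Nat.cast_ofNat, Nat.cast_one] at t161
                                        rcases t161 with ⟨a161, b161⟩ | ⟨a161, b161⟩
                                        · have t162 := spM (M0 ⟨false, false, false, true, true⟩)
                                          simp only [Side.M, Side.W, Side.fm, Side.fw, cond_true, cond_false, Nat.cast_ofNat, Nat.cast_one] at t162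
                                          rcases t162 with ⟨a162, b162⟩ | ⟨a162, b162⟩
                                          · linarith only [u0, p06, u1, p16, u2, p26, ht, hs, a3, a7, a147, a155, a156, a158, a162, p02, p03, p14, p25, hL]
                                          · have t163 := spG (G0 4 ⟨false, false, false, true, false⟩ ⟨false, false, false, true, false⟩ ⟨true, false, true, true, false⟩ (by decide) (by decide) (by decide) (by decide))
                                            simp only [Side.M, Side.W, Side.fm, Side.fw, cond_true, cond_false, Nat.cast_ofNat, Nat.cast_one] at t163
                                            rcases t163 with ⟨a163, b163⟩ | ⟨a163, b163⟩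
                                            · have t164 := spG (G0 4 ⟨false, false, false, false, false⟩ ⟨false, false, false, true, false⟩ ⟨true, true, true, true, false⟩ (by decide) (by decide) (by decide) (by decide))
                                              simp only [Side.M, Side.W, Side.fm, Side.fw, cond_true, cond_false, Nat.cast_ofNat, Nat.cast_one] at t164
                                              rcases t164 with ⟨a164, b164⟩ | ⟨a164, b164⟩
                                              · have t165 := spM (M0 ⟨false, false, true, true, true⟩)
                                                simp only [Side.M, Side.W, Side.fm, Side.fw, cond_true, cond_false, Nat.cast_ofNat, Nat.cast_one] at t165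
                                                rcases t165 with ⟨a165, b165⟩ | ⟨a165, b165⟩
                                                · have t166 := spG (G2 1 ⟨false, true, true, false, false⟩ ⟨true, false, false, false, false⟩ ⟨true, false, false, false, false⟩ (by decide) (by decide) (by decide) (by decide))
                                                  simp only [Side.M, Side.W, Side.fm, Side.fw, cond_true, cond_false, Nat.cast_ofNat, Nat.cast_one] at t166
                                                  rcases t166 with ⟨a166, b166⟩ | ⟨a166, b166⟩
                                                  · have t167 := spG (G1 4 ⟨false, false, false, true, false⟩ ⟨false, false, false, true, false⟩ ⟨true, true, true, true, false⟩ (by decide) (by decide) (by decide) (by decide))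
                                                    simp only [Side.M, Side.W, Side.fm, Side.fw, cond_true, cond_false, Nat.cast_ofNat, Nat.cast_one] at t167
                                                    rcases t167 with ⟨a167, b167⟩ | ⟨a167, b167⟩
                                                    · have t168 := spG (G2 1 ⟨true, true, false, true, false⟩ ⟨true, true, true, true, false⟩ ⟨true, true, true, false, true⟩ (by decide) (by decide) (by decide) (by decide))
                                                      simp only [Side.M, Side.W, Side.fm, Side.fw, cond_true, cond_false, Nat.cast_ofNat, Nat.cast_one] at t168
                                                      rcases t168 with ⟨a168, b168⟩ | ⟨a168, b168⟩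
                                                      · linarith only [p06, u1, p16, u2, p26, ht, a7, a147, a161, a162, a167, a168, p04, p12, p14, p22, hL]
                                                      · linarith only [u0, p06, p16, u2, p26, ht, hs, a1, a7, b8, a147, a161, a164, a167, a168, p22, hL]
                                                    · linarith only [u0, p06, u2, p26, ht, hs, a4, a147, a161, a162, a164, a165, a166, a167, p22, p23, p25, hL]
                                                  · linarith only [p06, l1, u2, p26, ht, hs, a4, a147, a158, a162, a165, a166, p04, p14, p22, p23, p25, hL]
                                                · linarith only [p06, l1, p16, u2, p26, ht, hs, a3, a7, b8, a147, a155, a157, a158, a159, a164, a165, p04, p14, hL]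
                                              · linarith only [u0, p06, l1, p16, u2, p26, ht, hs, a1, a4, a7, a147, a155, a159, a161, a164, p01, p14, p22, hL]
                                            · linarith only [u0, p06, l1, p16, u2, p26, ht, hs, a1, a4, a7, a147, a155, a159, a161, a163, p02, p14, p22, hL]
                                        · have t169 := spG (G1 2 ⟨false, false, false, true, false⟩ ⟨false, true, false, false, false⟩ ⟨true, false, true, false, false⟩ (by decide) (by decide) (by decide) (by decide))
                                          simp only [Side.M, Side.W, Side.fm, Side.fw, cond_true, cond_false, Nat.cast_ofNat, Nat.cast_one] at t169
                                          rcases t169 with ⟨a169, b169⟩ | ⟨a169, b169⟩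
                                          · linarith only [u1, p16, u2, p26, ht, a1, a4, a7, b8, a147, a148, a149, a156, a161, a169, p01, p12, hL]
                                          · linarith only [l1, p16, u2, p26, ht, hs, a4, a7, b8, a147, a155, a157, a161, a169, p04, p14, p25, hL]
                                    · linarith only [p16, u2, p26, ht, hs, b8, a147, a155, a156, a157, a158, p11, p14, p22, p23, hL]
                                  · linarith only [u1, p16, l2, p26, ht, b8, a147, a155, a156, b156, a157, p11, p22, p23, p25, hL]
                                · linarith only [l1, l2, p26, ht, a3, a7, b8, a147, a150, a156, p11, p25, hL]
                              · linarith only [l2, p26, ht, a7, a147, a154, a155, p22, p25, hL]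
                            · linarith only [u1, p16, l2, ht, hs, a1, b8, a150, b154, p12, p23, hL]
                      · linarith only [l1, u2, p26, ht, a7, a147, a148, a149, p22, p25, hL]
                    · have t170 := spG (G1 4 ⟨false, false, false, true, false⟩ ⟨false, false, false, true, false⟩ ⟨true, false, false, true, false⟩ (by decide) (by decide) (by decide) (by decide))
                      simp only [Side.M, Side.W, Side.fm, Side.fw, cond_true, cond_false, Nat.cast_ofNat, Nat.cast_one] at t170
                      rcases t170 with ⟨a170, b170⟩ | ⟨a170, b170⟩
                      · have t171 := spF (F12 3 ⟨false, false, true, false, false⟩ (by decide) (by decide) (by decide))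
                        simp only [Side.M, Side.W, Side.fm, Side.fw, cond_true, cond_false, Nat.cast_ofNat, Nat.cast_one] at t171
                        rcases t171 with ⟨a171, b171⟩ | ⟨a171, b171⟩
                        · have t172 := spG (G1 4 ⟨false, false, false, true, false⟩ ⟨false, false, false, true, false⟩ ⟨true, false, true, false, false⟩ (by decide) (by decide) (by decide) (by decide))
                          simp only [Side.M, Side.W, Side.fm, Side.fw, cond_true, cond_false, Nat.cast_ofNat, Nat.cast_one] at t172
                          rcases t172 with ⟨a172, b172⟩ | ⟨a172, b172⟩
                          · have t173 := spM (M0 ⟨false, false, true, true, true⟩)
                            simp only [Side.M, Side.W, Side.fm, Side.fw, cond_true, cond_false, Nat.cast_ofNat, Nat.cast_one] at t173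
                            rcases t173 with ⟨a173, b173⟩ | ⟨a173, b173⟩
                            · linarith only [u0, p06, u1, p16, u2, p26, ht, hs, a1, a7, b8, b148, a170, a172, a173, p02, p03, p11, p22, hL]
                            · have t174 := spM (M2 ⟨false, false, false, true, false⟩)
                              simp only [Side.M, Side.W, Side.fm, Side.fw, cond_true, cond_false, Nat.cast_ofNat, Nat.cast_one] at t174
                              rcases t174 with ⟨a174, b174⟩ | ⟨a174, b174⟩
                              · have t175 := spG (G0 2 ⟨false, true, false, true, false⟩ ⟨false, true, false, true, false⟩ ⟨true, true, false, false, false⟩ (by decide) (by decide) (by decide) (by decide))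
                                simp only [Side.M, Side.W, Side.fm, Side.fw, cond_true, cond_false, Nat.cast_ofNat, Nat.cast_one] at t175
                                rcases t175 with ⟨a175, b175⟩ | ⟨a175, b175⟩
                                · linarith only [p06, u1, p16, ht, hs, a1, b148, a172, a173, a174, a175, p12, p14, p22, hL]
                                · linarith only [l1, ht, a2, a175, p01, hL]
                              · linarith only [u2, p26, ht, hs, a7, b8, b148, a174, p03, p22, hL]
                          · linarith only [l2, ht, b148, a171, a172, p03, hL]
                        · linarith only [u0, p06, u1, p16, u2, p26, ht, hs, a1, a2, a7, b8, b148, a170, b171, p02, p03, p12, p22, hL]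
                      · linarith only [u0, p06, u2, p26, ht, hs, a2, a7, b8, b148, a170, p02, p03, p05, p22, hL]
                  · have t176 := spG (G0 3 ⟨false, false, true, false, false⟩ ⟨false, false, true, false, false⟩ ⟨true, true, false, false, false⟩ (by decide) (by decide) (by decide) (by decide))
                    simp only [Side.M, Side.W, Side.fm, Side.fw, cond_true, cond_false, Nat.cast_ofNat, Nat.cast_one] at t176
                    rcases t176 with ⟨a176, b176⟩ | ⟨a176, b176⟩
                    · have t177 := spM (M1 ⟨false, false, false, true, true⟩)
                      simp only [Side.M, Side.W, Side.fm, Side.fw, cond_true, cond_false, Nat.cast_ofNat, Nat.cast_one] at t177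
                      rcases t177 with ⟨a177, b177⟩ | ⟨a177, b177⟩
                      · have t178 := spM (M2 ⟨false, false, true, false, true⟩)
                        simp only [Side.M, Side.W, Side.fm, Side.fw, cond_true, cond_false, Nat.cast_ofNat, Nat.cast_one] at t178
                        rcases t178 with ⟨a178, b178⟩ | ⟨a178, b178⟩
                        · linarith only [u1, p16, p26, ht, a7, a8, b8, a147, a177, a178, p12, p13, p15, hL]
                        · linarith only [u1, p16, p26, ht, a7, b8, a147, a177, a178, p12, p13, p17, p25, hL]
                      · have t179 := spM (M2 ⟨false, false, true, false, false⟩)
                        simp only [Side.M, Side.W, Side.fm, Side.fw, cond_true, cond_false, Nat.cast_ofNat, Nat.cast_one] at t179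
                        rcases t179 with ⟨a179, b179⟩ | ⟨a179, b179⟩
                        · have t180 := spG (G1 3 ⟨false, false, true, false, false⟩ ⟨false, false, true, false, false⟩ ⟨true, false, true, false, false⟩ (by decide) (by decide) (by decide) (by decide))
                          simp only [Side.M, Side.W, Side.fm, Side.fw, cond_true, cond_false, Nat.cast_ofNat, Nat.cast_one] at t180
                          rcases t180 with ⟨a180, b180⟩ | ⟨a180, b180⟩
                          · linarith only [u1, p16, u2, p26, ht, a1, a8, a179, a180, p03, p17, p22, p24, p27, hL]
                          · linarith only [l2, ht, hs, a6, a8, a179, a180, p01, hL]
                        · have t181 := spG (G2 3 ⟨false, false, true, false, false⟩ ⟨false, false, true, false, false⟩ ⟨true, true, true, false, false⟩ (by decide) (by decide) (by decide) (by decide))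
                          simp only [Side.M, Side.W, Side.fm, Side.fw, cond_true, cond_false, Nat.cast_ofNat, Nat.cast_one] at t181
                          rcases t181 with ⟨a181, b181⟩ | ⟨a181, b181⟩
                          · have t182 := spG (G2 4 ⟨false, false, false, true, false⟩ ⟨false, false, false, true, false⟩ ⟨true, true, true, false, false⟩ (by decide) (by decide) (by decide) (by decide))
                            simp only [Side.M, Side.W, Side.fm, Side.fw, cond_true, cond_false, Nat.cast_ofNat, Nat.cast_one] at t182
                            rcases t182 with ⟨a182, b182⟩ | ⟨a182, b182⟩
                            · have t183 := spG (G2 1 ⟨true, true, false, false, false⟩ ⟨true, false, false, false, false⟩ ⟨true, true, true, false, false⟩ (by decide) (by decide) (by decide) (by decide))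
                              simp only [Side.M, Side.W, Side.fm, Side.fw, cond_true, cond_false, Nat.cast_ofNat, Nat.cast_one] at t183
                              rcases t183 with ⟨a183, b183⟩ | ⟨a183, b183⟩
                              · have t184 := spG (G2 2 ⟨false, true, false, true, false⟩ ⟨false, true, false, true, false⟩ ⟨true, true, false, true, true⟩ (by decide) (by decide) (by decide) (by decide))
                                simp only [Side.M, Side.W, Side.fm, Side.fw, cond_true, cond_false, Nat.cast_ofNat, Nat.cast_one] at t184
                                rcases t184 with ⟨a184, b184⟩ | ⟨a184, b184⟩
                                · have t185 := spM (M0 ⟨false, false, false, false, true⟩)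
                                  simp only [Side.M, Side.W, Side.fm, Side.fw, cond_true, cond_false, Nat.cast_ofNat, Nat.cast_one] at t185
                                  rcases t185 with ⟨a185, b185⟩ | ⟨a185, b185⟩
                                  · linarith only [u0, p06, p16, p26, ht, hs, a7, a147, a177, a179, a181, a183, a185, p03, p04, p17, p25, hL]
                                  · have t186 := spG (G0 3 ⟨false, false, true, false, false⟩ ⟨false, false, true, false, false⟩ ⟨true, true, true, true, false⟩ (by decide) (by decide) (by decide) (by decide))
                                    simp only [Side.M, Side.W, Side.fm, Side.fw, cond_true, cond_false, Nat.cast_ofNat, Nat.cast_one] at t186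
                                    rcases t186 with ⟨a186, b186⟩ | ⟨a186, b186⟩
                                    · have t187 := spG (G1 2 ⟨false, true, false, true, false⟩ ⟨false, true, false, false, false⟩ ⟨true, true, true, false, false⟩ (by decide) (by decide) (by decide) (by decide))
                                      simp only [Side.M, Side.W, Side.fm, Side.fw, cond_true, cond_false, Nat.cast_ofNat, Nat.cast_one] at t187
                                      rcases t187 with ⟨a187, b187⟩ | ⟨a187, b187⟩
                                      · linarith only [u0, p06, l1, p16, l2, p26, ht, hs, a7, a147, a177, a181, a183, a184, a185, a186, a187, p02, p25, hL]
                                      · linarith only [p06, u1, p16, l2, p26, ht, hs, a1, a7, a147, a181, a183, a184, a185, a186, a187, p03, p27, hL]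
                                    · have t188 := spG (G1 4 ⟨false, false, false, true, false⟩ ⟨false, false, false, true, false⟩ ⟨true, false, true, false, false⟩ (by decide) (by decide) (by decide) (by decide))
                                      simp only [Side.M, Side.W, Side.fm, Side.fw, cond_true, cond_false, Nat.cast_ofNat, Nat.cast_one] at t188
                                      rcases t188 with ⟨a188, b188⟩ | ⟨a188, b188⟩
                                      · linarith only [u0, p06, l1, p16, p26, ht, hs, a1, b8, a147, a177, a181, a182, a183, a184, a186, a188, p14, hL]
                                      · linarith only [u1, l2, p26, ht, hs, b8, a147, a181, b184, a186, a188, p02, p03, p12, p14, p25, hL]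
                                · have t189 := spG (G0 3 ⟨false, false, true, false, false⟩ ⟨false, false, true, false, false⟩ ⟨true, true, true, true, true⟩ (by decide) (by decide) (by decide) (by decide))
                                  simp only [Side.M, Side.W, Side.fm, Side.fw, cond_true, cond_false, Nat.cast_ofNat, Nat.cast_one] at t189
                                  rcases t189 with ⟨a189, b189⟩ | ⟨a189, b189⟩
                                  · linarith only [p16, p26, ht, hs, a1, a7, b8, a147, a177, a189, p15, p25, hL]
                                  · have t190 := spG (G1 2 ⟨false, true, false, true, false⟩ ⟨false, true, false, true, false⟩ ⟨true, false, false, true, false⟩ (by decide) (by decide) (by decide) (by decide))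
                                    simp only [Side.M, Side.W, Side.fm, Side.fw, cond_true, cond_false, Nat.cast_ofNat, Nat.cast_one] at t190
                                    rcases t190 with ⟨a190, b190⟩ | ⟨a190, b190⟩
                                    · have t191 := spG (G0 3 ⟨false, false, true, false, false⟩ ⟨false, false, true, false, false⟩ ⟨true, true, true, false, true⟩ (by decide) (by decide) (by decide) (by decide))
                                      simp only [Side.M, Side.W, Side.fm, Side.fw, cond_true, cond_false, Nat.cast_ofNat, Nat.cast_one] at t191
                                      rcases t191 with ⟨a191, b191⟩ | ⟨a191, b191⟩
                                      · have t192 := spG (G1 4 ⟨false, false, false, true, false⟩ ⟨false, false, false, true, false⟩ ⟨true, true, true, false, false⟩ (by decide) (by decide) (by decide) (by decide))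
                                        simp only [Side.M, Side.W, Side.fm, Side.fw, cond_true, cond_false, Nat.cast_ofNat, Nat.cast_one] at t192
                                        rcases t192 with ⟨a192, b192⟩ | ⟨a192, b192⟩
                                        · linarith only [p16, p26, ht, a1, a7, b8, a147, a177, a182, a191, a192, p15, hL]
                                        · linarith only [l2, p26, ht, hs, a1, a7, b8, a147, a181, a192, p03, p11, p25, hL]
                                      · linarith only [u0, l1, p16, u2, p26, ht, hs, a7, b8, a147, a177, a184, a191, p15, p25, hL]
                                    · linarith only [p16, l2, p26, ht, hs, a7, b8, a147, a177, a182, a190, p15, p25, hL]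
                              · have t193 := spG (G1 2 ⟨false, true, false, true, false⟩ ⟨false, true, false, true, false⟩ ⟨true, true, false, true, false⟩ (by decide) (by decide) (by decide) (by decide))
                                simp only [Side.M, Side.W, Side.fm, Side.fw, cond_true, cond_false, Nat.cast_ofNat, Nat.cast_one] at t193
                                rcases t193 with ⟨a193, b193⟩ | ⟨a193, b193⟩
                                · have t194 := spG (G0 3 ⟨false, false, true, false, false⟩ ⟨false, false, true, false, false⟩ ⟨true, true, true, false, true⟩ (by decide) (by decide) (by decide) (by decide))
                                  simp only [Side.M, Side.W, Side.fm, Side.fw, cond_true, cond_false, Nat.cast_ofNat, Nat.cast_one] at t194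
                                  rcases t194 with ⟨a194, b194⟩ | ⟨a194, b194⟩
                                  · linarith only [l1, p16, u2, p26, ht, a1, a7, b8, a181, a182, a183, a193, a194, p02, p03, p11, p27, hL]
                                  · have t195 := spM (M0 ⟨false, false, false, false, true⟩)
                                    simp only [Side.M, Side.W, Side.fm, Side.fw, cond_true, cond_false, Nat.cast_ofNat, Nat.cast_one] at t195
                                    rcases t195 with ⟨a195, b195⟩ | ⟨a195, b195⟩
                                    · linarith only [u0, p06, p16, u2, p26, ht, hs, a1, a7, a179, a181, a183, a195, p02, p03, p04, p15, p25, hL]
                                    · linarith only [p06, l1, p16, u2, p26, ht, a1, a7, b8, a176, a177, a179, a181, a183, a193, a194, a195, p15, p25, hL]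
                                · linarith only [u1, p16, u2, p26, ht, a1, a7, b8, a179, a182, a183, a193, p11, p15, p25, hL]
                            · linarith only [l1, ht, hs, a7, b8, a179, a182, p21, hL]
                          · linarith only [l1, ht, hs, a7, b8, a179, a181, p21, hL]
                    · linarith only [l1, ht, b8, a176, p01, p03, p04, p05, p23, hL]
              · linarith only [l2, ht, a7, p21, hL]
            · linarith only [l1, ht, a6, hL]
          · linarith only [u0, p06, l2, p26, ht, hs, a5, p01, p02, p03, p07, p22, p23, p27, hL]
        · linarith only [l1, ht, a4, hL]
      · linarith only [u0, p06, l2, ht, hs, a2, a3, b3, p02, p04, p07, p14, p24, hL]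
    · linarith only [u0, l1, ht, a2, p01, p03, p04, p07, hL]
  · linarith only [l1, ht, a1, p11, hL]

end Pool.Agent.P.MP_dc323a_nt
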