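import Pool.Agent.K.MP_6e34ef_nt.C0
import Pool.Agent.K.MP_6e34ef_nt.C1

-- part Pool.Agent.P.MP_dc323a_nt.BoxMain
section

set_option autoImplicit false

namespace Pool.Agent.P.MP_dc323a_nt

open Finset Filter

theorem tw_le_iff {x y : ℝ} : tw x ≤ tw y ↔ x ≤ y := Real.rpow_le_rpow_left_iff (by norm_num)

theorem ev_tw (K ε : ℝ) (hK : 0 < K) (hε : 0 < ε) : ∀ᶠ L : ℝ in atTop, 0 ≤ L ∧ K ≤ tw (ε * L) := by
  filter_upwards [eventually_ge_atTop 0, eventually_ge_atTop (Real.logb 2 K / ε)] with L h0 h1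
  refine ⟨h0, ?_⟩
  rw [div_le_iff₀ hε] at h1
  calc K = tw (Real.logb 2 K) := (Real.rpow_logb (by norm_num) (by norm_num) hK).symm
    _ ≤ _ := tw_mono (by linarith)

theorem nu_le {d ν K L B : ℝ} (hd : 1 ≤ d) (h : tw (d * ν) ≤ K * tw (1 / 10000 * L + d * B))
    (hK : 0 ≤ L ∧ K ≤ tw (1 / 10000 * L)) : ν ≤ B + L * (1 / 5000) := by
  have h1 := h.trans (mul_le_mul_of_nonneg_right hK.2 (tw_pos _).le)
  rw [← tw_add, tw_le_iff] at h1
  have h2 := hK.1
  have h3 : d * ν ≤ d * (B + L * (1 / 5000)) := by nlinarith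
  exact le_of_mul_le_mul_left h3 (by linarith)

namespace Setup

variable {R : Type} [CommRing R] [IsDomain R] [IsPrincipalIdealRing R] (S : Setup R) (K : ℕ)

theorem oG (e : ℕ) : ∀ᶠ L : ℝ in atTop, 1 ≤ e → ∀ (n : Fin 3 × Kp K → ℕ)
    (T : Finset (Fin 3 × Kp K → R)) (ν : ℝ) (p q r : Fin 3),
    S.Box exi (sd p) (sd q) (sd r) n T → (∀ s, wt exi n (sd s) ≤ L) →
    (T.card : ℝ) = tw (S.d * ν) → ∀ μP μQ μR : Mask, μP.ok e → μQ.ok e →
    ν ≤ ((side n p).M - (side n p).fm μP + ((side n q).M - (side n q).fm μQ) +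
      ((side n r).M - (side n r).fm μR)) + max 0 ((side n p).fw μP / e + (side n q).fw μQ / e +
        (side n r).fw μR - (side n p).W) + L * (1 / 5000) := by
  by_cases he : 1 ≤ e
  swap
  · exact Eventually.of_forall (fun _ h => absurd h he)
  obtain ⟨K1, hK1, h⟩ := S.toolG (exi (K := K)) e he (1 / 10000) (by norm_num)
  filter_upwards [ev_tw K1 (1 / 10000) hK1 (by norm_num)] with L hL _ n T ν p q r hbox hW hν
    μP μQ μR hP hQ
  have hd : (1 : ℝ) ≤ S.d := by exact_mod_cast S.d_pos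
  have h1 := h _ _ _ n T L hbox (hW r) (sm p μP) (sm q μQ) (sm r μR)
    (sd p \ sm p μP ∪ sd q \ sm q μQ ∪ sd r \ sm r μR) (sm_sub _ _) (sm_sub _ _) (sm_sub _ _)
    (sm_dvd _ _ _ hP) (sm_dvd _ _ _ hQ)
    (Finset.subset_union_left.trans Finset.subset_union_left)
    (Finset.subset_union_right.trans Finset.subset_union_left) Finset.subset_union_right
  rw [hν] at h1
  have h2 := nu_le hd h1 hL
  have h3 := ms_union n (sd p \ sm p μP ∪ sd q \ sm q μQ) (sd r \ sm r μR)
  have h4 := ms_union n (sd p \ sm p μP) (sd q \ sm q μQ)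
  simp only [ms_sdiff n (sm_sub _ _), ms_sd, ms_sm, wt_sd, wt_sm] at h2 h3 h4
  linarith

theorem oF (e : ℕ) : ∀ᶠ L : ℝ in atTop, 2 ≤ e → ∀ (n : Fin 3 × Kp K → ℕ)
    (T : Finset (Fin 3 × Kp K → R)) (ν : ℝ) (p q r : Fin 3),
    S.Box exi (sd p) (sd q) (sd r) n T → (∀ s, wt exi n (sd s) ≤ L) →
    (T.card : ℝ) = tw (S.d * ν) → ∀ μ : Mask, μ.ok e →
    ν ≤ max ((side n p).M - (side n p).fm μ + (side n r).M)
      (((side n p).M - (side n p).fm μ + (side n r).M) / 2 + (side n q).M) + L * (1 / 5000) := by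
  by_cases he : 2 ≤ e
  swap
  · exact Eventually.of_forall (fun _ h => absurd h he)
  obtain ⟨K1, hK1, h⟩ := S.toolF (exi (K := K)) e he (1 / 10000) (by norm_num)
  filter_upwards [ev_tw K1 (1 / 10000) hK1 (by norm_num)] with L hL _ n T ν p q r hbox hW hν μ hP
  have hd : (1 : ℝ) ≤ S.d := by exact_mod_cast S.d_pos
  have h1 := h _ _ _ n T L hbox hL.1 (hW q) (sm p μ) (sd p \ sm p μ ∪ sd r) (sm_sub _ _)
    (sm_dvd _ _ _ hP) Finset.subset_union_left Finset.subset_union_right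
  rw [hν] at h1
  have h2 := nu_le hd h1 hL
  have h3 := ms_union n (sd p \ sm p μ) (sd r)
  simp only [ms_sdiff n (sm_sub _ _), ms_sd, ms_sm] at h2 h3
  refine h2.trans ?_
  gcongr

theorem oM : ∀ᶠ L : ℝ in atTop, ∀ (n : Fin 3 × Kp K → ℕ)
    (T : Finset (Fin 3 × Kp K → R)) (ν : ℝ) (p q r : Fin 3), p ≠ q →
    S.Box exi (sd p) (sd q) (sd r) n T → (∀ s, wt exi n (sd s) ≤ L) →
    (T.card : ℝ) = tw (S.d * ν) → OM ν (L * (1 / 5000)) (side n p) (side n q) (side n r) := by
  obtain ⟨K1, hK1, h⟩ := S.toolM (exi (K := K)) (fun i => one_le_exk i.2) (1 / 10000) (by norm_num)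
  filter_upwards [ev_tw K1 (1 / 10000) hK1 (by norm_num)] with L hL n T ν p q r hpq hbox hW hν μ
  have hd : (1 : ℝ) ≤ S.d := by exact_mod_cast S.d_pos
  have h1 := h _ _ _ n T L hbox (sd_disj hpq) (hW p) (hW q) (hW r) (sm r μ) (sm_sub _ _)
  rw [hν] at h1
  have h2 := nu_le hd h1 hL
  simpa only [ms_sd, ms_sm, wt_sm] using h2

theorem oAll : ∀ᶠ L : ℝ in atTop, ∀ (n : Fin 3 × Kp K → ℕ)
    (T : Finset (Fin 3 × Kp K → R)) (ν : ℝ) (p q r : Fin 3), p ≠ q →
    S.Box exi (sd p) (sd q) (sd r) n T → (∀ s, wt exi n (sd s) ≤ L) →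
    (T.card : ℝ) = tw (S.d * ν) → OG ν (L * (1 / 5000)) (side n p) (side n q) (side n r) ∧
      OF ν (L * (1 / 5000)) (side n p) (side n q) (side n r) ∧
      OM ν (L * (1 / 5000)) (side n p) (side n q) (side n r) := by
  filter_upwards [(Finset.range 5).eventually_all.2 (fun e _ => S.oG K e),
    (Finset.range 5).eventually_all.2 (fun e _ => S.oF K e), S.oM K] with L h1 h2 h3
    n T ν p q r hpq hbox hW hν
  exact ⟨fun e μP μQ μR a b c d =>
      h1 e (Finset.mem_range.2 (by omega)) a n T ν p q r hbox hW hν μP μQ μR c d,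
    fun e μ a b c => h2 e (Finset.mem_range.2 (by omega)) a n T ν p q r hbox hW hν μ c,
    h3 n T ν p q r hpq hbox hW hν⟩

theorem box_ord : ∀ᶠ L : ℝ in atTop, ∀ (n : Fin 3 × Kp K → ℕ)
    (T : Finset (Fin 3 × Kp K → R)) (ν : ℝ) (p q r : Fin 3), p ≠ q → p ≠ r → q ≠ r →
    S.Box exi (sd p) (sd q) (sd r) n T → (∀ s, wt exi n (sd s) ≤ L) →
    (T.card : ℝ) = tw (S.d * ν) → 0 ≤ ν → L - L * (1 / 5000) ≤ wt exi n (sd q) →
    L - L * (1 / 5000) ≤ wt exi n (sd r) →
    ms n (sd p) + ms n (sd q) + ms n (sd r) ≤ L + L * (1 / 5000) → ν ≤ 549 / 1000 * L := by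
  filter_upwards [S.oAll K, eventually_gt_atTop 0] with L h hL
  have key : ∀ (n : Fin 3 × Kp K → ℕ)
      (T : Finset (Fin 3 × Kp K → R)) (ν : ℝ) (p q r : Fin 3), p ≠ q → p ≠ r → q ≠ r →
      S.Box exi (sd p) (sd q) (sd r) n T → (∀ s, wt exi n (sd s) ≤ L) →
      (T.card : ℝ) = tw (S.d * ν) → 0 ≤ ν → L - L * (1 / 5000) ≤ wt exi n (sd q) →
      L - L * (1 / 5000) ≤ wt exi n (sd r) →
      ms n (sd p) + ms n (sd q) + ms n (sd r) ≤ L + L * (1 / 5000) →
      (side n q).M ≤ (side n r).M → ν ≤ 549 / 1000 * L := by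
    intro n T ν p q r hpq hpr hqr b hW hν h0 l1 l2 ht hs
    have o012 := h n T ν p q r hpq b hW hν
    have o021 := h n T ν p r q hpr b.swap23 hW hν
    have o102 := h n T ν q p r hpq.symm b.swap12 hW hν
    have o120 := h n T ν q r p hqr b.swap12.swap23 hW hν
    have o201 := h n T ν r p q hpr.symm b.swap23.swap12 hW hν
    have o210 := h n T ν r q p hqr.symm b.swap23.swap12.swap23 hW hν
    simp only [wt_sd, ms_sd] at hW l1 l2 ht
    refine lp (side n p) (side n q) (side n r) ν L hL h0 (side_ok _ _) (side_ok _ _) (side_ok _ _)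
      (hW p) (hW q) (hW r) l1 l2 ht ?_ hs o120.1 o201.1 o102.1 o012.2.1 o021.2.1 o102.2.1
      o120.2.1 o201.2.1 o210.2.1 o120.2.2 o201.2.2 o012.2.2
    have h1 := o012.1 1 ⟨false, false, false, false, false⟩ ⟨false, false, false, false, false⟩
      ⟨false, false, false, false, false⟩ le_rfl (by norm_num) (by decide) (by decide)
    have h2 : 0 ≤ (side n p).W := by rw [← wt_sd]; exact wt_nonneg _ _ _
    simp only [Side.fm, Side.fw, cond_false, add_zero, zero_div, sub_zero, zero_sub] at h1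
    rwa [max_eq_left (by linarith), add_zero] at h1
  intro n T ν p q r hpq hpr hqr b hW hν h0 l1 l2 ht
  rcases le_total (side n q).M (side n r).M with hs | hs
  · exact key n T ν p q r hpq hpr hqr b hW hν h0 l1 l2 ht hs
  · exact key n T ν p r q hpr hpq hqr.symm b.swap23 hW hν h0 l2 l1 (by linarith) hs

omit [IsDomain R] [IsPrincipalIdealRing R] in
theorem tri {ι : Type} [Fintype ι] {ex : ι → ℕ} {A B C : Finset ι} {n : ι → ℕ}
    {T : Finset (ι → R)} (h : S.Box ex A B C n T) (hT : T.Nonempty) :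
    wt ex n C ≤ max (wt ex n A) (wt ex n B) + (tot ex + 1) := by
  obtain ⟨x, hx⟩ := hT
  have h1 := S.mon_lo ex n C x (h.lo x hx)
  have h2 := (S.mon_hi ex n A x (h.hi x hx)).trans
    (tw_mono (add_le_add_left (le_max_left _ (wt ex n B)) _))
  have h3 := (S.mon_hi ex n B x (h.hi x hx)).trans
    (tw_mono (add_le_add_left (le_max_right (wt ex n A) _) _))
  have h4 : mon ex C x = -(mon ex A x + mon ex B x) := by linear_combination h.sum x hx
  have h5 := S.N_add_le (mon ex A x) (mon ex B x)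
  rw [h4, S.N_neg] at h1
  rw [← tw_le_iff, ← add_assoc, tw_add _ 1, tw_one]
  linarith

theorem box_large (hK : 29995 ≤ K) : ∀ᶠ L : ℝ in atTop, ∀ (n : Fin 3 × Kp K → ℕ)
    (T : Finset (Fin 3 × Kp K → R)),
    S.Box exi (sd 0) (sd 1) (sd 2) n T → (∀ s, wt exi n (sd s) ≤ L) →
    (∃ s, wt exi n (sd s) = L) →
    (∀ x ∈ T, ∃ s, S.N (∏ t, ∏ j ∈ univ.erase topk, x (t, j)) ≤ S.N (mon exi (sd s) x)) →
    (T.card : ℝ) ≤ tw (S.d * (549 / 1000 * L)) := by
  filter_upwards [S.box_ord K, eventually_ge_atTop (10000 * (tot (exi (K := K)) + 1))]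
    with L h hL n T b hW hs hrad
  rcases T.eq_empty_or_nonempty with hT | hT
  · rw [hT, Finset.card_empty, Nat.cast_zero]; exact (tw_pos _).le
  have hd : (1 : ℝ) ≤ S.d := by exact_mod_cast S.d_pos
  have hc : (1 : ℝ) ≤ T.card := by exact_mod_cast hT.card_pos
  set ν := Real.logb 2 T.card / S.d with hν
  have hν1 : (T.card : ℝ) = tw (S.d * ν) := by
    rw [hν, mul_div_cancel₀ _ (by linarith)]
    exact (Real.rpow_logb (by norm_num) (by norm_num) (by linarith)).symm
  have hν0 : 0 ≤ ν := div_nonneg (Real.logb_nonneg (by norm_num) hc) (by linarith)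
  rw [hν1]
  apply tw_mono
  apply mul_le_mul_of_nonneg_left _ (by linarith)
  have hE := tot_nonneg (exi (K := K))
  have ht : ms n (sd 0) + ms n (sd 1) + ms n (sd 2) ≤ L + L * (1 / 5000) := by
    obtain ⟨x, hx⟩ := hT
    obtain ⟨s, h1⟩ := hrad x hx
    have h2 := h1.trans (S.mon_hi exi n (sd s) x (b.hi x hx))
    have h3 : tw (∑ t, ∑ j ∈ univ.erase topk, (n (t, j) : ℝ)) ≤
        S.N (∏ t, ∏ j ∈ univ.erase topk, x (t, j)) := by
      simp only [tw_sum, S.N_prod]
      refine Finset.prod_le_prod (fun t _ => Finset.prod_nonneg (fun _ _ => (tw_pos _).le))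
        (fun t _ => Finset.prod_le_prod (fun _ _ => (tw_pos _).le) (fun j _ => b.lo x hx _))
    have h4 := tw_le_iff.1 (h3.trans h2)
    have h5 : ∀ t, ms n (sd t) ≤ ∑ j ∈ univ.erase topk, (n (t, j) : ℝ) + L / 30000 := by
      intro t
      have h6 : ms n (sd t) = ∑ j ∈ univ.erase topk, (n (t, j) : ℝ) + n (t, topk) := by
        rw [Finset.sum_erase_add _ _ (Finset.mem_univ _)]
        simp only [ms, sd, Finset.sum_product, Finset.sum_singleton]
      have h7 : (exi (t, (topk : Kp K)) : ℝ) * n (t, topk) ≤ wt exi n (sd t) :=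
        Finset.single_le_sum (f := fun i => (exi i : ℝ) * n i) (fun _ _ => by positivity)
          (by simp [sd])
      have h8 : (30000 : ℝ) ≤ exi (t, (topk : Kp K)) := by
        have : 30000 ≤ exi (t, (topk : Kp K)) := by
          simp only [exi, exk_top]; omega
        exact_mod_cast this
      have h9 : (0 : ℝ) ≤ n (t, topk) := by positivity
      have := hW t
      nlinarith
    rw [Fin.sum_univ_three] at h4
    have := h5 0
    have := h5 1
    have := h5 2
    have := hW s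
    linarith
  have t2 := S.tri b hT
  have t1 := S.tri b.swap23 hT
  have t0 := S.tri b.swap12.swap23 hT
  have q0 := h n T ν 0 1 2 (by decide) (by decide) (by decide) b hW hν1 hν0
  have q1 := h n T ν 1 0 2 (by decide) (by decide) (by decide) b.swap12 hW hν1 hν0
  have q2 := h n T ν 2 0 1 (by decide) (by decide) (by decide) b.swap23.swap12 hW hν1 hν0
  obtain ⟨s, hs⟩ := hs
  have hs' : wt exi n (sd 0) = L ∨ wt exi n (sd 1) = L ∨ wt exi n (sd 2) = L := by
    fin_cases s
    · exact Or.inl hs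
    · exact Or.inr (Or.inl hs)
    · exact Or.inr (Or.inr hs)
  rcases hs' with a | a | a
  · rcases max_cases (wt exi n (sd 1)) (wt exi n (sd 2)) with c | c
    · exact q2 (by linarith) (by linarith [c.1]) (by linarith)
    · exact q1 (by linarith) (by linarith [c.1]) (by linarith)
  · rcases max_cases (wt exi n (sd 0)) (wt exi n (sd 2)) with c | c
    · exact q2 (by linarith [c.1]) (by linarith) (by linarith)
    · exact q0 (by linarith) (by linarith [c.1]) (by linarith)
  · rcases max_cases (wt exi n (sd 0)) (wt exi n (sd 1)) with c | c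
    · exact q1 (by linarith [c.1]) (by linarith) (by linarith)
    · exact q0 (by linarith [c.1]) (by linarith) (by linarith)

theorem box_all (hK : 29995 ≤ K) : ∃ K1 : ℝ, 0 < K1 ∧ ∀ (L : ℝ) (n : Fin 3 × Kp K → ℕ)
    (T : Finset (Fin 3 × Kp K → R)),
    S.Box exi (sd 0) (sd 1) (sd 2) n T → (∀ s, wt exi n (sd s) ≤ L) →
    (∀ x ∈ T, ∃ s, S.N (∏ t, ∏ j ∈ univ.erase topk, x (t, j)) ≤ S.N (mon exi (sd s) x)) →
    (T.card : ℝ) ≤ K1 * tw (S.d * (549 / 1000 * L)) := by
  classical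
  obtain ⟨L0, hL0⟩ := eventually_atTop.1 (S.box_large K hK)
  set K1 := S.C1 ^ Fintype.card (Fin 3 × Kp K) * tw (S.d * (3 * |L0|)) with hK1
  have hd : (0 : ℝ) ≤ S.d := by positivity
  have hK11 : 1 ≤ K1 := by
    have h1 : 1 ≤ S.C1 ^ Fintype.card (Fin 3 × Kp K) := one_le_pow₀ S.one_le_C1
    have h2 := one_le_tw (x := S.d * (3 * |L0|)) (by positivity)
    rw [hK1]; nlinarith
  refine ⟨K1, by linarith, fun L n T b hW hrad => ?_⟩
  obtain ⟨s, -, hs⟩ := Finset.exists_max_image univ (fun s => wt exi n (sd s)) Finset.univ_nonempty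
  have hs' : ∀ t, wt exi n (sd t) ≤ wt exi n (sd s) := fun t => hs t (Finset.mem_univ _)
  have h0 : 0 ≤ wt exi n (sd s) := wt_nonneg _ _ _
  have h1 := hW s
  rcases le_total L0 (wt exi n (sd s)) with h | h
  · refine (hL0 _ h n T b hs' ⟨s, rfl⟩ hrad).trans ?_
    refine (tw_mono (mul_le_mul_of_nonneg_left (by linarith) hd)).trans
      (le_mul_of_one_le_left (tw_pos _).le hK11)
  · have h2 := S.card_le_res n T (sd 0 ∪ sd 1) 1 zero_le_one b.hi (fun x0 hx0 => by
      have : (T.filter (fun x => ∀ i ∈ sd 0 ∪ sd 1, x i = x0 i)).card ≤ 1 := by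
        rw [Finset.card_le_one]
        intro x hx y hy
        have a1 := Finset.mem_filter.1 hx
        have a2 := Finset.mem_filter.1 hy
        have a3 : ∀ i ∈ sd 0 ∪ sd 1, x i = y i := fun i hi => (a1.2 i hi).trans (a2.2 i hi).symm
        exact b.inj x a1.1 y a2.1 (mon_congr _ (fun i hi => a3 i (Finset.mem_union_left _ hi)))
          (mon_congr _ (fun i hi => a3 i (Finset.mem_union_right _ hi)))
      exact_mod_cast this)
    have h3 : ∀ t, ms n (sd t) ≤ |L0| := by
      intro t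
      refine le_trans ?_ ((hs' t).trans (h.trans (le_abs_self _)))
      refine Finset.sum_le_sum (fun i _ => le_mul_of_one_le_left (by positivity) ?_)
      exact_mod_cast one_le_exk i.2
    have h4 := ms_union n (sd 0) (sd 1)
    have h5 := abs_nonneg L0
    rw [mul_one] at h2
    refine h2.trans (le_trans ?_ (le_mul_of_one_le_right (by linarith) (one_le_tw
      (mul_nonneg hd (by linarith)))))
    apply mul_le_mul_of_nonneg_left (tw_mono (mul_le_mul_of_nonneg_left _ hd))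
      (pow_nonneg (by linarith [S.one_le_C1]) _)
    linarith [h3 0, h3 1]

end Setup

end Pool.Agent.P.MP_dc323a_nt
end

-- part Pool.Agent.P.MP_dc323a_nt.Count
section

set_option autoImplicit false

namespace Pool.Agent.P.MP_dc323a_nt

open Finset

theorem lin_le_tw (δ : ℝ) (hδ : 0 < δ) : ∃ c : ℝ, 0 < c ∧ ∀ L : ℝ, 0 ≤ L → L + 1 ≤ c * tw (δ * L) := by
  have h2 : 0 < Real.log 2 := Real.log_pos (by norm_num)
  set δ' := Real.log 2 * δ with hδ'
  have hδ0 : 0 < δ' := by positivity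
  refine ⟨1 + 1 / δ', by positivity, fun L hL => ?_⟩
  have h1 : δ' * L + 1 ≤ tw (δ * L) := by
    rw [tw, Real.rpow_def_of_pos (by norm_num), ← mul_assoc]
    exact Real.add_one_le_exp _
  refine le_trans ?_ (mul_le_mul_of_nonneg_left h1 (by positivity))
  have h3 : (1 + 1 / δ') * (δ' * L + 1) = L + 1 + (δ' * L + 1 / δ') := by field_simp; ring
  rw [h3]
  have : 0 ≤ δ' * L + 1 / δ' := by positivity
  linarith

namespace Setup

variable {R : Type} [CommRing R] [IsDomain R] [IsPrincipalIdealRing R] (S : Setup R)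

theorem count_fun : ∃ C : ℝ, 0 < C ∧ ∀ X : ℝ, 1 ≤ X → ∀ U : Finset (Fin 3 → R),
    (∀ v ∈ U, (∀ s, v s ≠ 0) ∧ v 0 + v 1 + v 2 = 0 ∧ IsCoprime (v 0) (v 1) ∧
      IsCoprime (v 0) (v 2) ∧ IsCoprime (v 1) (v 2) ∧ (∀ s, S.N (v s) ≤ X) ∧
      ∃ (r : R) (k : ℕ) (s : Fin 3), r ≠ 0 ∧ v 0 * v 1 * v 2 ∣ r ^ k ∧ S.N r ≤ S.N (v s)) →
    (U.card : ℝ) ≤ C * X ^ (S.d * (11 / 20 : ℝ)) := by
  classical
  obtain ⟨K, hK⟩ : ∃ K : ℕ, 29995 ≤ K := ⟨_, le_rfl⟩
  obtain ⟨K1, hK1, hbox⟩ := S.box_all K hK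
  set N0 := Fintype.card (Fin 3 × Kp K) with hN0
  obtain ⟨c, hc, hlin⟩ := lin_le_tw (1 / (1000 * ((N0 : ℝ) + 1))) (by positivity)
  refine ⟨c ^ N0 * K1, by positivity, fun X hX U hU => ?_⟩
  have hdec : ∀ a : R, ∃ x : Kp K → R, a ≠ 0 →
      a = ∏ j, x j ^ exk j ∧ Squarefree (∏ j ∈ univ.erase topk, x j) := by
    intro a
    by_cases ha : a = 0
    · exact ⟨fun _ => 0, fun h => absurd ha h⟩
    · obtain ⟨x, hx⟩ := decomp exk one_le_exk (topk : Kp K) (by rw [exk_top]; omega) exk_surj a ha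
      exact ⟨x, fun _ => hx⟩
  choose dec hdec using hdec
  let F : (Fin 3 → R) → Fin 3 × Kp K → R := fun v i => dec (v i.1) i.2
  have hF : ∀ v ∈ U, ∀ s, mon exi (sd s) (F v) = v s := fun v hv s => by
    rw [mon_sd]; exact (hdec _ ((hU v hv).1 s)).1.symm
  have hFd : ∀ v ∈ U, ∀ i, F v i ∣ v i.1 := fun v hv i => by
    have h1 := (hdec _ ((hU v hv).1 i.1)).1
    have h2 : F v i ∣ ∏ j, dec (v i.1) j ^ exk j :=
      (dvd_pow_self _ (by have := one_le_exk i.2; omega)).trans
        (Finset.dvd_prod_of_mem (fun j => dec (v i.1) j ^ exk j) (Finset.mem_univ i.2))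
    rwa [← h1] at h2
  have hF0 : ∀ v ∈ U, ∀ i, F v i ≠ 0 := fun v hv i h => by
    have := hFd v hv i
    rw [h, zero_dvd_iff] at this
    exact (hU v hv).1 _ this
  have hinj : Set.InjOn F U := by
    intro v hv w hw h
    funext s
    rw [← hF v hv s, ← hF w hw s, h]
  rw [← Finset.card_image_of_injOn hinj]
  set L := Real.logb 2 X with hL
  have hL0 : 0 ≤ L := Real.logb_nonneg (by norm_num) hX
  have hXL : X = tw L := (Real.rpow_logb (by norm_num) (by norm_num) (by linarith)).symm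
  let nb : (Fin 3 × Kp K → R) → Fin 3 × Kp K → ℕ := fun x i => ⌊Real.logb 2 (S.N (x i))⌋₊
  have hnb : ∀ a : R, a ≠ 0 → tw (⌊Real.logb 2 (S.N a)⌋₊ : ℕ) ≤ S.N a ∧
      S.N a ≤ tw ((⌊Real.logb 2 (S.N a)⌋₊ : ℕ) + 1) := by
    intro a ha
    have h1 : S.N a = tw (Real.logb 2 (S.N a)) :=
      (Real.rpow_logb (by norm_num) (by norm_num) (S.N_pos ha)).symm
    have h2 := Real.logb_nonneg (b := 2) (by norm_num) (S.one_le_N ha)
    exact ⟨(tw_mono (Nat.floor_le h2)).trans h1.ge,
      h1.le.trans (tw_mono (Nat.lt_floor_add_one _).le)⟩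
  have h1 := card_le_of_fibers (U.image F)
    (Fintype.piFinset (fun _ : Fin 3 × Kp K => Finset.range (⌊L⌋₊ + 1))) nb
    (K1 * tw (S.d * (549 / 1000 * L)))
    (by
      intro x hx
      obtain ⟨v, hv, rfl⟩ := Finset.mem_image.1 hx
      rw [Fintype.mem_piFinset]
      intro i
      rw [Finset.mem_range, Nat.lt_succ_iff]
      apply Nat.floor_le_floor
      apply Real.logb_le_logb_of_le (by norm_num) (S.N_pos (hF0 v hv i))
      exact (S.N_le_of_dvd ((hU v hv).1 _) (hFd v hv i)).trans ((hU v hv).2.2.2.2.2.1 _))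
    (by
      intro n _
      set T := (U.image F).filter (fun x => nb x = n) with hT
      have hT' : ∀ x ∈ T, ∃ v ∈ U, F v = x ∧ nb x = n := by
        intro x hx
        obtain ⟨h1, h2⟩ := Finset.mem_filter.1 hx
        obtain ⟨v, hv, h3⟩ := Finset.mem_image.1 h1
        exact ⟨v, hv, h3, h2⟩
      rcases T.eq_empty_or_nonempty with h | ⟨x0, hx0⟩
      · rw [h, Finset.card_empty, Nat.cast_zero]
        exact mul_nonneg hK1.le (tw_pos _).le
      have b : S.Box exi (sd 0) (sd 1) (sd 2) n T := by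
        constructor
        · intro x hx i
          obtain ⟨v, hv, rfl, rfl⟩ := hT' x hx
          exact (hnb _ (hF0 v hv i)).1
        · intro x hx i
          obtain ⟨v, hv, rfl, rfl⟩ := hT' x hx
          exact (hnb _ (hF0 v hv i)).2
        · intro x hx
          obtain ⟨v, hv, rfl, -⟩ := hT' x hx
          rw [hF v hv, hF v hv, hF v hv]; exact (hU v hv).2.1
        · intro x hx
          obtain ⟨v, hv, rfl, -⟩ := hT' x hx
          rw [hF v hv, hF v hv]; exact (hU v hv).2.2.1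
        · intro x hx
          obtain ⟨v, hv, rfl, -⟩ := hT' x hx
          rw [hF v hv, hF v hv]; exact (hU v hv).2.2.2.1
        · intro x hx
          obtain ⟨v, hv, rfl, -⟩ := hT' x hx
          rw [hF v hv, hF v hv]; exact (hU v hv).2.2.2.2.1
        · intro x hx y hy a1 a2
          obtain ⟨v, hv, rfl, -⟩ := hT' x hx
          obtain ⟨w, hw, rfl, -⟩ := hT' y hy
          rw [hF v hv, hF w hw] at a1 a2
          have a3 : v 2 = w 2 := by linear_combination (hU v hv).2.1 - (hU w hw).2.1 - a1 - a2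
          congr 1
          funext s
          fin_cases s
          · exact a1
          · exact a2
          · exact a3
      apply hbox L n T b
      · intro s
        obtain ⟨v, hv, h1, -⟩ := hT' x0 hx0
        have h2 := S.mon_lo exi n (sd s) x0 (b.lo x0 hx0)
        rw [← h1, hF v hv] at h2
        rw [← tw_le_iff, ← hXL]
        exact h2.trans ((hU v hv).2.2.2.2.2.1 _)
      · intro x hx
        obtain ⟨v, hv, rfl, -⟩ := hT' x hx
        obtain ⟨g1, -, g2, g3, g4, -, r, k, s, g5, g6, g7⟩ := hU v hv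
        refine ⟨s, ?_⟩
        rw [hF v hv]
        refine le_trans (S.N_le_of_dvd g5 ?_) g7
        have hd : ∀ t, ∏ j ∈ univ.erase topk, F v (t, j) ∣ v t := fun t => by
          have a1 := (hdec _ (g1 t)).1
          have a2 : ∏ j ∈ univ.erase topk, F v (t, j) ∣ ∏ j, dec (v t) j ^ exk j :=
            (Finset.prod_dvd_prod_of_dvd _ _ (fun j _ => dvd_pow_self (dec (v t) j)
              (by have := one_le_exk j; omega))).trans
              (Finset.prod_dvd_prod_of_subset _ _ _ (Finset.subset_univ _))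
          rwa [← a1] at a2
        have hsq : Squarefree (∏ t, ∏ j ∈ univ.erase topk, F v (t, j)) := by
          rw [Fin.prod_univ_three, squarefree_mul_iff, squarefree_mul_iff]
          refine ⟨?_, ⟨?_, (hdec _ (g1 0)).2, (hdec _ (g1 1)).2⟩, (hdec _ (g1 2)).2⟩
          · exact ((g3.mono (hd 0) (hd 2)).mul_left (g4.mono (hd 1) (hd 2))).isRelPrime
          · exact (g2.mono (hd 0) (hd 1)).isRelPrime
        have hdv : ∏ t, ∏ j ∈ univ.erase topk, F v (t, j) ∣ r ^ (k + 1) := by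
          rw [Fin.prod_univ_three]
          exact ((mul_dvd_mul (mul_dvd_mul (hd 0) (hd 1)) (hd 2)).trans g6).trans
            (pow_dvd_pow _ (Nat.le_succ k))
        exact (hsq.dvd_pow_iff_dvd (Nat.succ_ne_zero k)).1 hdv)
  refine h1.trans ?_
  rw [Fintype.card_piFinset, Finset.prod_const, Finset.card_univ, Finset.card_range, ← hN0]
  have h2 : ((⌊L⌋₊ + 1 : ℕ) : ℝ) ≤ c * tw (1 / (1000 * ((N0 : ℝ) + 1)) * L) := by
    refine le_trans ?_ (hlin L hL0)
    push_cast
    linarith [Nat.floor_le hL0]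
  have h3 : (((⌊L⌋₊ + 1) ^ N0 : ℕ) : ℝ) ≤ c ^ N0 * tw (L / 1000) := by
    rw [Nat.cast_pow]
    refine (pow_le_pow_left₀ (by positivity) h2 _).trans ?_
    rw [mul_pow, tw_pow]
    apply mul_le_mul_of_nonneg_left (tw_mono _) (by positivity)
    have h4 : (N0 : ℝ) * (1 / (1000 * ((N0 : ℝ) + 1))) ≤ 1 / 1000 := by
      rw [mul_one_div, div_le_div_iff₀ (by positivity) (by norm_num)]
      linarith
    nlinarith
  have hd : (1 : ℝ) ≤ S.d := by exact_mod_cast S.d_pos
  calc _ ≤ (c ^ N0 * tw (L / 1000)) * (K1 * tw (S.d * (549 / 1000 * L))) :=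
        mul_le_mul_of_nonneg_right h3 (mul_nonneg hK1.le (tw_pos _).le)
    _ = c ^ N0 * K1 * tw (L / 1000 + S.d * (549 / 1000 * L)) := by rw [tw_add]; ring
    _ ≤ _ := by
        apply mul_le_mul_of_nonneg_left _ (by positivity)
        rw [hXL, tw_rpow]
        apply tw_mono
        nlinarith

end Setup

end Pool.Agent.P.MP_dc323a_nt
end

-- part Pool.Agent.P.MP_dc323a_nt.Inst
section

set_option autoImplicit false

namespace Pool.Agent.P.MP_dc323a_nt

open Finset

theorem cell_mem {x c ρ δ : ℝ} (hδ : 0 < δ) (h : |x - c| ≤ ρ) :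
    ⌊(x - c + ρ) / δ⌋₊ ∈ Finset.range (⌊2 * ρ / δ⌋₊ + 1) := by
  rw [Finset.mem_range, Nat.lt_succ_iff]
  apply Nat.floor_le_floor
  apply div_le_div_of_nonneg_right _ hδ.le
  linarith [(abs_le.1 h).2]

theorem cell_close {x y c ρ δ : ℝ} (hδ : 0 < δ) (hx : |x - c| ≤ ρ) (hy : |y - c| ≤ ρ)
    (h : ⌊(x - c + ρ) / δ⌋₊ = ⌊(y - c + ρ) / δ⌋₊) : |x - y| < δ := by
  have a1 := Nat.floor_le (show 0 ≤ (x - c + ρ) / δ from
    div_nonneg (by linarith [(abs_le.1 hx).1]) hδ.le)
  have a2 := Nat.floor_le (show 0 ≤ (y - c + ρ) / δ from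
    div_nonneg (by linarith [(abs_le.1 hy).1]) hδ.le)
  have a3 := Nat.lt_floor_add_one ((x - c + ρ) / δ)
  have a4 := Nat.lt_floor_add_one ((y - c + ρ) / δ)
  rw [h] at a1 a3
  rw [le_div_iff₀ hδ] at a1 a2
  rw [div_lt_iff₀ hδ] at a3 a4
  rw [abs_lt]
  constructor <;> linarith

theorem cell_card {ρ δ : ℝ} (hρ : 0 ≤ ρ) (hδ : 0 < δ) :
    ((Finset.range (⌊2 * ρ / δ⌋₊ + 1)).card : ℝ) ≤ 2 * ρ / δ + 1 := by
  rw [Finset.card_range]
  push_cast
  linarith [Nat.floor_le (show 0 ≤ 2 * ρ / δ by positivity)]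

theorem re_le {z z0 : ℂ} {ρ : ℝ} (h : ‖z - z0‖ ≤ ρ) : |z.re - z0.re| ≤ ρ := by
  rw [← Complex.sub_re]; exact (Complex.abs_re_le_norm _).trans h

theorem im_le {z z0 : ℂ} {ρ : ℝ} (h : ‖z - z0‖ ≤ ρ) : |z.im - z0.im| ≤ ρ := by
  rw [← Complex.sub_im]; exact (Complex.abs_im_le_norm _).trans h

/-- The rational integers. -/
noncomputable def setupZ : Setup ℤ where
  φ := Int.castRingHom ℂ
  d := 1
  d_pos := le_rfl
  one_le := fun x hx => by
    simp only [eq_intCast, Complex.norm_intCast]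
    exact_mod_cast Int.one_le_abs hx
  two_le := fun x hx hu => by
    simp only [eq_intCast, Complex.norm_intCast, sq_abs]
    rw [Int.isUnit_iff] at hu
    have : 2 ≤ x ^ 2 := by
      rcases (by omega : x ≤ -2 ∨ 2 ≤ x) with h | h <;> nlinarith
    exact_mod_cast this
  rep := fun γ hγ x => by
    refine ⟨x % γ, ?_, ?_⟩
    · exact Int.dvd_self_sub_emod
    · simp only [eq_intCast, Complex.norm_intCast]
      have h1 := Int.emod_nonneg x hγ
      have h2 := Int.emod_lt_abs x hγ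
      have : |x % γ| ≤ |γ| := by rw [abs_of_nonneg h1]; exact h2.le
      exact_mod_cast this
  C0 := 2
  C0_ge := by norm_num
  pack := fun T z0 ρ δ hρ hδ h1 h2 h3 => by
    have him : ∀ z ∈ T, z.im = 0 := by
      intro z hz
      obtain ⟨u, v, rfl⟩ := h1 z hz
      simp only [eq_intCast]
      rw [← Complex.ofReal_intCast, ← Complex.ofReal_intCast, ← Complex.ofReal_div,
        Complex.ofReal_im]
    have h4 : T.card ≤ (Finset.range (⌊2 * ρ / δ⌋₊ + 1)).card := by
      apply Finset.card_le_card_of_injOn (fun z => ⌊(z.re - z0.re + ρ) / δ⌋₊)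
      · intro z hz
        exact cell_mem hδ (re_le (h2 z hz))
      · intro z hz w hw h
        by_contra hne
        have a1 := cell_close hδ (re_le (h2 z hz)) (re_le (h2 w hw)) h
        have a2 := h3 z hz w hw hne
        have a3 := Complex.norm_le_abs_re_add_abs_im (z - w)
        rw [Complex.sub_re, Complex.sub_im, him z hz, him w hw, sub_zero, abs_zero] at a3
        linarith
    have h5 : (T.card : ℝ) ≤ _ := le_trans (by exact_mod_cast h4) (cell_card hρ hδ)
    rw [pow_one, mul_add, ← mul_div_assoc]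
    linarith

theorem gnorm (x : GaussianInt) : ‖GaussianInt.toComplex x‖ ^ 2 = (x.norm : ℝ) := by
  rw [← Complex.normSq_eq_norm_sq, GaussianInt.intCast_real_norm]

/-- The Gaussian integers. -/
noncomputable def setupG : Setup GaussianInt where
  φ := GaussianInt.toComplex
  d := 2
  d_pos := by norm_num
  one_le := fun x hx => by
    have h1 : (1 : ℝ) ≤ x.norm := by exact_mod_cast GaussianInt.norm_pos.2 hx
    rw [← gnorm] at h1
    nlinarith [norm_nonneg (GaussianInt.toComplex x)]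
  two_le := fun x hx hu => by
    rw [gnorm]
    have h1 := GaussianInt.norm_pos.2 hx
    have h2 : x.norm ≠ 1 := fun h => hu ((Zsqrtd.norm_eq_one_iff' (by norm_num) x).1 h)
    have : 2 ≤ x.norm := by omega
    exact_mod_cast this
  rep := fun γ hγ x => by
    refine ⟨x % γ, ⟨x / γ, ?_⟩, ?_⟩
    · rw [GaussianInt.mod_def]; ring
    · have h1 : ((x % γ).norm : ℝ) ≤ γ.norm := by
        exact_mod_cast (GaussianInt.norm_mod_lt x hγ).le
      rw [← gnorm, ← gnorm] at h1
      exact le_of_sq_le_sq h1 (norm_nonneg _)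
  C0 := 16
  C0_ge := by norm_num
  pack := fun T z0 ρ δ hρ hδ _ h2 h3 => by
    have hδ2 : 0 < δ / 2 := by positivity
    have h4 : T.card ≤ (Finset.range (⌊2 * ρ / (δ / 2)⌋₊ + 1) ×ˢ
        Finset.range (⌊2 * ρ / (δ / 2)⌋₊ + 1)).card := by
      apply Finset.card_le_card_of_injOn
        (fun z => (⌊(z.re - z0.re + ρ) / (δ / 2)⌋₊, ⌊(z.im - z0.im + ρ) / (δ / 2)⌋₊))
      · intro z hz
        exact Finset.mem_coe.2 (Finset.mem_product.2
          ⟨cell_mem hδ2 (re_le (h2 z hz)), cell_mem hδ2 (im_le (h2 z hz))⟩)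
      · intro z hz w hw h
        by_contra hne
        have a1 := cell_close hδ2 (re_le (h2 z hz)) (re_le (h2 w hw)) (congrArg Prod.fst h)
        have a4 := cell_close hδ2 (im_le (h2 z hz)) (im_le (h2 w hw)) (congrArg Prod.snd h)
        have a2 := h3 z hz w hw hne
        have a3 := Complex.norm_le_abs_re_add_abs_im (z - w)
        rw [Complex.sub_re, Complex.sub_im] at a3
        linarith
    rw [Finset.card_product] at h4
    have h5 := cell_card hρ hδ2
    have h6 : 2 * ρ / (δ / 2) + 1 ≤ 4 * (1 + ρ / δ) := by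
      have : 2 * ρ / (δ / 2) = 4 * (ρ / δ) := by field_simp; ring
      rw [this]; linarith
    have h7 := h5.trans h6
    calc (T.card : ℝ) ≤ _ := Nat.cast_le.2 h4
      _ ≤ (4 * (1 + ρ / δ)) * (4 * (1 + ρ / δ)) := by
          rw [Nat.cast_mul]
          exact mul_le_mul h7 h7 (by positivity) (by positivity)
      _ = _ := by ring

end Pool.Agent.P.MP_dc323a_nt
end
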