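import Mathlib

-- part Pool.Agent.P.MP_dc323a_nt.XLP
section

set_option autoImplicit false

namespace Pool.Agent.P.MP_dc323a_nt.Ext

open Finset Matrix

theorem sum_comm4 {X U : Type*} (O : Finset X) (S : Finset U) (f : X → X → U → U → ℝ) :
    ∑ z ∈ O, ∑ z' ∈ O, ∑ i ∈ S, ∑ j ∈ S, f z z' i j =
      ∑ i ∈ S, ∑ j ∈ S, ∑ z ∈ O, ∑ z' ∈ O, f z z' i j := by
  calc ∑ z ∈ O, ∑ z' ∈ O, ∑ i ∈ S, ∑ j ∈ S, f z z' i j
      = ∑ z ∈ O, ∑ i ∈ S, ∑ z' ∈ O, ∑ j ∈ S, f z z' i j :=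
        sum_congr rfl fun z _ => sum_comm
    _ = ∑ i ∈ S, ∑ z ∈ O, ∑ z' ∈ O, ∑ j ∈ S, f z z' i j := sum_comm
    _ = ∑ i ∈ S, ∑ z ∈ O, ∑ j ∈ S, ∑ z' ∈ O, f z z' i j :=
        sum_congr rfl fun i _ => sum_congr rfl fun z _ => sum_comm
    _ = _ := sum_congr rfl fun i _ => sum_comm

/-- The two Gram matrices of a matrix have the same Frobenius norm. -/
theorem gram_sq {X U : Type*} (B : X → U → ℝ) (O : Finset X) (S : Finset U) :
    ∑ z ∈ O, ∑ z' ∈ O, (∑ i ∈ S, B z i * B z' i) ^ 2 =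
      ∑ i ∈ S, ∑ j ∈ S, (∑ z ∈ O, B z i * B z j) ^ 2 := by
  simp only [sq, sum_mul_sum]
  rw [sum_comm4]
  refine sum_congr rfl fun i _ => sum_congr rfl fun j _ => sum_congr rfl fun z _ =>
    sum_congr rfl fun z' _ => by ring

variable {X U : Type*} [Fintype X] [Fintype U]

/-- The weighted square sum of the Gram kernel. -/
def en (w : X → X → ℝ) (B : Matrix X U ℝ) : ℝ := ∑ y, ∑ z, w y z * (B * Bᵀ) y z ^ 2

/-- Invariance under a set of permutations. -/
def Inv (G : Set (Equiv.Perm X)) (A : Matrix X X ℝ) : Prop := ∀ σ ∈ G, A.submatrix σ σ = A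

theorem Inv.mul {G : Set (Equiv.Perm X)} {A C : Matrix X X ℝ} (hA : Inv G A) (hC : Inv G C) :
    Inv G (A * C) := fun σ hσ => by
  rw [← submatrix_mul_equiv A C σ σ σ, hA σ hσ, hC σ hσ]

omit [Fintype X] in
theorem Inv.apply {G : Set (Equiv.Perm X)} {A : Matrix X X ℝ} (hA : Inv G A) {σ : Equiv.Perm X}
    (hσ : σ ∈ G) (y z : X) : A (σ y) (σ z) = A y z := congrFun (congrFun (hA σ hσ) y) z

theorem en_smul (w : X → X → ℝ) (c : ℝ) (B : Matrix X U ℝ) : en w (c • B) = c ^ 4 * en w B := by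
  simp only [en, mul_sum]
  refine sum_congr rfl fun y _ => sum_congr rfl fun z _ => ?_
  rw [transpose_smul, Matrix.smul_mul, Matrix.mul_smul]
  simp only [Matrix.smul_apply, smul_eq_mul]
  ring

theorem en_cont (w : X → X → ℝ) : Continuous (fun B : X → U → ℝ => en w (Matrix.of B)) := by
  simp only [en, mul_apply, transpose_apply, of_apply]
  fun_prop

theorem sq_le_en (B : Matrix X U ℝ) (y z : X) : (B * Bᵀ) y z ^ 2 ≤ en (fun _ _ => 1) B := by
  simp only [en, one_mul]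
  calc (B * Bᵀ) y z ^ 2 ≤ ∑ z, (B * Bᵀ) y z ^ 2 :=
        single_le_sum (f := fun z => (B * Bᵀ) y z ^ 2) (fun _ _ => sq_nonneg _) (mem_univ z)
    _ ≤ _ := single_le_sum (f := fun y => ∑ z, (B * Bᵀ) y z ^ 2)
        (fun _ _ => sum_nonneg fun _ _ => sq_nonneg _) (mem_univ y)

theorem exists_scale (G : Set (Equiv.Perm X)) (B : Matrix X U ℝ) (hB : Inv G (B * Bᵀ))
    (hN : 0 < en (fun _ _ => 1) B) : ∃ c : ℝ, c ^ 4 * en (fun _ _ => 1) B = 1 ∧
      Inv G ((c • B) * (c • B)ᵀ) := by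
  refine ⟨(√√(en (fun _ _ => 1) B))⁻¹, ?_, fun σ hσ => ?_⟩
  · have h1 : (√√(en (fun _ _ => 1) B)) ^ 4 = en (fun _ _ => 1) B := by
      rw [show (4 : ℕ) = 2 * 2 from rfl, pow_mul, Real.sq_sqrt (Real.sqrt_nonneg _),
        Real.sq_sqrt hN.le]
    rw [inv_pow, h1, inv_mul_cancel₀ hN.ne']
  · rw [transpose_smul, Matrix.smul_mul, Matrix.mul_smul, submatrix_smul, submatrix_smul]
    simp only [Pi.smul_apply]
    rw [hB σ hσ]

theorem exists_min (w : X → X → ℝ) (G : Set (Equiv.Perm X)) (B0 : Matrix X U ℝ)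
    (h0 : Inv G (B0 * B0ᵀ)) (hN : 0 < en (fun _ _ => 1) B0) :
    ∃ B : Matrix X U ℝ, Inv G (B * Bᵀ) ∧ en (fun _ _ => 1) B = 1 ∧
      ∀ B' : Matrix X U ℝ, Inv G (B' * B'ᵀ) → en w B * en (fun _ _ => 1) B' ≤ en w B' := by
  let C : Set (X → U → ℝ) :=
    {B | Inv G (Matrix.of B * (Matrix.of B)ᵀ) ∧ en (fun _ _ => 1) (Matrix.of B) = 1}
  have hcl : IsClosed C := by
    refine IsClosed.inter ?_ (isClosed_eq (en_cont _) continuous_const)
    have : {B : X → U → ℝ | Inv G (Matrix.of B * (Matrix.of B)ᵀ)} =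
        ⋂ σ ∈ G, ⋂ y, ⋂ z, {B : X → U → ℝ | ∑ i, B (σ y) i * B (σ z) i = ∑ i, B y i * B z i} := by
      ext B
      simp only [Inv, Set.mem_ofPred_eq, Set.mem_iInter]
      refine forall₂_congr fun σ _ => ⟨fun h y z => congrFun (congrFun h y) z, fun h => ?_⟩
      ext y z
      exact h y z
    show IsClosed {B : X → U → ℝ | Inv G (Matrix.of B * (Matrix.of B)ᵀ)}
    rw [this]
    exact isClosed_biInter fun σ _ => isClosed_iInter fun y => isClosed_iInter fun z =>
      isClosed_eq (by fun_prop) (by fun_prop)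
  have hcp : IsCompact C := by
    refine (isCompact_closedBall (0 : X → U → ℝ) 1).of_isClosed_subset hcl fun B hB => ?_
    rw [mem_closedBall_zero_iff, pi_norm_le_iff_of_nonneg zero_le_one]
    intro y
    rw [pi_norm_le_iff_of_nonneg zero_le_one]
    intro i
    have h1 := sq_le_en (Matrix.of B) y y
    rw [hB.2] at h1
    have h2 : B y i * B y i ≤ (Matrix.of B * (Matrix.of B)ᵀ) y y :=
      single_le_sum (f := fun i => B y i * B y i) (fun _ _ => mul_self_nonneg _) (mem_univ i)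
    have h3 : B y i * B y i ≤ 1 := by nlinarith [mul_self_nonneg (B y i)]
    rw [Real.norm_eq_abs, abs_le]
    constructor <;> nlinarith
  have hne : C.Nonempty := by
    obtain ⟨c, hc, hi⟩ := exists_scale G B0 h0 hN
    exact ⟨c • B0, hi, (en_smul _ c B0).trans hc⟩
  obtain ⟨B, hB, hmin⟩ := hcp.exists_isMinOn hne (en_cont w).continuousOn
  refine ⟨Matrix.of B, hB.1, hB.2, fun B' hB' => ?_⟩
  have hnn : 0 ≤ en (fun _ _ => 1) B' := by
    simp only [en, one_mul]; positivity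
  rcases hnn.eq_or_lt with h | h
  · have h1 : ∀ y z, (B' * B'ᵀ) y z ^ 2 = 0 := fun y z =>
      le_antisymm ((sq_le_en B' y z).trans h.symm.le) (sq_nonneg _)
    rw [← h]
    simp [en, h1]
  · obtain ⟨c, hc, hi⟩ := exists_scale G B' hB' h
    have h1 : en w (Matrix.of B) ≤ en w (c • B') :=
      hmin (a := c • B') ⟨hi, (en_smul _ c B').trans hc⟩
    rw [en_smul] at h1
    calc en w (Matrix.of B) * en (fun _ _ => 1) B' ≤ c ^ 4 * en w B' * en (fun _ _ => 1) B' :=
          mul_le_mul_of_nonneg_right h1 hnn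
      _ = c ^ 4 * en (fun _ _ => 1) B' * en w B' := by ring
      _ = en w B' := by rw [hc, one_mul]

/-- First order condition at the minimiser. -/
theorem first_order [DecidableEq X] (u : X → X → ℝ) (hu : ∀ y z, u y z = u z y)
    (G : Set (Equiv.Perm X)) (huG : ∀ σ ∈ G, ∀ y z, u (σ y) (σ z) = u y z) (B : Matrix X U ℝ)
    (hB : Inv G (B * Bᵀ)) (h0 : en u B = 0)
    (hmin : ∀ B' : Matrix X U ℝ, Inv G (B' * B'ᵀ) → 0 ≤ en u B') (y : X) (i : U) :
    ∑ z, u y z * (B * Bᵀ) y z * B z i = 0 := by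
  let M : Matrix X X ℝ := Matrix.of fun y z => u y z * (B * Bᵀ) y z
  have hK : ∀ y z, (B * Bᵀ) y z = (B * Bᵀ) z y := fun y z => by
    simp only [mul_apply, transpose_apply, mul_comm]
  have hM : Inv G M := fun σ hσ => by
    ext y z
    simp only [M, submatrix_apply, of_apply, huG σ hσ, hB.apply hσ]
  let C : Matrix X U ℝ := M * B
  have hinv : ∀ ε : ℝ, Inv G ((B + ε • C) * (B + ε • C)ᵀ) := fun ε => by
    have h1 : B + ε • C = (1 + ε • M) * B := by
      rw [Matrix.add_mul, Matrix.one_mul, Matrix.smul_mul]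
    have h2 : Inv G (1 + ε • M) := fun σ hσ => by
      rw [submatrix_add, submatrix_smul]
      simp only [Pi.add_apply, Pi.smul_apply]
      rw [hM σ hσ, submatrix_one_equiv]
    have h3 : Inv G (1 + ε • M)ᵀ := fun σ hσ => by
      rw [← transpose_submatrix, h2 σ hσ]
    rw [h1, transpose_mul, Matrix.mul_assoc, ← Matrix.mul_assoc B]
    exact h2.mul (hB.mul h3)
  have hloc : IsLocalMin (fun ε : ℝ => en u (B + ε • C)) 0 := by
    refine Filter.Eventually.of_forall fun ε => ?_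
    simp only [zero_smul, add_zero, h0]
    exact hmin _ (hinv ε)
  have hd : HasDerivAt (fun ε : ℝ => en u (B + ε • C))
      (∑ y, ∑ z, u y z * (2 * (B * Bᵀ) y z * ∑ i, (C y i * B z i + B y i * C z i))) 0 := by
    simp only [en]
    refine HasDerivAt.fun_sum fun y _ => HasDerivAt.fun_sum fun z _ => HasDerivAt.const_mul _ ?_
    have h1 : HasDerivAt (fun ε : ℝ => ((B + ε • C) * (B + ε • C)ᵀ) y z)
        (∑ i, (C y i * B z i + B y i * C z i)) 0 := by
      simp only [mul_apply, transpose_apply, Matrix.add_apply, Matrix.smul_apply, smul_eq_mul]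
      refine HasDerivAt.fun_sum fun i _ => ?_
      have a1 : HasDerivAt (fun ε : ℝ => B y i + ε * C y i) (C y i) 0 := by
        simpa using ((hasDerivAt_id (0 : ℝ)).mul_const (C y i)).const_add (B y i)
      have a2 : HasDerivAt (fun ε : ℝ => B z i + ε * C z i) (C z i) 0 := by
        simpa using ((hasDerivAt_id (0 : ℝ)).mul_const (C z i)).const_add (B z i)
      simpa using a1.fun_mul a2
    simpa using h1.fun_pow 2
  have h1 := hloc.hasDerivAt_eq_zero hd
  have hC : ∀ y i, C y i = ∑ z, u y z * (B * Bᵀ) y z * B z i := fun y i => rfl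
  have e1 : ∑ y, ∑ z, u y z * ((B * Bᵀ) y z * ∑ i, C y i * B z i) = ∑ y, ∑ i, C y i ^ 2 := by
    refine sum_congr rfl fun y _ => ?_
    simp only [mul_sum]
    rw [sum_comm]
    refine sum_congr rfl fun i _ => ?_
    rw [sq]
    nth_rewrite 3 [hC]
    rw [mul_sum]
    exact sum_congr rfl fun z _ => by ring
  have e2 : ∑ y, ∑ z, u y z * ((B * Bᵀ) y z * ∑ i, B y i * C z i) = ∑ y, ∑ i, C y i ^ 2 := by
    rw [sum_comm, ← e1]
    refine sum_congr rfl fun y _ => sum_congr rfl fun z _ => ?_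
    rw [hu z y, hK z y]
    simp only [mul_comm]
  have e3 : ∑ y, ∑ i, C y i ^ 2 = 0 := by
    have : ∑ y, ∑ z, u y z * (2 * (B * Bᵀ) y z * ∑ i, (C y i * B z i + B y i * C z i)) =
        2 * (∑ y, ∑ z, u y z * ((B * Bᵀ) y z * ∑ i, C y i * B z i) +
          ∑ y, ∑ z, u y z * ((B * Bᵀ) y z * ∑ i, B y i * C z i)) := by
      rw [← sum_add_distrib, mul_sum]
      refine sum_congr rfl fun y _ => ?_
      rw [← sum_add_distrib, mul_sum]
      refine sum_congr rfl fun z _ => ?_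
      rw [sum_add_distrib]
      ring
    rw [this, e1, e2] at h1
    linarith
  have e4 := (sum_eq_zero_iff_of_nonneg fun y _ => sum_nonneg fun i _ => sq_nonneg _).1 e3 y
    (mem_univ y)
  have e5 := (sum_eq_zero_iff_of_nonneg fun i _ => sq_nonneg _).1 e4 i (mem_univ i)
  rw [← hC]
  exact pow_eq_zero_iff two_ne_zero |>.1 e5

theorem exists_decomp (B : Matrix X U ℝ) (v : X → ℝ) :
    ∃ (c : U → ℝ) (v2 : X → ℝ), (∀ y, v y = ∑ i, B y i * c i + v2 y) ∧
      ∀ i, ∑ y, v2 y * B y i = 0 := by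
  classical
  let L : (U → ℝ) →ₗ[ℝ] EuclideanSpace ℝ X :=
    (WithLp.linearEquiv 2 ℝ (X → ℝ)).symm.toLinearMap ∘ₗ B.mulVecLin
  obtain ⟨a, ⟨c, rfl⟩, b, hb, hab⟩ :=
    (LinearMap.range L).exists_add_mem_mem_orthogonal (WithLp.toLp 2 v)
  refine ⟨c, fun y => b y, fun y => ?_, fun i => ?_⟩
  · have := congrArg (fun x : EuclideanSpace ℝ X => x y) hab
    simpa [L, mulVec, dotProduct] using this
  · have := (Submodule.mem_orthogonal _ _).1 hb (L (Pi.single i 1)) ⟨_, rfl⟩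
    simpa [L, PiLp.inner_apply, mul_comm] using this

/-- The minimiser is a subsolution. -/
theorem nsd (w : X → X → ℝ) (hw : ∀ y z, w y z = w z y)
    (hneg : ∀ c : X → ℝ, ∑ y, c y = 0 → ∑ y, ∑ z, c y * c z * w y z ≤ 0) (lam : ℝ)
    (B : Matrix X U ℝ) (hM : ∀ y i, ∑ z, (w y z - lam) * (B * Bᵀ) y z * B z i = 0)
    (v : X → ℝ) : ∑ y, ∑ z, v y * v z * ((w y z - lam) * (B * Bᵀ) y z) ≤ 0 := by
  obtain ⟨c, v2, hv, hv2⟩ := exists_decomp B v
  let M : X → X → ℝ := fun y z => (w y z - lam) * (B * Bᵀ) y z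
  have hMs : ∀ y z, M y z = M z y := fun y z => by
    simp only [M, mul_apply, transpose_apply, mul_comm, hw y z]
  have h1 : ∀ y, ∑ z, v z * M y z = ∑ z, v2 z * M y z := fun y => by
    have : ∑ z, (∑ i, B z i * c i) * M y z = 0 := by
      simp only [sum_mul]
      rw [sum_comm]
      refine sum_eq_zero fun i _ => ?_
      rw [← mul_zero (c i), ← hM y i, mul_sum]
      exact sum_congr rfl fun z _ => by simp only [M]; ring
    simp only [hv, add_mul, sum_add_distrib, this, zero_add]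
  have h2 : ∀ a b : X → ℝ, ∑ y, ∑ z, a y * b z * M y z = ∑ y, a y * ∑ z, b z * M y z :=
    fun a b => sum_congr rfl fun y _ => by
      rw [mul_sum]; exact sum_congr rfl fun z _ => by ring
  have h3 : ∀ a b : X → ℝ, ∑ y, ∑ z, a y * b z * M y z = ∑ y, ∑ z, b y * a z * M y z :=
    fun a b => by
      rw [sum_comm]
      exact sum_congr rfl fun y _ => sum_congr rfl fun z _ => by rw [hMs y z]; ring
  have h4 : ∑ y, ∑ z, v y * v z * M y z = ∑ y, ∑ z, v2 y * v2 z * M y z := by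
    rw [h2 v v]
    simp only [h1]
    rw [← h2 v v2, h3 v v2, h2 v2 v]
    simp only [h1]
    rw [← h2 v2 v2]
  show ∑ y, ∑ z, v y * v z * M y z ≤ 0
  rw [h4]
  have h5 : ∑ y, ∑ z, v2 y * v2 z * M y z =
      ∑ i, (∑ y, ∑ z, (v2 y * B y i) * (v2 z * B z i) * w y z -
        lam * ((∑ y, v2 y * B y i) * ∑ y, v2 y * B y i)) := by
    simp only [sum_mul_sum]
    simp only [M, mul_apply, transpose_apply, mul_sum, ← sum_sub_distrib]
    symm
    rw [sum_comm]
    refine sum_congr rfl fun y _ => ?_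
    rw [sum_comm]
    exact sum_congr rfl fun z _ => sum_congr rfl fun i _ => by ring
  rw [h5]
  refine sum_nonpos fun i _ => ?_
  rw [hv2 i, mul_zero, mul_zero, sub_zero]
  exact hneg _ (hv2 i)

/-- The diagonal of an invariant Gram kernel is small when all orbits are large. -/
theorem diag_le (G : Set (Equiv.Perm X)) (B : Matrix X U ℝ) (hB : Inv G (B * Bᵀ)) (T : ℝ) (y : X)
    (O : Finset X) (hT : T ≤ O.card) (hO : ∀ z ∈ O, ∃ σ ∈ G, σ y = z) :
    T * (B * Bᵀ) y y ^ 2 ≤ Fintype.card U * ∑ z, (B * Bᵀ) y z ^ 2 := by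
  have h1 : ∑ z ∈ O, (B * Bᵀ) z z = O.card * (B * Bᵀ) y y := by
    rw [sum_congr rfl (g := fun _ => (B * Bᵀ) y y), sum_const, nsmul_eq_mul]
    intro z hz
    obtain ⟨σ, hσ, rfl⟩ := hO z hz
    exact hB.apply hσ y y
  have h2 : ∑ z ∈ O, ∑ x, (B * Bᵀ) z x ^ 2 = O.card * ∑ x, (B * Bᵀ) y x ^ 2 := by
    rw [sum_congr rfl (g := fun _ => ∑ x, (B * Bᵀ) y x ^ 2), sum_const, nsmul_eq_mul]
    intro z hz
    obtain ⟨σ, hσ, rfl⟩ := hO z hz
    rw [← Equiv.sum_comp σ]
    exact sum_congr rfl fun x _ => by rw [hB.apply hσ]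
  have h3 : ∑ z ∈ O, (B * Bᵀ) z z = ∑ i, ∑ z ∈ O, B z i * B z i := by
    rw [sum_comm]; rfl
  have h4 : (∑ i, ∑ z ∈ O, B z i * B z i) ^ 2 ≤
      Fintype.card U * ∑ i, (∑ z ∈ O, B z i * B z i) ^ 2 := sq_sum_le_card_mul_sum_sq
  have h5 : ∑ i, (∑ z ∈ O, B z i * B z i) ^ 2 ≤ ∑ i, ∑ j, (∑ z ∈ O, B z i * B z j) ^ 2 :=
    sum_le_sum fun i _ => single_le_sum (f := fun j => (∑ z ∈ O, B z i * B z j) ^ 2)
      (fun _ _ => sq_nonneg _) (mem_univ i)
  have h6 : ∑ z ∈ O, ∑ z' ∈ O, (∑ i, B z i * B z' i) ^ 2 ≤ ∑ z ∈ O, ∑ x, (B * Bᵀ) z x ^ 2 :=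
    sum_le_sum fun z _ => sum_le_sum_of_subset_of_nonneg (subset_univ _) fun _ _ _ => sq_nonneg _
  rw [← gram_sq (fun z i => B z i)] at h5
  have h7 : ((O.card : ℝ) * (B * Bᵀ) y y) ^ 2 ≤
      Fintype.card U * (O.card * ∑ x, (B * Bᵀ) y x ^ 2) := by
    rw [← h1, h3, ← h2]
    exact h4.trans (mul_le_mul_of_nonneg_left (h5.trans h6) (Nat.cast_nonneg _))
  have hR : 0 ≤ (Fintype.card U : ℝ) * ∑ z, (B * Bᵀ) y z ^ 2 := by positivity
  rcases (Nat.cast_nonneg (α := ℝ) O.card).eq_or_lt with h | h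
  · exact (mul_nonpos_of_nonpos_of_nonneg (hT.trans h.symm.le) (sq_nonneg _)).trans hR
  · refine (mul_le_mul_of_nonneg_right hT (sq_nonneg _)).trans (le_of_mul_le_mul_left ?_ h)
    calc (O.card : ℝ) * (O.card * (B * Bᵀ) y y ^ 2) = (O.card * (B * Bᵀ) y y) ^ 2 := by ring
      _ ≤ _ := h7
      _ = _ := by ring

/-- A positive semidefinite kernel is dominated by its monochromatic part. -/
theorem colour_le {Γ : Type*} [Fintype Γ] [DecidableEq Γ] (F : X → X → ℝ)
    (hF : ∀ v : X → ℝ, 0 ≤ ∑ y, ∑ z, v y * v z * F y z) (γ : X → Γ) :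
    ∑ y, ∑ z, F y z ≤ Fintype.card Γ * ∑ y, ∑ z, if γ y = γ z then F y z else 0 := by
  let e : Γ → X → ℝ := fun g y => if γ y = g then 1 else 0
  have h1 : 0 ≤ ∑ g, ∑ g', ∑ y, ∑ z, (e g y - e g' y) * (e g z - e g' z) * F y z :=
    sum_nonneg fun g _ => sum_nonneg fun g' _ => hF _
  rw [← sum_comm4] at h1
  have h2 : ∀ y z, ∑ g, ∑ g', (e g y - e g' y) * (e g z - e g' z) * F y z =
      2 * (Fintype.card Γ * (if γ y = γ z then F y z else 0) - F y z) := fun y z => by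
    have a1 : ∑ g, e g y * e g z = if γ y = γ z then 1 else 0 := by
      simp [e, eq_comm]
    have a2 : ∀ x, ∑ g, e g x = 1 := fun x => by simp [e]
    have a3 : ∀ g g', (e g y - e g' y) * (e g z - e g' z) * F y z =
        (e g y * e g z) * F y z + (e g' y * e g' z) * F y z - e g y * (e g' z * F y z) -
          e g z * (e g' y * F y z) := fun g g' => by ring
    simp only [a3, sum_sub_distrib, sum_add_distrib, sum_const, card_univ, nsmul_eq_mul,
      ← mul_sum, ← sum_mul, a1, a2]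
    split_ifs <;> ring
  simp only [h2, ← mul_sum, sum_sub_distrib] at h1
  linarith

/-- The linear programming bound for colourings of a space of negative type. -/
theorem lp_bound {Γ : Type*} [Fintype Γ] (w : X → X → ℝ) (hw : ∀ y z, w y z = w z y)
    (hw0 : ∀ y, w y y = 0)
    (hneg : ∀ c : X → ℝ, ∑ y, c y = 0 → ∑ y, ∑ z, c y * c z * w y z ≤ 0)
    (G : Set (Equiv.Perm X)) (hG : ∀ σ ∈ G, ∀ y z, w (σ y) (σ z) = w y z) (T : ℝ) (hT0 : 0 ≤ T)
    (hT : ∀ y, ∃ O : Finset X, T ≤ O.card ∧ ∀ z ∈ O, ∃ σ ∈ G, σ y = z)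
    (B0 : Matrix X U ℝ) (h0 : Inv G (B0 * B0ᵀ)) (hN : 0 < en (fun _ _ => 1) B0) (lam d : ℝ)
    (hE : en w B0 ≤ lam * en (fun _ _ => 1) B0) (hd : lam ≤ d) (hd0 : 0 ≤ d) (γ : X → Γ)
    (hγ : ∀ y z, y ≠ z → γ y = γ z → d ≤ w y z) :
    T * (d - lam) ≤ Fintype.card Γ * (d * Fintype.card U) := by
  classical
  obtain ⟨B, hB, hB1, hmin⟩ := exists_min w G B0 h0 hN
  have hl : en w B ≤ lam := le_of_mul_le_mul_right ((hmin B0 h0).trans hE) hN
  have hsub : ∀ (l : ℝ) (B' : Matrix X U ℝ),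
      en (fun y z => w y z - l) B' = en w B' - l * en (fun _ _ => 1) B' := fun l B' => by
    simp only [en, mul_sum, ← sum_sub_distrib]
    exact sum_congr rfl fun y _ => sum_congr rfl fun z _ => by ring
  have hM := first_order (fun y z => w y z - en w B) (fun y z => by rw [hw y z]) G
    (fun σ hσ y z => by rw [hG σ hσ]) B hB (by rw [hsub, hB1]; ring)
    (fun B' hB' => by rw [hsub]; linarith [hmin B' hB'])
  have hn := nsd w hw hneg (en w B) B hM
  have hK : ∀ v : X → ℝ, 0 ≤ ∑ y, ∑ z, v y * v z * (B * Bᵀ) y z := fun v => by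
    have : ∑ y, ∑ z, v y * v z * (B * Bᵀ) y z = ∑ i, (∑ y, v y * B y i) * ∑ y, v y * B y i := by
      simp only [sum_mul_sum]
      simp only [mul_apply, transpose_apply, mul_sum]
      symm
      rw [sum_comm]
      refine sum_congr rfl fun y _ => ?_
      rw [sum_comm]
      exact sum_congr rfl fun z _ => sum_congr rfl fun i _ => by ring
    rw [this]
    exact sum_nonneg fun i _ => mul_self_nonneg _
  have hK' : ∀ v : X → ℝ, 0 ≤ ∑ y, ∑ z, v y * v z * ((d - w y z) * (B * Bᵀ) y z) := fun v => by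
    have : ∑ y, ∑ z, v y * v z * ((d - w y z) * (B * Bᵀ) y z) =
        (d - en w B) * ∑ y, ∑ z, v y * v z * (B * Bᵀ) y z -
          ∑ y, ∑ z, v y * v z * ((w y z - en w B) * (B * Bᵀ) y z) := by
      simp only [mul_sum, ← sum_sub_distrib]
      exact sum_congr rfl fun y _ => sum_congr rfl fun z _ => by ring
    rw [this]
    have := mul_nonneg (sub_nonneg.2 (hl.trans hd)) (hK v)
    linarith [hn v]
  have hF : ∀ v : X → ℝ, 0 ≤ ∑ y, ∑ z, v y * v z * ((d - w y z) * (B * Bᵀ) y z ^ 2) := fun v => by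
    have : ∑ y, ∑ z, v y * v z * ((d - w y z) * (B * Bᵀ) y z ^ 2) =
        ∑ i, ∑ y, ∑ z, (v y * B y i) * (v z * B z i) * ((d - w y z) * (B * Bᵀ) y z) := by
      symm
      rw [sum_comm]
      refine sum_congr rfl fun y _ => ?_
      rw [sum_comm]
      refine sum_congr rfl fun z _ => ?_
      rw [sq]
      nth_rewrite 3 [mul_apply]
      simp only [transpose_apply, mul_sum]
      exact sum_congr rfl fun i _ => by ring
    rw [this]
    exact sum_nonneg fun i _ => hK' _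
  have h1 := colour_le _ hF γ
  have h2 : ∑ y, ∑ z, (d - w y z) * (B * Bᵀ) y z ^ 2 = d - en w B := by
    have : ∑ y, ∑ z, (d - w y z) * (B * Bᵀ) y z ^ 2 = d * en (fun _ _ => 1) B - en w B := by
      simp only [en, mul_sum, ← sum_sub_distrib]
      exact sum_congr rfl fun y _ => sum_congr rfl fun z _ => by ring
    rw [this, hB1, mul_one]
  have h3 : ∑ y, ∑ z, (if γ y = γ z then (d - w y z) * (B * Bᵀ) y z ^ 2 else 0) ≤
      ∑ y, d * (B * Bᵀ) y y ^ 2 := by
    refine sum_le_sum fun y _ => ?_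
    rw [← add_sum_erase _ _ (mem_univ y), if_pos rfl, hw0, sub_zero]
    refine add_le_of_nonpos_right (sum_nonpos fun z hz => ?_)
    split_ifs with h
    · exact mul_nonpos_of_nonpos_of_nonneg
        (sub_nonpos.2 (hγ y z (ne_of_mem_erase hz).symm h)) (sq_nonneg _)
    · exact le_rfl
  have h4 : T * ∑ y, (B * Bᵀ) y y ^ 2 ≤ Fintype.card U := by
    calc T * ∑ y, (B * Bᵀ) y y ^ 2 ≤ ∑ y, Fintype.card U * ∑ z, (B * Bᵀ) y z ^ 2 := by
          rw [mul_sum]
          refine sum_le_sum fun y _ => ?_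
          obtain ⟨O, h1, h2⟩ := hT y
          exact diag_le G B hB T y O h1 h2
      _ = Fintype.card U * en (fun _ _ => 1) B := by simp only [en, one_mul, mul_sum]
      _ = _ := by rw [hB1, mul_one]
  rw [h2] at h1
  rw [← mul_sum] at h3
  have hc : (0 : ℝ) ≤ Fintype.card Γ := Nat.cast_nonneg _
  calc T * (d - lam) ≤ T * (d - en w B) := mul_le_mul_of_nonneg_left (by linarith) hT0
    _ ≤ T * (Fintype.card Γ * (d * ∑ y, (B * Bᵀ) y y ^ 2)) :=
        mul_le_mul_of_nonneg_left (h1.trans (mul_le_mul_of_nonneg_left h3 hc)) hT0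
    _ = Fintype.card Γ * (d * (T * ∑ y, (B * Bᵀ) y y ^ 2)) := by ring
    _ ≤ _ := mul_le_mul_of_nonneg_left (mul_le_mul_of_nonneg_left h4 hd0) hc

end Pool.Agent.P.MP_dc323a_nt.Ext
end

-- part Pool.Agent.P.MP_dc323a_nt.XTensor
section

set_option autoImplicit false

namespace Pool.Agent.P.MP_dc323a_nt.Ext

open Finset Matrix Filter Topology

theorem neg_abs {X : Type*} [Fintype X] (f : X → ℕ) (c : X → ℝ) (hc : ∑ y, c y = 0) :
    ∑ y, ∑ z, c y * c z * |(f y : ℝ) - f z| ≤ 0 := by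
  let P := univ.sup f
  let e : ℕ → X → ℝ := fun t y => if t < f y then 1 else 0
  have h1 : ∀ y z, |(f y : ℝ) - f z| = f y + f z - 2 * ∑ t ∈ range P, e t y * e t z := by
    intro y z
    have a1 : ∑ t ∈ range P, e t y * e t z = (min (f y) (f z) : ℕ) := by
      have : ∀ t, e t y * e t z = if t < min (f y) (f z) then 1 else 0 := fun t => by
        simp only [e, lt_min_iff]
        by_cases h1 : t < f y <;> by_cases h2 : t < f z <;> simp [h1, h2]
      simp only [this, sum_boole]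
      congr 1
      refine Eq.trans ?_ (card_range (min (f y) (f z)))
      congr 1
      ext t
      have : f y ≤ P := le_sup (mem_univ y)
      simp only [mem_filter, mem_range]
      omega
    rw [a1]
    rcases le_total (f y) (f z) with h | h
    · have h' : (f y : ℝ) ≤ f z := by exact_mod_cast h
      rw [min_eq_left h, abs_of_nonpos (by linarith)]; ring
    · have h' : (f z : ℝ) ≤ f y := by exact_mod_cast h
      rw [min_eq_right h, abs_of_nonneg (by linarith)]; ring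
  have h2 : ∑ y, ∑ z, c y * c z * |(f y : ℝ) - f z| =
      (∑ y, c y * f y) * (∑ z, c z) + (∑ y, c y) * (∑ z, c z * f z) -
        2 * ∑ t ∈ range P, (∑ y, c y * e t y) * ∑ z, c z * e t z := by
    simp only [sum_mul_sum]
    rw [sum_comm (s := range P), mul_sum, ← sum_add_distrib, ← sum_sub_distrib]
    refine sum_congr rfl fun y _ => ?_
    rw [sum_comm (s := range P), mul_sum, ← sum_add_distrib, ← sum_sub_distrib]
    refine sum_congr rfl fun z _ => ?_
    have : ∑ t ∈ range P, c y * e t y * (c z * e t z) =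
        c y * c z * ∑ t ∈ range P, e t y * e t z := by
      rw [mul_sum]; exact sum_congr rfl fun t _ => by ring
    rw [h1, this]
    ring
  rw [h2, hc]
  have : 0 ≤ ∑ t ∈ range P, (∑ y, c y * e t y) * ∑ z, c z * e t z :=
    sum_nonneg fun t _ => mul_self_nonneg _
  linarith

theorem sum_pi {n : ℕ} {I : Type*} [Fintype I] (f : Fin n → I → ℝ) :
    ∑ α : Fin n → I, ∏ j, f j (α j) = ∏ j, ∑ i, f j i := by
  classical
  rw [prod_univ_sum, Fintype.piFinset_univ]

theorem sum_pi' (n : ℕ) {I : Type*} [Fintype I] (f : I → ℝ) :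
    ∑ α : Fin n → I, ∏ j, f (α j) = (∑ i, f i) ^ n := by
  rw [sum_pi (fun _ => f), prod_const, card_univ, Fintype.card_fin]

theorem sum_pi2 {n : ℕ} {I : Type*} [Fintype I] (f : Fin n → I → I → ℝ) :
    ∑ α : Fin n → I, ∑ β : Fin n → I, ∏ j, f j (α j) (β j) = ∏ j, ∑ i, ∑ i', f j i i' := by
  rw [← sum_pi (fun j i => ∑ i', f j i i')]
  exact sum_congr rfl fun α _ => sum_pi (fun j i' => f j (α j) i')

variable {L I : Type} [Fintype L] [Fintype I]

/-- The one letter kernel. -/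
def ker (b : L → I → ℝ) (a a' : L) : ℝ := ∑ i, b a i * b a' i
/-- Row masses. -/
def mu (b : L → I → ℝ) (a : L) : ℝ := ∑ a', ker b a a' ^ 2
/-- Column masses. -/
def gam (b : L → I → ℝ) (i : I) : ℝ := ∑ j, (∑ a, b a i * b a j) ^ 2
/-- The tensor power. -/
def tens {n : ℕ} (b : L → I → ℝ) (y : Fin n → L) (α : Fin n → I) : ℝ := ∏ j, b (y j) (α j)
/-- The truncated kernel. -/
def kerS {n : ℕ} (b : L → I → ℝ) (S : Finset (Fin n → I)) (y z : Fin n → L) : ℝ :=
  ∑ α ∈ S, tens b y α * tens b z α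
/-- The distance of two words. -/
def dis {n : ℕ} (pos : L → ℕ) (y z : Fin n → L) : ℝ := ∑ j, |(pos (y j) : ℝ) - pos (z j)|
/-- The type of a word. -/
def cnt [DecidableEq L] {n : ℕ} (y : Fin n → L) (a : L) : ℕ := #{j | y j = a}

theorem mu_nonneg (b : L → I → ℝ) (a : L) : 0 ≤ mu b a := sum_nonneg fun _ _ => sq_nonneg _
theorem gam_nonneg (b : L → I → ℝ) (i : I) : 0 ≤ gam b i := sum_nonneg fun _ _ => sq_nonneg _
theorem sum_gam (b : L → I → ℝ) : ∑ i, gam b i = ∑ a, mu b a := (gram_sq b univ univ).symm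

omit [Fintype L] in
theorem kerS_univ {n : ℕ} (b : L → I → ℝ) (y z : Fin n → L) :
    kerS b univ y z = ∏ j, ker b (y j) (z j) := by
  simp only [kerS, tens, ← prod_mul_distrib]
  exact sum_pi (fun j i => b (y j) i * b (z j) i)

theorem row_mass {n : ℕ} (b : L → I → ℝ) (y : Fin n → L) :
    ∑ z, kerS b univ y z ^ 2 = ∏ j, mu b (y j) := by
  simp only [kerS_univ, ← prod_pow]
  exact sum_pi (fun j a => ker b (y j) a ^ 2)

theorem energy_le {n : ℕ} (b : L → I → ℝ) (pos : L → ℕ) (lam : ℝ)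
    (hE : ∑ a, ∑ a', |(pos a : ℝ) - pos a'| * ker b a a' ^ 2 ≤ lam * ∑ a, mu b a) :
    ∑ y : Fin n → L, ∑ z, dis pos y z * kerS b univ y z ^ 2 ≤ n * lam * (∑ a, mu b a) ^ n := by
  have h1 : ∀ j0 : Fin n, ∑ y : Fin n → L, ∑ z : Fin n → L,
      |(pos (y j0) : ℝ) - pos (z j0)| * kerS b univ y z ^ 2 ≤ lam * (∑ a, mu b a) ^ n := by
    intro j0
    have a1 : ∀ y z : Fin n → L, |(pos (y j0) : ℝ) - pos (z j0)| * kerS b univ y z ^ 2 =
        ∏ j, (if j = j0 then |(pos (y j) : ℝ) - pos (z j)| else 1) * ker b (y j) (z j) ^ 2 := by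
      intro y z
      rw [prod_mul_distrib, prod_ite_eq', if_pos (mem_univ _), kerS_univ, prod_pow]
    simp only [a1]
    rw [sum_pi2 (fun j a a' => (if j = j0 then |(pos a : ℝ) - pos a'| else 1) * ker b a a' ^ 2)]
    calc _ ≤ ∏ j : Fin n, (if j = j0 then lam else 1) * ∑ a, mu b a := by
          refine prod_le_prod (fun j _ => sum_nonneg fun a _ => sum_nonneg fun a' _ => ?_)
            fun j _ => ?_
          · split_ifs <;> positivity
          · split_ifs
            · exact hE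
            · simp [mu]
      _ = _ := by
          rw [prod_mul_distrib, prod_ite_eq', if_pos (mem_univ _), prod_const, card_univ,
            Fintype.card_fin]
  calc _ = ∑ j0 : Fin n, ∑ y : Fin n → L, ∑ z : Fin n → L,
        |(pos (y j0) : ℝ) - pos (z j0)| * kerS b univ y z ^ 2 := by
        simp only [dis, sum_mul]
        symm
        rw [sum_comm]
        exact sum_congr rfl fun y _ => sum_comm
    _ ≤ ∑ j0 : Fin n, lam * (∑ a, mu b a) ^ n := sum_le_sum fun j0 _ => h1 j0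
    _ = _ := by rw [sum_const, card_univ, Fintype.card_fin, nsmul_eq_mul, mul_assoc]

theorem tail_le {n : ℕ} (b : L → I → ℝ) (s : I → ℝ) (hs : ∀ i, 0 ≤ s i)
    (S : Finset (Fin n → I)) (hS : ∀ α ∈ S, 1 ≤ ∏ j, s (α j)) :
    ∑ y : Fin n → L, ∑ z, kerS b S y z ^ 2 ≤ (∑ i, gam b i * s i) ^ n := by
  have h1 : ∀ α β : Fin n → I, ∑ y : Fin n → L, tens b y α * tens b y β =
      ∏ j, ∑ a, b a (α j) * b a (β j) := fun α β => by
    simp only [tens, ← prod_mul_distrib]
    exact sum_pi (fun j a => b a (α j) * b a (β j))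
  calc _ = ∑ α ∈ S, ∑ β ∈ S, (∑ y : Fin n → L, tens b y α * tens b y β) ^ 2 :=
        gram_sq (tens b) univ S
    _ ≤ ∑ α ∈ S, ∑ β, (∑ y : Fin n → L, tens b y α * tens b y β) ^ 2 :=
        sum_le_sum fun α _ => sum_le_sum_of_subset_of_nonneg (subset_univ _)
          fun _ _ _ => sq_nonneg _
    _ = ∑ α ∈ S, ∏ j, gam b (α j) := by
        refine sum_congr rfl fun α _ => ?_
        simp only [h1, ← prod_pow]
        exact sum_pi (fun j i => (∑ a, b a (α j) * b a i) ^ 2)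
    _ ≤ ∑ α ∈ S, ∏ j, gam b (α j) * s (α j) := by
        refine sum_le_sum fun α hα => ?_
        rw [prod_mul_distrib]
        exact le_mul_of_one_le_right (prod_nonneg fun j _ => gam_nonneg _ _) (hS α hα)
    _ ≤ ∑ α : Fin n → I, ∏ j, gam b (α j) * s (α j) :=
        sum_le_sum_of_subset_of_nonneg (subset_univ _)
          fun _ _ _ => prod_nonneg fun j _ => mul_nonneg (gam_nonneg _ _) (hs _)
    _ = _ := sum_pi' n (fun i => gam b i * s i)

theorem card_le {n : ℕ} (b : L → I → ℝ) (s : I → ℝ) (hs : ∀ i, 0 ≤ s i) (m : ℕ) (c : ℝ)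
    (hc : 0 ≤ c) (h : ∀ i, c ≤ gam b i * s i ^ m)
    (S : Finset (Fin n → I)) (hS : ∀ α ∈ S, ∏ j, s (α j) ≤ 1) :
    S.card * c ^ n ≤ (∑ a, mu b a) ^ n := by
  calc S.card * c ^ n = ∑ α ∈ S, ∏ j : Fin n, c := by
        rw [prod_const, card_univ, Fintype.card_fin, sum_const, nsmul_eq_mul]
    _ ≤ ∑ α ∈ S, ∏ j, gam b (α j) := by
        refine sum_le_sum fun α hα => (prod_le_prod (fun _ _ => hc) fun j _ => h (α j)).trans ?_
        rw [prod_mul_distrib, prod_pow]
        exact mul_le_of_le_one_right (prod_nonneg fun j _ => gam_nonneg _ _)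
          (pow_le_one₀ (prod_nonneg fun j _ => hs _) (hS α hα))
    _ ≤ ∑ α : Fin n → I, ∏ j, gam b (α j) :=
        sum_le_sum_of_subset_of_nonneg (subset_univ _)
          fun _ _ _ => prod_nonneg fun j _ => gam_nonneg _ _
    _ = _ := by rw [sum_pi', sum_gam]

theorem mass_le {n : ℕ} (b : L → I → ℝ) (g : L → ℝ) (hg : ∀ a, 0 ≤ g a) (m : ℕ) (c : ℝ)
    (hc : 0 ≤ c) (h : ∀ a, mu b a ≤ c * g a ^ m) (S : Finset (Fin n → L)) :
    ∑ y ∈ S, ∏ j, mu b (y j) ≤ S.card * c ^ n + (∑ a, mu b a * g a) ^ n := by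
  have h0 : ∀ y : Fin n → L, 0 ≤ ∏ j, mu b (y j) * g (y j) := fun y =>
    prod_nonneg fun j _ => mul_nonneg (mu_nonneg _ _) (hg _)
  calc _ ≤ ∑ y ∈ S, (c ^ n + ∏ j, mu b (y j) * g (y j)) := by
        refine sum_le_sum fun y _ => ?_
        rcases le_total (∏ j, g (y j)) 1 with h1 | h1
        · refine le_add_of_le_of_nonneg
            ((prod_le_prod (fun j _ => mu_nonneg _ _) fun j _ => h (y j)).trans ?_) (h0 y)
          rw [prod_mul_distrib, prod_pow, prod_const, card_univ, Fintype.card_fin]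
          exact mul_le_of_le_one_right (pow_nonneg hc _)
            (pow_le_one₀ (prod_nonneg fun j _ => hg _) h1)
        · refine le_add_of_nonneg_of_le (pow_nonneg hc _) ?_
          rw [prod_mul_distrib]
          exact le_mul_of_one_le_right (prod_nonneg fun j _ => mu_nonneg _ _) h1
    _ ≤ _ := by
        rw [sum_add_distrib, sum_const, nsmul_eq_mul, ← sum_pi' n (fun a => mu b a * g a)]
        gcongr
        · exact fun y _ _ => h0 y
        · exact subset_univ _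

theorem card_bad [DecidableEq L] (n : ℕ) (T : ℝ) (hT : 0 ≤ T) (S : Finset (Fin n → L))
    (hS : ∀ y ∈ S, (#{z : Fin n → L | cnt z = cnt y} : ℝ) ≤ T) :
    (S.card : ℝ) ≤ (n + 1) ^ Fintype.card L * T := by
  rw [card_eq_sum_card_image cnt S, Nat.cast_sum]
  calc _ ≤ ∑ c ∈ S.image cnt, T := by
        refine sum_le_sum fun c hc => ?_
        obtain ⟨y, hy, rfl⟩ := mem_image.1 hc
        refine le_trans ?_ (hS y hy)
        exact_mod_cast card_le_card (filter_subset_filter _ (subset_univ _))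
    _ ≤ _ := by
        rw [sum_const, nsmul_eq_mul]
        refine mul_le_mul_of_nonneg_right ?_ hT
        have h1 : S.image cnt ⊆ Fintype.piFinset fun _ : L => range (n + 1) := by
          intro c hc
          obtain ⟨y, _, rfl⟩ := mem_image.1 hc
          refine Fintype.mem_piFinset.2 fun a => mem_range.2 (Nat.lt_succ_of_le ?_)
          exact (card_le_univ _).trans (Fintype.card_fin n).le
        have h2 := card_le_card h1
        rw [Fintype.card_piFinset, prod_const, card_range, card_univ] at h2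
        exact_mod_cast h2

omit [Fintype L] in
theorem cnt_comp [DecidableEq L] {n : ℕ} (y : Fin n → L) (τ : Equiv.Perm (Fin n)) :
    cnt (y ∘ τ) = cnt y := by
  ext a
  exact card_equiv τ (by simp)

omit [Fintype L] in
theorem exists_perm [DecidableEq L] {n : ℕ} (y z : Fin n → L) (h : cnt z = cnt y) :
    ∃ τ : Equiv.Perm (Fin n), y ∘ τ = z := by
  have h1 : ∀ a, Fintype.card {j // z j = a} = Fintype.card {j // y j = a} := fun a => by
    rw [Fintype.card_subtype, Fintype.card_subtype]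
    exact congrFun h a
  refine ⟨Equiv.ofFiberEquiv fun a => Fintype.equivOfCardEq (h1 a), ?_⟩
  ext j
  exact Equiv.ofFiberEquiv_map _ j

omit [Fintype L] in
theorem dis_le {n : ℕ} (pos : L → ℕ) (P : ℕ) (hP : ∀ a, pos a ≤ P) (y z : Fin n → L) :
    dis pos y z ≤ n * P := by
  calc dis pos y z ≤ ∑ j : Fin n, (P : ℝ) := by
        refine sum_le_sum fun j _ => ?_
        have h1 : (pos (y j) : ℝ) ≤ P := by exact_mod_cast hP _
        have h2 : (pos (z j) : ℝ) ≤ P := by exact_mod_cast hP _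
        have h3 : (0 : ℝ) ≤ pos (y j) := Nat.cast_nonneg _
        have h4 : (0 : ℝ) ≤ pos (z j) := Nat.cast_nonneg _
        rw [abs_le]
        constructor <;> linarith
    _ = _ := by rw [sum_const, card_univ, Fintype.card_fin, nsmul_eq_mul]

theorem trunc_energy [DecidableEq I] {n : ℕ} (b : L → I → ℝ) (pos : L → ℕ) (P : ℕ) (hP : ∀ a, pos a ≤ P)
    (S : Finset (Fin n → I)) (θ : ℝ) (hθ : 0 < θ) :
    ∑ y : Fin n → L, ∑ z, dis pos y z * kerS b S y z ^ 2 ≤
      (1 + θ) * ∑ y : Fin n → L, ∑ z, dis pos y z * kerS b univ y z ^ 2 +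
        (1 + θ⁻¹) * (n * P) * ∑ y : Fin n → L, ∑ z, kerS b Sᶜ y z ^ 2 := by
  simp only [mul_sum, ← sum_add_distrib]
  refine sum_le_sum fun y _ => sum_le_sum fun z _ => ?_
  have h1 : kerS b S y z = kerS b univ y z - kerS b Sᶜ y z := by
    rw [eq_sub_iff_add_eq]; exact sum_add_sum_compl _ _
  have h2 : 0 ≤ dis pos y z := sum_nonneg fun _ _ => abs_nonneg _
  have h3 := dis_le pos P hP y z
  rw [h1]
  generalize kerS b univ y z = u
  generalize kerS b Sᶜ y z = v
  have h4 : (u - v) ^ 2 ≤ (1 + θ) * u ^ 2 + (1 + θ⁻¹) * v ^ 2 := by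
    have : (1 + θ) * u ^ 2 + (1 + θ⁻¹) * v ^ 2 - (u - v) ^ 2 = θ⁻¹ * (θ * u + v) ^ 2 := by
      field_simp; ring
    have : 0 ≤ θ⁻¹ * (θ * u + v) ^ 2 := by positivity
    linarith
  have h5 : dis pos y z * ((1 + θ⁻¹) * v ^ 2) ≤ n * P * ((1 + θ⁻¹) * v ^ 2) :=
    mul_le_mul_of_nonneg_right h3 (by positivity)
  nlinarith [mul_le_mul_of_nonneg_left h4 h2]

theorem trunc_mass [DecidableEq I] [DecidableEq L] {n : ℕ} (b : L → I → ℝ) (S : Finset (Fin n → I))
    (W : Finset (Fin n → L)) (θ : ℝ) (hθ : 0 < θ) (hθ1 : θ ≤ 1) :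
    (1 - θ) * ((∑ a, mu b a) ^ n - 2 * ∑ y ∈ Wᶜ, ∏ j, mu b (y j)) -
      θ⁻¹ * ∑ y : Fin n → L, ∑ z, kerS b Sᶜ y z ^ 2 ≤ ∑ y ∈ W, ∑ z ∈ W, kerS b S y z ^ 2 := by
  have h1 : (∑ a, mu b a) ^ n - 2 * ∑ y ∈ Wᶜ, ∏ j, mu b (y j) ≤
      ∑ y ∈ W, ∑ z ∈ W, kerS b univ y z ^ 2 := by
    have a1 : ∑ y ∈ W, ∏ j, mu b (y j) + ∑ y ∈ Wᶜ, ∏ j, mu b (y j) = (∑ a, mu b a) ^ n := by
      rw [sum_add_sum_compl, sum_pi']
    have a2 : ∑ y ∈ W, ∑ z ∈ W, kerS b univ y z ^ 2 + ∑ y ∈ W, ∑ z ∈ Wᶜ, kerS b univ y z ^ 2 =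
        ∑ y ∈ W, ∏ j, mu b (y j) := by
      rw [← sum_add_distrib]
      exact sum_congr rfl fun y _ => by rw [sum_add_sum_compl, row_mass]
    have a3 : ∑ y ∈ W, ∑ z ∈ Wᶜ, kerS b univ y z ^ 2 ≤ ∑ y ∈ Wᶜ, ∏ j, mu b (y j) := by
      rw [sum_comm]
      refine sum_le_sum fun z _ => ?_
      rw [← row_mass]
      refine (sum_le_sum_of_subset_of_nonneg (subset_univ _) fun _ _ _ => sq_nonneg _).trans
        (le_of_eq (sum_congr rfl fun y _ => ?_))
      simp only [kerS, mul_comm]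
    linarith
  have h2 : ∑ y ∈ W, ∑ z ∈ W, kerS b Sᶜ y z ^ 2 ≤ ∑ y : Fin n → L, ∑ z, kerS b Sᶜ y z ^ 2 :=
    (sum_le_sum fun y _ => sum_le_sum_of_subset_of_nonneg (subset_univ _)
      fun _ _ _ => sq_nonneg _).trans (sum_le_sum_of_subset_of_nonneg (subset_univ _)
        fun _ _ _ => sum_nonneg fun _ _ => sq_nonneg _)
  have h3 : (1 - θ) * ∑ y ∈ W, ∑ z ∈ W, kerS b univ y z ^ 2 -
      θ⁻¹ * ∑ y ∈ W, ∑ z ∈ W, kerS b Sᶜ y z ^ 2 ≤ ∑ y ∈ W, ∑ z ∈ W, kerS b S y z ^ 2 := by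
    simp only [mul_sum, ← sum_sub_distrib]
    refine sum_le_sum fun y _ => sum_le_sum fun z _ => ?_
    have h1 : kerS b S y z = kerS b univ y z - kerS b Sᶜ y z := by
      rw [eq_sub_iff_add_eq]; exact sum_add_sum_compl _ _
    rw [h1]
    generalize kerS b univ y z = u
    generalize kerS b Sᶜ y z = v
    have : (u - v) ^ 2 - ((1 - θ) * u ^ 2 - θ⁻¹ * v ^ 2) = θ⁻¹ * (θ * u - v) ^ 2 + v ^ 2 := by
      field_simp; ring
    have : 0 ≤ θ⁻¹ * (θ * u - v) ^ 2 + v ^ 2 := by positivity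
    linarith
  have h4 := mul_le_mul_of_nonneg_left h1 (sub_nonneg.2 hθ1)
  have h5 := mul_le_mul_of_nonneg_left h2 (inv_nonneg.2 hθ.le)
  linarith

/-- The linear programming bound applied to a symmetric set of words and the truncated kernel. -/
theorem words_bound [DecidableEq L] {n : ℕ} (b : L → I → ℝ) (pos : L → ℕ)
    (hpos : Function.Injective pos) (S : Finset (Fin n → I))
    (hS : ∀ (α : Fin n → I) (τ : Equiv.Perm (Fin n)), α ∈ S → α ∘ τ ∈ S) (T lam d : ℝ)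
    (hT : 0 ≤ T) (W : Finset (Fin n → L))
    (hW : ∀ y, y ∈ W ↔ T ≤ (#{z : Fin n → L | cnt z = cnt y} : ℝ))
    (hN : 0 < ∑ y ∈ W, ∑ z ∈ W, kerS b S y z ^ 2)
    (hE : ∑ y : Fin n → L, ∑ z, dis pos y z * kerS b S y z ^ 2 ≤
      lam * ∑ y ∈ W, ∑ z ∈ W, kerS b S y z ^ 2) (hd : lam ≤ d) (hd0 : 0 ≤ d) (D : ℕ) (hD : 0 < D)
    {Γ : Type} [Fintype Γ] (γ : (Fin n → ℕ) → Γ)
    (hγ : ∀ e e', e ≠ e' → γ e = γ e' → D * (d + n) ≤ ∑ j, |(e j : ℝ) - e' j|) :
    T * D ^ n * (d - lam) ≤ Fintype.card Γ * (d * S.card) := by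
  classical
  let X := W × (Fin n → Fin D)
  let w : X → X → ℝ := fun p q => dis pos p.1.1 q.1.1
  let G : Set (Equiv.Perm X) := {σ | ∃ τ : Equiv.Perm (Fin n), ∀ p, (σ p).1.1 = p.1.1 ∘ τ}
  let B0 : Matrix X S ℝ := Matrix.of fun p α => tens b p.1.1 α.1
  let e : X → Fin n → ℕ := fun p j => D * pos (p.1.1 j) + p.2 j
  have hK : ∀ p q, (B0 * B0ᵀ) p q = kerS b S p.1.1 q.1.1 := fun p q =>
    sum_coe_sort S (fun α => tens b p.1.1 α * tens b q.1.1 α)
  have hen : ∀ u : (Fin n → L) → (Fin n → L) → ℝ, en (fun p q : X => u p.1.1 q.1.1) B0 =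
      ((D : ℝ) ^ n) ^ 2 * ∑ y ∈ W, ∑ z ∈ W, u y z * kerS b S y z ^ 2 := fun u => by
    simp only [en, hK, X, Fintype.sum_prod_type, sum_const, card_univ, Fintype.card_fun,
      Fintype.card_fin, nsmul_eq_mul, ← mul_sum]
    rw [sum_coe_sort W (fun y => ∑ z : W, u y z.1 * kerS b S y z.1 ^ 2)]
    simp only [fun y => sum_coe_sort W (fun z => u y z * kerS b S y z ^ 2)]
    push_cast
    ring
  have hD' : (0 : ℝ) < D := by exact_mod_cast hD
  have hen1 : en (fun _ _ => 1) B0 = ((D : ℝ) ^ n) ^ 2 * ∑ y ∈ W, ∑ z ∈ W, kerS b S y z ^ 2 := by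
    simpa using hen (fun _ _ => 1)
  have h := lp_bound (Γ := Γ) w
    (fun p q => sum_congr rfl fun j _ => abs_sub_comm _ _) (fun p => by simp [w, dis])
    (fun c hc => by
      have : ∑ p, ∑ q, c p * c q * w p q =
          ∑ j, ∑ p, ∑ q, c p * c q * |(pos (p.1.1 j) : ℝ) - pos (q.1.1 j)| := by
        simp only [w, dis, mul_sum]
        symm
        rw [sum_comm]
        exact sum_congr rfl fun y _ => sum_comm
      rw [this]
      exact sum_nonpos fun j _ => neg_abs (fun p : X => pos (p.1.1 j)) c hc)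
    G (by
      rintro σ ⟨τ, hτ⟩ p q
      simp only [w, hτ, dis, Function.comp_apply]
      exact Equiv.sum_comp τ (fun j => |(pos (p.1.1 j) : ℝ) - pos (q.1.1 j)|))
    (T * D ^ n) (by positivity)
    (fun p => by
      refine ⟨(({z : Fin n → L | cnt z = cnt p.1.1} : Finset _).subtype (· ∈ W)) ×ˢ univ, ?_, ?_⟩
      · rw [card_product, card_subtype, filter_true_of_mem, card_univ, Fintype.card_fun,
          Fintype.card_fin, Fintype.card_fin]
        · push_cast
          exact mul_le_mul_of_nonneg_right ((hW _).1 p.1.2) (by positivity)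
        · intro z hz
          rw [hW, (mem_filter.1 hz).2]
          exact (hW _).1 p.1.2
      · intro q hq
        have h1 : cnt q.1.1 = cnt p.1.1 :=
          (mem_filter.1 (mem_subtype.1 (mem_product.1 hq).1)).2
        obtain ⟨τ, hτ⟩ := exists_perm p.1.1 q.1.1 h1
        let σ0 : Equiv.Perm (Fin n → L) := Equiv.arrowCongr τ.symm (Equiv.refl L)
        have h0 : ∀ y, σ0 y = y ∘ τ := fun y => rfl
        refine ⟨Equiv.prodCongr (σ0.subtypePerm fun y => by rw [h0, hW, hW, cnt_comp])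
          (Equiv.swap p.2 q.2), ⟨τ, fun r => rfl⟩, ?_⟩
        refine Prod.ext (Subtype.ext hτ) ?_
        exact Equiv.swap_apply_left _ _)
    B0 (by
      rintro σ ⟨τ, hτ⟩
      ext p q
      rw [submatrix_apply, hK, hK, hτ, hτ]
      have h1 : ∀ (y : Fin n → L) (α : Fin n → I), tens b (y ∘ τ) (α ∘ τ) = tens b y α :=
        fun y α => Equiv.prod_comp τ (fun j => b (y j) (α j))
      symm
      refine sum_nbij' (fun α => α ∘ τ) (fun α => α ∘ τ.symm) (fun α hα => hS α τ hα)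
        (fun α hα => hS α τ.symm hα) (fun α _ => by ext j; simp) (fun α _ => by ext j; simp)
        fun α _ => by rw [h1, h1])
    (by rw [hen1]; positivity) lam d
    (by
      rw [hen1, hen (dis pos), mul_left_comm]
      refine mul_le_mul_of_nonneg_left (le_trans ?_ hE) (by positivity)
      have h0 : ∀ y z : Fin n → L, 0 ≤ dis pos y z * kerS b S y z ^ 2 := fun y z =>
        mul_nonneg (sum_nonneg fun _ _ => abs_nonneg _) (sq_nonneg _)
      exact (sum_le_sum fun y _ => sum_le_sum_of_subset_of_nonneg (subset_univ _)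
        fun _ _ _ => h0 _ _).trans (sum_le_sum_of_subset_of_nonneg (subset_univ _)
          fun _ _ _ => sum_nonneg fun _ _ => h0 _ _))
    hd hd0 (fun p => γ (e p))
    (fun p q hpq h => by
      have h1 : e p ≠ e q := fun h1 => hpq (by
        have h2 : ∀ j, pos (p.1.1 j) = pos (q.1.1 j) ∧ (p.2 j : ℕ) = q.2 j := fun j => by
          have a1 : D * pos (p.1.1 j) + p.2 j = D * pos (q.1.1 j) + q.2 j := congrFun h1 j
          have a2 := congrArg (· / D) a1
          have a3 := congrArg (· % D) a1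
          simp only [Nat.mul_add_div hD, Nat.div_eq_of_lt (Fin.is_lt _), add_zero,
            Nat.mul_add_mod, Nat.mod_eq_of_lt (Fin.is_lt _)] at a2 a3
          exact ⟨a2, a3⟩
        exact Prod.ext (Subtype.ext (funext fun j => hpos (h2 j).1))
          (funext fun j => Fin.ext (h2 j).2))
      have h2 := hγ _ _ h1 h
      have h3 : ∑ j, |(e p j : ℝ) - e q j| ≤ D * (w p q + n) := by
        have : (D : ℝ) * (w p q + n) =
            ∑ j, D * (|(pos (p.1.1 j) : ℝ) - pos (q.1.1 j)| + 1) := by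
          simp only [w, dis, ← mul_sum, sum_add_distrib, sum_const, card_univ, Fintype.card_fin,
            nsmul_eq_mul, mul_one]
        rw [this]
        refine sum_le_sum fun j _ => ?_
        have a1 : ((p.2 j : ℕ) : ℝ) ≤ D := by exact_mod_cast (p.2 j).2.le
        have a2 : ((q.2 j : ℕ) : ℝ) ≤ D := by exact_mod_cast (q.2 j).2.le
        have a3 : (0 : ℝ) ≤ ((p.2 j : ℕ) : ℝ) := Nat.cast_nonneg _
        have a4 : (0 : ℝ) ≤ ((q.2 j : ℕ) : ℝ) := Nat.cast_nonneg _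
        have a5 := mul_le_mul_of_nonneg_left
          (le_abs_self ((pos (p.1.1 j) : ℝ) - pos (q.1.1 j))) hD'.le
        have a6 := mul_le_mul_of_nonneg_left
          (neg_abs_le ((pos (p.1.1 j) : ℝ) - pos (q.1.1 j))) hD'.le
        simp only [e]
        push_cast
        rw [abs_le]
        constructor <;> linarith
      have h4 := le_of_mul_le_mul_left (h2.trans h3) hD'
      linarith)
  rwa [Fintype.card_coe] at h

/-- Every colouring of the grid with few colours has two close points of one colour. -/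
theorem short_pair (b : L → I → ℝ) (pos : L → ℕ) (hpos : Function.Injective pos)
    (s : I → ℝ) (g : L → ℝ) (m : ℕ) (lam ρ c1 c2 θ l1 l2 : ℝ) (hs : ∀ i, 0 ≤ s i)
    (hg : ∀ a, 0 ≤ g a) (hT0 : 0 < ∑ a, mu b a)
    (hE : ∑ a, ∑ a', |(pos a : ℝ) - pos a'| * ker b a a' ^ 2 ≤ lam * ∑ a, mu b a)
    (hs1 : ∑ i, gam b i * s i ≤ ρ * ∑ a, mu b a) (hs2 : ∀ i, c2 ≤ gam b i * s i ^ m)
    (hg1 : ∑ a, mu b a * g a ≤ ρ * ∑ a, mu b a) (hg2 : ∀ a, mu b a ≤ c1 * g a ^ m)
    (hρ : 0 < ρ) (hρ1 : ρ < 1) (hc1 : 0 < c1) (hc2 : 0 < c2) (hθ : 0 < θ) (hθ1 : θ < 1)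
    (hl0 : 0 < l1) (hl1 : lam * (1 + θ) < l1 * (1 - θ)) (hl2 : l1 < l2) :
    ∃ C : ℝ, 0 < C ∧ ∀ᶠ n : ℕ in atTop, ∀ D : ℕ, 0 < D → ∀ (Γ : Type) [Fintype Γ]
      (γ : (Fin n → ℕ) → Γ), C * Fintype.card Γ < (D * (ρ * c2 / c1)) ^ n →
        ∃ e e', e ≠ e' ∧ γ e = γ e' ∧ ∑ j, |(e j : ℝ) - e' j| ≤ n * D * (l2 + 1) := by
  classical
  set T0 := ∑ a, mu b a with hT0'
  let P := univ.sup pos
  let β : ℕ → ℝ := fun n => ((n + 1) ^ Fintype.card L + 1) * ρ ^ n
  have t1 : Tendsto (fun n : ℕ => ρ ^ n) atTop (𝓝 0) :=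
    tendsto_pow_atTop_nhds_zero_of_lt_one hρ.le hρ1
  have t2 : Tendsto β atTop (𝓝 0) := by
    have a1 := (tendsto_pow_const_mul_const_pow_of_abs_lt_one (Fintype.card L)
      (r := ρ) (by rwa [abs_of_pos hρ])).comp (tendsto_add_atTop_nat 1)
    have a2 := (a1.mul_const ρ⁻¹).add t1
    rw [zero_mul, zero_add] at a2
    refine a2.congr fun n => ?_
    simp only [β, Function.comp_apply]
    push_cast
    field_simp
    ring
  let ν : ℕ → ℝ := fun n => (1 - θ) * (1 - 2 * β n) - θ⁻¹ * ρ ^ n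
  have t3 : Tendsto ν atTop (𝓝 (1 - θ)) := by
    simpa using (((t2.const_mul 2).const_sub 1).const_mul (1 - θ)).sub (t1.const_mul θ⁻¹)
  have t4 : Tendsto (fun n : ℕ => (1 + θ) * lam + (1 + θ⁻¹) * P * ρ ^ n) atTop
      (𝓝 (lam * (1 + θ))) := by
    simpa [mul_comm] using (t1.const_mul ((1 + θ⁻¹) * P)).const_add ((1 + θ) * lam)
  refine ⟨l2 / (l2 - l1), div_pos (hl0.trans hl2) (sub_pos.2 hl2), ?_⟩
  filter_upwards [t4.eventually_lt (t3.const_mul l1) hl1,
    t3.eventually_const_lt (sub_pos.2 hθ1), eventually_gt_atTop 0] with n h1 h2 hn D hD Γ _ γ hC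
  by_contra hcon
  push Not at hcon
  let S : Finset (Fin n → I) := {α | ∏ j, s (α j) ≤ 1}
  let T : ℝ := (ρ * T0 / c1) ^ n
  let W : Finset (Fin n → L) := {y | T ≤ (#{z : Fin n → L | cnt z = cnt y} : ℝ)}
  have hT : 0 ≤ T := by positivity
  have hTn : 0 < T0 ^ n := by positivity
  have hn' : (0 : ℝ) < n := by exact_mod_cast hn
  have e1 : ∑ y : Fin n → L, ∑ z, kerS b Sᶜ y z ^ 2 ≤ ρ ^ n * T0 ^ n := by
    refine (tail_le b s hs _ fun α hα => ?_).trans ?_
    · have : ¬ ∏ j, s (α j) ≤ 1 := by simpa [S] using hα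
      exact (not_le.1 this).le
    · rw [← mul_pow]
      exact pow_le_pow_left₀ (sum_nonneg fun i _ => mul_nonneg (gam_nonneg _ _) (hs i)) hs1 n
  have e2 : ∑ y ∈ Wᶜ, ∏ j, mu b (y j) ≤ β n * T0 ^ n := by
    have a1 := card_bad n T hT Wᶜ fun y hy => by
      have : ¬ T ≤ (#{z : Fin n → L | cnt z = cnt y} : ℝ) := by simpa [W] using hy
      exact (not_le.1 this).le
    have a2 : (∑ a, mu b a * g a) ^ n ≤ (ρ * T0) ^ n :=
      pow_le_pow_left₀ (sum_nonneg fun a _ => mul_nonneg (mu_nonneg _ _) (hg a)) hg1 n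
    have a3 : T * c1 ^ n = (ρ * T0) ^ n := by
      rw [← mul_pow, div_mul_cancel₀ _ hc1.ne']
    have a4 := mul_le_mul_of_nonneg_right a1 (pow_nonneg hc1.le n)
    rw [mul_assoc, a3] at a4
    refine (mass_le b g hg m c1 hc1.le hg2 _).trans ((add_le_add a4 a2).trans (le_of_eq ?_))
    simp only [β]
    ring
  have e3 : ν n * T0 ^ n ≤ ∑ y ∈ W, ∑ z ∈ W, kerS b S y z ^ 2 := by
    refine le_trans ?_ (trunc_mass b S W θ hθ hθ1.le)
    have a1 := mul_le_mul_of_nonneg_left e1 (inv_nonneg.2 hθ.le)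
    have a2 := mul_le_mul_of_nonneg_left e2 (sub_nonneg.2 hθ1.le)
    simp only [ν, ← hT0']
    linarith
  have e4 : ∑ y : Fin n → L, ∑ z, dis pos y z * kerS b S y z ^ 2 ≤
      n * l1 * ∑ y ∈ W, ∑ z ∈ W, kerS b S y z ^ 2 := by
    refine (trunc_energy b pos P (fun a => le_sup (mem_univ a)) S θ hθ).trans ?_
    have a1 := mul_le_mul_of_nonneg_left (energy_le (n := n) b pos lam hE)
      (show 0 ≤ 1 + θ by positivity)
    rw [← hT0'] at a1
    have a2 := mul_le_mul_of_nonneg_left e1 (show 0 ≤ (1 + θ⁻¹) * (n * P) by positivity)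
    have a3 := mul_le_mul_of_nonneg_left e3 (show 0 ≤ n * l1 by positivity)
    have a4 := mul_le_mul_of_nonneg_left h1.le (show 0 ≤ n * T0 ^ n by positivity)
    linarith
  have e5 := words_bound b pos hpos S
    (fun α τ hα => by
      simp only [S, mem_filter, mem_univ, true_and, Function.comp_apply] at hα ⊢
      rwa [Equiv.prod_comp τ (fun j => s (α j))])
    T (n * l1) (n * l2) hT W (fun y => by simp [W]) (lt_of_lt_of_le (by positivity) e3) e4
    (mul_le_mul_of_nonneg_left hl2.le hn'.le) (mul_nonneg hn'.le (hl0.trans hl2).le) D hD γ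
    (fun e e' h h' => le_of_eq_of_le (by ring) (hcon e e' h h').le)
  have e6 := card_le b s hs m c2 hc2.le hs2 S fun α hα => (mem_filter.1 hα).2
  have e7 : (D * (ρ * c2 / c1)) ^ n * T0 ^ n = T * D ^ n * c2 ^ n := by
    simp only [T, ← mul_pow]
    congr 1
    ring
  have hl := sub_pos.2 hl2
  have e8 : T * D ^ n * (l2 - l1) ≤ Fintype.card Γ * (l2 * S.card) :=
    le_of_mul_le_mul_left (by linarith) hn'
  have e9 : (D * (ρ * c2 / c1)) ^ n * (l2 - l1) ≤ l2 * Fintype.card Γ := by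
    refine le_of_mul_le_mul_right ?_ hTn
    have a1 := mul_le_mul_of_nonneg_right e8 (pow_nonneg hc2.le n)
    have a2 := mul_le_mul_of_nonneg_left e6
      (show 0 ≤ l2 * Fintype.card Γ from mul_nonneg (hl0.trans hl2).le (Nat.cast_nonneg _))
    calc _ = (D * (ρ * c2 / c1)) ^ n * T0 ^ n * (l2 - l1) := by ring
      _ = T * D ^ n * (l2 - l1) * c2 ^ n := by rw [e7]; ring
      _ ≤ _ := by linarith
  rw [div_mul_eq_mul_div, div_lt_iff₀ hl] at hC
  linarith

end Pool.Agent.P.MP_dc323a_nt.Ext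
end
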