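import Pool.Agent.K.MP_6e34ef_nt.C3
import Pool.Agent.K.MP_6e34ef_nt.C4
import Mathlib

-- part Pool.Agent.P.MP_dc323a_nt.XData
section

set_option autoImplicit false

namespace Pool.Agent.P.MP_dc323a_nt.Ext

open Finset Filter

theorem sum_range_cast (M : ℕ) : ∑ u ∈ range M, (u : ℝ) = M * (M - 1) / 2 := by
  induction M with
  | zero => simp
  | succ M ih => rw [sum_range_succ, ih]; push_cast; ring

theorem cell_same (M : ℕ) : ∑ u ∈ range M, ∑ v ∈ range M, |(u : ℝ) - v| = (M ^ 3 - M) / 3 := by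
  induction M with
  | zero => simp
  | succ M ih =>
    have h1 : ∑ u ∈ range M, |(u : ℝ) - M| = M * (M + 1) / 2 := by
      rw [sum_congr rfl (g := fun u : ℕ => (M : ℝ) - u), sum_sub_distrib, sum_range_cast,
        sum_const, card_range, nsmul_eq_mul]
      · ring
      · intro u hu
        have : (u : ℝ) ≤ M := by exact_mod_cast (mem_range.1 hu).le
        rw [abs_of_nonpos (by linarith)]; ring
    have h2 : ∑ u ∈ range M, |(M : ℝ) - u| = M * (M + 1) / 2 := by
      rw [← h1]; exact sum_congr rfl fun u _ => abs_sub_comm _ _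
    simp only [sum_range_succ, sum_add_distrib, ih, h1, h2, sub_self, abs_zero]
    push_cast
    ring

theorem cell_lt (M A A' : ℕ) (h : A' < A) :
    ∑ u : Fin M, ∑ v : Fin M, |((M * A + u : ℕ) : ℝ) - (M * A' + v : ℕ)| =
      M ^ 3 * |(A : ℝ) - A'| := by
  have h' : (A' : ℝ) + 1 ≤ A := by exact_mod_cast h
  have h1 : ∀ u v : Fin M, |((M * A + u : ℕ) : ℝ) - (M * A' + v : ℕ)| =
      M * (A - A') + (u : ℕ) - (v : ℕ) := fun u v => by
    have a1 : ((v : ℕ) : ℝ) ≤ M := by exact_mod_cast v.2.le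
    have a2 : (0 : ℝ) ≤ (u : ℕ) := Nat.cast_nonneg _
    have a3 : (0 : ℝ) ≤ M := Nat.cast_nonneg _
    push_cast
    rw [abs_of_nonneg (by nlinarith)]
    ring
  simp only [h1, sum_sub_distrib, sum_add_distrib, sum_const, card_univ, Fintype.card_fin,
    nsmul_eq_mul, ← mul_sum]
  rw [abs_of_nonneg (by linarith)]
  ring

theorem cell_le (M A A' : ℕ) :
    ∑ u : Fin M, ∑ v : Fin M, |((M * A + u : ℕ) : ℝ) - (M * A' + v : ℕ)| ≤
      M ^ 3 / 3 * (if A = A' then 1 else 3 * |(A : ℝ) - A'|) := by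
  rcases lt_trichotomy A A' with h | rfl | h
  · rw [if_neg h.ne, sum_comm, abs_sub_comm]
    simp only [fun (u v : Fin M) => abs_sub_comm ((M * A + u : ℕ) : ℝ) (M * A' + v : ℕ)]
    rw [cell_lt M A' A h]
    exact le_of_eq (by ring)
  · rw [if_pos rfl]
    have h1 : ∑ u : Fin M, ∑ v : Fin M, |((M * A + u : ℕ) : ℝ) - (M * A + v : ℕ)| =
        ∑ u ∈ range M, ∑ v ∈ range M, |(u : ℝ) - v| := by
      rw [← Fin.sum_univ_eq_sum_range (fun u => ∑ v ∈ range M, |(u : ℝ) - v|)]
      refine sum_congr rfl fun u _ => ?_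
      rw [← Fin.sum_univ_eq_sum_range (fun v => |((u : ℕ) : ℝ) - v|)]
      refine sum_congr rfl fun v _ => ?_
      push_cast
      rw [add_sub_add_left_eq_sub]
    rw [h1, cell_same]
    have : (0 : ℝ) ≤ M := Nat.cast_nonneg _
    linarith
  · rw [if_neg h.ne', cell_lt M A A' h]
    exact le_of_eq (by ring)

/-- The table, constant on cells of length `M`. -/
def bM (M : ℕ) (a : Fin 100 × Fin M) (i : Fin 8) : ℝ := bZ a.1 i

theorem ker_bM (M : ℕ) (a a' : Fin 100 × Fin M) : ker (bM M) a a' = kZ a.1 a'.1 := by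
  simp only [ker, bM, kZ]
  push_cast
  rfl

theorem mu_bM (M : ℕ) (a : Fin 100 × Fin M) : mu (bM M) a = M * muZ a.1 := by
  simp only [mu, ker_bM, muZ, Fintype.sum_prod_type, sum_const, card_univ, Fintype.card_fin,
    nsmul_eq_mul, ← mul_sum]
  push_cast
  rfl

theorem gam_bM (M : ℕ) (i : Fin 8) : gam (bM M) i = M ^ 2 * gamZ i := by
  simp only [gam, bM, gamZ, Fintype.sum_prod_type, sum_const, card_univ, Fintype.card_fin,
    nsmul_eq_mul, ← mul_sum, mul_pow]
  push_cast
  rfl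

theorem sum_cell (M : ℕ) (f : Fin 100 → ℝ) : ∑ a : Fin 100 × Fin M, f a.1 = M * ∑ A, f A := by
  simp only [Fintype.sum_prod_type, sum_const, card_univ, Fintype.card_fin, nsmul_eq_mul,
    ← mul_sum]

theorem sum_mu_bM (M : ℕ) : ∑ a, mu (bM M) a = M ^ 2 * 110137567128310155276 := by
  have h : ∑ A, (muZ A : ℝ) = 110137567128310155276 := by exact_mod_cast num_T
  simp only [mu_bM]
  rw [sum_cell M (fun A => M * (muZ A : ℝ)), ← mul_sum, h]
  ring

theorem short_cells (M : ℕ) (hM : 0 < M) :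
    ∃ C : ℝ, 0 < C ∧ ∀ᶠ n : ℕ in atTop, ∀ D : ℕ, 0 < D → ∀ (Γ : Type) [Fintype Γ]
      (γ : (Fin n → ℕ) → Γ), C * Fintype.card Γ < (D * (M * 36.104)) ^ n →
        ∃ e e', e ≠ e' ∧ γ e = γ e' ∧ ∑ j, |(e j : ℝ) - e' j| ≤ n * D * (M * 9.08 + 1) := by
  have hM' : (0 : ℝ) < M := by exact_mod_cast hM
  obtain ⟨C, hC, h⟩ := short_pair (bM M) (fun a => M * a.1 + a.2)
    (by
      rintro ⟨A, u⟩ ⟨A', u'⟩ h
      have a2 := congrArg (· / M) h
      have a3 := congrArg (· % M) h
      simp only [Nat.mul_add_div hM, Nat.div_eq_of_lt (Fin.is_lt _), add_zero,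
        Nat.mul_add_mod, Nat.mod_eq_of_lt (Fin.is_lt _)] at a2 a3
      exact Prod.ext (Fin.ext a2) (Fin.ext a3))
    (fun i => sZ i / 10 ^ 13) (fun a => gZ a.1 / 10 ^ 13) 8192 (M * 9.0799) (1 - 1 / 10 ^ 10)
    (M * 2402965000000000000) (M ^ 2 * 86758580000000000000) (1 / 10 ^ 6) (M * 9.07995)
    (M * 9.08)
    (fun i => by
      have : (0 : ℝ) ≤ sZ i := by exact_mod_cast num_s0 i
      positivity)
    (fun a => by
      have : (0 : ℝ) ≤ gZ a.1 := by exact_mod_cast num_g0 a.1
      positivity)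
    (by rw [sum_mu_bM]; positivity)
    (by
      have h : ∑ A : Fin 100, ∑ A' : Fin 100,
          (if A = A' then 1 else 3 * |((A : ℕ) : ℝ) - (A' : ℕ)|) * (kZ A A' : ℝ) ^ 2 =
            3000105200577153700318 := by exact_mod_cast num_E
      calc _ = ∑ A : Fin 100, ∑ A' : Fin 100, (∑ u : Fin M, ∑ v : Fin M,
            |((M * A + u : ℕ) : ℝ) - (M * A' + v : ℕ)|) * (kZ A A' : ℝ) ^ 2 := by
            simp only [ker_bM, Fintype.sum_prod_type, sum_mul]
            exact sum_congr rfl fun A _ => sum_comm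
        _ ≤ ∑ A : Fin 100, ∑ A' : Fin 100, (M : ℝ) ^ 3 / 3 *
            ((if A = A' then 1 else 3 * |((A : ℕ) : ℝ) - (A' : ℕ)|) * (kZ A A' : ℝ) ^ 2) := by
            refine sum_le_sum fun A _ => sum_le_sum fun A' _ => ?_
            rw [← mul_assoc]
            refine mul_le_mul_of_nonneg_right ((cell_le M A A').trans (le_of_eq ?_)) (sq_nonneg _)
            simp only [Fin.val_inj]
        _ ≤ _ := by
            simp only [← mul_sum]
            rw [h, sum_mu_bM]
            have : (0 : ℝ) < M ^ 3 := by positivity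
            linarith)
    (by
      have h : ∑ i, (gamZ i : ℝ) * sZ i ≤ (10 ^ 10 - 1) * 10 ^ 3 * 110137567128310155276 := by
        exact_mod_cast num_s1
      have h1 : ∑ i, gam (bM M) i * (sZ i / 10 ^ 13) =
          M ^ 2 / 10 ^ 13 * ∑ i, (gamZ i : ℝ) * sZ i := by
        rw [mul_sum]
        exact sum_congr rfl fun i _ => by rw [gam_bM]; ring
      rw [h1, sum_mu_bM]
      refine (mul_le_mul_of_nonneg_left h (by positivity)).trans (le_of_eq (by ring)))
    (fun i => by
      have h : ((86758580000000000000 * (10 ^ 13) ^ 8192 : ℤ) : ℝ) ≤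
        (gamZ i * sZ i ^ 8192 : ℤ) := Int.cast_le.2 (num_s2 i)
      rw [Int.cast_mul, Int.cast_mul, Int.cast_pow, Int.cast_pow, Int.cast_pow, Int.cast_ofNat,
        Int.cast_ofNat] at h
      rw [gam_bM, mul_assoc, div_pow, ← mul_div_assoc]
      exact mul_le_mul_of_nonneg_left ((le_div_iff₀ (by positivity)).2 h) (by positivity))
    (by
      have h : ∑ A, (muZ A : ℝ) * gZ A ≤ (10 ^ 10 - 1) * 10 ^ 3 * 110137567128310155276 := by
        exact_mod_cast num_g1
      have h1 : ∑ a, mu (bM M) a * (gZ a.1 / 10 ^ 13) =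
          M ^ 2 / 10 ^ 13 * ∑ A, (muZ A : ℝ) * gZ A := by
        simp only [mu_bM]
        rw [sum_cell M (fun A => M * (muZ A : ℝ) * (gZ A / 10 ^ 13)), mul_sum, mul_sum]
        exact sum_congr rfl fun i _ => by ring
      rw [h1, sum_mu_bM]
      refine (mul_le_mul_of_nonneg_left h (by positivity)).trans (le_of_eq (by ring)))
    (fun a => by
      have h : ((muZ a.1 * (10 ^ 13) ^ 8192 : ℤ) : ℝ) ≤
        (2402965000000000000 * gZ a.1 ^ 8192 : ℤ) := Int.cast_le.2 (num_g2 a.1)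
      rw [Int.cast_mul, Int.cast_mul, Int.cast_pow, Int.cast_pow, Int.cast_pow, Int.cast_ofNat,
        Int.cast_ofNat] at h
      rw [mu_bM, mul_assoc, div_pow, ← mul_div_assoc]
      exact mul_le_mul_of_nonneg_left ((le_div_iff₀ (by positivity)).2 h) (by positivity))
    (by norm_num) (by norm_num) (by positivity) (by positivity) (by norm_num) (by norm_num)
    (by positivity) (by linarith) (by linarith)
  refine ⟨C, hC, h.mono fun n hn D hD Γ _ γ hγ => hn D hD Γ γ (hγ.trans_le ?_)⟩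
  refine pow_le_pow_left₀ (by positivity) (mul_le_mul_of_nonneg_left ?_ (Nat.cast_nonneg _)) n
  rw [le_div_iff₀ (by positivity)]
  have : (0 : ℝ) < M ^ 2 := by positivity
  linarith

/-- The short pair theorem with the constant `3.976`. -/
theorem short_main : ∃ τ Λ C : ℝ, 0 < Λ ∧ 0 < C ∧ 3.976 * Λ ≤ τ ∧
    ∀ᶠ n : ℕ in atTop, ∀ D : ℕ, 0 < D → ∀ (Γ : Type) [Fintype Γ]
      (γ : (Fin n → ℕ) → Γ), C * Fintype.card Γ < (D * τ) ^ n →
        ∃ e e', e ≠ e' ∧ γ e = γ e' ∧ ∑ j, |(e j : ℝ) - e' j| ≤ n * D * Λ := by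
  obtain ⟨C, hC, h⟩ := short_cells 100000 (by norm_num)
  exact ⟨_, _, C, by positivity, hC, by norm_num, h⟩

end Pool.Agent.P.MP_dc323a_nt.Ext
end

-- part Pool.Agent.P.MP_dc323a_nt.XPrimes
section

set_option autoImplicit false

namespace Pool.Agent.P.MP_dc323a_nt.Ext

open Finset Filter Real

theorem sum_primesLE_succ (f : ℕ → ℝ) (N : ℕ) : ∑ p ∈ Nat.primesLE (N + 1), f p =
    ∑ p ∈ Nat.primesLE N, f p + if (N + 1).Prime then f (N + 1) else 0 := by
  simp only [Nat.primesLE_eq_filter_range, sum_filter]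
  rw [sum_range_succ]

theorem mertens_lower {N : ℕ} (hN : 1 ≤ N) :
    log N - 1 ≤ ∑ p ∈ Nat.primesLE N, log p / (p - 1) := by
  have hN' : (0 : ℝ) < N := by exact_mod_cast hN
  have hf : (0 : ℝ) < N.factorial := by exact_mod_cast N.factorial_pos
  have h1 : N * log N - N ≤ log N.factorial := by
    have a1 := log_le_log (by positivity) (pow_div_factorial_le_exp (N : ℝ) hN'.le N)
    rw [log_exp, log_div (by positivity) hf.ne', log_pow] at a1
    linarith
  have h2 : log N.factorial ≤ N * ∑ p ∈ Nat.primesLE N, log p / (p - 1) := by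
    rw [log_nat_eq_sum_factorization, Finsupp.sum, mul_sum]
    have a1 : N.factorial.factorization.support ⊆ Nat.primesLE N := fun p hp => by
      have hp' : p ∈ N.factorial.primeFactors := hp
      have := Nat.prime_of_mem_primeFactors hp'
      exact Nat.mem_primesLE.2 ⟨this.dvd_factorial.1 (Nat.dvd_of_mem_primeFactors hp'), this⟩
    refine (sum_le_sum_of_subset_of_nonneg a1 fun p _ _ =>
      mul_nonneg (Nat.cast_nonneg _) (log_natCast_nonneg _)).trans (sum_le_sum fun p hp => ?_)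
    have hp' := Nat.prime_of_mem_primesLE hp
    have a2 : (N.factorial.factorization p : ℝ) ≤ N / (p - 1) := by
      refine le_trans (Nat.cast_le.2 (Nat.factorization_factorial_le_div_pred hp' N))
        (Nat.cast_div_le.trans (le_of_eq ?_))
      rw [Nat.cast_pred hp'.pos]
    calc _ ≤ N / (p - 1) * log p := mul_le_mul_of_nonneg_right a2 (log_natCast_nonneg _)
      _ = _ := by ring
  refine le_of_mul_le_mul_left ?_ hN'
  linarith

/-- The logarithmically smoothed Chebyshev function. -/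
noncomputable def smooth (N : ℕ) : ℝ := ∑ p ∈ Nat.primesLE N, log p * (log N - log p)

theorem inv_le_log_sub {N : ℕ} (hN : 1 ≤ N) : 1 / ((N : ℝ) + 1) ≤ log (N + 1 : ℕ) - log N := by
  have hN' : (0 : ℝ) < N := by exact_mod_cast hN
  have h := log_le_sub_one_of_pos (show 0 < (N : ℝ) / (N + 1) by positivity)
  rw [log_div hN'.ne' (by positivity)] at h
  have h2 : (N : ℝ) / (N + 1) - 1 = -(1 / (N + 1)) := by field_simp; ring
  push_cast
  linarith

theorem smooth_succ (N : ℕ) :
    smooth (N + 1) = smooth N + Chebyshev.theta N * (log (N + 1 : ℕ) - log N) := by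
  rw [smooth, sum_primesLE_succ, Chebyshev.theta_eq_sum_primesLE_log, smooth, sum_mul,
    ← sum_add_distrib, sub_self, mul_zero, ite_self, add_zero]
  exact sum_congr rfl fun p _ => by ring

theorem frequently_smooth {ε : ℝ} (hε : 0 < ε) (hε1 : ε ≤ 1) :
    ∃ᶠ N : ℕ in atTop, (1 - ε) * N ≤ smooth N := by
  by_contra hcon
  rw [not_frequently, eventually_atTop] at hcon
  obtain ⟨N0, hN0⟩ := hcon
  obtain ⟨C, hC0, hC⟩ : ∃ C : ℝ, 0 ≤ C ∧ ∀ N : ℕ, smooth N ≤ (1 - ε) * N + C := by
    refine ⟨∑ M ∈ range N0, |smooth M|, sum_nonneg fun _ _ => abs_nonneg _, fun N => ?_⟩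
    rcases lt_or_ge N N0 with h | h
    · refine le_add_of_nonneg_of_le (mul_nonneg (sub_nonneg.2 hε1) (Nat.cast_nonneg _)) ?_
      exact (le_abs_self _).trans (single_le_sum (f := fun M => |smooth M|)
        (fun _ _ => abs_nonneg _) (mem_range.2 h))
    · exact le_add_of_le_of_nonneg (not_le.1 (hN0 N h)).le (sum_nonneg fun _ _ => abs_nonneg _)
  have hth : ∀ N : ℕ, Chebyshev.theta N ≤ 3 / 2 * N := fun N => by
    refine (Chebyshev.theta_le_log4_mul_x (Nat.cast_nonneg N)).trans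
      (mul_le_mul_of_nonneg_right ?_ (Nat.cast_nonneg N))
    rw [show (4 : ℝ) = 2 ^ 2 by norm_num, log_pow]
    have := log_two_lt_d9
    push_cast
    linarith
  let S : ℕ → ℝ := fun N => ∑ p ∈ Nat.primesLE N, log p / (p - 1)
  let Ψ : ℕ → ℝ := fun N => S N - Chebyshev.theta N / N - smooth (N + 1) / (N + 1) -
    (1 - ε) * log N + (C + 3) / N
  have hstep : ∀ N : ℕ, 1 ≤ N → Ψ (N + 1) ≤ Ψ N := fun N hN => by
    have hN' : (0 : ℝ) < N := by exact_mod_cast hN
    have a1 : S (N + 1) = S N + (Chebyshev.theta (N + 1 : ℕ) - Chebyshev.theta N) / N := by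
      simp only [S]
      rw [Chebyshev.theta_eq_sum_primesLE_log, Chebyshev.theta_eq_sum_primesLE_log,
        sum_primesLE_succ, sum_primesLE_succ]
      split_ifs <;> simp
    have a2 := smooth_succ (N + 1)
    have a3 := mul_le_mul_of_nonneg_left (inv_le_log_sub (N := N + 1) (by omega))
      (Chebyshev.theta_nonneg (N + 1 : ℕ))
    have a4 := mul_le_mul_of_nonneg_left (inv_le_log_sub hN) (sub_nonneg.2 hε1)
    have a5 := hC (N + 1 + 1)
    have a6 := hth (N + 1)
    simp only [Ψ, a1]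
    rw [← sub_eq_iff_eq_add'] at a2
    rw [← a2] at a3
    push_cast at a3 a4 a5 a6 ⊢
    generalize smooth (N + 1 + 1) = b2 at *
    generalize smooth (N + 1) = b1 at *
    generalize Chebyshev.theta ((N : ℝ) + 1) = t at *
    generalize (N : ℝ) = x at *
    have e1 : t / (x * (x + 1)) = t * (1 / (x + 1 + 1)) / (x + 1) +
        2 * t / (x * (x + 1) * (x + 2)) := by field_simp; ring
    have e2 : t * (1 / (x + 1 + 1)) / (x + 1) ≤ (b2 - b1) / (x + 1) :=
      div_le_div_of_nonneg_right a3 (by positivity)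
    have e3 : 2 * t / (x * (x + 1) * (x + 2)) ≤ 3 / (x * (x + 1)) := by
      rw [div_le_div_iff₀ (by positivity) (by positivity)]
      have : 0 < x * (x + 1) := by positivity
      nlinarith
    have e4 : (b2 - b1) / (x + 1) = b2 / (x + 1 + 1) - b1 / (x + 1) +
        b2 / ((x + 1) * (x + 1 + 1)) := by field_simp; ring
    have e5 : b2 / ((x + 1) * (x + 1 + 1)) ≤
        ((1 - ε) * (x + 1 + 1) + C) / ((x + 1) * (x + 1 + 1)) :=
      div_le_div_of_nonneg_right a5 (by positivity)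
    have e6 : ((1 - ε) * (x + 1 + 1) + C) / ((x + 1) * (x + 1 + 1)) =
        (1 - ε) * (1 / (x + 1)) + C / ((x + 1) * (x + 1 + 1)) := by field_simp
    have e7 : C / ((x + 1) * (x + 1 + 1)) ≤ C / (x * (x + 1)) :=
      div_le_div_of_nonneg_left hC0 (by positivity) (by nlinarith)
    have e8 : (C + 3) / x - (C + 3) / (x + 1) = C / (x * (x + 1)) + 3 / (x * (x + 1)) := by
      field_simp; ring
    have e9 : ∀ s : ℝ, (t - s) / x - t / (x + 1) = t / (x * (x + 1)) - s / x := fun s => by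
      field_simp; ring
    linarith [e9 (Chebyshev.theta x)]
  have hall : ∀ N : ℕ, 1 ≤ N → Ψ N ≤ Ψ 1 := fun N hN => by
    induction N, hN using Nat.le_induction with
    | base => exact le_rfl
    | succ N hN ih => exact (hstep N hN).trans ih
  have hbd : ∀ N : ℕ, 1 ≤ N → ε * log N ≤ Ψ 1 + C + 4 := fun N hN => by
    have hN' : (1 : ℝ) ≤ N := by exact_mod_cast hN
    have a1 := hall N hN
    have a2 := mertens_lower hN
    have a3 : Chebyshev.theta N / N ≤ 3 / 2 := by
      rw [div_le_iff₀ (by linarith)]; exact hth N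
    have a4 : smooth (N + 1) / (N + 1) ≤ 1 + C := by
      rw [div_le_iff₀ (by linarith)]
      have := hC (N + 1)
      push_cast at this
      nlinarith
    have a5 : 0 ≤ (C + 3) / N := by positivity
    have a6 : Ψ N = S N - Chebyshev.theta N / N - smooth (N + 1) / (N + 1) -
      (1 - ε) * log N + (C + 3) / N := rfl
    have a7 : log N - 1 ≤ S N := a2
    linarith
  have ht : Tendsto (fun N : ℕ => ε * log N) atTop atTop :=
    (tendsto_log_atTop.comp tendsto_natCast_atTop_atTop).const_mul_atTop hε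
  obtain ⟨N, h1, h2⟩ := ((ht.eventually_gt_atTop (Ψ 1 + C + 4)).and (eventually_ge_atTop 1)).exists
  linarith [hbd N h2]

theorem smooth_le (N : ℕ) :
    smooth N ≤ log N * (Nat.primeCounting N * log N - Chebyshev.theta N) := by
  rw [Chebyshev.theta_eq_sum_primesLE_log, ← Nat.primesLE_card_eq_primeCounting, ← nsmul_eq_mul,
    ← sum_const, ← sum_sub_distrib, mul_sum]
  refine sum_le_sum fun p hp => ?_
  have h : log p ≤ log N := log_le_log (by exact_mod_cast (Nat.prime_of_mem_primesLE hp).pos)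
    (by exact_mod_cast Nat.le_of_mem_primesLE hp)
  exact mul_le_mul_of_nonneg_right h (sub_nonneg.2 h)

theorem rad_le {u v r x : ℕ} (huv : v < u) (hm : u ≡ v [MOD 2 ^ r]) (hx : 2 ≤ x)
    (hu : ∀ p, p.Prime → p ∣ u → p ≤ x) (hv' : ∀ p, p.Prime → p ∣ v → p ≤ x) :
    (∏ p ∈ (v * (u - v) * u).primeFactors, p) * 2 ^ r ≤ primorial x * u := by
  obtain ⟨t, ht⟩ : 2 ^ r ∣ u - v := (Nat.modEq_iff_dvd' huv.le).1 hm.symm
  have ht0 : t ≠ 0 := by rintro rfl; omega
  have h1 : (v * (u - v) * u).primeFactors ⊆ Nat.primesLE x ∪ t.primeFactors := fun p hp => by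
    have hp1 := Nat.prime_of_mem_primeFactors hp
    rcases (Nat.Prime.dvd_mul hp1).1 (Nat.dvd_of_mem_primeFactors hp) with h | h
    · rcases (Nat.Prime.dvd_mul hp1).1 h with h | h
      · exact mem_union_left _ (Nat.mem_primesLE.2 ⟨hv' p hp1 h, hp1⟩)
      · rw [ht] at h
        rcases (Nat.Prime.dvd_mul hp1).1 h with h | h
        · exact mem_union_left _ (Nat.mem_primesLE.2
            ⟨(Nat.le_of_dvd two_pos (hp1.dvd_of_dvd_pow h)).trans hx, hp1⟩)
        · exact mem_union_right _ (Nat.mem_primeFactors.2 ⟨hp1, h, ht0⟩)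
    · exact mem_union_left _ (Nat.mem_primesLE.2 ⟨hu p hp1 h, hp1⟩)
  have hpos : ∀ p ∈ Nat.primesLE x ∪ t.primeFactors, 1 ≤ p := fun p hp => by
    rcases mem_union.1 hp with h | h
    · exact (Nat.prime_of_mem_primesLE h).pos
    · exact (Nat.prime_of_mem_primeFactors h).pos
  have h2 : ∏ p ∈ (v * (u - v) * u).primeFactors, p ≤ primorial x * t := by
    refine (prod_le_prod_of_subset_of_one_le' h1 fun p hp _ => hpos p hp).trans ?_
    refine (Nat.le_mul_of_pos_right _ (prod_pos (s := Nat.primesLE x ∩ t.primeFactors)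
      (f := fun p => p) fun p hp => hpos p (mem_union_left _ (mem_inter.1 hp).1))).trans ?_
    rw [prod_union_inter]
    exact Nat.mul_le_mul_left _ (Nat.le_of_dvd (Nat.pos_of_ne_zero ht0) (Nat.prod_primeFactors_dvd t))
  calc _ ≤ primorial x * t * 2 ^ r := Nat.mul_le_mul_right _ h2
    _ = primorial x * (u - v) := by rw [ht]; ring
    _ ≤ _ := Nat.mul_le_mul_left _ (Nat.sub_le _ _)

theorem exists_triple {x n r Q : ℕ} (hx : 2 ≤ x) (hn : n + 1 = Nat.primeCounting x) (R : ℝ)
    [NeZero Q] (hQ : R < Q)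
    (h : ∀ γ : (Fin n → ℕ) → ZMod (2 ^ r) × ZMod Q,
      ∃ e e', e ≠ e' ∧ γ e = γ e' ∧ ∑ j, |(e j : ℝ) - e' j| ≤ R) :
    ∃ a b c : ℕ, 0 < a ∧ 0 < b ∧ a + b = c ∧ Nat.Coprime a b ∧
      (∏ p ∈ (a * b * c).primeFactors, p) * 2 ^ r ≤ primorial x * c ∧ log c ≤ R / 2 * log x := by
  have hP : ((Nat.primesLE x).erase 2).card = n := by
    rw [card_erase_of_mem (Nat.mem_primesLE.2 ⟨hx, Nat.prime_two⟩),
      Nat.primesLE_card_eq_primeCounting]
    omega
  let p : Fin n → ℕ := ((Nat.primesLE x).erase 2).orderEmbOfFin hP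
  have hinj : Function.Injective p := (((Nat.primesLE x).erase 2).orderEmbOfFin hP).injective
  have hmem : ∀ j, p j ∈ (Nat.primesLE x).erase 2 := fun j => orderEmbOfFin_mem _ hP j
  have hpr : ∀ j, (p j).Prime := fun j => Nat.prime_of_mem_primesLE (mem_of_mem_erase (hmem j))
  have hle : ∀ j, p j ≤ x := fun j => Nat.le_of_mem_primesLE (mem_of_mem_erase (hmem j))
  let m : (Fin n → ℕ) → ℕ := fun e => ∏ j, p j ^ e j
  have hm0 : ∀ e, 0 < m e := fun e => prod_pos fun j _ => pow_pos (hpr j).pos _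
  have hmp : ∀ e q, q.Prime → q ∣ m e → q ≤ x := fun e q hq hd => by
    obtain ⟨j, _, hj⟩ := (Prime.dvd_finsetProd_iff hq.prime _).1 hd
    exact (Nat.le_of_dvd (hpr j).pos (hq.dvd_of_dvd_pow hj)).trans (hle j)
  obtain ⟨e, e', hne, hγ, hd⟩ := h fun e => ((m e : ℕ), (∑ j, e j : ℕ))
  have h1 : m e ≡ m e' [MOD 2 ^ r] := (ZMod.natCast_eq_natCast_iff _ _ _).1 (congrArg Prod.fst hγ)
  have h2 : ∑ j, e j ≡ ∑ j, e' j [MOD Q] :=
    (ZMod.natCast_eq_natCast_iff _ _ _).1 (congrArg Prod.snd hγ)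
  have h3 : ∑ j, e j = ∑ j, e' j := by
    refine h2.eq_of_abs_lt ?_
    have : |((∑ j, e' j : ℕ) : ℝ) - (∑ j, e j : ℕ)| < Q := by
      push_cast
      rw [abs_sub_comm, ← sum_sub_distrib]
      exact ((abs_sum_le_sum_abs _ _).trans hd).trans_lt hQ
    exact_mod_cast this
  have key : ∀ e e' : Fin n → ℕ, ∑ j, e j = ∑ j, e' j → ∑ j, |(e j : ℝ) - e' j| ≤ R →
      log (m (e - e')) ≤ R / 2 * log x := fun e e' h3 hd => by
    have a1 : ∀ j, (((e - e') j : ℕ) : ℝ) = (|(e j : ℝ) - e' j| + ((e j : ℝ) - e' j)) / 2 := by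
      intro j
      rcases le_total (e j) (e' j) with h | h
      · have h' : (e j : ℝ) ≤ e' j := by exact_mod_cast h
        rw [Pi.sub_apply, Nat.sub_eq_zero_of_le h, abs_of_nonpos (by linarith)]
        simp
      · have h' : (e' j : ℝ) ≤ e j := by exact_mod_cast h
        rw [Pi.sub_apply, Nat.cast_sub h, abs_of_nonneg (by linarith)]
        ring
    have a2 : ∑ j, (((e - e') j : ℕ) : ℝ) ≤ R / 2 := by
      have : ∑ j, (e j : ℝ) = ∑ j, (e' j : ℝ) := by exact_mod_cast h3
      simp only [a1]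
      rw [← sum_div, sum_add_distrib, sum_sub_distrib, this]
      linarith
    calc log (m (e - e')) = ∑ j, ((e - e') j : ℕ) * log (p j) := by
          simp only [m]
          push_cast
          rw [log_prod fun j _ => pow_ne_zero _ (by exact_mod_cast (hpr j).ne_zero)]
          simp only [log_pow]
      _ ≤ ∑ j, ((e - e') j : ℕ) * log x := sum_le_sum fun j _ => mul_le_mul_of_nonneg_left
          (log_le_log (by exact_mod_cast (hpr j).pos) (by exact_mod_cast hle j))
          (Nat.cast_nonneg _)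
      _ ≤ _ := by
          rw [← sum_mul]
          exact mul_le_mul_of_nonneg_right a2 (log_natCast_nonneg _)
  have hsplit : ∀ e e' : Fin n → ℕ, m e = m (e ⊓ e') * m (e - e') := fun e e' => by
    simp only [m, ← prod_mul_distrib, ← pow_add]
    refine prod_congr rfl fun j _ => ?_
    congr 1
    simp only [Pi.inf_apply, Pi.sub_apply]
    omega
  have h4 : m (e - e') ≡ m (e' - e) [MOD 2 ^ r] := by
    rw [hsplit e e', hsplit e' e, inf_comm e' e] at h1
    refine h1.cancel_left_of_coprime (Nat.Coprime.pow_left _ ?_)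
    refine Nat.Coprime.prod_right fun j _ => Nat.Coprime.pow_right _ ?_
    exact (Nat.coprime_primes Nat.prime_two (hpr j)).2 (ne_of_mem_erase (hmem j)).symm
  have h5 : Nat.Coprime (m (e - e')) (m (e' - e)) := by
    refine Nat.Coprime.prod_left fun i _ => Nat.Coprime.prod_right fun j _ => ?_
    rcases eq_or_ne i j with rfl | hij
    · rcases le_total (e i) (e' i) with h | h <;> simp [Nat.sub_eq_zero_of_le h]
    · exact Nat.coprime_pow_primes _ _ (hpr i) (hpr j) (hinj.ne hij)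
  have h6 : m (e - e') ≠ m (e' - e) := fun h => by
    have a1 : ∀ f : Fin n → ℕ, m f = 1 → ∀ j, f j = 0 := fun f hf j => by
      have := (prod_eq_one_iff.1 hf) j (mem_univ j)
      exact (Nat.pow_eq_one.1 this).resolve_left (hpr j).ne_one
    have a2 : m (e' - e) = 1 := by rw [h] at h5; exact Nat.coprime_self _ |>.1 h5
    refine hne (funext fun j => ?_)
    have b1 := a1 _ a2 j
    have b2 := a1 _ (h.trans a2) j
    simp only [Pi.sub_apply] at b1 b2
    omega
  rcases lt_or_gt_of_ne h6 with h7 | h7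
  · refine ⟨_, _, _, hm0 _, Nat.sub_pos_of_lt h7, Nat.add_sub_cancel' h7.le,
      (Nat.coprime_sub_self_right h7.le).2 h5, rad_le h7 h4.symm hx (hmp _) (hmp _),
      key e' e h3.symm (by simpa only [abs_sub_comm] using hd)⟩
  · exact ⟨_, _, _, hm0 _, Nat.sub_pos_of_lt h7, Nat.add_sub_cancel' h7.le,
      (Nat.coprime_sub_self_right h7.le).2 h5.symm, rad_le h7 h4 hx (hmp _) (hmp _),
      key e e' h3 hd⟩

end Pool.Agent.P.MP_dc323a_nt.Ext
end

-- part Pool.Agent.P.MP_dc323a_nt.XMain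
section

set_option autoImplicit false

namespace Pool.Agent.P.MP_dc323a_nt.Ext

open Finset Filter Real

theorem sqrt_div_log_mono {u v : ℝ} (hu : 9 ≤ u) (huv : u ≤ v) :
    √u / log u ≤ √v / log v := by
  have hu0 : 0 < u := by linarith
  have h2 : 2 ≤ log u := by
    rw [le_log_iff_exp_le hu0, show (2 : ℝ) = 1 + 1 by norm_num, exp_add]
    have := exp_one_lt_d9
    have := exp_pos 1
    nlinarith
  have h3 : log u ≤ log v := log_le_log hu0 huv
  have hs : 0 < √u := sqrt_pos.2 hu0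
  have hs' : √u ≤ √v := sqrt_le_sqrt huv
  have h4 := log_le_sub_one_of_pos (show 0 < √v / √u from div_pos (hs.trans_le hs') hs)
  rw [log_div (hs.trans_le hs').ne' hs.ne', log_sqrt (hu0.le.trans huv), log_sqrt hu0.le,
    div_sub_one hs.ne', le_div_iff₀ hs] at h4
  rw [div_le_div_iff₀ (by linarith) (by linarith)]
  nlinarith [mul_nonneg (sub_nonneg.2 hs') (sub_nonneg.2 h2)]

theorem final_ineq {x k A g h : ℝ} (hx : 0 < x) (hL : 10 ^ 6 ≤ log x)
    (hL2 : log x ^ 2 ≤ x / 10 ^ 6) (hk : x / 2 ≤ k * log x)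
    (hA : (1 - 1 / 10 ^ 5) * x ≤ log x * A) (hg : A + k - 6 * log x ≤ g) (hgh : g ≤ h)
    (hh : h ≤ 0.58472 ^ 2 * (k * x * log x)) :
    log x ≤ g ∧ 6.84 * √h / log h < g := by
  set L := log x with hLx
  have hL0 : 0 < L := by linarith
  have hk0 : 0 < k := (mul_pos_iff_of_pos_right hL0).1 (by linarith)
  have hA0 : 0 < A := (mul_pos_iff_of_pos_left hL0).1 (by linarith)
  obtain ⟨y, hy0, hy⟩ : ∃ y : ℝ, 0 < y ∧ y ^ 2 * L = k * x :=
    ⟨√(k * x / L), by positivity, by rw [sq_sqrt (by positivity), div_mul_cancel₀ _ hL0.ne']⟩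
  have h1 : x ≤ 2 * y * L := by
    refine (pow_le_pow_iff_left₀ hx.le (by positivity) two_ne_zero).1 ?_
    have : (2 * y * L) ^ 2 = 4 * (k * L) * x := by
      calc (2 * y * L) ^ 2 = 4 * (y ^ 2 * L) * L := by ring
        _ = _ := by rw [hy]; ring
    rw [this]
    nlinarith
  have h2 : 5 * 10 ^ 5 * L ≤ y := by
    refine le_of_mul_le_mul_right ?_ hL0
    nlinarith
  have h3 : 2 * (1 - 1 / 10 ^ 5) * y ≤ A + k := by
    refine (pow_le_pow_iff_left₀ (by positivity) (by positivity) two_ne_zero).1 ?_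
    have a1 : (1 - 1 / 10 ^ 5) * y ^ 2 ≤ A * k := by
      refine le_of_mul_le_mul_right ?_ hL0
      calc (1 - 1 / 10 ^ 5) * y ^ 2 * L = (1 - 1 / 10 ^ 5) * x * k := by
            rw [mul_assoc, hy]; ring
        _ ≤ L * A * k := mul_le_mul_of_nonneg_right hA hk0.le
        _ = _ := by ring
    nlinarith [sq_nonneg (A - k), sq_nonneg y]
  have h4 : 2 * (1 - 2 / 10 ^ 5) * y ≤ g := by linarith
  have h5 : 0.58472 ^ 2 * (k * x * L) = (0.58472 * y * L) ^ 2 := by rw [← hy]; ring
  have h6 : 2 * (1 - 1 / 10 ^ 5) * L ≤ log ((0.58472 * y * L) ^ 2) := by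
    have a1 : log (x * (1 / 4)) ≤ log (0.58472 * y * L) := log_le_log (by positivity) (by
      have : 0 < y * L := by positivity
      nlinarith)
    have a2 := one_sub_inv_le_log_of_pos (show (0 : ℝ) < 1 / 4 by norm_num)
    rw [log_mul hx.ne' (by norm_num)] at a1
    rw [log_pow]
    push_cast
    norm_num at a2 a1 ⊢
    linarith
  refine ⟨by linarith, ?_⟩
  have h7 := sqrt_div_log_mono (u := h) (by linarith) hh
  rw [h5, sqrt_sq (by positivity)] at h7
  have h8 : 0.58472 * y * L / log ((0.58472 * y * L) ^ 2) ≤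
      0.58472 * y * L / (2 * (1 - 1 / 10 ^ 5) * L) :=
    div_le_div_of_nonneg_left (by positivity) (by positivity) h6
  rw [mul_div_mul_right _ _ hL0.ne'] at h8
  have h9 : 6.84 * (0.58472 * y / (2 * (1 - 1 / 10 ^ 5))) < 2 * (1 - 2 / 10 ^ 5) * y := by
    rw [← mul_div_assoc, div_lt_iff₀ (by norm_num)]
    linarith
  rw [mul_div_assoc]
  linarith

theorem extremal (B : ℕ) : ∃ a b c : ℕ, B ≤ c ∧ 0 < a ∧ 0 < b ∧ a + b = c ∧ Nat.Coprime a b ∧
    ((∏ p ∈ (a * b * c).primeFactors, p : ℕ) : ℝ) *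
      exp (6.84 * √(log c) / log (log c)) < c := by
  obtain ⟨τ, Λ, C, hΛ, hC, hτ, h⟩ := short_main
  have hτ0 : 0 < τ := by linarith
  have t0 : Tendsto (fun x : ℕ => (x : ℝ)) atTop atTop := tendsto_natCast_atTop_atTop
  have t1 : Tendsto (fun x : ℕ => Nat.primeCounting x - 1) atTop atTop :=
    (tendsto_sub_atTop_nat 1).comp Nat.tendsto_primeCounting
  have e1 := t0.eventually ((isLittleO_pow_log_id_atTop (n := 2)).bound
    (show (0 : ℝ) < 1 / 10 ^ 6 by norm_num))
  have e2 := (tendsto_log_atTop.comp t0).eventually_ge_atTop (10 ^ 6)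
  obtain ⟨x, hx1, ⟨⟨⟨⟨hx2, hx3⟩, hx4⟩, hx5⟩, hx6⟩, hx7⟩ :=
    ((frequently_smooth (ε := 1 / 10 ^ 5) (by norm_num) (by norm_num)).and_eventually
      ((((((t1.eventually h).and e1).and e2).and (eventually_ge_atTop (B + 2))).and
        (t0.eventually_ge_atTop (4 * C))).and (t0.eventually_ge_atTop (10 ^ 5 * Λ)))).exists
  have hx : 2 ≤ x := by omega
  have hx' : (2 : ℝ) ≤ x := by exact_mod_cast hx
  have hx0 : (0 : ℝ) < x := by linarith
  have hL : (10 : ℝ) ^ 6 ≤ log x := hx4
  have hL2 : log x ^ 2 ≤ (x : ℝ) / 10 ^ 6 := by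
    rw [id, norm_of_nonneg (sq_nonneg _), norm_of_nonneg hx0.le] at hx3
    linarith
  have hk : (x : ℝ) / 2 ≤ Nat.primeCounting x * log x := by
    have a1 := Chebyshev.pi_ge x
    rw [div_le_iff₀ (by linarith)] at a1
    have a2 : log ((x : ℝ) + 1) ≤ log ((x : ℝ) ^ 2) := log_le_log (by linarith) (by nlinarith)
    rw [log_pow] at a2
    push_cast at a2
    have := log_two_gt_d9
    nlinarith
  obtain ⟨n, hn⟩ : ∃ n, n + 1 = Nat.primeCounting x := by
    refine ⟨Nat.primeCounting x - 1, Nat.sub_add_cancel (Nat.pos_of_ne_zero fun h => ?_)⟩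
    rw [h] at hk
    simp only [Nat.cast_zero, zero_mul] at hk
    linarith
  rw [← hn, Nat.add_sub_cancel] at hx2
  have hn' : (n : ℝ) + 1 = Nat.primeCounting x := by exact_mod_cast hn
  have hnx : (n : ℝ) + 1 ≤ x := by
    have : Nat.primeCounting x ≤ x := by
      rw [← Nat.primesLE_card_eq_primeCounting, Nat.primesLE_eq_filter_Ioc_zero]
      exact (card_filter_le _ _).trans (by simp)
    rw [hn']
    exact_mod_cast this
  have hn0 : (0 : ℝ) ≤ n := Nat.cast_nonneg _
  let D : ℕ := ⌈exp 1 * x / τ⌉₊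
  have hD0 : 0 < D := Nat.ceil_pos.2 (by positivity)
  have hD1 : exp 1 * x ≤ D * τ := (div_le_iff₀ hτ0).1 (Nat.le_ceil _)
  have hD2 : D * Λ ≤ 2 * 0.58472 ^ 2 * x := by
    have a1 : (D : ℝ) ≤ exp 1 * x / τ + 1 := (Nat.ceil_lt_add_one (by positivity)).le
    have a2 : exp 1 * x / τ * Λ ≤ 2.7182818286 / 3.976 * x := by
      rw [div_mul_eq_mul_div, div_le_iff₀ hτ0]
      have := exp_one_lt_d9.le
      calc exp 1 * x * Λ ≤ 2.7182818286 * x * Λ := by gcongr
        _ = 2.7182818286 / 3.976 * x * (3.976 * Λ) := by ring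
        _ ≤ _ := by gcongr
    have a3 := mul_le_mul_of_nonneg_right a1 hΛ.le
    rw [add_mul, one_mul] at a3
    linarith
  let Q : ℕ := ⌊n * D * Λ⌋₊ + 1
  have hQ1 : n * D * Λ < Q := by
    simp only [Q]
    push_cast
    exact Nat.lt_floor_add_one _
  have hQ2 : (Q : ℝ) ≤ x ^ 2 := by
    have a1 : (⌊n * D * Λ⌋₊ : ℝ) ≤ n * D * Λ := Nat.floor_le (by positivity)
    have a2 : n * (D * Λ) ≤ n * x := mul_le_mul_of_nonneg_left (by linarith) hn0
    simp only [Q]
    push_cast
    nlinarith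
  have hQ0 : (0 : ℝ) < Q := by positivity
  have hDτ : 0 < D * τ := by positivity
  let g : ℝ := log ((D * τ) ^ n) - log (4 * C * Q) - Chebyshev.theta x
  have hg : Nat.primeCounting x * log x - Chebyshev.theta x + Nat.primeCounting x - 6 * log x
      ≤ g := by
    have a1 : 1 + log x ≤ log (D * τ) := by
      have := log_le_log (by positivity) hD1
      rwa [log_mul (exp_pos 1).ne' hx0.ne', log_exp] at this
    have a2 : log (4 * C * Q) ≤ log ((x : ℝ) ^ 3) := log_le_log (by positivity) (by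
      calc 4 * C * Q ≤ x * x ^ 2 := by gcongr
        _ = _ := by ring)
    have a3 := mul_le_mul_of_nonneg_left a1 hn0
    rw [log_pow] at a2
    simp only [g]
    rw [log_pow, ← hn']
    push_cast at a2
    linarith
  have hfin := fun h' => final_ineq (h := h') hx0 hL hL2 hk (hx1.trans (smooth_le x)) hg
  have hZ : 1 ≤ (D * τ) ^ n / (2 * C * Q) := by
    have a1 : 0 ≤ g := by
      have b1 : Chebyshev.theta x ≤ Nat.primeCounting x * log x := Chebyshev.theta_le_pi_mul_log x
      have b2 : 6 * log x ≤ Nat.primeCounting x := by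
        refine le_of_mul_le_mul_right ?_ (show 0 < log x by linarith)
        nlinarith
      linarith
    have a2 : log (4 * C * Q) ≤ log ((D * τ) ^ n) := by
      have := Chebyshev.theta_nonneg x
      simp only [g] at a1
      linarith
    have a3 := (log_le_log_iff (by positivity) (by positivity)).1 a2
    rw [le_div_iff₀ (by positivity)]
    have : 0 < C * Q := by positivity
    linarith
  obtain ⟨r, hr1, hr2⟩ := exists_nat_pow_near hZ one_lt_two
  rw [le_div_iff₀ (by positivity)] at hr1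
  rw [div_lt_iff₀ (by positivity), pow_succ] at hr2
  obtain ⟨a, b, c, ha, hb, habc, hab, hrad, hc⟩ := exists_triple (r := r) (Q := Q) hx hn
    (n * D * Λ) hQ1 fun γ => hx2 D hD0 _ γ (by
      rw [Fintype.card_prod, ZMod.card, ZMod.card]
      push_cast
      have : 0 < (D * τ) ^ n := by positivity
      linarith)
  have hc0 : (0 : ℝ) < c := by exact_mod_cast (show 0 < c by omega)
  have hR : 1 ≤ ∏ p ∈ (a * b * c).primeFactors, p :=
    prod_pos fun p hp => (Nat.prime_of_mem_primeFactors hp).pos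
  generalize hRd : ∏ p ∈ (a * b * c).primeFactors, p = R at hrad hR
  have hR' : (1 : ℝ) ≤ R := by exact_mod_cast hR
  have hexp : R * exp g ≤ c := by
    have a1 : (R : ℝ) * 2 ^ r ≤ primorial x * c := by exact_mod_cast hrad
    have a2 : (0 : ℝ) < primorial x := by exact_mod_cast primorial_pos x
    have a3 : exp g = (D * τ) ^ n / (4 * C * Q) / primorial x := by
      simp only [g]
      rw [exp_sub, exp_sub, exp_log (by positivity), exp_log (by positivity),
        Chebyshev.theta_eq_log_primorial, Nat.floor_natCast, exp_log a2]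
    rw [a3, ← mul_div_assoc, div_le_iff₀ a2]
    have a4 : (D * τ) ^ n / (4 * C * Q) ≤ 2 ^ r := by
      rw [div_le_iff₀ (by positivity)]
      linarith
    calc _ ≤ (R : ℝ) * 2 ^ r := by gcongr
      _ ≤ _ := by linarith
  have hgc : g ≤ log c := by
    rw [le_log_iff_exp_le hc0]
    exact (le_mul_of_one_le_left (exp_pos g).le hR').trans hexp
  obtain ⟨f1, f2⟩ := hfin (log c) hgc (hc.trans (by
    rw [← hn']
    have a1 : n * (D * Λ) ≤ (n + 1) * (2 * 0.58472 ^ 2 * x) := by gcongr; linarith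
    have a2 := mul_le_mul_of_nonneg_right a1 (show 0 ≤ log x by linarith)
    linarith))
  refine ⟨a, b, c, ?_, ha, hb, habc, hab, lt_of_lt_of_le ?_ hexp⟩
  · have : (x : ℝ) ≤ c := (log_le_log_iff hx0 hc0).1 (f1.trans hgc)
    have : x ≤ c := by exact_mod_cast this
    omega
  · rw [hRd]
    exact mul_lt_mul_of_pos_left (exp_lt_exp.2 f2) (one_pos.trans_le hR')

end Pool.Agent.P.MP_dc323a_nt.Ext
end
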